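import Pool.Agent.Lib.MP_a54f13_nt.Spec

/-!
Integrals over the half-plane, and the Laplacian as `∂̄ ∂`.
-/

set_option autoImplicit false

namespace Pool.Agent.A54.IntLap

open MeasureTheory Filter Topology Set
open scoped ContDiff ComplexConjugate UpperHalfPlane NNReal

noncomputable section

lemma range_coe_eq : Set.range UpperHalfPlane.coe = {z : ℂ | 0 < z.im} := by
  ext z
  constructor
  · rintro ⟨w, rfl⟩
    exact w.im_pos
  · intro hz
    exact ⟨⟨z, hz⟩, rfl⟩

lemma int_gen {E : Type*} [NormedAddCommGroup E] [NormedSpace ℝ E] (G : ℂ → E) :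
    ∫ z : ℍ, G z = ∫ z in {z : ℂ | 0 < z.im}, (1 / z.im ^ 2 : ℝ) • G z := by
  have hmeas : Measurable (fun z : ℍ => (1 / NNReal.mk z.im z.im_pos.le : ℝ≥0) ^ 2) := by
    have h1 : Measurable (fun z : ℍ => NNReal.mk z.im z.im_pos.le) :=
      (UpperHalfPlane.continuous_im.subtype_mk _).measurable
    exact (h1.const_div 1).pow_const 2
  rw [UpperHalfPlane.volume_def, integral_withDensity_eq_integral_smul hmeas]
  have h2 : ∀ z : ℍ, ((1 / NNReal.mk z.im z.im_pos.le : ℝ≥0) ^ 2) • G (z : ℂ)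
      = (fun w : ℂ => (1 / w.im ^ 2 : ℝ) • G w) (z : ℂ) := by
    intro z
    rw [NNReal.smul_def]
    congr 1
    push_cast
    simp
  simp_rw [h2]
  rw [← UpperHalfPlane.measurableEmbedding_coe.integral_map
      (fun w : ℂ => (1 / w.im ^ 2 : ℝ) • G w),
    UpperHalfPlane.measurableEmbedding_coe.map_comap, range_coe_eq]

lemma int_gen' {E : Type*} [NormedAddCommGroup E] [NormedSpace ℝ E] (G : ℂ → E)
    (hG : ∀ z : ℂ, z.im ≤ 0 → G z = 0) :
    ∫ z : ℍ, G z = ∫ z : ℂ, (1 / z.im ^ 2 : ℝ) • G z := by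
  rw [int_gen]
  apply setIntegral_eq_integral_of_forall_compl_eq_zero
  intro z hz
  rw [hG z (not_lt.mp hz), smul_zero]

end

end Pool.Agent.A54.IntLap

namespace Pool.Agent.A54

open MeasureTheory Filter Topology Set
open scoped ContDiff ComplexConjugate UpperHalfPlane NNReal

theorem stmtInt : StmtInt := by
  constructor
  · intro F hF
    rw [IntLap.int_gen' F hF]
    congr 1
    ext z
    simp [div_eq_inv_mul]
  · intro F hF
    rw [IntLap.int_gen' F hF]
    congr 1
    ext z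
    rw [Complex.real_smul]
    push_cast
    simp [div_eq_inv_mul]

theorem stmtLap : StmtLap := by
  intro U F hU hF z hz
  have hFz : ContDiffAt ℝ ∞ F z := hF.contDiffAt (hU.mem_nhds hz)
  have hd : ∀ᶠ w in 𝓝 z, DifferentiableAt ℝ F w :=
    (hU.mem_nhds hz |> eventually_of_mem) fun w hw =>
      (hF.contDiffAt (hU.mem_nhds hw)).differentiableAt (by simp)
  -- the derivative of F is differentiable at z
  have hd2 : DifferentiableAt ℝ (fderiv ℝ F) z :=
    (hFz.fderiv_right (m := ∞) (by simp)).differentiableAt (by simp)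
  have hsymm : fderiv ℝ (fderiv ℝ F) z 1 Complex.I = fderiv ℝ (fderiv ℝ F) z Complex.I 1 := by
    refine second_derivative_symmetric_of_eventually (f := F) (f' := fderiv ℝ F) ?_
      hd2.hasFDerivAt 1 Complex.I
    exact hd.mono fun w hw => hw.hasFDerivAt
  have hcomp : ∀ᶠ w in 𝓝 z, dz (fun w => (F w : ℂ)) w
      = ((fderiv ℝ F w 1 : ℝ) : ℂ) - Complex.I * ((fderiv ℝ F w Complex.I : ℝ) : ℂ) := by
    filter_upwards [hd] with w hw
    have : fderiv ℝ (fun w => (F w : ℂ)) w = Complex.ofRealCLM.comp (fderiv ℝ F w) :=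
      (Complex.ofRealCLM.hasFDerivAt.comp w hw.hasFDerivAt).fderiv
    unfold dz
    rw [this]
    simp
  have hval : ∀ v u : ℂ, HasFDerivAt (fun w => ((fderiv ℝ F w v : ℝ) : ℂ))
      (Complex.ofRealCLM.comp ((ContinuousLinearMap.apply ℝ ℝ v).comp
        (fderiv ℝ (fderiv ℝ F) z))) z := by
    intro v u
    have h1 : HasFDerivAt (fun w => fderiv ℝ F w v)
        ((ContinuousLinearMap.apply ℝ ℝ v).comp (fderiv ℝ (fderiv ℝ F) z)) z :=
      (ContinuousLinearMap.apply ℝ ℝ v).hasFDerivAt.comp z hd2.hasFDerivAt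
    exact Complex.ofRealCLM.hasFDerivAt.comp z h1
  have hder : HasFDerivAt (fun w => ((fderiv ℝ F w 1 : ℝ) : ℂ)
        - Complex.I * ((fderiv ℝ F w Complex.I : ℝ) : ℂ))
      ((Complex.ofRealCLM.comp ((ContinuousLinearMap.apply ℝ ℝ (1 : ℂ)).comp
        (fderiv ℝ (fderiv ℝ F) z))) - Complex.I • (Complex.ofRealCLM.comp
        ((ContinuousLinearMap.apply ℝ ℝ Complex.I).comp (fderiv ℝ (fderiv ℝ F) z)))) z :=
    (hval 1 1).sub ((hval Complex.I 1).const_mul Complex.I)
  unfold dzb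
  rw [EventuallyEq.fderiv_eq hcomp, hder.fderiv]
  rw [InnerProductSpace.laplacian_eq_iteratedFDeriv_complexPlane]
  simp only [iteratedFDeriv_two_apply, Matrix.cons_val_zero, Matrix.cons_val_one,
    sub_apply, ContinuousLinearMap.comp_apply,
    smul_apply, ContinuousLinearMap.apply_apply, Complex.ofRealCLM_apply,
    smul_eq_mul]
  rw [hsymm]
  push_cast
  have hI : Complex.I * Complex.I = -1 := Complex.I_mul_I
  linear_combination (((fderiv ℝ (fderiv ℝ F) z Complex.I Complex.I : ℝ) : ℂ)) * hI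

end Pool.Agent.A54
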