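import Pool.Agent.Lib.MP_a54f13_nt.Spec

/-!
From the local theorems to the upper half-plane.
-/

set_option autoImplicit false

namespace Pool.Agent.A54

open MeasureTheory Filter Topology Set
open scoped ContDiff ComplexConjugate UpperHalfPlane MatrixGroups

noncomputable section

namespace Half

/-- the open upper half-plane as a subset of `ℂ` -/
def H0 : Set ℂ := {z : ℂ | 0 < z.im}

lemma isOpen_H0 : IsOpen H0 := isOpen_lt continuous_const Complex.continuous_im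

lemma ext_coe (f : ℍ → ℝ) (z : ℍ) : ext f (z : ℂ) = f z := by
  unfold ext
  rw [UpperHalfPlane.ofComplex_apply]

/-- a product of a function supported in `U` and a function smooth on `U` is smooth -/
lemma smooth_mulR {U : Set ℂ} (hU : IsOpen U) {χ g : ℂ → ℝ} (hχ : ContDiff ℝ ∞ χ)
    (hs : tsupport χ ⊆ U) (hg : ContDiffOn ℝ ∞ g U) : ContDiff ℝ ∞ (fun z => χ z * g z) := by
  rw [contDiff_iff_contDiffAt]
  intro z
  by_cases hz : z ∈ U
  · exact hχ.contDiffAt.mul (hg.contDiffAt (hU.mem_nhds hz))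
  · have hz' : z ∉ tsupport χ := fun h => hz (hs h)
    have h0 : (fun w => χ w * g w) =ᶠ[𝓝 z] fun _ => (0 : ℝ) := by
      have := notMem_tsupport_iff_eventuallyEq.mp hz'
      filter_upwards [this] with w hw
      simp [hw]
    exact contDiffAt_const.congr_of_eventuallyEq h0

lemma smooth_mulC {U : Set ℂ} (hU : IsOpen U) {χ g : ℂ → ℂ} (hχ : ContDiff ℝ ∞ χ)
    (hs : tsupport χ ⊆ U) (hg : ContDiffOn ℝ ∞ g U) : ContDiff ℝ ∞ (fun z => χ z * g z) := by
  rw [contDiff_iff_contDiffAt]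
  intro z
  by_cases hz : z ∈ U
  · exact hχ.contDiffAt.mul (hg.contDiffAt (hU.mem_nhds hz))
  · have hz' : z ∉ tsupport χ := fun h => hz (hs h)
    have h0 : (fun w => χ w * g w) =ᶠ[𝓝 z] fun _ => (0 : ℂ) := by
      have := notMem_tsupport_iff_eventuallyEq.mp hz'
      filter_upwards [this] with w hw
      simp [hw]
    exact contDiffAt_const.congr_of_eventuallyEq h0

lemma testR_mul {V U : Set ℂ} (hU : IsOpen U) {φ g : ℂ → ℝ} (hφ : TestR V φ)
    (hs : tsupport φ ⊆ U) (hg : ContDiffOn ℝ ∞ g U) : TestR V (fun z => φ z * g z) where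
  smooth := smooth_mulR hU hφ.smooth hs hg
  cpt := hφ.cpt.mul_right
  sub := (tsupport_mul_subset_left (f := φ) (g := g)).trans hφ.sub

lemma test_mul {V U : Set ℂ} (hU : IsOpen U) {φ g : ℂ → ℂ} (hφ : Test V φ)
    (hs : tsupport φ ⊆ U) (hg : ContDiffOn ℝ ∞ g U) : Test V (fun z => φ z * g z) where
  smooth := smooth_mulC hU hφ.smooth hs hg
  cpt := hφ.cpt.mul_right
  sub := (tsupport_mul_subset_left (f := φ) (g := g)).trans hφ.sub

lemma contDiff_im : ContDiff ℝ ∞ (fun z : ℂ => z.im) := Complex.imCLM.contDiff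

lemma contDiffOn_inv_im : ContDiffOn ℝ ∞ (fun z : ℂ => (z.im)⁻¹) H0 :=
  contDiff_im.contDiffOn.inv fun _ hz => ne_of_gt hz

lemma contDiffOn_weight (m : ℕ) : ContDiffOn ℝ ∞ (fun z : ℂ => ((z.im)⁻¹) ^ m) H0 :=
  contDiffOn_inv_im.pow m

lemma contDiffOn_weightC (m n : ℕ) :
    ContDiffOn ℝ ∞ (fun z : ℂ => (((z.im) ^ m * ((z.im)⁻¹) ^ n : ℝ) : ℂ)) H0 :=
  Complex.ofRealCLM.contDiff.comp_contDiffOn
    ((contDiff_im.pow m).contDiffOn.mul (contDiffOn_weight n))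

/-- the potential -/
def qq (χ : ℂ → ℝ) (z : ℂ) : ℝ := χ z * (((z.im)⁻¹) ^ 2 - 1) + 1

/-- the localised form -/
def ff (χ : ℂ → ℝ) (f : ℍ → ℝ) (z : ℂ) : ℝ := χ z * ext f z

/-- the semiclassical parameter -/
def hh (t : ℝ) : ℝ := (Real.sqrt (1 / 4 + t ^ 2))⁻¹

lemma hh_pos (t : ℝ) : 0 < hh t := by
  unfold hh
  have : 0 < 1 / 4 + t ^ 2 := by positivity
  positivity

lemma hh_sq (t : ℝ) : hh t ^ 2 * (1 / 4 + t ^ 2) = 1 := by
  unfold hh
  have : 0 < 1 / 4 + t ^ 2 := by positivity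
  rw [inv_pow, Real.sq_sqrt this.le]
  field_simp

lemma hh_le {t : ℝ} (ht : 1 ≤ t) : hh t ≤ 1 := by
  unfold hh
  apply inv_le_one_of_one_le₀
  rw [Real.one_le_sqrt]
  nlinarith

lemma hh_lim {t : ℕ → ℝ} (ht : Tendsto t atTop atTop) :
    Tendsto (fun i => hh (t i)) atTop (𝓝 0) := by
  unfold hh
  apply Tendsto.inv_tendsto_atTop
  apply tendsto_atTop_mono _ ht
  intro i
  apply Real.le_sqrt_of_sq_le
  linarith

lemma qq_smooth {χ : ℂ → ℝ} (hχ : TestR H0 χ) : ContDiff ℝ ∞ (qq χ) :=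
  (smooth_mulR isOpen_H0 hχ.smooth hχ.sub ((contDiffOn_weight 2).sub contDiffOn_const)).add
    contDiff_const

lemma qq_pos {χ : ℂ → ℝ} (hχ : TestR H0 χ) (h01 : ∀ z, 0 ≤ χ z ∧ χ z ≤ 1) (z : ℂ) :
    0 < qq χ z := by
  unfold qq
  by_cases h : χ z = 0
  · simp [h]
  · have hz : z ∈ H0 := by
      by_contra hz
      exact h (hχ.eq_zero hz)
    have h1 : 0 < χ z := lt_of_le_of_ne (h01 z).1 (Ne.symm h)
    have h2 : 0 < (z.im)⁻¹ ^ 2 := by
      have : 0 < z.im := hz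
      positivity
    nlinarith [(h01 z).2, mul_pos h1 h2]

lemma ff_smooth {χ : ℂ → ℝ} (hχ : TestR H0 χ) {f : ℍ → ℝ} (hf : ContDiffOn ℝ ∞ (ext f) H0) :
    ContDiff ℝ ∞ (ff χ f) :=
  smooth_mulR isOpen_H0 hχ.smooth hχ.sub hf

lemma iter_congr {V : Set ℂ} (hV : IsOpen V) {a b : ℂ → ℂ} (h : ∀ w ∈ V, a w = b w) (n : ℕ) :
    ∀ z ∈ V, dz^[n] a z = dz^[n] b z := by
  induction n with
  | zero => exact h
  | succ n ih =>
    intro z hz
    rw [Function.iterate_succ_apply', Function.iterate_succ_apply']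
    exact dz_congr hV ih hz

lemma iter_smooth {g : ℂ → ℂ} (hg : ContDiff ℝ ∞ g) (n : ℕ) : ContDiff ℝ ∞ (dz^[n] g) := by
  induction n with
  | zero => exact hg
  | succ n ih =>
    rw [Function.iterate_succ']
    exact contDiff_dz ih

lemma gg_eq {f : ℂ → ℝ} (hf : ContDiff ℝ ∞ f) (h : ℝ) (n : ℕ) (z : ℂ) :
    gg h f n z = (h : ℂ) ^ n * dz^[n] (fun w => (f w : ℂ)) z := by
  induction n generalizing z with
  | zero => simp [gg]
  | succ n ih =>
    rw [gg_succ, Function.iterate_succ_apply']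
    have : gg h f n = fun w => (h : ℂ) ^ n * dz^[n] (fun w => (f w : ℂ)) w := funext ih
    rw [this, dz_const_mul _ (iter_smooth (contDiff_ofReal hf) n)]
    ring

/-- the equation for the localised form -/
lemma sol (hL : StmtLap) {χ : ℂ → ℝ} (hχ : TestR H0 χ) {V : Set ℂ} (hV : IsOpen V)
    (hVH : V ⊆ H0) (h1 : ∀ z ∈ V, χ z = 1) {f : ℍ → ℝ} {t : ℝ} (hf : IsHeckeMaass f t)
    (ht : 1 ≤ t) : Sol V (qq χ) (hh t) (ff χ f) where
  smooth := ff_smooth hχ hf.smooth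
  hpos := hh_pos t
  hle := hh_le ht
  eq := by
    intro z hz
    have hzim : 0 < z.im := hVH hz
    have hs := ff_smooth hχ hf.smooth
    have e1 : gg (hh t) (ff χ f) 1 = fun w => ((hh t : ℝ) : ℂ) * dz (fun w => (ff χ f w : ℂ)) w := rfl
    rw [e1, dzb_const_mul _ (contDiff_dz (contDiff_ofReal hs))]
    have hc : ∀ w ∈ V, (ff χ f w : ℂ) = (ext f w : ℂ) := by
      intro w hw
      unfold ff
      rw [h1 w hw, one_mul]
    have e2 : dzb (dz (fun w => (ff χ f w : ℂ))) z = dzb (dz (fun w => (ext f w : ℂ))) z :=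
      dzb_congr hV (fun w hw => dz_congr hV hc hw) hz
    rw [e2, ← hL H0 (ext f) isOpen_H0 hf.smooth z hzim]
    have e3 := hf.eigen ⟨z, hzim⟩
    have e4 : ((⟨z, hzim⟩ : ℍ) : ℂ) = z := rfl
    have e5 : (⟨z, hzim⟩ : ℍ).im = z.im := rfl
    rw [e4, e5] at e3
    have e6 : f ⟨z, hzim⟩ = ext f z := by
      unfold ext
      rw [UpperHalfPlane.ofComplex_apply_of_im_pos hzim]
    rw [e6] at e3
    have e7 : qq χ z = (z.im)⁻¹ ^ 2 := by
      unfold qq
      rw [h1 z hz]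
      ring
    have e8 : ff χ f z = ext f z := by
      unfold ff
      rw [h1 z hz, one_mul]
    rw [e7, e8]
    have e9 : hh t * (hh t * Laplacian.laplacian (ext f) z) = -((z.im)⁻¹ ^ 2 * ext f z) := by
      have hsq := hh_sq t
      have hne : z.im ≠ 0 := hzim.ne'
      have h3 : Laplacian.laplacian (ext f) z = -((1 / 4 + t ^ 2) * ext f z * (z.im)⁻¹ ^ 2) := by
        field_simp
        field_simp at e3
        linarith
      rw [h3]
      linear_combination (-(ext f z) * (z.im)⁻¹ ^ 2) * hsq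
    exact_mod_cast e9

/-- quantum unique ergodicity for the localised forms -/
lemma que (hI : StmtInt) {χ : ℂ → ℝ} (hχ : TestR H0 χ) {V : Set ℂ} (hV : IsOpen V)
    (hVH : V ⊆ H0) (h1 : ∀ z ∈ V, χ z = 1) {f : ℕ → ℍ → ℝ} {t : ℕ → ℝ}
    (hf : ∀ i, IsHeckeMaass (f i) (t i)) (hm : MicroQUE f t) (n : ℕ) (φ : ℂ → ℂ)
    (hφ : Test V φ) :
    Tendsto (fun i => ∫ z, φ z * ((ff χ (f i) z : ℂ) * gg (hh (t i)) (ff χ (f i)) n z)) atTop
      (𝓝 (if n = 0 then ∫ z, φ z else 0)) := by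
  have hφH : Test H0 φ := ⟨hφ.smooth, hφ.cpt, hφ.sub.trans hVH⟩
  set ψ : ℂ → ℂ := fun z => φ z * (((z.im) ^ 2 * ((z.im)⁻¹) ^ n : ℝ) : ℂ) with hψ
  have hψT : Test H0 ψ := test_mul isOpen_H0 hφH hφH.sub (contDiffOn_weightC 2 n)
  have key := hm n ψ hψT
  have hlim : (if n = 0 then ∫ z : ℍ, ψ z else 0) = (if n = 0 then ∫ z, φ z else 0) := by
    by_cases hn : n = 0
    · rw [if_pos hn, if_pos hn]
      rw [hI.2 ψ (fun z hz => hψT.eq_zero (not_lt.mpr hz))]
      apply integral_congr_ae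
      refine Filter.Eventually.of_forall fun z => ?_
      by_cases hz : z ∈ H0
      · have hne : (z.im : ℂ) ≠ 0 := by
          exact_mod_cast (ne_of_gt hz)
        simp only [hψ, hn]
        push_cast
        field_simp
      · simp only [hψT.eq_zero hz, hφH.eq_zero hz, zero_div]
    · rw [if_neg hn, if_neg hn]
  rw [hlim] at key
  refine key.congr fun i => ?_
  have hs := ff_smooth hχ (hf i).smooth
  have hF0 : ∀ z : ℂ, z.im ≤ 0 → ψ z * ((ext (f i) z : ℂ) *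
      ((z.im : ℂ) ^ n * (dz^[n] (fun w => (ext (f i) w : ℂ))) z)) = 0 := by
    intro z hz
    rw [hψT.eq_zero (not_lt.mpr hz), zero_mul]
  have e1 := hI.2 _ hF0
  have e2 : ∫ z : ℍ, ψ z * (f i z * ((z.im : ℂ) ^ n * (dz^[n] (fun w => (ext (f i) w : ℂ))) z)) =
      ∫ z : ℍ, ψ z * ((ext (f i) z : ℂ) *
      (((z : ℂ).im : ℂ) ^ n * (dz^[n] (fun w => (ext (f i) w : ℂ))) z)) := by
    apply integral_congr_ae
    refine Filter.Eventually.of_forall fun z => ?_
    simp only [ext_coe, UpperHalfPlane.coe_im]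
  rw [e2, e1, ← integral_const_mul]
  apply integral_congr_ae
  refine Filter.Eventually.of_forall fun z => ?_
  by_cases hz : z ∈ V
  · have hzim : 0 < z.im := hVH hz
    have hne : (z.im : ℂ) ≠ 0 := by
      exact_mod_cast hzim.ne'
    have hc : ∀ w ∈ V, (ff χ (f i) w : ℂ) = (ext (f i) w : ℂ) := by
      intro w hw
      unfold ff
      rw [h1 w hw, one_mul]
    have e3 := iter_congr hV hc n z hz
    simp only
    rw [gg_eq hs, e3, hc z hz]
    simp only [hψ, hh]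
    push_cast
    have e4 : (z.im : ℂ) ^ n * ((z.im : ℂ)⁻¹) ^ n = 1 := by
      rw [← mul_pow, mul_inv_cancel₀ hne, one_pow]
    have e5 : (z.im : ℂ) ^ 2 / (z.im : ℂ) ^ 2 = 1 := div_self (pow_ne_zero 2 hne)
    calc _ = φ z * ((ext (f i) z : ℂ) * (((Real.sqrt (1 / 4 + t i ^ 2) : ℝ) : ℂ)⁻¹ ^ n *
          (dz^[n] (fun w => (ext (f i) w : ℂ))) z)) *
          ((z.im : ℂ) ^ n * ((z.im : ℂ)⁻¹) ^ n) * ((z.im : ℂ) ^ 2 / (z.im : ℂ) ^ 2) := by
          ring
      _ = _ := by rw [e4, e5, mul_one, mul_one]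
  · have hz0 : φ z = 0 := hφ.eq_zero hz
    simp only [hψ, hz0, zero_mul, zero_div, mul_zero]

/-- everything needed around a test function -/
lemma setup {φ : ℂ → ℝ} (hφ : TestR H0 φ) : ∃ (χ : ℂ → ℝ) (V : Set ℂ), TestR H0 χ ∧
    (∀ z, 0 ≤ χ z ∧ χ z ≤ 1) ∧ IsOpen V ∧ V ⊆ H0 ∧ (∀ z ∈ V, χ z = 1) ∧ tsupport φ ⊆ V := by
  obtain ⟨χ, hχ, h01, hev⟩ := exists_cutoff hφ.cpt.isCompact isOpen_H0 hφ.sub
  have hi : tsupport φ ⊆ interior {z | χ z = 1} := by
    intro z hz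
    rw [mem_interior_iff_mem_nhds]
    exact (mem_nhdsSet_iff_forall.mp hev) z hz
  refine ⟨χ, interior {z | χ z = 1}, hχ, h01, isOpen_interior, ?_, ?_, hi⟩
  · intro z hz
    have h1' : z ∈ {z | χ z = 1} := interior_subset hz
    have h1 : χ z = 1 := h1'
    by_contra hz0
    rw [hχ.eq_zero hz0] at h1
    exact zero_ne_one h1
  · intro z hz
    have h1' : z ∈ {z | χ z = 1} := interior_subset hz
    exact h1'

lemma ev_shift {p : ℕ → Prop} (N : ℕ) (h : ∀ᶠ i in atTop, p (i + N)) : ∀ᶠ i in atTop, p i := by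
  rw [← Filter.map_add_atTop_eq_nat N]
  exact h

/-- the sequence of localised forms -/
lemma sq (hI : StmtInt) (hL : StmtLap) {χ : ℂ → ℝ} (hχ : TestR H0 χ)
    (h01 : ∀ z, 0 ≤ χ z ∧ χ z ≤ 1) {V : Set ℂ} (hV : IsOpen V)
    (hVH : V ⊆ H0) (h1 : ∀ z ∈ V, χ z = 1) {f : ℕ → ℍ → ℝ} {t : ℕ → ℝ}
    (hf : ∀ i, IsHeckeMaass (f i) (t i)) (ht : Tendsto t atTop atTop) (hm : MicroQUE f t)
    {N : ℕ} (hN : ∀ i, N ≤ i → 1 ≤ t i) :
    Sq V (qq χ) (fun i => hh (t (i + N))) (fun i => ff χ (f (i + N))) where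
  pot := ⟨hV, qq_smooth hχ, qq_pos hχ h01⟩
  sol := fun i => sol hL hχ hV hVH h1 (hf _) (hN _ (Nat.le_add_left N i))
  lim := (hh_lim ht).comp (tendsto_add_atTop_nat N)
  que := fun n φ hφ => (que hI hχ hV hVH h1 hf hm n φ hφ).comp (tendsto_add_atTop_nat N)

/-- integrals against a test function -/
lemma int_eq (hI : StmtInt) {χ : ℂ → ℝ} {V : Set ℂ}
    (hVH : V ⊆ H0) (h1 : ∀ z ∈ V, χ z = 1) {φ : ℂ → ℝ} (hφ : TestR V φ) (f : ℍ → ℝ) (m : ℕ) :
    ∫ z : ℍ, φ z * f z ^ m = ∫ z : ℂ, (φ z * (z.im)⁻¹ ^ 2) * ff χ f z ^ m := by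
  have h0 : ∀ z : ℂ, z.im ≤ 0 → φ z * ext f z ^ m = 0 := by
    intro z hz
    rw [hφ.eq_zero (fun h => (not_lt.mpr hz) (hVH h)), zero_mul]
  have e1 := hI.1 _ h0
  have e2 : ∫ z : ℍ, φ z * f z ^ m = ∫ z : ℍ, φ z * ext f z ^ m := by
    apply integral_congr_ae
    refine Filter.Eventually.of_forall fun z => ?_
    simp only [ext_coe]
  rw [e2, e1]
  apply integral_congr_ae
  refine Filter.Eventually.of_forall fun z => ?_
  by_cases hz : z ∈ V
  · simp only [ff, h1 z hz, one_mul]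
    ring
  · simp only [hφ.eq_zero hz, zero_mul, zero_div]

lemma int_eq_one (hI : StmtInt) {V : Set ℂ}
    (hVH : V ⊆ H0) {φ : ℂ → ℝ} (hφ : TestR V φ) :
    ∫ z : ℍ, φ z = ∫ z : ℂ, φ z * (z.im)⁻¹ ^ 2 := by
  have h0 : ∀ z : ℂ, z.im ≤ 0 → φ z = 0 := by
    intro z hz
    rw [hφ.eq_zero (fun h => (not_lt.mpr hz) (hVH h))]
  rw [hI.1 _ h0]
  apply integral_congr_ae
  refine Filter.Eventually.of_forall fun z => ?_
  simp only
  ring

lemma testR_weight {V : Set ℂ} (hVH : V ⊆ H0) {φ : ℂ → ℝ} (hφ : TestR V φ) :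
    TestR V (fun z => φ z * (z.im)⁻¹ ^ 2) :=
  testR_mul isOpen_H0 hφ (hφ.sub.trans hVH) (contDiffOn_weight 2)

lemma exists_N {t : ℕ → ℝ} (ht : Tendsto t atTop atTop) : ∃ N, ∀ i, N ≤ i → 1 ≤ t i :=
  eventually_atTop.mp (ht.eventually_ge_atTop 1)

/-- bounds for the fourth moments -/
lemma l4 (hI : StmtInt) {χ : ℂ → ℝ} {V : Set ℂ}
    (hVH : V ⊆ H0) (h1 : ∀ z ∈ V, χ z = 1) {f : ℕ → ℍ → ℝ} {t : ℕ → ℝ}
    (hf : ∀ i, IsHeckeMaass (f i) (t i))
    (hK : ∀ K : Set ℍ, IsCompact K → ∃ C : ℝ, ∀ i, ∫ z in K, f i z ^ 4 ≤ C) :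
    L4Bdd V (fun i => ff χ (f i)) := by
  intro ζ hζ
  have hsub : tsupport ζ ⊆ H0 := hζ.sub.trans hVH
  set K : Set ℍ := UpperHalfPlane.coe ⁻¹' (tsupport ζ) with hKdef
  have hKc : IsCompact K := by
    rw [UpperHalfPlane.isOpenEmbedding_coe.isInducing.isCompact_preimage_iff]
    · exact hζ.cpt.isCompact
    · intro z hz
      exact ⟨⟨z, hsub hz⟩, rfl⟩
  obtain ⟨C, hC⟩ := hK K hKc
  -- the weight
  have hwc : Continuous (fun z : ℂ => ζ z ^ 4 * z.im ^ 2) :=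
    (hζ.smooth.continuous.pow 4).mul (Complex.continuous_im.pow 2)
  have hws : HasCompactSupport (fun z : ℂ => ζ z ^ 4 * z.im ^ 2) := by
    have h4 : HasCompactSupport (fun z : ℂ => ζ z ^ 4) := by
      have := hζ.cpt.comp_left (g := fun x : ℝ => x ^ 4) (by simp)
      exact this
    exact h4.mul_right
  obtain ⟨M, hM⟩ := hws.exists_bound_of_continuous hwc
  have hM0 : 0 ≤ M := (norm_nonneg _).trans (hM 0)
  refine ⟨M * C, fun i => ?_⟩
  have hcont : ContinuousOn (fun z : ℍ => f i z ^ 4) K := by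
    have h2 : Continuous (f i) := by
      have h3 : Continuous (fun z : ℍ => ext (f i) (z : ℂ)) :=
        (hf i).smooth.continuousOn.comp_continuous UpperHalfPlane.continuous_coe (fun z => z.im_pos)
      have h4 : (fun z : ℍ => ext (f i) (z : ℂ)) = f i := funext (ext_coe (f i))
      rwa [h4] at h3
    exact (h2.pow 4).continuousOn
  have hint : IntegrableOn (fun z : ℍ => f i z ^ 4) K := hcont.integrableOn_compact hKc
  have hKm : MeasurableSet K := hKc.isClosed.measurableSet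
  have h0 : ∀ z : ℂ, z.im ≤ 0 → (ζ z ^ 4 * z.im ^ 2) * ext (f i) z ^ 4 = 0 := by
    intro z hz
    rw [hζ.eq_zero (fun h => (not_lt.mpr hz) (hVH h))]
    simp
  have e1 := hI.1 _ h0
  have e2 : ∫ z : ℂ, ζ z ^ 4 * ff χ (f i) z ^ 4 =
      ∫ z : ℂ, (ζ z ^ 4 * z.im ^ 2) * ext (f i) z ^ 4 / z.im ^ 2 := by
    apply integral_congr_ae
    refine Filter.Eventually.of_forall fun z => ?_
    by_cases hz : z ∈ V
    · have hne : z.im ≠ 0 := ne_of_gt (hVH hz)
      simp only [ff, h1 z hz, one_mul]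
      field_simp
    · simp [hζ.eq_zero hz]
  calc ∫ z : ℂ, ζ z ^ 4 * ff χ (f i) z ^ 4
      = ∫ z : ℍ, (ζ z ^ 4 * (z : ℂ).im ^ 2) * ext (f i) z ^ 4 := by rw [e2, e1]
    _ ≤ ∫ z : ℍ, K.indicator (fun z => M * f i z ^ 4) z := by
        apply integral_mono_of_nonneg
        · refine Filter.Eventually.of_forall fun z => ?_
          simp only [Pi.zero_apply]
          positivity
        · rw [integrable_indicator_iff hKm]
          exact hint.const_mul M
        · refine Filter.Eventually.of_forall fun z => ?_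
          simp only [ext_coe]
          by_cases hz : z ∈ K
          · rw [Set.indicator_of_mem hz]
            have hb := hM (z : ℂ)
            have hb' : ζ z ^ 4 * (z : ℂ).im ^ 2 ≤ M := (Real.le_norm_self _).trans hb
            exact mul_le_mul_of_nonneg_right hb' (by positivity)
          · rw [Set.indicator_of_notMem hz]
            have : ζ (z : ℂ) = 0 := image_eq_zero_of_notMem_tsupport hz
            rw [this]
            simp
    _ = M * ∫ z in K, f i z ^ 4 := by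
        rw [integral_indicator hKm, integral_const_mul]
    _ ≤ M * C := mul_le_mul_of_nonneg_left (hC i) hM0

end Half

/-- from the local theorems to the half-plane -/
theorem stmtHalf (hI : StmtInt) (hL : StmtLap) : StmtHalf := by
  intro hE hC f t hf ht hm
  obtain ⟨N, hN⟩ := Half.exists_N ht
  constructor
  · intro φ hφ hφ0 k hk ε hε
    obtain ⟨χ, V, hχ, h01, hV, hVH, h1, hsub⟩ := Half.setup hφ
    have hφV : TestR V φ := ⟨hφ.smooth, hφ.cpt, hsub⟩
    have hS := Half.sq hI hL hχ h01 hV hVH h1 hf ht hm hN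
    have h := hE V _ _ _ hS (fun z => φ z * (z.im)⁻¹ ^ 2) (Half.testR_weight hVH hφV)
      (fun z => mul_nonneg (hφ0 z) (sq_nonneg _)) k hk ε hε
    refine Half.ev_shift N ?_
    filter_upwards [h] with i hi
    rw [Half.int_eq_one hI hVH hφV, Half.int_eq hI hVH h1 hφV]
    exact hi
  · intro hK φ hφ
    obtain ⟨χ, V, hχ, h01, hV, hVH, h1, hsub⟩ := Half.setup hφ
    have hφV : TestR V φ := ⟨hφ.smooth, hφ.cpt, hsub⟩
    have hS := Half.sq hI hL hχ h01 hV hVH h1 hf ht hm hN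
    have hb : L4Bdd V (fun i => Half.ff χ (f (i + N))) :=
      Half.l4 hI hVH h1 (fun i => hf (i + N)) (fun K hKc => by
        obtain ⟨C, hC'⟩ := hK K hKc
        exact ⟨C, fun i => hC' (i + N)⟩)
    have h := hC V _ _ _ hS hb (fun z => φ z * (z.im)⁻¹ ^ 2) (Half.testR_weight hVH hφV)
    rw [← tendsto_add_atTop_iff_nat N]
    refine h.congr fun i => ?_
    rw [Half.int_eq hI hVH h1 hφV]

end

end Pool.Agent.A54
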