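import Pool.Agent.Lib.MP_a54f13_nt.Spec

/-!
From the half-plane to the modular surface.
-/

set_option autoImplicit false

namespace Pool.Agent.A54

open MeasureTheory Filter Topology Set
open scoped ContDiff ComplexConjugate UpperHalfPlane MatrixGroups

noncomputable section

namespace X

/-- the open fundamental domain as a subset of `ℂ` -/
def O : Set ℂ := {w : ℂ | 0 < w.im ∧ 1 < Complex.normSq w ∧ |w.re| < 1 / 2}

lemma isOpen_O : IsOpen O := by
  apply (isOpen_lt continuous_const Complex.continuous_im).inter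
  apply (isOpen_lt continuous_const Complex.continuous_normSq).inter
  exact isOpen_lt (continuous_abs.comp Complex.continuous_re) continuous_const

lemma O_sub : O ⊆ {z : ℂ | 0 < z.im} := fun _ hz => hz.1

lemma mem_fdo_iff (z : ℍ) : z ∈ ModularGroup.fdo ↔ (z : ℂ) ∈ O :=
  ⟨fun h => ⟨z.im_pos, h.1, h.2⟩, fun h => ⟨h.2.1, h.2.2⟩⟩

lemma isOpen_fdo : IsOpen ModularGroup.fdo := by
  have : ModularGroup.fdo = UpperHalfPlane.coe ⁻¹' O := by
    ext z; exact mem_fdo_iff z
  rw [this]
  exact isOpen_O.preimage UpperHalfPlane.continuous_coe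

lemma measurableSet_fdo : MeasurableSet ModularGroup.fdo := isOpen_fdo.measurableSet

/-- exhaustion of `O` by compact sets -/
def Kn (n : ℕ) : Set ℂ := {w : ℂ | 1 / 2 ≤ w.im ∧ w.im ≤ n ∧ 1 + 1 / ((n : ℝ) + 1) ≤ Complex.normSq w ∧
  |w.re| ≤ 1 / 2 - 1 / ((n : ℝ) + 1)}

lemma inv_pos' (n : ℕ) : (0 : ℝ) < 1 / ((n : ℝ) + 1) := by positivity

lemma isCompact_Kn (n : ℕ) : IsCompact (Kn n) := by
  rw [Metric.isCompact_iff_isClosed_bounded]
  constructor
  · apply (isClosed_le continuous_const Complex.continuous_im).inter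
    apply (isClosed_le Complex.continuous_im continuous_const).inter
    apply (isClosed_le continuous_const Complex.continuous_normSq).inter
    exact isClosed_le (continuous_abs.comp Complex.continuous_re) continuous_const
  · refine (Metric.isBounded_iff_subset_closedBall 0).mpr ⟨1 / 2 + n, fun z hz => ?_⟩
    rw [mem_closedBall_zero_iff]
    refine (Complex.norm_le_abs_re_add_abs_im z).trans ?_
    have h1 := hz.2.2.2
    have h2 := hz.2.1
    have h3 := hz.1
    have h4 := inv_pos' n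
    rw [abs_of_pos (a := z.im) (by linarith)]
    linarith

lemma Kn_sub (n : ℕ) : Kn n ⊆ O := by
  intro z hz
  obtain ⟨h1, h2, h3, h4⟩ := hz
  have h5 := inv_pos' n
  exact ⟨by linarith, by linarith, by linarith⟩

lemma Kn_mono : Monotone Kn := by
  intro m n hmn z hz
  obtain ⟨h1, h2, h3, h4⟩ := hz
  have hc : (m : ℝ) ≤ n := by exact_mod_cast hmn
  have h5 : 1 / ((n : ℝ) + 1) ≤ 1 / ((m : ℝ) + 1) := by
    apply one_div_le_one_div_of_le (by positivity); linarith
  exact ⟨h1, by linarith, by linarith, by linarith⟩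

lemma mem_Kn_of_mem_O {z : ℂ} (hz : z ∈ O) : ∃ n, z ∈ Kn n := by
  obtain ⟨h1, h2, h3⟩ := hz
  obtain ⟨n, hn⟩ := exists_nat_gt (max z.im (max (1 / (Complex.normSq z - 1)) (1 / (1 / 2 - |z.re|))))
  have a1 : z.im < n := (le_max_left _ _).trans_lt hn
  have a2 : 1 / (Complex.normSq z - 1) < n :=
    ((le_max_left _ _).trans (le_max_right _ _)).trans_lt hn
  have a3 : 1 / (1 / 2 - |z.re|) < n :=
    ((le_max_right _ _).trans (le_max_right _ _)).trans_lt hn
  refine ⟨n, ?_, a1.le, ?_, ?_⟩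
  · -- im ≥ 1/2
    have h4 : z.re ^ 2 < 1 / 4 := by
      have := abs_lt.mp h3
      nlinarith [sq_abs z.re, abs_nonneg z.re]
    have h5 : Complex.normSq z = z.re ^ 2 + z.im ^ 2 := by
      rw [Complex.normSq_apply]; ring
    rw [h5] at h2
    nlinarith
  · have : (0 : ℝ) < Complex.normSq z - 1 := by linarith
    have h6 : 1 / ((n : ℝ) + 1) ≤ Complex.normSq z - 1 := by
      rw [div_le_iff₀ (by positivity)]
      rw [div_lt_iff₀ this] at a2
      nlinarith
    linarith
  · have : (0 : ℝ) < 1 / 2 - |z.re| := by linarith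
    have h6 : 1 / ((n : ℝ) + 1) ≤ 1 / 2 - |z.re| := by
      rw [div_le_iff₀ (by positivity)]
      rw [div_lt_iff₀ this] at a3
      nlinarith
    linarith

/-- An integrable function has small integral outside a compact subset of `O`. -/
lemma exists_compact (g : ℍ → ℝ) (hg : IntegrableOn g ModularGroup.fdo) {ε : ℝ} (hε : 0 < ε) :
    ∃ K : Set ℂ, IsCompact K ∧ K ⊆ O ∧
      ∫ z in ModularGroup.fdo \ (UpperHalfPlane.coe ⁻¹' K), g z < ε := by
  have hm : ∀ n, MeasurableSet (ModularGroup.fdo \ (UpperHalfPlane.coe ⁻¹' Kn n)) := fun n =>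
    measurableSet_fdo.diff ((isCompact_Kn n).isClosed.measurableSet.preimage
      UpperHalfPlane.measurable_coe)
  have ha : Antitone (fun n => ModularGroup.fdo \ (UpperHalfPlane.coe ⁻¹' Kn n)) := by
    intro m n hmn z hz
    exact ⟨hz.1, fun h => hz.2 (Kn_mono hmn h)⟩
  have ht := tendsto_setIntegral_of_antitone (f := g) hm ha
    ⟨0, hg.mono_set (fun z hz => hz.1)⟩
  have he : ⋂ n, (ModularGroup.fdo \ (UpperHalfPlane.coe ⁻¹' Kn n)) = ∅ := by
    rw [Set.eq_empty_iff_forall_notMem]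
    intro z hz
    rw [Set.mem_iInter] at hz
    obtain ⟨n, hn⟩ := mem_Kn_of_mem_O ((mem_fdo_iff z).mp (hz 0).1)
    exact (hz n).2 hn
  rw [he, setIntegral_empty] at ht
  obtain ⟨n, hn⟩ := ((tendsto_order.mp ht).2 ε hε).exists
  exact ⟨Kn n, isCompact_Kn n, Kn_sub n, hn⟩

/-- A function which is smooth on the half-plane is continuous on `ℍ`. -/
lemma continuous_of_ext {g : ℍ → ℝ} (hg : ContDiffOn ℝ ∞ (ext g) {z : ℂ | 0 < z.im}) :
    Continuous g := by
  have h1 : ContinuousOn (ext g) {z : ℂ | 0 < z.im} := hg.continuousOn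
  have h2 : g = fun z : ℍ => ext g (z : ℂ) := by
    funext z
    unfold ext
    rw [UpperHalfPlane.ofComplex_apply]
  rw [h2]
  exact h1.comp_continuous UpperHalfPlane.continuous_coe (fun z => z.im_pos)

lemma ext_coe (g : ℍ → ℝ) (z : ℍ) : ext g (z : ℂ) = g z := by
  unfold ext
  rw [UpperHalfPlane.ofComplex_apply]

lemma fdo_inter_sub (Y : ℝ) :
    {z : ℍ | z ∈ ModularGroup.fdo ∧ z.im ≤ Y} ⊆ ModularGroup.truncatedFundamentalDomain Y :=
  fun _ hz => ⟨ModularGroup.fdo_subset_fd hz.1, hz.2⟩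

/-- continuous functions vanishing high in the cusp are integrable -/
lemma integrableOn_fdo {g : ℍ → ℝ} (hg : Continuous g) {Y : ℝ}
    (hY : ∀ z ∈ ModularGroup.fdo, Y < z.im → g z = 0) : IntegrableOn g ModularGroup.fdo := by
  have h1 : IntegrableOn g (ModularGroup.truncatedFundamentalDomain Y) :=
    hg.continuousOn.integrableOn_compact (ModularGroup.isCompact_truncatedFundamentalDomain Y)
  refine h1.of_forall_sdiff_eq_zero measurableSet_fdo (fun z hz => ?_)
  apply hY z hz.1
  by_contra h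
  exact hz.2 (fdo_inter_sub Y ⟨hz.1, not_lt.mp h⟩)

/-- the cut off test function -/
lemma testR_cut {ψ : ℍ → ℝ} (hψ : ContDiffOn ℝ ∞ (ext ψ) {z : ℂ | 0 < z.im}) {χ : ℂ → ℝ}
    (hχ : TestR O χ) : TestR {z : ℂ | 0 < z.im} (fun w => χ w * ext ψ w) where
  smooth := by
    rw [contDiff_iff_contDiffAt]
    intro z
    by_cases hz : z ∈ tsupport χ
    · have h1 : 0 < z.im := (hχ.sub hz).1
      have h2 : ContDiffAt ℝ ∞ (ext ψ) z :=
        hψ.contDiffAt ((isOpen_lt continuous_const Complex.continuous_im).mem_nhds h1)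
      exact hχ.smooth.contDiffAt.mul h2
    · have h3 : (fun w => χ w * ext ψ w) =ᶠ[𝓝 z] fun _ => 0 := by
        have : ∀ᶠ w in 𝓝 z, w ∉ tsupport χ :=
          (isClosed_tsupport χ).isOpen_compl.mem_nhds hz
        filter_upwards [this] with w hw
        rw [image_eq_zero_of_notMem_tsupport hw, zero_mul]
      exact contDiffAt_const.congr_of_eventuallyEq h3
  cpt := hχ.cpt.mul_right
  sub := (tsupport_mul_subset_left (f := χ) (g := ext ψ)).trans (hχ.sub.trans O_sub)

/-- integral over the half-plane of a function supported in the fundamental domain -/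
lemma integral_cut {χ : ℂ → ℝ} (hχ : TestR O χ) (ψ g : ℍ → ℝ) :
    ∫ z : ℍ, (χ z * ext ψ z) * g z = ∫ z in ModularGroup.fdo, χ z * ψ z * g z := by
  rw [← integral_indicator measurableSet_fdo]
  apply integral_congr_ae
  refine Eventually.of_forall fun z => ?_
  simp only [ext_coe]
  by_cases hz : z ∈ ModularGroup.fdo
  · rw [indicator_of_mem hz]
  · rw [indicator_of_notMem hz, hχ.eq_zero (fun h => hz ((mem_fdo_iff z).mpr h))]
    ring

/-- the function is unchanged near `K` -/
lemma cut_error {χ : ℂ → ℝ} {K : Set ℂ} (hK : IsCompact K) (hχ1 : ∀ z, 0 ≤ χ z ∧ χ z ≤ 1)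
    (hχK : ∀ z ∈ K, χ z = 1) (hχc : Continuous χ) {g : ℍ → ℝ} (hg : IntegrableOn g ModularGroup.fdo)
    (hg0 : ∀ z, 0 ≤ g z) :
    ∫ z in ModularGroup.fdo, (1 - χ z) * g z ≤
      ∫ z in ModularGroup.fdo \ (UpperHalfPlane.coe ⁻¹' K), g z := by
  have hmK : MeasurableSet (UpperHalfPlane.coe ⁻¹' K : Set ℍ) :=
    hK.isClosed.measurableSet.preimage UpperHalfPlane.measurable_coe
  have hm : MeasurableSet (ModularGroup.fdo \ (UpperHalfPlane.coe ⁻¹' K)) :=
    measurableSet_fdo.diff hmK
  rw [← integral_indicator measurableSet_fdo, ← integral_indicator hm]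
  apply integral_mono_of_nonneg
  · refine Eventually.of_forall fun z => ?_
    apply indicator_nonneg
    intro z _
    exact mul_nonneg (by linarith [(hχ1 z).2]) (hg0 z)
  · rw [integrable_indicator_iff hm]
    exact hg.mono_set fun z hz => hz.1
  · refine Eventually.of_forall fun z => ?_
    by_cases hz : z ∈ ModularGroup.fdo
    · rw [indicator_of_mem hz]
      by_cases hzK : (z : ℂ) ∈ K
      · rw [indicator_of_notMem (fun h => h.2 hzK), hχK _ hzK]
        simp
      · rw [indicator_of_mem (show z ∈ ModularGroup.fdo \ (UpperHalfPlane.coe ⁻¹' K) from ⟨hz, hzK⟩)]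
        nlinarith [(hχ1 z).1, (hχ1 z).2, hg0 z]
    · rw [indicator_of_notMem hz]
      exact indicator_nonneg (fun z _ => hg0 z) z

lemma finalEven (f : ℕ → ℍ → ℝ) (t : ℕ → ℝ) (hf : ∀ i, IsHeckeMaass (f i) (t i))
    (hE : HalfEven f) : FinalEven f := by
  intro ψ hψ hψ0 k hk ε hε
  obtain ⟨Y, hY⟩ := hψ.cusp
  have hψc : Continuous ψ := continuous_of_ext hψ.smooth
  have hψi : IntegrableOn ψ ModularGroup.fdo :=
    integrableOn_fdo hψc (fun z hz h => hY z (ModularGroup.fdo_subset_fd hz) h)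
  have h3 : (0 : ℝ) < 3 ^ (k - 1) := by positivity
  obtain ⟨K, hK, hKO, hKi⟩ := exists_compact ψ hψi (ε := ε / 2 / 3 ^ (k - 1)) (by positivity)
  obtain ⟨χ, hχ, hχ1, hχK⟩ := exists_cutoff hK isOpen_O hKO
  have hχK' : ∀ z ∈ K, χ z = 1 := fun z hz => hχK.self_of_nhdsSet z hz
  have hχc : Continuous (fun z : ℍ => χ z) := hχ.smooth.continuous.comp UpperHalfPlane.continuous_coe
  have hφ := testR_cut hψ.smooth hχ
  have hφ0 : ∀ z, 0 ≤ χ z * ext ψ z := fun z => mul_nonneg (hχ1 z).1 (hψ0 _)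
  have hmain := hE _ hφ hφ0 k hk (ε / 2) (by positivity)
  -- the integral of the cut off function
  have hint : ∫ z : ℍ, χ z * ext ψ z = ∫ z in ModularGroup.fdo, χ z * ψ z := by
    have := integral_cut hχ ψ (fun _ => 1)
    simpa using this
  have hχψ : IntegrableOn (fun z : ℍ => χ z * ψ z) ModularGroup.fdo :=
    integrableOn_fdo (hχc.mul hψc) (fun z hz h => by
      rw [hY z (ModularGroup.fdo_subset_fd hz) h, mul_zero])
  have herr : ∫ z in ModularGroup.fdo, (1 - χ z) * ψ z ≤ ε / 2 / 3 ^ (k - 1) :=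
    (cut_error hK hχ1 hχK' hχ.smooth.continuous hψi hψ0).trans hKi.le
  have hsub : ∫ z in ModularGroup.fdo, (1 - χ z) * ψ z =
      (∫ z in ModularGroup.fdo, ψ z) - ∫ z in ModularGroup.fdo, χ z * ψ z := by
    rw [← integral_sub hψi hχψ]
    congr 1
    funext z; ring
  have hlow : 3 ^ (k - 1) * (∫ z in ModularGroup.fdo, ψ z) - ε / 2 ≤
      3 ^ (k - 1) * ∫ z in ModularGroup.fdo, χ z * ψ z := by
    have h4 : (∫ z in ModularGroup.fdo, ψ z) - (∫ z in ModularGroup.fdo, χ z * ψ z) ≤
      ε / 2 / 3 ^ (k - 1) := by rw [← hsub]; exact herr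
    have h5 := mul_le_mul_of_nonneg_left h4 h3.le
    have h6 : (3 : ℝ) ^ (k - 1) * (ε / 2 / 3 ^ (k - 1)) = ε / 2 := by
      field_simp
    rw [h6] at h5
    linarith [mul_sub ((3 : ℝ) ^ (k - 1)) (∫ z in ModularGroup.fdo, ψ z)
      (∫ z in ModularGroup.fdo, χ z * ψ z)]
  filter_upwards [hmain] with i hi
  have hfc : Continuous (f i) := continuous_of_ext (hf i).smooth
  have hright : ∫ z : ℍ, (χ z * ext ψ z) * f i z ^ (2 * k) ≤
      ∫ z in ModularGroup.fdo, ψ z * f i z ^ (2 * k) := by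
    rw [integral_cut hχ ψ (fun z => f i z ^ (2 * k))]
    apply integral_mono_of_nonneg
    · refine Eventually.of_forall fun z => ?_
      exact mul_nonneg (mul_nonneg (hχ1 z).1 (hψ0 z)) (Even.pow_nonneg ⟨k, by ring⟩ _)
    · exact integrableOn_fdo (hψc.mul (hfc.pow _)) (fun z hz h => by
        rw [hY z (ModularGroup.fdo_subset_fd hz) h, zero_mul])
    · refine Eventually.of_forall fun z => ?_
      have h7 : (0 : ℝ) ≤ f i z ^ (2 * k) := Even.pow_nonneg ⟨k, by ring⟩ _
      have h8 : χ z * ψ z ≤ ψ z := by nlinarith [(hχ1 z).2, hψ0 z]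
      exact mul_le_mul_of_nonneg_right h8 h7
  have hi' := hi.trans hright
  rw [hint] at hi'
  linarith

lemma cube_le {δ x : ℝ} (hδ : 0 < δ) : |x| ^ 3 ≤ δ * x ^ 4 + 1 / δ ^ 3 := by
  have h4 : x ^ 4 = |x| ^ 4 := by rw [← abs_pow, abs_of_nonneg (Even.pow_nonneg ⟨2, rfl⟩ _)]
  rw [h4]
  have hx := abs_nonneg x
  rcases le_total |x| (1 / δ) with h | h
  · have h1 : |x| ^ 3 ≤ (1 / δ) ^ 3 := pow_le_pow_left₀ hx h 3
    rw [one_div_pow] at h1
    have : 0 ≤ δ * |x| ^ 4 := by positivity
    linarith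
  · have h1 : 1 ≤ δ * |x| := by
      rw [div_le_iff₀ hδ] at h
      linarith
    have h2 : |x| ^ 3 ≤ δ * |x| ^ 4 := by
      have : δ * |x| ^ 4 = (δ * |x|) * |x| ^ 3 := by ring
      rw [this]
      exact le_mul_of_one_le_left (by positivity) h1
    have : 0 < 1 / δ ^ 3 := by positivity
    linarith

lemma finalCube (f : ℕ → ℍ → ℝ) (t : ℕ → ℝ) (hf : ∀ i, IsHeckeMaass (f i) (t i))
    (hC : HalfCube f) : FinalCube f := by
  intro hL ψ hψ
  obtain ⟨Y, hY⟩ := hψ.cusp
  have hψc : Continuous ψ := continuous_of_ext hψ.smooth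
  have hψi : IntegrableOn (fun z => |ψ z|) ModularGroup.fdo :=
    integrableOn_fdo hψc.abs (fun z hz h => by
      rw [hY z (ModularGroup.fdo_subset_fd hz) h, abs_zero])
  -- bound for the fourth powers
  obtain ⟨C, hCi⟩ := hL _ (ModularGroup.isCompact_truncatedFundamentalDomain Y)
  obtain ⟨M, hM⟩ := (ModularGroup.isCompact_truncatedFundamentalDomain Y).exists_bound_of_continuousOn
    hψc.continuousOn
  have hfc : ∀ i, Continuous (f i) := fun i => continuous_of_ext (hf i).smooth
  set M' : ℝ := max M 0 with hM'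
  have hM0 : 0 ≤ M' := le_max_right _ _
  have hψM : ∀ z ∈ ModularGroup.fdo, |ψ z| ≤ M' := by
    intro z hz
    by_cases h : Y < z.im
    · rw [hY z (ModularGroup.fdo_subset_fd hz) h, abs_zero]; exact hM0
    · exact (hM z (fdo_inter_sub Y ⟨hz, not_lt.mp h⟩)).trans (le_max_left _ _)
  have h4i : ∀ i, IntegrableOn (fun z => |ψ z| * f i z ^ 4) ModularGroup.fdo := fun i =>
    integrableOn_fdo (hψc.abs.mul ((hfc i).pow 4)) (fun z hz h => by
      rw [hY z (ModularGroup.fdo_subset_fd hz) h, abs_zero, zero_mul])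
  have h4 : ∀ i, ∫ z in ModularGroup.fdo, |ψ z| * f i z ^ 4 ≤ M' * C := by
    intro i
    have hmT : MeasurableSet (ModularGroup.truncatedFundamentalDomain Y) :=
      (ModularGroup.isCompact_truncatedFundamentalDomain Y).isClosed.measurableSet
    have h1 : ∫ z in ModularGroup.fdo, |ψ z| * f i z ^ 4 ≤
        ∫ z in ModularGroup.truncatedFundamentalDomain Y, M' * f i z ^ 4 := by
      rw [← integral_indicator measurableSet_fdo, ← integral_indicator hmT]
      apply integral_mono_of_nonneg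
      · refine Eventually.of_forall fun z => ?_
        apply indicator_nonneg
        intro z _
        exact mul_nonneg (abs_nonneg _) (Even.pow_nonneg ⟨2, rfl⟩ _)
      · rw [integrable_indicator_iff hmT]
        exact (continuous_const.mul ((hfc i).pow 4)).continuousOn.integrableOn_compact
          (ModularGroup.isCompact_truncatedFundamentalDomain Y)
      · refine Eventually.of_forall fun z => ?_
        have hp : (0 : ℝ) ≤ f i z ^ 4 := Even.pow_nonneg ⟨2, rfl⟩ _
        by_cases hz : z ∈ ModularGroup.fdo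
        · rw [indicator_of_mem hz]
          by_cases h : Y < z.im
          · rw [hY z (ModularGroup.fdo_subset_fd hz) h, abs_zero, zero_mul]
            exact indicator_nonneg (fun z _ => mul_nonneg hM0 (Even.pow_nonneg ⟨2, rfl⟩ _)) z
          · rw [indicator_of_mem (fdo_inter_sub Y ⟨hz, not_lt.mp h⟩)]
            exact mul_le_mul_of_nonneg_right (hψM z hz) hp
        · rw [indicator_of_notMem hz]
          exact indicator_nonneg (fun z _ => mul_nonneg hM0 (Even.pow_nonneg ⟨2, rfl⟩ _)) z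
    refine h1.trans ?_
    rw [integral_const_mul]
    exact mul_le_mul_of_nonneg_left (hCi i) hM0
  rw [Metric.tendsto_nhds]
  intro ε hε
  -- choice of δ
  set B : ℝ := max (M' * C) 0 + 1 with hB
  have hB0 : 0 < B := by
    have := le_max_right (M' * C) 0
    linarith
  have hBC : M' * C ≤ B := by
    have := le_max_left (M' * C) 0
    linarith
  set δ : ℝ := ε / 4 / B with hδ
  have hδ0 : 0 < δ := by positivity
  obtain ⟨K, hK, hKO, hKi⟩ := exists_compact (fun z => |ψ z|) hψi (ε := ε / 4 * δ ^ 3) (by positivity)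
  obtain ⟨χ, hχ, hχ1, hχK⟩ := exists_cutoff hK isOpen_O hKO
  have hχK' : ∀ z ∈ K, χ z = 1 := fun z hz => hχK.self_of_nhdsSet z hz
  have hχc : Continuous (fun z : ℍ => χ z) := hχ.smooth.continuous.comp UpperHalfPlane.continuous_coe
  have hφ := testR_cut hψ.smooth hχ
  have hmain := hC hL _ hφ
  rw [Metric.tendsto_nhds] at hmain
  have herr : ∫ z in ModularGroup.fdo, (1 - χ z) * |ψ z| ≤ ε / 4 * δ ^ 3 :=
    (cut_error hK hχ1 hχK' hχ.smooth.continuous hψi (fun z => abs_nonneg _)).trans hKi.le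
  filter_upwards [hmain (ε / 4) (by positivity)] with i hi
  rw [Real.dist_eq, sub_zero] at hi ⊢
  rw [integral_cut hχ ψ (fun z => f i z ^ 3)] at hi
  have i1 : IntegrableOn (fun z : ℍ => χ z * ψ z * f i z ^ 3) ModularGroup.fdo :=
    integrableOn_fdo ((hχc.mul hψc).mul ((hfc i).pow 3)) (fun z hz h => by
      rw [hY z (ModularGroup.fdo_subset_fd hz) h]; ring)
  have i2 : IntegrableOn (fun z : ℍ => (1 - χ z) * ψ z * f i z ^ 3) ModularGroup.fdo :=
    integrableOn_fdo (((continuous_const.sub hχc).mul hψc).mul ((hfc i).pow 3)) (fun z hz h => by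
      rw [hY z (ModularGroup.fdo_subset_fd hz) h]; ring)
  have hsplit : ∫ z in ModularGroup.fdo, ψ z * f i z ^ 3 =
      (∫ z in ModularGroup.fdo, χ z * ψ z * f i z ^ 3) +
        ∫ z in ModularGroup.fdo, (1 - χ z) * ψ z * f i z ^ 3 := by
    rw [← integral_add i1 i2]
    congr 1
    funext z; ring
  have i3 : IntegrableOn (fun z : ℍ => δ * (|ψ z| * f i z ^ 4) + 1 / δ ^ 3 * ((1 - χ z) * |ψ z|))
      ModularGroup.fdo := by
    apply Integrable.add
    · exact (h4i i).const_mul δ
    · apply Integrable.const_mul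
      exact integrableOn_fdo ((continuous_const.sub hχc).mul hψc.abs) (fun z hz h => by
        rw [hY z (ModularGroup.fdo_subset_fd hz) h]; simp)
  have i4 : IntegrableOn (fun z : ℍ => (1 - χ z) * |ψ z|) ModularGroup.fdo :=
    integrableOn_fdo ((continuous_const.sub hχc).mul hψc.abs) (fun z hz h => by
      rw [hY z (ModularGroup.fdo_subset_fd hz) h]; simp)
  have hsmall : |∫ z in ModularGroup.fdo, (1 - χ z) * ψ z * f i z ^ 3| ≤ ε / 2 := by
    calc |∫ z in ModularGroup.fdo, (1 - χ z) * ψ z * f i z ^ 3|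
        ≤ ∫ z in ModularGroup.fdo, |(1 - χ z) * ψ z * f i z ^ 3| := abs_integral_le_integral_abs
      _ ≤ ∫ z in ModularGroup.fdo, (δ * (|ψ z| * f i z ^ 4) + 1 / δ ^ 3 * ((1 - χ z) * |ψ z|)) := by
          apply integral_mono i2.abs i3
          intro z
          simp only
          have c1 : 0 ≤ 1 - χ z := by linarith [(hχ1 z).2]
          have c2 : 1 - χ z ≤ 1 := by linarith [(hχ1 z).1]
          have c3 : |f i z| ^ 3 ≤ δ * f i z ^ 4 + 1 / δ ^ 3 := cube_le hδ0
          have c4 : |(1 - χ z) * ψ z * f i z ^ 3| = (1 - χ z) * |ψ z| * |f i z| ^ 3 := by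
            rw [abs_mul, abs_mul, abs_of_nonneg c1, abs_pow]
          rw [c4]
          have c5 : 0 ≤ |ψ z| := abs_nonneg _
          have c6 : (0 : ℝ) ≤ f i z ^ 4 := Even.pow_nonneg ⟨2, rfl⟩ _
          have c7 : 0 ≤ (1 - χ z) * |ψ z| := mul_nonneg c1 c5
          calc (1 - χ z) * |ψ z| * |f i z| ^ 3
              ≤ (1 - χ z) * |ψ z| * (δ * f i z ^ 4 + 1 / δ ^ 3) := mul_le_mul_of_nonneg_left c3 c7
            _ = (1 - χ z) * (δ * (|ψ z| * f i z ^ 4)) + 1 / δ ^ 3 * ((1 - χ z) * |ψ z|) := by ring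
            _ ≤ 1 * (δ * (|ψ z| * f i z ^ 4)) + 1 / δ ^ 3 * ((1 - χ z) * |ψ z|) := by
                have : 0 ≤ δ * (|ψ z| * f i z ^ 4) := by positivity
                have := mul_le_mul_of_nonneg_right c2 this
                linarith
            _ = _ := by ring
      _ = δ * (∫ z in ModularGroup.fdo, |ψ z| * f i z ^ 4) +
            1 / δ ^ 3 * ∫ z in ModularGroup.fdo, (1 - χ z) * |ψ z| := by
          rw [integral_add ((h4i i).const_mul δ) (i4.const_mul _), integral_const_mul,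
            integral_const_mul]
      _ ≤ δ * B + 1 / δ ^ 3 * (ε / 4 * δ ^ 3) := by
          have d1 : δ * (∫ z in ModularGroup.fdo, |ψ z| * f i z ^ 4) ≤ δ * B :=
            mul_le_mul_of_nonneg_left ((h4 i).trans hBC) hδ0.le
          have d2 : 1 / δ ^ 3 * (∫ z in ModularGroup.fdo, (1 - χ z) * |ψ z|) ≤
            1 / δ ^ 3 * (ε / 4 * δ ^ 3) := mul_le_mul_of_nonneg_left herr (by positivity)
          linarith
      _ = ε / 2 := by
          have e1 : δ * B = ε / 4 := by rw [hδ]; field_simp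
          have e2 : 1 / δ ^ 3 * (ε / 4 * δ ^ 3) = ε / 4 := by field_simp
          rw [e1, e2]; ring
  rw [hsplit]
  calc _ ≤ |∫ z in ModularGroup.fdo, χ z * ψ z * f i z ^ 3| +
        |∫ z in ModularGroup.fdo, (1 - χ z) * ψ z * f i z ^ 3| := abs_add_le _ _
    _ < ε := by linarith

end X

theorem stmtX : StmtX := fun f t hf hE hC =>
  ⟨X.finalEven f t hf hE, X.finalCube f t hf hC⟩

end

end Pool.Agent.A54
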