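import Pool.Agent.Lib.MP_a54f13_nt.Spec2
import Pool.Agent.Lib.MP_a54f13_nt.X

/-!
From the half-plane to the modular surface, second part.
-/

set_option autoImplicit false

namespace Pool.Agent.A54

open MeasureTheory Filter Topology Set
open scoped ContDiff ComplexConjugate UpperHalfPlane MatrixGroups

noncomputable section

namespace X2

open X

/-- a function which is integrable on the truncated domain, times a continuous function which
vanishes high in the cusp -/
lemma integrableOn_mul {g F : ℍ → ℝ} (hg : Continuous g) {Y : ℝ}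
    (hY : ∀ z ∈ ModularGroup.fdo, Y < z.im → g z = 0)
    (hF : IntegrableOn F (ModularGroup.truncatedFundamentalDomain Y)) :
    IntegrableOn (fun z => g z * F z) ModularGroup.fdo := by
  have hT := ModularGroup.isCompact_truncatedFundamentalDomain Y
  have h1 : IntegrableOn (fun z => g z * F z) (ModularGroup.truncatedFundamentalDomain Y) :=
    hF.continuousOn_mul hg.continuousOn hT
  refine h1.of_forall_sdiff_eq_zero measurableSet_fdo (fun z hz => ?_)
  have : g z = 0 := by
    apply hY z hz.1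
    by_contra h
    exact hz.2 (fdo_inter_sub Y ⟨hz.1, not_lt.mp h⟩)
  simp only [this, zero_mul]

/-- the cut off test function is supported in the fundamental domain -/
lemma testR_cut' {ψ : ℍ → ℝ} (hψ : ContDiffOn ℝ ∞ (ext ψ) {z : ℂ | 0 < z.im}) {χ : ℂ → ℝ}
    (hχ : TestR Ofd χ) : TestR Ofd (fun w => χ w * ext ψ w) where
  smooth := (testR_cut hψ hχ).smooth
  cpt := hχ.cpt.mul_right
  sub := (tsupport_mul_subset_left (f := χ) (g := ext ψ)).trans hχ.sub

lemma integrableOn_sq {r : ℍ → ℂ} {K : Set ℍ} (hr : MemLp r 2 (volume.restrict K)) :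
    IntegrableOn (fun z => ‖r z‖ ^ 2) K :=
  hr.integrable_norm_pow (by norm_num)

lemma integrableOn_pairSum {p : ℕ → ℍ → ℝ} {K : Set ℍ} (hp : ∀ n, IntegrableOn (p n) K) (N : ℕ) :
    IntegrableOn (fun z => pairSum (fun n => p n z) N) K := by
  unfold pairSum
  apply integrable_finsetSum
  intro n _
  apply integrable_finsetSum
  intro m _
  by_cases h : n % 2 = m % 2
  · simp only [h, if_true]
    exact (hp _).add (hp _)
  · simp only [h, if_false]
    exact integrable_zero _ _ _

lemma finalGen (f : ℕ → ℍ → ℝ) (t : ℕ → ℝ) (hf : ∀ i, IsHeckeMaass (f i) (t i))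
    (ρ : ℕ → ℍ → ℂ)
    (hρ : ∀ (n : ℕ) (K : Set ℍ), IsCompact K → MemLp (ρ n) 2 (volume.restrict K))
    (hE : HalfGen f ρ) : FinalGen f ρ := by
  intro ψ hψ hψ0 M hM ε hε
  obtain ⟨Y, hY⟩ := hψ.cusp
  have hψc : Continuous ψ := continuous_of_ext hψ.smooth
  have hYo : ∀ z ∈ ModularGroup.fdo, Y < z.im → ψ z = 0 := fun z hz h =>
    hY z (ModularGroup.fdo_subset_fd hz) h
  set F : ℍ → ℝ := fun z => 3 * ‖ρ 0 z‖ ^ 2 -
      3 / (2 * (2 * M) ^ 2) * pairSum (fun n => ‖ρ n z‖ ^ 2) (2 * M) with hFdef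
  have hFi : IntegrableOn F (ModularGroup.truncatedFundamentalDomain Y) := by
    have hT := ModularGroup.isCompact_truncatedFundamentalDomain Y
    apply Integrable.sub
    · exact (integrableOn_sq (hρ 0 _ hT)).const_mul 3
    · exact (integrableOn_pairSum (fun n => integrableOn_sq (hρ n _ hT)) (2 * M)).const_mul _
  have hFa : IntegrableOn (fun z => |F z|) (ModularGroup.truncatedFundamentalDomain Y) := hFi.abs
  have hψF : IntegrableOn (fun z => ψ z * F z) ModularGroup.fdo := integrableOn_mul hψc hYo hFi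
  have hψFa : IntegrableOn (fun z => ψ z * |F z|) ModularGroup.fdo :=
    integrableOn_mul hψc hYo hFa
  obtain ⟨K, hK, hKO, hKi⟩ := exists_compact _ hψFa (ε := ε / 2) (by positivity)
  obtain ⟨χ, hχ, hχ1, hχK⟩ := exists_cutoff hK isOpen_O hKO
  have hχK' : ∀ z ∈ K, χ z = 1 := fun z hz => hχK.self_of_nhdsSet z hz
  have hχc : Continuous (fun z : ℍ => χ z) := hχ.smooth.continuous.comp UpperHalfPlane.continuous_coe
  have hφ := testR_cut hψ.smooth hχ
  have hφ0 : ∀ z, 0 ≤ χ z * ext ψ z := fun z => mul_nonneg (hχ1 z).1 (hψ0 _)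
  have hmain := hE _ hφ hφ0 M hM (ε / 2) (by positivity)
  have hχψF : IntegrableOn (fun z : ℍ => χ z * ψ z * F z) ModularGroup.fdo :=
    integrableOn_mul (hχc.mul hψc) (fun z hz h => by rw [hYo z hz h, mul_zero]) hFi
  have herr : ∫ z in ModularGroup.fdo, (1 - χ z) * (ψ z * |F z|) ≤ ε / 2 :=
    (cut_error hK hχ1 hχK' hχ.smooth.continuous hψFa
      (fun z => mul_nonneg (hψ0 z) (abs_nonneg _))).trans hKi.le
  have hle : (∫ z in ModularGroup.fdo, ψ z * F z) - ∫ z in ModularGroup.fdo, χ z * ψ z * F z ≤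
      ε / 2 := by
    rw [← integral_sub hψF hχψF]
    refine le_trans ?_ herr
    apply integral_mono (hψF.sub hχψF)
    · have h1 : IntegrableOn (fun z : ℍ => (1 - χ z) * ψ z * |F z|) ModularGroup.fdo :=
        integrableOn_mul ((continuous_const.sub hχc).mul hψc)
          (fun z hz h => by rw [hYo z hz h, mul_zero]) hFa
      refine h1.congr (Eventually.of_forall fun z => ?_)
      simp only
      ring
    · intro z
      simp only [Pi.sub_apply]
      have c1 : 0 ≤ (1 - χ z) * ψ z := mul_nonneg (by linarith [(hχ1 z).2]) (hψ0 z)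
      have c2 := mul_le_mul_of_nonneg_left (le_abs_self (F z)) c1
      nlinarith
  filter_upwards [hmain] with i hi
  have hfc : Continuous (f i) := continuous_of_ext (hf i).smooth
  have hright : ∫ z : ℍ, (χ z * ext ψ z) * f i z ^ 4 ≤
      ∫ z in ModularGroup.fdo, ψ z * f i z ^ 4 := by
    rw [integral_cut hχ ψ (fun z => f i z ^ 4)]
    apply integral_mono_of_nonneg
    · refine Eventually.of_forall fun z => ?_
      exact mul_nonneg (mul_nonneg (hχ1 z).1 (hψ0 z)) (Even.pow_nonneg ⟨2, by ring⟩ _)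
    · exact integrableOn_fdo (hψc.mul (hfc.pow _)) (fun z hz h => by
        rw [hYo z hz h, zero_mul])
    · refine Eventually.of_forall fun z => ?_
      have h7 : (0 : ℝ) ≤ f i z ^ 4 := Even.pow_nonneg ⟨2, by ring⟩ _
      have h8 : χ z * ψ z ≤ ψ z := by nlinarith [(hχ1 z).2, hψ0 z]
      exact mul_le_mul_of_nonneg_right h8 h7
  have hi' := hi.trans hright
  have hleft : ∫ z : ℍ, (χ z * ext ψ z) * F z = ∫ z in ModularGroup.fdo, χ z * ψ z * F z :=
    integral_cut hχ ψ F
  rw [hFdef] at hleft hle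
  simp only at hleft hle
  rw [hleft] at hi'
  linarith

lemma sq_le {η x : ℝ} (hη : 0 < η) : x ^ 2 ≤ η * x ^ 4 + 1 / (4 * η) := by
  have h1 : η * x ^ 4 + 1 / (4 * η) - x ^ 2 = (2 * η * x ^ 2 - 1) ^ 2 / (4 * η) := by
    field_simp
    ring
  have h2 : 0 ≤ (2 * η * x ^ 2 - 1) ^ 2 / (4 * η) := by positivity
  linarith

lemma finalRatio (f : ℕ → ℍ → ℝ) (t : ℕ → ℝ) (hf : ∀ i, IsHeckeMaass (f i) (t i))
    (hR : HalfRatio f) : FinalRatio f := by
  intro ψ hψ hψ0 ε hε
  obtain ⟨Y, hY⟩ := hψ.cusp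
  have hψc : Continuous ψ := continuous_of_ext hψ.smooth
  have hYo : ∀ z ∈ ModularGroup.fdo, Y < z.im → ψ z = 0 := fun z hz h =>
    hY z (ModularGroup.fdo_subset_fd hz) h
  have hfc : ∀ i, Continuous (f i) := fun i => continuous_of_ext (hf i).smooth
  have hψi : IntegrableOn ψ ModularGroup.fdo := integrableOn_fdo hψc hYo
  have hi2 : ∀ i, IntegrableOn (fun z => ψ z * f i z ^ 2) ModularGroup.fdo := fun i =>
    integrableOn_fdo (hψc.mul ((hfc i).pow 2)) (fun z hz h => by rw [hYo z hz h, zero_mul])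
  have hi4 : ∀ i, IntegrableOn (fun z => ψ z * f i z ^ 4) ModularGroup.fdo := fun i =>
    integrableOn_fdo (hψc.mul ((hfc i).pow 4)) (fun z hz h => by rw [hYo z hz h, zero_mul])
  set A : ℝ := ∫ z in ModularGroup.fdo, ψ z with hA
  have hA0 : 0 ≤ A := integral_nonneg hψ0
  rcases hA0.eq_or_lt with hA1 | hA1
  · -- `ψ = 0` almost everywhere
    have h0 : ψ =ᵐ[volume.restrict ModularGroup.fdo] 0 :=
      (integral_eq_zero_iff_of_nonneg hψ0 hψi).mp hA1.symm
    refine Eventually.of_forall fun i => ?_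
    have h1 : ∫ z in ModularGroup.fdo, ψ z * f i z ^ 2 = 0 := by
      have : ∫ z in ModularGroup.fdo, ψ z * f i z ^ 2 = ∫ z in ModularGroup.fdo, (0 : ℝ) := by
        apply integral_congr_ae
        filter_upwards [h0] with z hz
        rw [hz]; simp
      rw [this, integral_zero]
    rw [h1, ← hA1]
    simp only [zero_mul]
    nlinarith
  -- bound for `ψ`
  obtain ⟨B₀, hB₀⟩ := (ModularGroup.isCompact_truncatedFundamentalDomain Y).exists_bound_of_continuousOn
    hψc.continuousOn
  set B : ℝ := max B₀ 0 + 1 with hB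
  have hB0 : 0 < B := by
    have := le_max_right B₀ 0
    linarith
  have hψB : ∀ z ∈ ModularGroup.fdo, ψ z ≤ B := by
    intro z hz
    by_cases h : Y < z.im
    · rw [hYo z hz h]; exact hB0.le
    · have h1 := hB₀ z (fdo_inter_sub Y ⟨hz, not_lt.mp h⟩)
      have h2 := le_max_left B₀ 0
      have h3 := le_abs_self (ψ z)
      rw [Real.norm_eq_abs] at h1
      linarith
  -- the square of a form is integrable
  have hf2 : ∀ i, IntegrableOn (fun z => f i z ^ 2) ModularGroup.fdo := by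
    intro i
    by_contra h
    have h1 := (hf i).normalised
    rw [integral_undef h] at h1
    have := Real.pi_pos
    linarith
  set S : ℝ := B * (Real.pi / 3) with hS
  have hS0 : 0 < S := by have := Real.pi_pos; positivity
  have h2le : ∀ i, ∫ z in ModularGroup.fdo, ψ z * f i z ^ 2 ≤ S := by
    intro i
    rw [hS, ← (hf i).normalised, ← integral_const_mul]
    apply setIntegral_mono_on (hi2 i) ((hf2 i).const_mul B) measurableSet_fdo
    intro z hz
    exact mul_le_mul_of_nonneg_right (hψB z hz) (sq_nonneg _)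
  have h2nn : ∀ i, 0 ≤ ∫ z in ModularGroup.fdo, ψ z * f i z ^ 2 := fun i =>
    integral_nonneg fun z => mul_nonneg (hψ0 z) (sq_nonneg _)
  -- parameters
  set e : ℝ := ε / (12 * S) with he
  have he0 : 0 < e := by positivity
  set C : ℝ := 3 / 2 * S ^ 2 / A with hC
  have hC0 : 0 < C := by positivity
  set η : ℝ := e / C with hη
  have hη0 : 0 < η := by positivity
  obtain ⟨K, hK, hKO, hKi⟩ := exists_compact ψ hψi (ε := 4 * η * e) (by positivity)
  obtain ⟨χ, hχ, hχ1, hχK⟩ := exists_cutoff hK isOpen_O hKO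
  have hχK' : ∀ z ∈ K, χ z = 1 := fun z hz => hχK.self_of_nhdsSet z hz
  have hχc : Continuous (fun z : ℍ => χ z) := hχ.smooth.continuous.comp UpperHalfPlane.continuous_coe
  have hφ := testR_cut' hψ.smooth hχ
  have hφ0 : ∀ z, 0 ≤ χ z * ext ψ z := fun z => mul_nonneg (hχ1 z).1 (hψ0 _)
  have hmain := hR _ hφ hφ0 (ε / 2) (by positivity)
  have herr : ∫ z in ModularGroup.fdo, (1 - χ z) * ψ z ≤ 4 * η * e :=
    (cut_error hK hχ1 hχK' hχ.smooth.continuous hψi hψ0).trans hKi.le
  have hint : ∫ z : ℍ, χ z * ext ψ z = ∫ z in ModularGroup.fdo, χ z * ψ z := by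
    have := integral_cut hχ ψ (fun _ => 1)
    simpa using this
  have hχψ : IntegrableOn (fun z : ℍ => χ z * ψ z) ModularGroup.fdo :=
    integrableOn_fdo (hχc.mul hψc) (fun z hz h => by rw [hYo z hz h, mul_zero])
  have hχA : ∫ z in ModularGroup.fdo, χ z * ψ z ≤ A := by
    apply integral_mono hχψ hψi
    intro z
    simp only
    nlinarith [(hχ1 z).2, hψ0 z]
  have hχA0 : 0 ≤ ∫ z in ModularGroup.fdo, χ z * ψ z :=
    integral_nonneg fun z => mul_nonneg (hχ1 z).1 (hψ0 z)
  filter_upwards [hmain] with i hi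
  rw [hint, integral_cut hχ ψ (fun z => f i z ^ 2), integral_cut hχ ψ (fun z => f i z ^ 4)] at hi
  have j2 : IntegrableOn (fun z : ℍ => χ z * ψ z * f i z ^ 2) ModularGroup.fdo :=
    integrableOn_fdo ((hχc.mul hψc).mul ((hfc i).pow 2)) (fun z hz h => by
      rw [hYo z hz h]; ring)
  have j4 : IntegrableOn (fun z : ℍ => χ z * ψ z * f i z ^ 4) ModularGroup.fdo :=
    integrableOn_fdo ((hχc.mul hψc).mul ((hfc i).pow 4)) (fun z hz h => by
      rw [hYo z hz h]; ring)
  set Q : ℝ := ∫ z in ModularGroup.fdo, ψ z * f i z ^ 4 with hQ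
  set S' : ℝ := ∫ z in ModularGroup.fdo, ψ z * f i z ^ 2 with hS'
  set T : ℝ := ∫ z in ModularGroup.fdo, χ z * ψ z * f i z ^ 2 with hT
  set P : ℝ := ∫ z in ModularGroup.fdo, χ z * ψ z * f i z ^ 4 with hP
  have hS'S : S' ≤ S := h2le i
  have hS'0 : 0 ≤ S' := h2nn i
  have hPQ : P ≤ Q := by
    apply integral_mono j4 (hi4 i)
    intro z
    simp only
    have h7 : (0 : ℝ) ≤ f i z ^ 4 := Even.pow_nonneg ⟨2, by ring⟩ _
    have h8 : χ z * ψ z ≤ ψ z := by nlinarith [(hχ1 z).2, hψ0 z]
    exact mul_le_mul_of_nonneg_right h8 h7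
  have hP0 : 0 ≤ P := integral_nonneg fun z =>
    mul_nonneg (mul_nonneg (hχ1 z).1 (hψ0 z)) (Even.pow_nonneg ⟨2, by ring⟩ _)
  have hT0 : 0 ≤ T := integral_nonneg fun z =>
    mul_nonneg (mul_nonneg (hχ1 z).1 (hψ0 z)) (sq_nonneg _)
  have hTS : T ≤ S' := by
    apply integral_mono j2 (hi2 i)
    intro z
    simp only
    have h8 : χ z * ψ z ≤ ψ z := by nlinarith [(hχ1 z).2, hψ0 z]
    exact mul_le_mul_of_nonneg_right h8 (sq_nonneg _)
  have hAP : (∫ z in ModularGroup.fdo, χ z * ψ z) * P ≤ A * Q :=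
    mul_le_mul hχA hPQ hP0 hA0
  by_contra hcon
  push Not at hcon
  -- the fourth moment is bounded
  have hQC : Q ≤ C := by
    rw [hC, le_div_iff₀ hA1]
    have h1 : S' ^ 2 ≤ S ^ 2 := pow_le_pow_left₀ hS'0 hS'S 2
    nlinarith
  -- the error
  have hST : S' - T ≤ 2 * e := by
    have i4 : IntegrableOn (fun z : ℍ => (1 - χ z) * ψ z) ModularGroup.fdo :=
      integrableOn_fdo ((continuous_const.sub hχc).mul hψc) (fun z hz h => by
        rw [hYo z hz h]; simp)
    have i3 : IntegrableOn (fun z : ℍ => η * (ψ z * f i z ^ 4) +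
        1 / (4 * η) * ((1 - χ z) * ψ z)) ModularGroup.fdo :=
      ((hi4 i).const_mul η).add (i4.const_mul _)
    calc S' - T = ∫ z in ModularGroup.fdo, (ψ z * f i z ^ 2 - χ z * ψ z * f i z ^ 2) := by
          rw [integral_sub (hi2 i) j2]
      _ ≤ ∫ z in ModularGroup.fdo, (η * (ψ z * f i z ^ 4) + 1 / (4 * η) * ((1 - χ z) * ψ z)) := by
          apply integral_mono ((hi2 i).sub j2) i3
          intro z
          simp only [Pi.sub_apply]
          have c1 : 0 ≤ 1 - χ z := by linarith [(hχ1 z).2]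
          have c2 : 1 - χ z ≤ 1 := by linarith [(hχ1 z).1]
          have c3 : f i z ^ 2 ≤ η * f i z ^ 4 + 1 / (4 * η) := sq_le hη0
          have c7 : 0 ≤ (1 - χ z) * ψ z := mul_nonneg c1 (hψ0 z)
          have c6 : (0 : ℝ) ≤ f i z ^ 4 := Even.pow_nonneg ⟨2, rfl⟩ _
          have c8 : 0 ≤ η * (ψ z * f i z ^ 4) := mul_nonneg hη0.le (mul_nonneg (hψ0 z) c6)
          have c9 := mul_le_mul_of_nonneg_right c2 c8
          calc ψ z * f i z ^ 2 - χ z * ψ z * f i z ^ 2 = (1 - χ z) * ψ z * f i z ^ 2 := by ring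
            _ ≤ (1 - χ z) * ψ z * (η * f i z ^ 4 + 1 / (4 * η)) :=
                mul_le_mul_of_nonneg_left c3 c7
            _ = (1 - χ z) * (η * (ψ z * f i z ^ 4)) + 1 / (4 * η) * ((1 - χ z) * ψ z) := by ring
            _ ≤ η * (ψ z * f i z ^ 4) + 1 / (4 * η) * ((1 - χ z) * ψ z) := by linarith
      _ = η * Q + 1 / (4 * η) * ∫ z in ModularGroup.fdo, (1 - χ z) * ψ z := by
          rw [integral_add ((hi4 i).const_mul η) (i4.const_mul _), integral_const_mul,
            integral_const_mul]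
      _ ≤ η * C + 1 / (4 * η) * (4 * η * e) := by
          have d1 : η * Q ≤ η * C := mul_le_mul_of_nonneg_left hQC hη0.le
          have d2 : 1 / (4 * η) * (∫ z in ModularGroup.fdo, (1 - χ z) * ψ z) ≤
            1 / (4 * η) * (4 * η * e) := mul_le_mul_of_nonneg_left herr (by positivity)
          linarith
      _ = 2 * e := by
          have e1 : η * C = e := by rw [hη]; field_simp
          have e2 : 1 / (4 * η) * (4 * η * e) = e := by field_simp
          rw [e1, e2]; ring
  have heS : e * S = ε / 12 := by rw [he]; field_simp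
  have hsq : S' ^ 2 - T ^ 2 ≤ 2 * e * (2 * S) := by
    have h1 : S' ^ 2 - T ^ 2 = (S' - T) * (S' + T) := by ring
    rw [h1]
    apply mul_le_mul hST (by linarith) (by linarith) (by positivity)
  nlinarith

end X2

theorem stmtX2 : StmtX2 := fun f t hf =>
  ⟨fun ρ hρ hE => X2.finalGen f t hf ρ hρ hE, fun hR => X2.finalRatio f t hf hR⟩

end

end Pool.Agent.A54
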