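import Pool.Agent.Lib.MP_a54f13_nt.Spec2
import Pool.Agent.Lib.MP_a54f13_nt.Half

/-!
From the local theorems to the upper half-plane, second version: general weak limits.
-/

set_option autoImplicit false

namespace Pool.Agent.A54

open MeasureTheory Filter Topology Set
open scoped ContDiff ComplexConjugate UpperHalfPlane MatrixGroups NNReal ENNReal

noncomputable section

namespace Half2

open Half

/-- the extension of a complex valued function -/
def extC (ρ : ℍ → ℂ) (z : ℂ) : ℂ := ρ (UpperHalfPlane.ofComplex z)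

lemma extC_coe (ρ : ℍ → ℂ) (z : ℍ) : extC ρ (z : ℂ) = ρ z := by
  unfold extC
  rw [UpperHalfPlane.ofComplex_apply]

/-- the local weak limits -/
def rC (ρ : ℕ → ℍ → ℂ) (n : ℕ) (z : ℂ) : ℂ := ((z.im : ℂ)⁻¹) ^ n * extC (ρ n) z

lemma isCompact_pre {K : Set ℂ} (hK : IsCompact K) (hKH : K ⊆ H0) :
    IsCompact (UpperHalfPlane.coe ⁻¹' K) := by
  rw [UpperHalfPlane.isOpenEmbedding_coe.isInducing.isCompact_preimage_iff]
  · exact hK
  · intro z hz
    exact ⟨⟨z, hKH hz⟩, rfl⟩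

/-- on compact sets Lebesgue measure is bounded by the invariant measure -/
lemma restrict_le {K : Set ℍ} (hK : IsCompact K) :
    ∃ c : ℝ≥0∞, c ≠ ⊤ ∧ ((volume : Measure ℂ).comap UpperHalfPlane.coe).restrict K ≤
      c • (volume : Measure ℍ).restrict K := by
  obtain ⟨B, hB⟩ := hK.bddAbove_image (UpperHalfPlane.continuous_im.continuousOn (s := K))
  have hB' : ∀ z ∈ K, z.im ≤ max B 0 := fun z hz =>
    (hB (mem_image_of_mem _ hz)).trans (le_max_left _ _)
  set b : ℝ≥0 := ⟨max B 0, le_max_right _ _⟩ with hb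
  have hmeas : Measurable (fun z : ℍ => (1 / NNReal.mk z.im z.im_pos.le : ℝ≥0) ^ 2) := by
    have h1 : Measurable (fun z : ℍ => NNReal.mk z.im z.im_pos.le) :=
      (UpperHalfPlane.continuous_im.subtype_mk _).measurable
    exact (h1.const_div 1).pow_const 2
  refine ⟨((b ^ 2 : ℝ≥0) : ℝ≥0∞), ENNReal.coe_ne_top, ?_⟩
  rw [Measure.le_iff]
  intro s hs
  have hKm : MeasurableSet K := hK.isClosed.measurableSet
  have hsK : MeasurableSet (s ∩ K) := hs.inter hKm
  rw [Measure.restrict_apply hs, Measure.smul_apply, Measure.restrict_apply hs, smul_eq_mul,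
    UpperHalfPlane.volume_def, withDensity_apply _ hsK,
    ← lintegral_const_mul _ hmeas.coe_nnreal_ennreal]
  have h1 : ((volume : Measure ℂ).comap UpperHalfPlane.coe) (s ∩ K) =
      ∫⁻ _z in s ∩ K, 1 ∂((volume : Measure ℂ).comap UpperHalfPlane.coe) := by
    rw [setLIntegral_one]
  rw [h1]
  refine setLIntegral_mono' hsK ?_
  intro z hz
  rw [← ENNReal.coe_mul, ← ENNReal.coe_one, ENNReal.coe_le_coe, ← NNReal.coe_le_coe]
  have hz0 : 0 < z.im := z.im_pos
  have hzb : z.im ≤ (b : ℝ) := hB' z hz.2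
  push_cast
  have h2 : (1 : ℝ) ≤ (b : ℝ) * (1 / z.im) := by
    rw [mul_one_div, le_div_iff₀ hz0]
    linarith
  have h3 : (b : ℝ) ^ 2 * (1 / z.im) ^ 2 = ((b : ℝ) * (1 / z.im)) ^ 2 := by ring
  show (1 : ℝ) ≤ (b : ℝ) ^ 2 * (1 / z.im) ^ 2
  rw [h3]
  exact one_le_pow₀ h2

/-- the local weak limits are locally square integrable -/
lemma l2loc {ρ : ℍ → ℂ} (h : ∀ K : Set ℍ, IsCompact K → MemLp ρ 2 (volume.restrict K))
    {V : Set ℂ} (hVH : V ⊆ H0) (n : ℕ) :
    L2loc V (fun z => ((z.im : ℂ)⁻¹) ^ n * extC ρ z) := by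
  intro K hK hKV
  have hKH : K ⊆ H0 := hKV.trans hVH
  have hKc := isCompact_pre hK hKH
  obtain ⟨c, hc, hle⟩ := restrict_le hKc
  have h1 : MemLp ρ 2 (((volume : Measure ℂ).comap UpperHalfPlane.coe).restrict
      (UpperHalfPlane.coe ⁻¹' K)) := (h _ hKc).of_measure_le_smul hc hle
  have h2 : MemLp (extC ρ) 2 (volume.restrict K) := by
    have e : (volume : Measure ℂ).restrict K = Measure.map UpperHalfPlane.coe
        (((volume : Measure ℂ).comap UpperHalfPlane.coe).restrict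
          (UpperHalfPlane.coe ⁻¹' K)) := by
      rw [← UpperHalfPlane.measurableEmbedding_coe.restrict_map,
        UpperHalfPlane.measurableEmbedding_coe.map_comap,
        Measure.restrict_restrict hK.measurableSet, inter_eq_left.mpr]
      intro z hz
      exact ⟨⟨z, hKH hz⟩, rfl⟩
    rw [e, UpperHalfPlane.measurableEmbedding_coe.memLp_map_measure_iff]
    have e2 : extC ρ ∘ UpperHalfPlane.coe = ρ := funext (extC_coe ρ)
    rw [e2]
    exact h1
  have hcont : ContinuousOn (fun z : ℂ => ((z.im : ℂ)⁻¹) ^ n) K := by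
    refine ContinuousOn.pow (ContinuousOn.inv₀ ?_ ?_) n
    · exact (Complex.continuous_ofReal.comp Complex.continuous_im).continuousOn
    · intro z hz
      have : z.im ≠ 0 := ne_of_gt (hKH hz)
      exact_mod_cast this
  obtain ⟨C, hC⟩ := hK.exists_bound_of_continuousOn hcont
  have hm : Measurable (fun z : ℂ => ((z.im : ℂ)⁻¹) ^ n) :=
    ((Complex.measurable_ofReal.comp Complex.measurable_im).inv).pow_const n
  refine h2.of_le_mul (c := C) (hm.aestronglyMeasurable.mul h2.1) ?_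
  refine ae_restrict_of_forall_mem hK.measurableSet ?_
  intro z hz
  rw [norm_mul]
  exact mul_le_mul_of_nonneg_right (hC z hz) (norm_nonneg _)

/-- the weak limits of the localised forms -/
lemma mode (hI : StmtInt) {χ : ℂ → ℝ} (hχ : TestR H0 χ) {V : Set ℂ} (hV : IsOpen V)
    (hVH : V ⊆ H0) (h1 : ∀ z ∈ V, χ z = 1) {f : ℕ → ℍ → ℝ} {t : ℕ → ℝ}
    (hf : ∀ i, IsHeckeMaass (f i) (t i)) {ρ : ℕ → ℍ → ℂ} (hm : ModeLim f t ρ) (n : ℕ)
    (φ : ℂ → ℂ) (hφ : Test V φ) :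
    Tendsto (fun i => ∫ z, φ z * ((ff χ (f i) z : ℂ) * gg (hh (t i)) (ff χ (f i)) n z)) atTop
      (𝓝 (∫ z, φ z * rC ρ n z)) := by
  have hφH : Test H0 φ := ⟨hφ.smooth, hφ.cpt, hφ.sub.trans hVH⟩
  set ψ : ℂ → ℂ := fun z => φ z * (((z.im) ^ 2 * ((z.im)⁻¹) ^ n : ℝ) : ℂ) with hψ
  have hψT : Test H0 ψ := test_mul isOpen_H0 hφH hφH.sub (contDiffOn_weightC 2 n)
  have key := hm.2 n ψ hψT
  have hlim : ∫ z : ℍ, ψ z * ρ n z = ∫ z, φ z * rC ρ n z := by
    have e0 : ∫ z : ℍ, ψ z * ρ n z = ∫ z : ℍ, ψ z * extC (ρ n) z := by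
      apply integral_congr_ae
      refine Filter.Eventually.of_forall fun z => ?_
      simp only [extC_coe]
    rw [e0, hI.2 (fun z => ψ z * extC (ρ n) z)
      (fun z hz => by rw [hψT.eq_zero (not_lt.mpr hz), zero_mul])]
    apply integral_congr_ae
    refine Filter.Eventually.of_forall fun z => ?_
    by_cases hz : z ∈ H0
    · have hne : (z.im : ℂ) ≠ 0 := by
        exact_mod_cast (ne_of_gt hz)
      simp only [hψ, rC]
      push_cast
      field_simp
    · simp only [hψT.eq_zero hz, hφH.eq_zero hz, zero_mul, zero_div]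
  rw [hlim] at key
  refine key.congr fun i => ?_
  have hs := ff_smooth hχ (hf i).smooth
  have hF0 : ∀ z : ℂ, z.im ≤ 0 → ψ z * ((ext (f i) z : ℂ) *
      ((z.im : ℂ) ^ n * (dz^[n] (fun w => (ext (f i) w : ℂ))) z)) = 0 := by
    intro z hz
    rw [hψT.eq_zero (not_lt.mpr hz), zero_mul]
  have e1 := hI.2 _ hF0
  have e2 : ∫ z : ℍ, ψ z * (f i z * ((z.im : ℂ) ^ n * (dz^[n] (fun w => (ext (f i) w : ℂ))) z)) =
      ∫ z : ℍ, ψ z * ((ext (f i) z : ℂ) *
      (((z : ℂ).im : ℂ) ^ n * (dz^[n] (fun w => (ext (f i) w : ℂ))) z)) := by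
    apply integral_congr_ae
    refine Filter.Eventually.of_forall fun z => ?_
    simp only [ext_coe, UpperHalfPlane.coe_im]
  rw [e2, e1, ← integral_const_mul]
  apply integral_congr_ae
  refine Filter.Eventually.of_forall fun z => ?_
  by_cases hz : z ∈ V
  · have hzim : 0 < z.im := hVH hz
    have hne : (z.im : ℂ) ≠ 0 := by
      exact_mod_cast hzim.ne'
    have hc : ∀ w ∈ V, (ff χ (f i) w : ℂ) = (ext (f i) w : ℂ) := by
      intro w hw
      unfold ff
      rw [h1 w hw, one_mul]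
    have e3 := iter_congr hV hc n z hz
    simp only
    rw [gg_eq hs, e3, hc z hz]
    simp only [hψ, hh]
    push_cast
    have e4 : (z.im : ℂ) ^ n * ((z.im : ℂ)⁻¹) ^ n = 1 := by
      rw [← mul_pow, mul_inv_cancel₀ hne, one_pow]
    have e5 : (z.im : ℂ) ^ 2 / (z.im : ℂ) ^ 2 = 1 := div_self (pow_ne_zero 2 hne)
    calc _ = φ z * ((ext (f i) z : ℂ) * (((Real.sqrt (1 / 4 + t i ^ 2) : ℝ) : ℂ)⁻¹ ^ n *
          (dz^[n] (fun w => (ext (f i) w : ℂ))) z)) *
          ((z.im : ℂ) ^ n * ((z.im : ℂ)⁻¹) ^ n) * ((z.im : ℂ) ^ 2 / (z.im : ℂ) ^ 2) := by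
          ring
      _ = _ := by rw [e4, e5, mul_one, mul_one]
  · have hz0 : φ z = 0 := hφ.eq_zero hz
    simp only [hψ, hz0, zero_mul, zero_div, mul_zero]

/-- the sequence of localised forms -/
lemma seq (hL : StmtLap) {χ : ℂ → ℝ} (hχ : TestR H0 χ)
    (h01 : ∀ z, 0 ≤ χ z ∧ χ z ≤ 1) {V : Set ℂ} (hV : IsOpen V)
    (hVH : V ⊆ H0) (h1 : ∀ z ∈ V, χ z = 1) {f : ℕ → ℍ → ℝ} {t : ℕ → ℝ}
    (hf : ∀ i, IsHeckeMaass (f i) (t i)) (ht : Tendsto t atTop atTop)
    {N : ℕ} (hN : ∀ i, N ≤ i → 1 ≤ t i) :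
    Seq V (qq χ) (fun i => hh (t (i + N))) (fun i => ff χ (f (i + N))) where
  pot := ⟨hV, qq_smooth hχ, qq_pos hχ h01⟩
  sol := fun i => sol hL hχ hV hVH h1 (hf _) (hN _ (Nat.le_add_left N i))
  lim := (hh_lim ht).comp (tendsto_add_atTop_nat N)

lemma sm (hI : StmtInt) (hL : StmtLap) {χ : ℂ → ℝ} (hχ : TestR H0 χ)
    (h01 : ∀ z, 0 ≤ χ z ∧ χ z ≤ 1) {V : Set ℂ} (hV : IsOpen V)
    (hVH : V ⊆ H0) (h1 : ∀ z ∈ V, χ z = 1) {f : ℕ → ℍ → ℝ} {t : ℕ → ℝ}
    (hf : ∀ i, IsHeckeMaass (f i) (t i)) (ht : Tendsto t atTop atTop)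
    {ρ : ℕ → ℍ → ℂ} (hm : ModeLim f t ρ) {N : ℕ} (hN : ∀ i, N ≤ i → 1 ≤ t i) :
    Sm V (qq χ) (fun i => hh (t (i + N))) (fun i => ff χ (f (i + N))) (rC ρ) where
  toSeq := seq hL hχ h01 hV hVH h1 hf ht hN
  loc := fun n => l2loc (hm.1 n) hVH n
  mode := fun n φ hφ => (mode hI hχ hV hVH h1 hf hm n φ hφ).comp (tendsto_add_atTop_nat N)

/-- the densities -/
lemma pp_eq {χ : ℂ → ℝ} {V : Set ℂ} (hVH : V ⊆ H0) (h1 : ∀ z ∈ V, χ z = 1)
    (ρ : ℕ → ℍ → ℂ) (n : ℕ) {z : ℂ} (hz : z ∈ V) :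
    pp (qq χ) (rC ρ) n z = ‖extC (ρ n) z‖ ^ 2 := by
  have hzim : 0 < z.im := hVH hz
  have e7 : qq χ z = (z.im)⁻¹ ^ 2 := by
    unfold qq
    rw [h1 z hz]
    ring
  unfold pp rC
  rw [e7, norm_mul, norm_pow, norm_inv, Complex.norm_real, Real.norm_eq_abs, abs_of_pos hzim]
  have hne : z.im ≠ 0 := hzim.ne'
  have h2 : ((z.im)⁻¹ ^ 2) ^ n ≠ 0 := by positivity
  rw [mul_pow, ← pow_mul, ← pow_mul, mul_comm n 2, mul_div_assoc, mul_div_left_comm,
    div_self (by positivity), mul_one]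

/-- the open fundamental domain -/
lemma isOpen_Ofd : IsOpen Ofd := by
  have h1 : IsOpen {z : ℂ | 0 < z.im} := isOpen_lt continuous_const Complex.continuous_im
  have h2 : IsOpen {z : ℂ | 1 < Complex.normSq z} :=
    isOpen_lt continuous_const Complex.continuous_normSq
  have h3 : IsOpen {z : ℂ | |z.re| < 1 / 2} :=
    isOpen_lt (continuous_abs.comp Complex.continuous_re) continuous_const
  have h4 : Ofd = {z : ℂ | 0 < z.im} ∩ ({z : ℂ | 1 < Complex.normSq z} ∩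
      {z : ℂ | |z.re| < 1 / 2}) := rfl
  rw [h4]
  exact h1.inter (h2.inter h3)

lemma Ofd_sub : Ofd ⊆ H0 := fun _ hz => hz.1

/-- everything needed around a test function supported in an open subset of the half-plane -/
lemma setupU {U : Set ℂ} (hU : IsOpen U) (hUH : U ⊆ H0) {φ : ℂ → ℝ} (hφ : TestR U φ) :
    ∃ (χ : ℂ → ℝ) (V : Set ℂ), TestR H0 χ ∧
    (∀ z, 0 ≤ χ z ∧ χ z ≤ 1) ∧ IsOpen V ∧ V ⊆ U ∧ (∀ z ∈ V, χ z = 1) ∧ tsupport φ ⊆ V := by
  obtain ⟨χ, hχ, h01, hev⟩ := exists_cutoff hφ.cpt.isCompact hU hφ.sub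
  have hi : tsupport φ ⊆ interior {z | χ z = 1} := by
    intro z hz
    rw [mem_interior_iff_mem_nhds]
    exact (mem_nhdsSet_iff_forall.mp hev) z hz
  refine ⟨χ, interior {z | χ z = 1}, ⟨hχ.smooth, hχ.cpt, hχ.sub.trans hUH⟩, h01,
    isOpen_interior, ?_, ?_, hi⟩
  · intro z hz
    have h1' : z ∈ {z | χ z = 1} := interior_subset hz
    have h1 : χ z = 1 := h1'
    by_contra hz0
    rw [hχ.eq_zero hz0] at h1
    exact zero_ne_one h1
  · intro z hz
    have h1' : z ∈ {z | χ z = 1} := interior_subset hz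
    exact h1'

lemma measurableSet_fdo : MeasurableSet ModularGroup.fdo := by
  have h : ModularGroup.fdo = UpperHalfPlane.coe ⁻¹' Ofd := by
    ext z
    constructor
    · intro hz
      exact ⟨z.im_pos, hz.1, hz.2⟩
    · intro hz
      exact ⟨hz.2.1, hz.2.2⟩
  rw [h]
  exact UpperHalfPlane.measurable_coe isOpen_Ofd.measurableSet

/-- bounds for the second moments -/
lemma l2 (hI : StmtInt) {χ : ℂ → ℝ} {V : Set ℂ} (hVO : V ⊆ Ofd) (h1 : ∀ z ∈ V, χ z = 1)
    {f : ℕ → ℍ → ℝ} {t : ℕ → ℝ} (hf : ∀ i, IsHeckeMaass (f i) (t i)) :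
    L2Bdd V (fun i => ff χ (f i)) := by
  intro ζ hζ
  have hVH : V ⊆ H0 := hVO.trans Ofd_sub
  have hwc : Continuous (fun z : ℂ => ζ z ^ 2 * z.im ^ 2) :=
    (hζ.smooth.continuous.pow 2).mul (Complex.continuous_im.pow 2)
  have hws : HasCompactSupport (fun z : ℂ => ζ z ^ 2 * z.im ^ 2) := by
    have h4 : HasCompactSupport (fun z : ℂ => ζ z ^ 2) := by
      have := hζ.cpt.comp_left (g := fun x : ℝ => x ^ 2) (by simp)
      exact this
    exact h4.mul_right
  obtain ⟨M, hM⟩ := hws.exists_bound_of_continuous hwc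
  have hM0 : 0 ≤ M := (norm_nonneg _).trans (hM 0)
  refine ⟨M * (Real.pi / 3), fun i => ?_⟩
  have hint : IntegrableOn (fun z : ℍ => f i z ^ 2) ModularGroup.fdo := by
    by_contra hn
    have h2 := (hf i).normalised
    rw [integral_undef hn] at h2
    have h3 : 0 < Real.pi / 3 := by positivity
    rw [← h2] at h3
    exact lt_irrefl _ h3
  have hKm := measurableSet_fdo
  have h0 : ∀ z : ℂ, z.im ≤ 0 → (ζ z ^ 2 * z.im ^ 2) * ext (f i) z ^ 2 = 0 := by
    intro z hz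
    rw [hζ.eq_zero (fun h => (not_lt.mpr hz) (hVH h))]
    simp
  have e1 := hI.1 _ h0
  have e2 : ∫ z : ℂ, ζ z ^ 2 * ff χ (f i) z ^ 2 =
      ∫ z : ℂ, (ζ z ^ 2 * z.im ^ 2) * ext (f i) z ^ 2 / z.im ^ 2 := by
    apply integral_congr_ae
    refine Filter.Eventually.of_forall fun z => ?_
    by_cases hz : z ∈ V
    · have hne : z.im ≠ 0 := ne_of_gt (hVH hz)
      simp only [ff, h1 z hz, one_mul]
      field_simp
    · simp [hζ.eq_zero hz]
  calc ∫ z : ℂ, ζ z ^ 2 * ff χ (f i) z ^ 2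
      = ∫ z : ℍ, (ζ z ^ 2 * (z : ℂ).im ^ 2) * ext (f i) z ^ 2 := by rw [e2, e1]
    _ ≤ ∫ z : ℍ, ModularGroup.fdo.indicator (fun z => M * f i z ^ 2) z := by
        apply integral_mono_of_nonneg
        · refine Filter.Eventually.of_forall fun z => ?_
          simp only [Pi.zero_apply]
          positivity
        · rw [integrable_indicator_iff hKm]
          exact hint.const_mul M
        · refine Filter.Eventually.of_forall fun z => ?_
          simp only [ext_coe]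
          by_cases hz : z ∈ ModularGroup.fdo
          · rw [Set.indicator_of_mem hz]
            have hb := hM (z : ℂ)
            have hb' : ζ z ^ 2 * (z : ℂ).im ^ 2 ≤ M := (Real.le_norm_self _).trans hb
            exact mul_le_mul_of_nonneg_right hb' (by positivity)
          · rw [Set.indicator_of_notMem hz]
            have : ζ (z : ℂ) = 0 := by
              apply hζ.eq_zero
              intro hzV
              exact hz ⟨(hVO hzV).2.1, (hVO hzV).2.2⟩
            rw [this]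
            simp
    _ = M * ∫ z in ModularGroup.fdo, f i z ^ 2 := by
        rw [integral_indicator hKm, integral_const_mul]
    _ = M * (Real.pi / 3) := by rw [(hf i).normalised]

end Half2

/-- from the local theorems to the half-plane -/
theorem stmtHalf2 (hI : StmtInt) (hL : StmtLap) : StmtHalf2 := by
  intro hG hR f t hf ht
  obtain ⟨N, hN⟩ := Half.exists_N ht
  constructor
  · intro ρ hm φ hφ hφ0 M hM ε hε
    obtain ⟨χ, V, hχ, h01, hV, hVH, h1, hsub⟩ := Half.setup hφ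
    have hφV : TestR V φ := ⟨hφ.smooth, hφ.cpt, hsub⟩
    have hS := Half2.sm hI hL hχ h01 hV hVH h1 hf ht hm hN
    have h := hG V _ _ _ _ hS (fun z => φ z * (z.im)⁻¹ ^ 2) (Half.testR_weight hVH hφV)
      (fun z => mul_nonneg (hφ0 z) (sq_nonneg _)) M hM ε hε
    refine Half.ev_shift N ?_
    filter_upwards [h] with i hi
    rw [Half.int_eq hI hVH h1 hφV]
    refine le_trans (le_of_eq ?_) hi
    congr 1
    have h0 : ∀ z : ℂ, z.im ≤ 0 → φ z * (3 * ‖Half2.extC (ρ 0) z‖ ^ 2 -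
      3 / (2 * (2 * (M : ℝ)) ^ 2) * pairSum (fun n => ‖Half2.extC (ρ n) z‖ ^ 2) (2 * M)) = 0 := by
      intro z hz
      rw [hφV.eq_zero (fun h => (not_lt.mpr hz) (hVH h)), zero_mul]
    have e1 := hI.1 _ h0
    have e2 : ∫ z : ℍ, φ z * (3 * ‖ρ 0 z‖ ^ 2 -
        3 / (2 * (2 * (M : ℝ)) ^ 2) * pairSum (fun n => ‖ρ n z‖ ^ 2) (2 * M)) =
        ∫ z : ℍ, φ z * (3 * ‖Half2.extC (ρ 0) z‖ ^ 2 -
      3 / (2 * (2 * (M : ℝ)) ^ 2) * pairSum (fun n => ‖Half2.extC (ρ n) z‖ ^ 2) (2 * M)) := by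
      apply integral_congr_ae
      refine Filter.Eventually.of_forall fun z => ?_
      simp only [Half2.extC_coe]
    rw [e2, e1]
    apply integral_congr_ae
    refine Filter.Eventually.of_forall fun z => ?_
    by_cases hz : z ∈ V
    · simp only [Half2.pp_eq hVH h1 ρ _ hz]
      ring
    · simp only [hφV.eq_zero hz, zero_mul, zero_div]
  · intro φ hφ hφ0 ε hε
    obtain ⟨χ, V, hχ, h01, hV, hVO, h1, hsub⟩ := Half2.setupU Half2.isOpen_Ofd Half2.Ofd_sub hφ
    have hVH : V ⊆ Half.H0 := hVO.trans Half2.Ofd_sub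
    have hφV : TestR V φ := ⟨hφ.smooth, hφ.cpt, hsub⟩
    have hS := Half2.seq hL hχ h01 hV hVH h1 hf ht hN
    have hb : L2Bdd V (fun i => Half.ff χ (f (i + N))) :=
      Half2.l2 hI hVO h1 (fun i => hf (i + N))
    have h := hR V _ _ _ hS hb (fun z => φ z * (z.im)⁻¹ ^ 2) (Half.testR_weight hVH hφV)
      (fun z => mul_nonneg (hφ0 z) (sq_nonneg _)) ε hε
    refine Half.ev_shift N ?_
    filter_upwards [h] with i hi
    rw [Half.int_eq_one hI hVH hφV, Half.int_eq hI hVH h1 hφV, Half.int_eq hI hVH h1 hφV]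
    exact hi

end

end Pool.Agent.A54
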