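import Pool.Agent.Lib.MP_a54f13_nt.Defs

/-!
Calculus rules for `∂`, `∂̄`.
-/

set_option autoImplicit false

namespace Pool.Agent.A54

open MeasureTheory Filter Topology Set
open scoped ContDiff ComplexConjugate

noncomputable section

variable {V : Set ℂ} {a b g : ℂ → ℂ} {z : ℂ}

lemma contDiff_apply (hg : ContDiff ℝ ∞ g) (v : ℂ) : ContDiff ℝ ∞ (fun z => fderiv ℝ g z v) :=
  (hg.fderiv_right (m := ∞) (by simp)).clm_apply contDiff_const

lemma contDiff_dz (hg : ContDiff ℝ ∞ g) : ContDiff ℝ ∞ (dz g) :=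
  (contDiff_apply hg 1).sub (contDiff_const.mul (contDiff_apply hg Complex.I))

lemma contDiff_dzb (hg : ContDiff ℝ ∞ g) : ContDiff ℝ ∞ (dzb g) :=
  (contDiff_apply hg 1).add (contDiff_const.mul (contDiff_apply hg Complex.I))

lemma contDiff_ofReal {f : ℂ → ℝ} (hf : ContDiff ℝ ∞ f) : ContDiff ℝ ∞ (fun z => (f z : ℂ)) :=
  Complex.ofRealCLM.contDiff.comp hf

lemma contDiff_conj (hg : ContDiff ℝ ∞ g) : ContDiff ℝ ∞ (fun z => conj (g z)) :=
  Complex.conjCLE.contDiff.comp hg

lemma contDiff_gg {f : ℂ → ℝ} (hf : ContDiff ℝ ∞ f) (h : ℝ) (n : ℕ) : ContDiff ℝ ∞ (gg h f n) := by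
  induction n with
  | zero => exact contDiff_ofReal hf
  | succ n ih => exact contDiff_const.mul (contDiff_dz ih)

lemma gg_succ (h : ℝ) (f : ℂ → ℝ) (n : ℕ) (z : ℂ) :
    gg h f (n + 1) z = (h : ℂ) * dz (gg h f n) z := rfl

lemma gg_zero (h : ℝ) (f : ℂ → ℝ) (z : ℂ) : gg h f 0 z = (f z : ℂ) := rfl

lemma diffAt (hg : ContDiff ℝ ∞ g) : DifferentiableAt ℝ g z :=
  (hg.differentiable (by simp)).differentiableAt

lemma dz_congr (hV : IsOpen V) (h : ∀ w ∈ V, a w = b w) (hz : z ∈ V) : dz a z = dz b z := by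
  have : a =ᶠ[𝓝 z] b := eventually_of_mem (hV.mem_nhds hz) h
  unfold dz
  rw [this.fderiv_eq]

lemma dzb_congr (hV : IsOpen V) (h : ∀ w ∈ V, a w = b w) (hz : z ∈ V) : dzb a z = dzb b z := by
  have : a =ᶠ[𝓝 z] b := eventually_of_mem (hV.mem_nhds hz) h
  unfold dzb
  rw [this.fderiv_eq]

lemma dz_add (ha : ContDiff ℝ ∞ a) (hb : ContDiff ℝ ∞ b) :
    dz (fun w => a w + b w) z = dz a z + dz b z := by
  unfold dz
  rw [fderiv_fun_add (diffAt ha) (diffAt hb)]
  simp only [add_apply]
  ring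

lemma dzb_add (ha : ContDiff ℝ ∞ a) (hb : ContDiff ℝ ∞ b) :
    dzb (fun w => a w + b w) z = dzb a z + dzb b z := by
  unfold dzb
  rw [fderiv_fun_add (diffAt ha) (diffAt hb)]
  simp only [add_apply]
  ring

lemma dz_sub (ha : ContDiff ℝ ∞ a) (hb : ContDiff ℝ ∞ b) :
    dz (fun w => a w - b w) z = dz a z - dz b z := by
  unfold dz
  rw [fderiv_fun_sub (diffAt ha) (diffAt hb)]
  simp only [sub_apply]
  ring

lemma dzb_sub (ha : ContDiff ℝ ∞ a) (hb : ContDiff ℝ ∞ b) :
    dzb (fun w => a w - b w) z = dzb a z - dzb b z := by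
  unfold dzb
  rw [fderiv_fun_sub (diffAt ha) (diffAt hb)]
  simp only [sub_apply]
  ring

lemma dz_mul (ha : ContDiff ℝ ∞ a) (hb : ContDiff ℝ ∞ b) :
    dz (fun w => a w * b w) z = dz a z * b z + a z * dz b z := by
  unfold dz
  rw [fderiv_fun_mul (diffAt ha) (diffAt hb)]
  simp only [add_apply, smul_apply, smul_eq_mul]
  ring

lemma dzb_mul (ha : ContDiff ℝ ∞ a) (hb : ContDiff ℝ ∞ b) :
    dzb (fun w => a w * b w) z = dzb a z * b z + a z * dzb b z := by
  unfold dzb
  rw [fderiv_fun_mul (diffAt ha) (diffAt hb)]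
  simp only [add_apply, smul_apply, smul_eq_mul]
  ring

lemma dz_const (c : ℂ) : dz (fun _ => c) z = 0 := by
  unfold dz; simp

lemma dzb_const (c : ℂ) : dzb (fun _ => c) z = 0 := by
  unfold dzb; simp

lemma dz_const_mul (c : ℂ) (ha : ContDiff ℝ ∞ a) :
    dz (fun w => c * a w) z = c * dz a z := by
  rw [dz_mul contDiff_const ha, dz_const]; ring

lemma dzb_const_mul (c : ℂ) (ha : ContDiff ℝ ∞ a) :
    dzb (fun w => c * a w) z = c * dzb a z := by
  rw [dzb_mul contDiff_const ha, dzb_const]; ring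

lemma dz_neg (ha : ContDiff ℝ ∞ a) : dz (fun w => -a w) z = -dz a z := by
  have := dz_const_mul (z := z) (-1) ha
  simpa using this

lemma dzb_neg (ha : ContDiff ℝ ∞ a) : dzb (fun w => -a w) z = -dzb a z := by
  have := dzb_const_mul (z := z) (-1) ha
  simpa using this

lemma fderiv_conj_apply (hg : ContDiff ℝ ∞ g) (v : ℂ) :
    fderiv ℝ (fun w => conj (g w)) z v = conj (fderiv ℝ g z v) := by
  have h := (Complex.conjCLE.toContinuousLinearMap.hasFDerivAt (x := g z)).comp z
    (diffAt (z := z) hg).hasFDerivAt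
  have h2 : HasFDerivAt (fun w => conj (g w))
    ((Complex.conjCLE.toContinuousLinearMap).comp (fderiv ℝ g z)) z := h
  rw [h2.fderiv]
  rfl

lemma dz_conj (hg : ContDiff ℝ ∞ g) : dz (fun w => conj (g w)) z = conj (dzb g z) := by
  unfold dz dzb
  rw [fderiv_conj_apply hg, fderiv_conj_apply hg]
  simp only [map_add, map_mul, Complex.conj_I]
  ring

lemma dzb_conj (hg : ContDiff ℝ ∞ g) : dzb (fun w => conj (g w)) z = conj (dz g z) := by
  unfold dz dzb
  rw [fderiv_conj_apply hg, fderiv_conj_apply hg]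
  simp only [map_sub, map_mul, Complex.conj_I]
  ring

lemma fderiv_fderiv_comm (hg : ContDiff ℝ ∞ g) (u v : ℂ) :
    fderiv ℝ (fun w => fderiv ℝ g w u) z v = fderiv ℝ (fun w => fderiv ℝ g w v) z u := by
  have hd : DifferentiableAt ℝ (fderiv ℝ g) z :=
    ((hg.fderiv_right (m := ∞) (by simp)).differentiable (by simp)).differentiableAt
  rw [fderiv_clm_apply hd (differentiableAt_const u), fderiv_clm_apply hd (differentiableAt_const v)]
  simp only [fderiv_fun_const, Pi.zero_apply, ContinuousLinearMap.comp_zero, zero_add,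
    ContinuousLinearMap.flip_apply]
  have hs : IsSymmSndFDerivAt ℝ g z :=
    (hg.contDiffAt (x := z)).isSymmSndFDerivAt (by
      rw [minSmoothness_of_isRCLikeNormedField]
      exact WithTop.coe_le_coe.mpr (le_top : (2 : ℕ∞) ≤ ⊤))
  exact hs v u

lemma dz_dzb_comm (hg : ContDiff ℝ ∞ g) : dz (dzb g) z = dzb (dz g) z := by
  have h1 := contDiff_apply hg 1
  have hI := contDiff_apply hg Complex.I
  have e1 : dz (dzb g) z = dz (fun w => fderiv ℝ g w 1) z + Complex.I * dz (fun w => fderiv ℝ g w Complex.I) z := by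
    unfold dzb
    rw [dz_add h1 (contDiff_const.mul hI), dz_const_mul _ hI]
  have e2 : dzb (dz g) z = dzb (fun w => fderiv ℝ g w 1) z - Complex.I * dzb (fun w => fderiv ℝ g w Complex.I) z := by
    unfold dz
    rw [dzb_sub h1 (contDiff_const.mul hI), dzb_const_mul _ hI]
  rw [e1, e2]
  unfold dz dzb
  rw [fderiv_fderiv_comm hg 1 Complex.I]
  ring_nf

/-- The derivatives of a function vanish outside its support. -/
lemma fderiv_eq_zero_of_notMem {g : ℂ → ℂ} (hz : z ∉ tsupport g) : fderiv ℝ g z = 0 := by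
  by_contra h
  exact hz (support_fderiv_subset ℝ (by simpa using h))

lemma dz_eq_zero_of_notMem (hz : z ∉ tsupport g) : dz g z = 0 := by
  unfold dz; rw [fderiv_eq_zero_of_notMem hz]; simp

lemma dzb_eq_zero_of_notMem (hz : z ∉ tsupport g) : dzb g z = 0 := by
  unfold dzb; rw [fderiv_eq_zero_of_notMem hz]; simp

lemma tsupport_dz : tsupport (dz g) ⊆ tsupport g := by
  apply closure_minimal _ (isClosed_tsupport g)
  intro z hz
  by_contra h
  exact hz (dz_eq_zero_of_notMem h)

lemma tsupport_dzb : tsupport (dzb g) ⊆ tsupport g := by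
  apply closure_minimal _ (isClosed_tsupport g)
  intro z hz
  by_contra h
  exact hz (dzb_eq_zero_of_notMem h)

lemma hasCompactSupport_dz (hc : HasCompactSupport g) : HasCompactSupport (dz g) :=
  hc.isCompact.of_isClosed_subset (isClosed_tsupport _) tsupport_dz

lemma hasCompactSupport_dzb (hc : HasCompactSupport g) : HasCompactSupport (dzb g) :=
  hc.isCompact.of_isClosed_subset (isClosed_tsupport _) tsupport_dzb

/-! ### Test functions -/

lemma TestR.toTest {φ : ℂ → ℝ} (h : TestR V φ) : Test V (fun z => (φ z : ℂ)) where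
  smooth := contDiff_ofReal h.smooth
  cpt := h.cpt.comp_left (g := fun x : ℝ => (x : ℂ)) (by simp)
  sub := (tsupport_comp_subset (g := fun x : ℝ => (x : ℂ)) (by simp) φ).trans h.sub

lemma Test.mul_right {φ : ℂ → ℂ} (h : Test V φ) (hg : ContDiff ℝ ∞ g) :
    Test V (fun z => φ z * g z) where
  smooth := h.smooth.mul hg
  cpt := h.cpt.mul_right
  sub := (tsupport_mul_subset_left (f := φ) (g := g)).trans h.sub

lemma Test.mul_left {φ : ℂ → ℂ} (h : Test V φ) (hg : ContDiff ℝ ∞ g) :
    Test V (fun z => g z * φ z) where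
  smooth := hg.mul h.smooth
  cpt := h.cpt.mul_left
  sub := (tsupport_mul_subset_right (f := g) (g := φ)).trans h.sub

lemma Test.dz {φ : ℂ → ℂ} (h : Test V φ) : Test V (dz φ) where
  smooth := contDiff_dz h.smooth
  cpt := hasCompactSupport_dz h.cpt
  sub := tsupport_dz.trans h.sub

lemma Test.dzb {φ : ℂ → ℂ} (h : Test V φ) : Test V (dzb φ) where
  smooth := contDiff_dzb h.smooth
  cpt := hasCompactSupport_dzb h.cpt
  sub := tsupport_dzb.trans h.sub

lemma Test.conj {φ : ℂ → ℂ} (h : Test V φ) : Test V (fun z => conj (φ z)) where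
  smooth := contDiff_conj h.smooth
  cpt := h.cpt.comp_left (g := fun x : ℂ => (starRingEnd ℂ) x) (by simp)
  sub := (tsupport_comp_subset (g := fun x : ℂ => (starRingEnd ℂ) x) (by simp) φ).trans h.sub

lemma Test.integrable {φ : ℂ → ℂ} (h : Test V φ) : Integrable φ :=
  h.smooth.continuous.integrable_of_hasCompactSupport h.cpt

lemma Test.eq_zero {φ : ℂ → ℂ} (h : Test V φ) (hz : z ∉ V) : φ z = 0 :=
  image_eq_zero_of_notMem_tsupport fun h' => hz (h.sub h')

lemma TestR.integrable {φ : ℂ → ℝ} (h : TestR V φ) : Integrable φ :=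
  h.smooth.continuous.integrable_of_hasCompactSupport h.cpt

lemma TestR.eq_zero {φ : ℂ → ℝ} (h : TestR V φ) (hz : z ∉ V) : φ z = 0 :=
  image_eq_zero_of_notMem_tsupport fun h' => hz (h.sub h')

lemma TestR.mul_right {φ ψ : ℂ → ℝ} (h : TestR V φ) (hg : ContDiff ℝ ∞ ψ) :
    TestR V (fun z => φ z * ψ z) where
  smooth := h.smooth.mul hg
  cpt := h.cpt.mul_right
  sub := (tsupport_mul_subset_left (f := φ) (g := ψ)).trans h.sub

/-- A smooth cutoff function: equal to one near a compact set. -/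
lemma exists_cutoff {K : Set ℂ} (hK : IsCompact K) (hV : IsOpen V) (h : K ⊆ V) :
    ∃ ζ : ℂ → ℝ, TestR V ζ ∧ (∀ z, 0 ≤ ζ z ∧ ζ z ≤ 1) ∧ ∀ᶠ z in 𝓝ˢ K, ζ z = 1 := by
  obtain ⟨L, hL, hKL, hLV⟩ := exists_compact_between hK hV h
  obtain ⟨f, h1, h2, h3⟩ := exists_contMDiffMap_one_nhds_of_subset_interior
    (n := ⊤) (modelWithCornersSelf ℝ ℂ) hK.isClosed hKL
  have hsub : tsupport (f : ℂ → ℝ) ⊆ L := by
    apply closure_minimal _ hL.isClosed
    intro z hz
    by_contra hzL
    exact hz (h2 z hzL)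
  exact ⟨f, ⟨f.contMDiff.contDiff, hL.of_isClosed_subset (isClosed_tsupport _) hsub,
    hsub.trans hLV⟩, fun z => ⟨(h3 z).1, (h3 z).2⟩, h1⟩

/-! ### Integration by parts -/

lemma integrable_of_cpt {g : ℂ → ℂ} (hg : Continuous g) (hc : HasCompactSupport g) :
    Integrable g := hg.integrable_of_hasCompactSupport hc

lemma integral_mul_fderiv (ha : ContDiff ℝ ∞ a) (hb : ContDiff ℝ ∞ b)
    (hc : HasCompactSupport a ∨ HasCompactSupport b) (v : ℂ) :
    ∫ z, a z * fderiv ℝ b z v = -∫ z, fderiv ℝ a z v * b z := by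
  have h0 : ∀ {g : ℂ → ℂ}, HasCompactSupport g → HasCompactSupport (fun z => fderiv ℝ g z v) := by
    intro g hg
    exact hg.fderiv_apply ℝ v
  have ha' := (contDiff_apply ha v).continuous
  have hb' := (contDiff_apply hb v).continuous
  apply integral_mul_fderiv_eq_neg_fderiv_mul_of_integrable
  · rcases hc with hc | hc
    · exact integrable_of_cpt (ha'.mul hb.continuous) (h0 hc).mul_right
    · exact integrable_of_cpt (ha'.mul hb.continuous) hc.mul_left
  · rcases hc with hc | hc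
    · exact integrable_of_cpt (ha.continuous.mul hb') hc.mul_right
    · exact integrable_of_cpt (ha.continuous.mul hb') (h0 hc).mul_left
  · rcases hc with hc | hc
    · exact integrable_of_cpt (ha.continuous.mul hb.continuous) hc.mul_right
    · exact integrable_of_cpt (ha.continuous.mul hb.continuous) hc.mul_left
  · exact fun x _ => diffAt ha
  · exact fun x _ => diffAt hb

/-- integration by parts -/
lemma integral_mul_dz (ha : ContDiff ℝ ∞ a) (hb : ContDiff ℝ ∞ b)
    (hc : HasCompactSupport a ∨ HasCompactSupport b) :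
    ∫ z, a z * dz b z = -∫ z, dz a z * b z := by
  have h0 : ∀ {g : ℂ → ℂ} (v : ℂ), HasCompactSupport g →
      HasCompactSupport (fun z => fderiv ℝ g z v) := fun v hg => hg.fderiv_apply ℝ v
  have i1 : ∀ v, Integrable (fun z => a z * fderiv ℝ b z v) := fun v =>
    integrable_of_cpt (ha.continuous.mul (contDiff_apply hb v).continuous)
      (hc.elim (fun h => h.mul_right) (fun h => (h0 v h).mul_left))
  have i2 : ∀ v, Integrable (fun z => fderiv ℝ a z v * b z) := fun v =>
    integrable_of_cpt ((contDiff_apply ha v).continuous.mul hb.continuous)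
      (hc.elim (fun h => (h0 v h).mul_right) (fun h => h.mul_left))
  have e1 : ∀ z, a z * dz b z =
      a z * fderiv ℝ b z 1 - Complex.I * (a z * fderiv ℝ b z Complex.I) := by
    intro z; unfold dz; ring
  have e2 : ∀ z, dz a z * b z =
      fderiv ℝ a z 1 * b z - Complex.I * (fderiv ℝ a z Complex.I * b z) := by
    intro z; unfold dz; ring
  simp_rw [e1, e2]
  rw [integral_sub (i1 1) ((i1 Complex.I).const_mul _), integral_sub (i2 1) ((i2 Complex.I).const_mul _),
    integral_const_mul, integral_const_mul, integral_mul_fderiv ha hb hc, integral_mul_fderiv ha hb hc]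
  ring

lemma integral_mul_dzb (ha : ContDiff ℝ ∞ a) (hb : ContDiff ℝ ∞ b)
    (hc : HasCompactSupport a ∨ HasCompactSupport b) :
    ∫ z, a z * dzb b z = -∫ z, dzb a z * b z := by
  have h0 : ∀ {g : ℂ → ℂ} (v : ℂ), HasCompactSupport g →
      HasCompactSupport (fun z => fderiv ℝ g z v) := fun v hg => hg.fderiv_apply ℝ v
  have i1 : ∀ v, Integrable (fun z => a z * fderiv ℝ b z v) := fun v =>
    integrable_of_cpt (ha.continuous.mul (contDiff_apply hb v).continuous)
      (hc.elim (fun h => h.mul_right) (fun h => (h0 v h).mul_left))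
  have i2 : ∀ v, Integrable (fun z => fderiv ℝ a z v * b z) := fun v =>
    integrable_of_cpt ((contDiff_apply ha v).continuous.mul hb.continuous)
      (hc.elim (fun h => (h0 v h).mul_right) (fun h => h.mul_left))
  have e1 : ∀ z, a z * dzb b z =
      a z * fderiv ℝ b z 1 + Complex.I * (a z * fderiv ℝ b z Complex.I) := by
    intro z; unfold dzb; ring
  have e2 : ∀ z, dzb a z * b z =
      fderiv ℝ a z 1 * b z + Complex.I * (fderiv ℝ a z Complex.I * b z) := by
    intro z; unfold dzb; ring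
  simp_rw [e1, e2]
  rw [integral_add (i1 1) ((i1 Complex.I).const_mul _), integral_add (i2 1) ((i2 Complex.I).const_mul _),
    integral_const_mul, integral_const_mul, integral_mul_fderiv ha hb hc, integral_mul_fderiv ha hb hc]
  ring

lemma integral_dz (hg : ContDiff ℝ ∞ g) (hc : HasCompactSupport g) : ∫ z, dz g z = 0 := by
  have h := integral_mul_dz (a := fun _ => 1) contDiff_const hg (Or.inr hc)
  simpa [dz_const] using h

lemma integral_dzb (hg : ContDiff ℝ ∞ g) (hc : HasCompactSupport g) : ∫ z, dzb g z = 0 := by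
  have h := integral_mul_dzb (a := fun _ => 1) contDiff_const hg (Or.inr hc)
  simpa [dzb_const] using h

lemma norm_dz_le : ‖dz g z‖ ≤ 2 * ‖fderiv ℝ g z‖ := by
  unfold dz
  have h1 := (fderiv ℝ g z).le_opNorm 1
  have h2 := (fderiv ℝ g z).le_opNorm Complex.I
  simp only [norm_one, mul_one, Complex.norm_I] at h1 h2
  calc _ ≤ ‖fderiv ℝ g z 1‖ + ‖Complex.I * fderiv ℝ g z Complex.I‖ := norm_sub_le _ _
    _ ≤ _ := by rw [norm_mul, Complex.norm_I]; linarith

lemma norm_dzb_le : ‖dzb g z‖ ≤ 2 * ‖fderiv ℝ g z‖ := by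
  unfold dzb
  have h1 := (fderiv ℝ g z).le_opNorm 1
  have h2 := (fderiv ℝ g z).le_opNorm Complex.I
  simp only [norm_one, mul_one, Complex.norm_I] at h1 h2
  calc _ ≤ ‖fderiv ℝ g z 1‖ + ‖Complex.I * fderiv ℝ g z Complex.I‖ := norm_add_le _ _
    _ ≤ _ := by rw [norm_mul, Complex.norm_I]; linarith

lemma norm_fderiv_le : ‖fderiv ℝ g z‖ ≤ ‖dz g z‖ + ‖dzb g z‖ := by
  have e1 : fderiv ℝ g z 1 = (dz g z + dzb g z) / 2 := by unfold dz dzb; ring
  have e2 : fderiv ℝ g z Complex.I = Complex.I * (dz g z - dzb g z) / 2 := by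
    unfold dz dzb
    have := Complex.I_mul_I
    linear_combination (fderiv ℝ g z Complex.I) * this
  refine ContinuousLinearMap.opNorm_le_bound _ (by positivity) fun v => ?_
  have hv : v = (v.re : ℝ) • (1 : ℂ) + (v.im : ℝ) • Complex.I := by
    simp [Complex.re_add_im]
  have h1 : fderiv ℝ g z v = ((v.re : ℂ) + Complex.I * v.im) / 2 * dz g z +
      ((v.re : ℂ) - Complex.I * v.im) / 2 * dzb g z := by
    conv_lhs => rw [hv]
    rw [map_add, map_smul, map_smul, e1, e2]
    simp only [Complex.real_smul]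
    ring
  have n1 : ‖((v.re : ℂ) + Complex.I * v.im) / 2‖ = ‖v‖ / 2 := by
    rw [norm_div, mul_comm Complex.I, Complex.re_add_im]; simp
  have n2 : ‖((v.re : ℂ) - Complex.I * v.im) / 2‖ = ‖v‖ / 2 := by
    have : (v.re : ℂ) - Complex.I * v.im = conj v := by
      apply Complex.ext <;> simp
    rw [norm_div, this]; simp
  rw [h1]
  calc _ ≤ ‖v‖ / 2 * ‖dz g z‖ + ‖v‖ / 2 * ‖dzb g z‖ := by
        refine (norm_add_le _ _).trans ?_
        rw [norm_mul, norm_mul, n1, n2]
    _ ≤ _ := by nlinarith [norm_nonneg v, norm_nonneg (dz g z), norm_nonneg (dzb g z)]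

end

end Pool.Agent.A54
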