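import Pool.Agent.Lib.MP_a54f13_nt.Spec2

/-!
Relations between the quartic moments, from the div-curl lemma.
-/

set_option autoImplicit false

namespace Pool.Agent.A54.Rel

open MeasureTheory Filter Topology Set
open scoped ContDiff ComplexConjugate

noncomputable section

variable {V : Set ℂ} {q : ℂ → ℝ} {h : ℝ} {f : ℂ → ℝ} {z : ℂ}

lemma integrable_testR {φ : ℂ → ℝ} (hφ : TestR V φ) {F : ℂ → ℝ} (hF : Continuous F) :
    Integrable (fun z => φ z * F z) :=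
  (hφ.smooth.continuous.mul hF).integrable_of_hasCompactSupport hφ.cpt.mul_right

lemma integrable_test {φ : ℂ → ℂ} (hφ : Test V φ) {F : ℂ → ℂ} (hF : Continuous F) :
    Integrable (fun z => φ z * F z) :=
  (hφ.smooth.continuous.mul hF).integrable_of_hasCompactSupport hφ.cpt.mul_right

lemma contDiff_inv_pow (hq : Pot V q) (n : ℕ) : ContDiff ℝ ∞ (fun z => ((q z) ^ n)⁻¹) :=
  (hq.smooth.pow n).inv fun z => (pow_pos (hq.pos z) n).ne'

lemma contDiff_div_pow (hq : Pot V q) (n : ℕ) {g : ℂ → ℂ} (hg : ContDiff ℝ ∞ g) :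
    ContDiff ℝ ∞ (fun z => g z / (q z : ℂ) ^ n) := by
  have h1 : ContDiff ℝ ∞ (fun z => ((((q z) ^ n)⁻¹ : ℝ) : ℂ)) := contDiff_ofReal (contDiff_inv_pow hq n)
  have h2 : (fun z => g z / (q z : ℂ) ^ n) = fun z => g z * ((((q z) ^ n)⁻¹ : ℝ) : ℂ) := by
    funext z; push_cast; rw [div_eq_mul_inv]
  rw [h2]
  exact hg.mul h1

lemma contDiff_ss (hq : Pot V q) (hf : ContDiff ℝ ∞ f) (h : ℝ) (a : ℤ) :
    ContDiff ℝ ∞ (ss q h f a) := by
  cases a with
  | ofNat n => exact contDiff_gg hf h n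
  | negSucc n =>
    have h1 : ContDiff ℝ ∞ (fun z => (-1) ^ (n + 1) * conj (gg h f (n + 1) z)) :=
      contDiff_const.mul (contDiff_conj (contDiff_gg hf h (n + 1)))
    exact contDiff_div_pow hq (n + 1) h1

lemma nn_nonneg (hq : Pot V q) (n : ℕ) : 0 ≤ nn q h f n z :=
  div_nonneg (by positivity) (pow_pos (hq.pos z) n).le

lemma continuous_nn (hq : Pot V q) (hf : ContDiff ℝ ∞ f) (h : ℝ) (n : ℕ) :
    Continuous (nn q h f n) := by
  unfold nn
  exact ((contDiff_gg hf h n).continuous.norm.pow 2).div₀ (hq.smooth.continuous.pow n)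
    fun z => (pow_pos (hq.pos z) n).ne'

lemma nn_zero : nn q h f 0 z = f z ^ 2 := by
  simp [nn, gg_zero]

lemma norm_ss_sq (hq : Pot V q) (a : ℤ) :
    ‖ss q h f a z‖ ^ 2 = nn q h f a.natAbs z * q z ^ a := by
  have hqz := hq.pos z
  cases a with
  | ofNat n =>
    simp only [ss, nn, Int.ofNat_eq_natCast, Int.natAbs_natCast, zpow_natCast]
    rw [div_mul_cancel₀ _ (pow_pos hqz n).ne']
  | negSucc n =>
    simp only [ss, nn, Int.natAbs_negSucc, zpow_negSucc, norm_div, norm_mul, norm_pow, norm_neg,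
      norm_one, one_pow, one_mul, RCLike.norm_conj, Complex.norm_real, Real.norm_eq_abs,
      abs_of_pos hqz, Nat.succ_eq_add_one]
    field_simp

lemma ss_mul_neg (hq : Pot V q) (n : ℕ) :
    ss q h f n z * ss q h f (-n) z = (((-1) ^ n * nn q h f n z : ℝ) : ℂ) := by
  have hqz : (q z : ℂ) ≠ 0 := by exact_mod_cast (hq.pos z).ne'
  cases n with
  | zero =>
    simp only [Nat.cast_zero, neg_zero]
    change gg h f 0 z * gg h f 0 z = _
    rw [nn_zero, gg_zero]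
    push_cast; ring
  | succ m =>
    have e : (-((m + 1 : ℕ) : ℤ)) = Int.negSucc m := rfl
    rw [e]
    change gg h f (m + 1) z * ((-1) ^ (m + 1) * conj (gg h f (m + 1) z) / (q z : ℂ) ^ (m + 1)) = _
    unfold nn
    push_cast
    rw [← Complex.mul_conj' (gg h f (m + 1) z)]
    ring

lemma norm_gg_le_sm {n M : ℕ} (hn : n ≤ M) : ‖gg h f n z‖ ≤ sm h f M z := by
  unfold sm
  exact Finset.single_le_sum (f := fun j => ‖gg h f j z‖) (fun j _ => norm_nonneg _)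
    (Finset.mem_range.mpr (by omega))

lemma sm_nonneg (M : ℕ) : 0 ≤ sm h f M z := Finset.sum_nonneg fun _ _ => norm_nonneg _

lemma sm_mono {n M : ℕ} (hn : n ≤ M) : sm h f n z ≤ sm h f M z := by
  unfold sm
  exact Finset.sum_le_sum_of_subset_of_nonneg
    (Finset.range_subset_range.mpr (by omega)) (fun _ _ _ => norm_nonneg _)

lemma continuous_sm (hf : ContDiff ℝ ∞ f) (h : ℝ) (M : ℕ) : Continuous (sm h f M) :=
  continuous_finsetSum _ fun j _ => (contDiff_gg hf h j).continuous.norm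

/-- `|s_a| ≤ C sm` on compact sets -/
lemma ss_le (hq : Pot V q) (a : ℤ) {K : Set ℂ} (hK : IsCompact K) : ∃ C : ℝ, 0 ≤ C ∧
    ∀ (h : ℝ) (f : ℂ → ℝ) (M : ℕ), a.natAbs ≤ M → ∀ z ∈ K, ‖ss q h f a z‖ ≤ C * sm h f M z := by
  cases a with
  | ofNat n =>
    refine ⟨1, zero_le_one, fun h f M hM z _ => ?_⟩
    rw [one_mul]
    exact norm_gg_le_sm hM
  | negSucc n =>
    obtain ⟨C, hC⟩ := hK.exists_bound_of_continuousOn
      (f := fun z => ((q z) ^ (n + 1))⁻¹) (contDiff_inv_pow hq (n + 1)).continuous.continuousOn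
    refine ⟨max C 0, le_max_right _ _, fun h f M hM z hz => ?_⟩
    have h1 : ‖ss q h f (Int.negSucc n) z‖ = ‖((q z) ^ (n + 1))⁻¹‖ * ‖gg h f (n + 1) z‖ := by
      simp only [ss, norm_div, norm_mul, norm_pow, norm_neg, norm_one, one_pow, one_mul,
        RCLike.norm_conj, norm_inv, Complex.norm_real]
      rw [div_eq_inv_mul]
    rw [h1]
    exact mul_le_mul ((hC z hz).trans (le_max_left _ _)) (norm_gg_le_sm hM) (norm_nonneg _)
      (le_max_right _ _)

section L4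

variable {h : ℕ → ℝ} {f : ℕ → ℂ → ℝ}

lemma sm_pow4_le (h : ℝ) (f : ℂ → ℝ) (M : ℕ) (z : ℂ) :
    sm h f M z ^ 4 ≤ ((M + 1 : ℕ) : ℝ) ^ 3 * ∑ j ∈ Finset.range (M + 1), ‖gg h f j z‖ ^ 4 := by
  have hp := pow_sum_div_card_le_sum_pow (s := Finset.range (M + 1)) (f := fun j => ‖gg h f j z‖)
    (fun j _ => norm_nonneg _) 3
  rw [Finset.card_range, div_le_iff₀ (by positivity), mul_comm] at hp
  exact hp

lemma integrable_zg {ζ : ℂ → ℝ} (hζ : TestR V ζ) {h : ℝ} {f : ℂ → ℝ} (hf : ContDiff ℝ ∞ f) (j : ℕ) :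
    Integrable (fun z => ζ z ^ 4 * ‖gg h f j z‖ ^ 4) := by
  have h1 : HasCompactSupport (fun z => ζ z ^ 4) := hζ.cpt.comp_left (g := fun x : ℝ => x ^ 4) (by simp)
  exact ((hζ.smooth.continuous.pow 4).mul
      ((contDiff_gg hf h j).continuous.norm.pow 4)).integrable_of_hasCompactSupport h1.mul_right

lemma sm_L4_aux {ζ : ℂ → ℝ} (hζ : TestR V ζ) {h : ℝ} {f : ℂ → ℝ} (hf : ContDiff ℝ ∞ f) (M : ℕ)
    {K : Set ℂ} (hK : IsCompact K) (hζ1 : ∀ z ∈ K, ζ z = 1) :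
    ∫ z in K, sm h f M z ^ 4 ≤ ((M + 1 : ℕ) : ℝ) ^ 3 * ∑ j ∈ Finset.range (M + 1),
      ∫ z, ζ z ^ 4 * ‖gg h f j z‖ ^ 4 := by
  have hint : ∀ j ∈ Finset.range (M + 1), Integrable (fun z => ζ z ^ 4 * ‖gg h f j z‖ ^ 4) :=
    fun j _ => integrable_zg hζ hf j
  rw [← integral_finsetSum _ hint, ← integral_const_mul]
  have hsum : Integrable (fun z => ((M + 1 : ℕ) : ℝ) ^ 3 * ∑ j ∈ Finset.range (M + 1),
      ζ z ^ 4 * ‖gg h f j z‖ ^ 4) := (integrable_finsetSum _ hint).const_mul _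
  refine le_trans ?_ (setIntegral_le_integral (s := K) hsum (Eventually.of_forall fun z => ?_))
  · apply setIntegral_mono_on
    · exact ((continuous_sm hf h M).pow 4).continuousOn.integrableOn_compact hK
    · exact hsum.integrableOn
    · exact hK.measurableSet
    · intro z hz
      have hz1 : ζ z = 1 := hζ1 z hz
      simp only [hz1, one_pow, one_mul]
      exact sm_pow4_le h f M z
  · have : 0 ≤ ∑ j ∈ Finset.range (M + 1), ζ z ^ 4 * ‖gg h f j z‖ ^ 4 :=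
      Finset.sum_nonneg fun j _ => by positivity
    exact mul_nonneg (by positivity) this

/-- `L⁴` bounds for all `g_n`, on compact sets -/
lemma sm_L4 (hL : StmtL4) (hS : Seq V q h f) (hB : L4Bdd V f) (M : ℕ) {K : Set ℂ}
    (hK : IsCompact K) (hKV : K ⊆ V) :
    ∃ C : ℝ, ∀ i, ∫ z in K, sm (h i) (f i) M z ^ 4 ≤ C := by
  obtain ⟨ζ, hζ, hζ01, hζ1⟩ := exists_cutoff hK hS.pot.isOpen hKV
  have h1 : ∀ j : ℕ, ∃ C : ℝ, ∀ i, ∫ z, ζ z ^ 4 * ‖gg (h i) (f i) j z‖ ^ 4 ≤ C := by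
    intro j
    obtain ⟨ζ', C, hζ', hC0, hC⟩ := hL V q hS.pot j ζ hζ
    obtain ⟨B, hB⟩ := hB ζ' hζ'
    exact ⟨C * B, fun i => (hC (h i) (f i) (hS.sol i)).trans (mul_le_mul_of_nonneg_left (hB i) hC0)⟩
  choose C hC using h1
  refine ⟨((M + 1 : ℕ) : ℝ) ^ 3 * ∑ j ∈ Finset.range (M + 1), C j, fun i => ?_⟩
  refine (sm_L4_aux hζ (hS.sol i).smooth M hK (fun z hz => hζ1.self_of_nhdsSet z hz)).trans ?_
  apply mul_le_mul_of_nonneg_left _ (by positivity)
  exact Finset.sum_le_sum fun j _ => hC j i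

lemma test_bdd {ζ : ℂ → ℝ} (hζ : TestR V ζ) : ∃ Z : ℝ, 0 ≤ Z ∧ ∀ z, |ζ z| ≤ Z := by
  obtain ⟨Z, hZ⟩ := hζ.cpt.exists_bound_of_continuous hζ.smooth.continuous
  exact ⟨max Z 0, le_max_right _ _, fun z => (hZ z).trans (le_max_left _ _)⟩

/-- functions bounded by `sm²` are bounded in `L²` -/
lemma bdd_of_le_sm (hL : StmtL4) (hS : Seq V q h f) (hB : L4Bdd V f) {ζ : ℂ → ℝ}
    (hζ : TestR V ζ) {F : ℕ → ℂ → ℂ} (hF : ∀ i, Continuous (F i)) {C : ℝ} {M : ℕ}
    (hC : ∀ i, ∀ z ∈ tsupport ζ, ‖F i z‖ ≤ C * sm (h i) (f i) M z ^ 2) :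
    ∃ B : ℝ, ∀ i, ∫ z, ζ z ^ 2 * ‖F i z‖ ^ 2 ≤ B := by
  obtain ⟨B, hB'⟩ := sm_L4 hL hS hB M hζ.cpt.isCompact hζ.sub
  obtain ⟨Z, hZ0, hZ⟩ := test_bdd hζ
  refine ⟨Z ^ 2 * C ^ 2 * B, fun i => ?_⟩
  have h1 : ∫ z, ζ z ^ 2 * ‖F i z‖ ^ 2 = ∫ z in tsupport ζ, ζ z ^ 2 * ‖F i z‖ ^ 2 := by
    rw [setIntegral_eq_integral_of_forall_compl_eq_zero]
    intro z hz
    rw [image_eq_zero_of_notMem_tsupport hz]
    ring
  rw [h1]
  have h2 : ∫ z in tsupport ζ, ζ z ^ 2 * ‖F i z‖ ^ 2 ≤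
      ∫ z in tsupport ζ, Z ^ 2 * C ^ 2 * sm (h i) (f i) M z ^ 4 := by
    apply setIntegral_mono_on
    · exact ((hζ.smooth.continuous.pow 2).mul ((hF i).norm.pow 2)).continuousOn.integrableOn_compact
        hζ.cpt.isCompact
    · exact (continuous_const.mul ((continuous_sm (hS.sol i).smooth _ M).pow
        4)).continuousOn.integrableOn_compact hζ.cpt.isCompact
    · exact hζ.cpt.isCompact.measurableSet
    · intro z hz
      have e1 : ζ z ^ 2 ≤ Z ^ 2 := by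
        rw [← sq_abs]; exact pow_le_pow_left₀ (abs_nonneg _) (hZ z) 2
      have e2 : ‖F i z‖ ^ 2 ≤ (C * sm (h i) (f i) M z ^ 2) ^ 2 :=
        pow_le_pow_left₀ (norm_nonneg _) (hC i z hz) 2
      calc _ ≤ Z ^ 2 * (C * sm (h i) (f i) M z ^ 2) ^ 2 :=
            mul_le_mul e1 e2 (by positivity) (by positivity)
        _ = _ := by ring
  refine h2.trans ?_
  rw [integral_const_mul]
  exact mul_le_mul_of_nonneg_left (hB' i) (by positivity)

end L4

/-! ### The div-curl pair -/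

lemma dc_identity (hq : Pot V q) (hf : ContDiff ℝ ∞ f) (a b : ℤ) :
    (h : ℂ) * (dzb (fun w => ss q h f (a + 1) w * ss q h f (b + 1) w) z -
      dz (fun w => -((q w : ℂ) * (ss q h f a w * ss q h f b w))) z) =
    ((h : ℂ) * dzb (ss q h f (a + 1)) z + (q z : ℂ) * ss q h f (a + 1 - 1) z) *
        ss q h f (b + 1) z +
      ss q h f (a + 1) z *
        ((h : ℂ) * dzb (ss q h f (b + 1)) z + (q z : ℂ) * ss q h f (b + 1 - 1) z) +
      (h : ℂ) * dz (fun w => (q w : ℂ)) z * (ss q h f a z * ss q h f b z) +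
      (q z : ℂ) * ((h : ℂ) * dz (ss q h f a) z - ss q h f (a + 1) z) * ss q h f b z +
      (q z : ℂ) * ss q h f a z * ((h : ℂ) * dz (ss q h f b) z - ss q h f (b + 1) z) := by
  have ca := contDiff_ss hq hf h a
  have cb := contDiff_ss hq hf h b
  have ca1 := contDiff_ss hq hf h (a + 1)
  have cb1 := contDiff_ss hq hf h (b + 1)
  have cq : ContDiff ℝ ∞ (fun w => (q w : ℂ)) := contDiff_ofReal hq.smooth
  rw [dzb_mul ca1 cb1, dz_neg (cq.mul (ca.mul cb)), dz_mul cq (ca.mul cb), dz_mul ca cb,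
    show a + 1 - 1 = a by ring, show b + 1 - 1 = b by ring]
  ring

lemma alg_bound {h : ℝ} (hh : 0 < h) {E Xa Xb Ya Yb Sa Sb Sa1 Sb1 u d : ℂ} {C1 C2 Q S : ℝ}
    (hS : 0 ≤ S) (hC1 : 0 ≤ C1) (hC2 : 0 ≤ C2) (hQ : 0 ≤ Q)
    (hE : (h : ℂ) * E = Xa * Sb1 + Sa1 * Xb + (h : ℂ) * d * (Sa * Sb) + u * Ya * Sb + u * Sa * Yb)
    (h1 : ‖Xa‖ ≤ h * (C1 * S)) (h2 : ‖Xb‖ ≤ h * (C1 * S)) (h3 : ‖Ya‖ ≤ h * (C1 * S))
    (h4 : ‖Yb‖ ≤ h * (C1 * S)) (h5 : ‖Sa‖ ≤ C2 * S) (h6 : ‖Sb‖ ≤ C2 * S) (h7 : ‖Sa1‖ ≤ C2 * S)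
    (h8 : ‖Sb1‖ ≤ C2 * S) (h9 : ‖u‖ ≤ Q) (h10 : ‖d‖ ≤ Q) :
    ‖E‖ ≤ (2 * C1 * C2 + Q * C2 ^ 2 + 2 * Q * C1 * C2) * S ^ 2 := by
  have e1 : ‖Xa * Sb1‖ ≤ h * (C1 * S) * (C2 * S) := by
    rw [norm_mul]; exact mul_le_mul h1 h8 (norm_nonneg _) (by positivity)
  have e2 : ‖Sa1 * Xb‖ ≤ (C2 * S) * (h * (C1 * S)) := by
    rw [norm_mul]; exact mul_le_mul h7 h2 (norm_nonneg _) (by positivity)
  have e3 : ‖(h : ℂ) * d * (Sa * Sb)‖ ≤ h * Q * ((C2 * S) * (C2 * S)) := by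
    rw [norm_mul, norm_mul, norm_mul, Complex.norm_real, Real.norm_eq_abs, abs_of_pos hh]
    exact mul_le_mul (mul_le_mul_of_nonneg_left h10 hh.le)
      (mul_le_mul h5 h6 (norm_nonneg _) (by positivity)) (by positivity) (by positivity)
  have e4 : ‖u * Ya * Sb‖ ≤ Q * (h * (C1 * S)) * (C2 * S) := by
    rw [norm_mul, norm_mul]
    exact mul_le_mul (mul_le_mul h9 h3 (norm_nonneg _) hQ) h6 (norm_nonneg _) (by positivity)
  have e5 : ‖u * Sa * Yb‖ ≤ Q * (C2 * S) * (h * (C1 * S)) := by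
    rw [norm_mul, norm_mul]
    exact mul_le_mul (mul_le_mul h9 h5 (norm_nonneg _) hQ) h4 (norm_nonneg _) (by positivity)
  have e6 : h * ‖E‖ ≤ h * ((2 * C1 * C2 + Q * C2 ^ 2 + 2 * Q * C1 * C2) * S ^ 2) := by
    have : h * ‖E‖ = ‖(h : ℂ) * E‖ := by
      rw [norm_mul, Complex.norm_real, Real.norm_eq_abs, abs_of_pos hh]
    rw [this, hE]
    refine (norm_add_le _ _).trans ?_
    refine (add_le_add_left (norm_add_le _ _) _).trans ?_
    refine (add_le_add_left (add_le_add_left (norm_add_le _ _) _) _).trans ?_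
    refine (add_le_add_left (add_le_add_left (add_le_add_left (norm_add_le _ _) _) _) _).trans ?_
    nlinarith [e1, e2, e3, e4, e5]
  exact le_of_mul_le_mul_left e6 hh

/-- the divergence and the curl are bounded by `sm²` -/
lemma dc_bound (hZ : StmtErrZ) (hq : Pot V q) (a b : ℤ) {K : Set ℂ} (hK : IsCompact K)
    (hKV : K ⊆ V) : ∃ C : ℝ, ∀ (h : ℝ) (f : ℂ → ℝ), Sol V q h f → ∀ z ∈ K,
      ‖dzb (fun w => ss q h f (a + 1) w * ss q h f (b + 1) w) z -
        dz (fun w => -((q w : ℂ) * (ss q h f a w * ss q h f b w))) z‖ ≤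
        C * sm h f (a.natAbs + b.natAbs + 3) z ^ 2 := by
  obtain ⟨A1, hA1, hA1'⟩ := hZ V q hq (a + 1) K hK hKV
  obtain ⟨A2, hA2, hA2'⟩ := hZ V q hq (b + 1) K hK hKV
  obtain ⟨A3, hA3, hA3'⟩ := hZ V q hq a K hK hKV
  obtain ⟨A4, hA4, hA4'⟩ := hZ V q hq b K hK hKV
  obtain ⟨B1, hB1, hB1'⟩ := ss_le hq a hK
  obtain ⟨B2, hB2, hB2'⟩ := ss_le hq b hK
  obtain ⟨B3, hB3, hB3'⟩ := ss_le hq (a + 1) hK
  obtain ⟨B4, hB4, hB4'⟩ := ss_le hq (b + 1) hK
  obtain ⟨Q1, hQ1⟩ := hK.exists_bound_of_continuousOn (f := fun z => (q z : ℂ))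
    (contDiff_ofReal hq.smooth).continuous.continuousOn
  obtain ⟨Q2, hQ2⟩ := hK.exists_bound_of_continuousOn (f := dz (fun z => (q z : ℂ)))
    (contDiff_dz (contDiff_ofReal hq.smooth)).continuous.continuousOn
  set C1 := A1 + A2 + A3 + A4 with hC1
  set C2 := B1 + B2 + B3 + B4 with hC2
  set Q := |Q1| + |Q2| with hQ
  refine ⟨2 * C1 * C2 + Q * C2 ^ 2 + 2 * Q * C1 * C2, fun h f hf z hz => ?_⟩
  have hS0 : 0 ≤ sm h f (a.natAbs + b.natAbs + 3) z := sm_nonneg _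
  have key : ∀ {A : ℝ} {X : ℂ} {n : ℕ}, n ≤ a.natAbs + b.natAbs + 3 → 0 ≤ A → A ≤ C1 →
      ‖X‖ ≤ h * (A * sm h f n z) → ‖X‖ ≤ h * (C1 * sm h f (a.natAbs + b.natAbs + 3) z) := by
    intro A X n hn hA hAC hX
    refine hX.trans (mul_le_mul_of_nonneg_left ?_ hf.hpos.le)
    exact mul_le_mul hAC (sm_mono hn) (sm_nonneg _) (hA.trans hAC)
  have key2 : ∀ {B : ℝ} {X : ℂ}, B ≤ C2 →
      ‖X‖ ≤ B * sm h f (a.natAbs + b.natAbs + 3) z →
      ‖X‖ ≤ C2 * sm h f (a.natAbs + b.natAbs + 3) z := by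
    intro B X hBC hX
    exact hX.trans (mul_le_mul_of_nonneg_right hBC hS0)
  refine alg_bound hf.hpos (hS := hS0) (hC1 := by positivity) (hC2 := by positivity)
    (hQ := by positivity) (hE := dc_identity hq hf.smooth a b)
    (h1 := key (n := (a + 1).natAbs + 1) (by omega) hA1 (by linarith) (hA1' h f hf z hz).2)
    (h2 := key (n := (b + 1).natAbs + 1) (by omega) hA2 (by linarith) (hA2' h f hf z hz).2)
    (h3 := key (n := a.natAbs + 1) (by omega) hA3 (by linarith) (hA3' h f hf z hz).1)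
    (h4 := key (n := b.natAbs + 1) (by omega) hA4 (by linarith) (hA4' h f hf z hz).1)
    (h5 := key2 (B := B1) (by linarith) (hB1' h f _ (by omega) z hz))
    (h6 := key2 (B := B2) (by linarith) (hB2' h f _ (by omega) z hz))
    (h7 := key2 (B := B3) (by linarith) (hB3' h f _ (by omega) z hz))
    (h8 := key2 (B := B4) (by linarith) (hB4' h f _ (by omega) z hz))
    (h9 := ?_) (h10 := ?_)
  · refine (hQ1 z hz).trans ((le_abs_self _).trans ?_)
    have := abs_nonneg Q2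
    linarith
  · refine (hQ2 z hz).trans ((le_abs_self _).trans ?_)
    have := abs_nonneg Q1
    linarith

/-- the weak limit of `s_{a+1} s_{b+1}` -/
def limG (q : ℂ → ℝ) (r : ℕ → ℂ → ℂ) (a b : ℤ) (z : ℂ) : ℂ :=
  (-1) ^ (b + 1).natAbs * rr q r (a + b + 2) z

/-- the weak limit of `- q s_a s_b` -/
def limH (q : ℂ → ℝ) (r : ℕ → ℂ → ℂ) (a b : ℤ) (z : ℂ) : ℂ :=
  -((q z : ℂ) * ((-1) ^ b.natAbs * rr q r (a + b) z))

lemma norm_rr_sq (hq : Pot V q) (r : ℕ → ℂ → ℂ) (n : ℤ) :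
    ‖rr q r n z‖ ^ 2 = pp q r n.natAbs z * q z ^ n := by
  have hqz := hq.pos z
  cases n with
  | ofNat n =>
    simp only [rr, pp, Int.ofNat_eq_natCast, Int.natAbs_natCast, zpow_natCast]
    rw [div_mul_cancel₀ _ (pow_pos hqz n).ne']
  | negSucc n =>
    simp only [rr, pp, Int.natAbs_negSucc, zpow_negSucc, norm_div, norm_mul, norm_pow, norm_neg,
      norm_one, one_pow, one_mul, RCLike.norm_conj, Complex.norm_real, Real.norm_eq_abs,
      abs_of_pos hqz, Nat.succ_eq_add_one]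
    field_simp

lemma norm_limG_sq (hq : Pot V q) (r : ℕ → ℂ → ℂ) (a b : ℤ) :
    ‖limG q r a b z‖ ^ 2 = pp q r (a + b + 2).natAbs z * q z ^ (a + b + 2) := by
  unfold limG
  rw [norm_mul, mul_pow, norm_rr_sq hq]
  simp

lemma norm_limH_sq (hq : Pot V q) (r : ℕ → ℂ → ℂ) (a b : ℤ) :
    ‖limH q r a b z‖ ^ 2 = pp q r (a + b).natAbs z * q z ^ (a + b + 2) := by
  have hqz := hq.pos z
  unfold limH
  rw [norm_neg, norm_mul, mul_pow, norm_mul, mul_pow, norm_rr_sq hq,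
    zpow_add₀ hqz.ne' (a + b) 2]
  simp only [norm_pow, norm_neg, norm_one, one_pow, one_mul, Complex.norm_real, Real.norm_eq_abs,
    abs_of_pos hqz, zpow_ofNat]
  ring

lemma norm_G_sq (hq : Pot V q) (a b : ℤ) :
    ‖ss q h f (a + 1) z * ss q h f (b + 1) z‖ ^ 2 =
      nn q h f (a + 1).natAbs z * nn q h f (b + 1).natAbs z * q z ^ (a + b + 2) := by
  have hqz := hq.pos z
  rw [norm_mul, mul_pow, norm_ss_sq hq, norm_ss_sq hq, show a + b + 2 = (a + 1) + (b + 1) by ring,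
    zpow_add₀ hqz.ne' (a + 1) (b + 1)]
  ring

lemma norm_H_sq (hq : Pot V q) (a b : ℤ) :
    ‖-((q z : ℂ) * (ss q h f a z * ss q h f b z))‖ ^ 2 =
      nn q h f a.natAbs z * nn q h f b.natAbs z * q z ^ (a + b + 2) := by
  have hqz := hq.pos z
  rw [norm_neg, norm_mul, mul_pow, norm_mul, mul_pow, norm_ss_sq hq, norm_ss_sq hq,
    zpow_add₀ hqz.ne' (a + b), zpow_add₀ hqz.ne' a b]
  simp only [Complex.norm_real, Real.norm_eq_abs, abs_of_pos hqz, zpow_ofNat]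
  ring

lemma contDiff_zpow (hq : Pot V q) (n : ℤ) : ContDiff ℝ ∞ (fun z => q z ^ n) := by
  cases n with
  | ofNat n => simpa using hq.smooth.pow n
  | negSucc n => simpa [zpow_negSucc] using contDiff_inv_pow hq (n + 1)

lemma L2loc.mul_cont {r : ℂ → ℂ} (hr : L2loc V r) {g : ℂ → ℂ} (hg : Continuous g) :
    L2loc V (fun z => g z * r z) := by
  intro K hK hKV
  obtain ⟨C, hC⟩ := hK.exists_bound_of_continuousOn hg.continuousOn
  have h1 := hr K hK hKV
  refine MemLp.of_le_mul (c := C) h1 (hg.aestronglyMeasurable.mul h1.1) ?_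
  filter_upwards [ae_restrict_mem hK.measurableSet] with z hz
  rw [norm_mul]
  exact mul_le_mul_of_nonneg_right (hC z hz) (norm_nonneg _)

lemma L2loc_rr (hq : Pot V q) {r : ℕ → ℂ → ℂ} (hr : ∀ n, L2loc V (r n)) (n : ℤ) :
    L2loc V (rr q r n) := by
  cases n with
  | ofNat n => exact hr n
  | negSucc n =>
    have h1 : L2loc V (fun z => conj (r (n + 1) z)) := by
      intro K hK hKV
      exact (hr (n + 1) K hK hKV).star
    have h2 : Continuous (fun z => (-1 : ℂ) ^ (n + 1) * ((((q z) ^ (n + 1))⁻¹ : ℝ) : ℂ)) :=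
      continuous_const.mul (contDiff_ofReal (contDiff_inv_pow hq (n + 1))).continuous
    have h3 := L2loc.mul_cont h1 h2
    have h4 : rr q r (Int.negSucc n) = fun z =>
        (-1 : ℂ) ^ (n + 1) * ((((q z) ^ (n + 1))⁻¹ : ℝ) : ℂ) * conj (r (n + 1) z) := by
      funext z
      simp only [rr]
      push_cast
      rw [div_eq_mul_inv]
      ring
    rw [h4]
    exact h3

/-- `∫ φ' ‖G‖² = ∫ φ N N` where `φ' = φ q^{-(a+b+2)}` -/
lemma weight_eq (hq : Pot V q) {x y : ℝ} (n : ℤ) (c : ℝ) (hx : x = y * q z ^ n) :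
    c * q z ^ (-n) * x = c * y := by
  have hqz := hq.pos z
  rw [hx, zpow_neg]
  have : q z ^ n ≠ 0 := (zpow_pos hqz n).ne'
  field_simp

theorem stmtRel (hZ : StmtErrZ) (hL : StmtL4) (hW : StmtWeak2) (hD : StmtDC2) : StmtRel := by
  intro V q h f r hS hB a b φ hφ
  have hq := hS.pot
  have cG : ∀ i, ContDiff ℝ ∞ (fun z => ss q (h i) (f i) (a + 1) z * ss q (h i) (f i) (b + 1) z) :=
    fun i => (contDiff_ss hq (hS.sol i).smooth _ _).mul (contDiff_ss hq (hS.sol i).smooth _ _)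
  have cq : ContDiff ℝ ∞ (fun w => (q w : ℂ)) := contDiff_ofReal hq.smooth
  have cH : ∀ i, ContDiff ℝ ∞ (fun z => -((q z : ℂ) * (ss q (h i) (f i) a z *
      ss q (h i) (f i) b z))) :=
    fun i => (cq.mul ((contDiff_ss hq (hS.sol i).smooth _ _).mul
      (contDiff_ss hq (hS.sol i).smooth _ _))).neg
  have lG : L2loc V (limG q r a b) := L2loc.mul_cont (L2loc_rr hq hS.loc (a + b + 2))
    (g := fun _ => (-1) ^ (b + 1).natAbs) continuous_const
  have lH : L2loc V (limH q r a b) := by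
    have h1 := L2loc.mul_cont (L2loc_rr hq hS.loc (a + b))
      (g := fun z => -((q z : ℂ) * (-1) ^ b.natAbs)) (cq.continuous.mul continuous_const).neg
    have h2 : limH q r a b = fun z => -((q z : ℂ) * (-1) ^ b.natAbs) * rr q r (a + b) z := by
      funext z; unfold limH; ring
    rw [h2]; exact h1
  have hWG : ∀ φ, Test V φ → Tendsto (fun i => ∫ z, φ z * (ss q (h i) (f i) (a + 1) z *
      ss q (h i) (f i) (b + 1) z)) atTop (𝓝 (∫ z, φ z * limG q r a b z)) := by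
    intro φ hφ
    have h1 := hW V q h f r hS (a + 1) (b + 1) φ hφ
    have h2 : ∫ z, φ z * limG q r a b z =
        (-1) ^ (b + 1).natAbs * ∫ z, φ z * rr q r (a + 1 + (b + 1)) z := by
      rw [← integral_const_mul]
      congr 1; funext z; unfold limG
      rw [show a + 1 + (b + 1) = a + b + 2 by ring]; ring
    rw [h2]; exact h1
  have hWH : ∀ φ, Test V φ → Tendsto (fun i => ∫ z, φ z * -((q z : ℂ) *
      (ss q (h i) (f i) a z * ss q (h i) (f i) b z))) atTop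
        (𝓝 (∫ z, φ z * limH q r a b z)) := by
    intro φ hφ
    have h1 := hW V q h f r hS a b _ (hφ.mul_right cq.neg)
    have h2 : ∫ z, φ z * limH q r a b z =
        (-1) ^ b.natAbs * ∫ z, φ z * -(q z : ℂ) * rr q r (a + b) z := by
      rw [← integral_const_mul]
      congr 1; funext z; unfold limH; ring
    rw [h2]
    refine h1.congr fun i => ?_
    congr 1; funext z; ring
  have hcpt : ∀ ζ : ℂ → ℝ, TestR V ζ → ∃ C : ℝ, ∀ i,
      ∫ z, ζ z ^ 2 * ‖ss q (h i) (f i) (a + 1) z * ss q (h i) (f i) (b + 1) z‖ ^ 2 ≤ C ∧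
      ∫ z, ζ z ^ 2 * ‖-((q z : ℂ) * (ss q (h i) (f i) a z * ss q (h i) (f i) b z))‖ ^ 2 ≤ C ∧
      ∫ z, ζ z ^ 2 * ‖dzb (fun w => ss q (h i) (f i) (a + 1) w * ss q (h i) (f i) (b + 1) w) z -
        dz (fun w => -((q w : ℂ) * (ss q (h i) (f i) a w * ss q (h i) (f i) b w))) z‖ ^ 2 ≤ C := by
    intro ζ hζ
    have hK := hζ.cpt.isCompact
    obtain ⟨C0, hC0⟩ := dc_bound hZ hq a b hK hζ.sub
    obtain ⟨B1, hB1, hB1'⟩ := ss_le hq a hK
    obtain ⟨B2, hB2, hB2'⟩ := ss_le hq b hK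
    obtain ⟨B3, hB3, hB3'⟩ := ss_le hq (a + 1) hK
    obtain ⟨B4, hB4, hB4'⟩ := ss_le hq (b + 1) hK
    obtain ⟨Q, hQ⟩ := hK.exists_bound_of_continuousOn (f := fun z => (q z : ℂ))
      cq.continuous.continuousOn
    obtain ⟨D1, hD1⟩ := bdd_of_le_sm hL hS.toSeq hB hζ (F := fun i z =>
        ss q (h i) (f i) (a + 1) z * ss q (h i) (f i) (b + 1) z)
      (fun i => (cG i).continuous) (C := B3 * B4) (M := a.natAbs + b.natAbs + 3) (by
        intro i z hz
        rw [norm_mul]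
        calc _ ≤ (B3 * sm (h i) (f i) (a.natAbs + b.natAbs + 3) z) *
              (B4 * sm (h i) (f i) (a.natAbs + b.natAbs + 3) z) :=
              mul_le_mul (hB3' _ _ _ (by omega) z hz) (hB4' _ _ _ (by omega) z hz)
                (norm_nonneg _) (mul_nonneg hB3 (sm_nonneg _))
          _ = _ := by ring)
    obtain ⟨D2, hD2⟩ := bdd_of_le_sm hL hS.toSeq hB hζ (F := fun i z =>
        -((q z : ℂ) * (ss q (h i) (f i) a z * ss q (h i) (f i) b z)))
      (fun i => (cH i).continuous) (C := Q * (B1 * B2)) (M := a.natAbs + b.natAbs + 3) (by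
        intro i z hz
        rw [norm_neg, norm_mul, norm_mul]
        calc _ ≤ Q * ((B1 * sm (h i) (f i) (a.natAbs + b.natAbs + 3) z) *
              (B2 * sm (h i) (f i) (a.natAbs + b.natAbs + 3) z)) :=
              mul_le_mul (hQ z hz) (mul_le_mul (hB1' _ _ _ (by omega) z hz)
                (hB2' _ _ _ (by omega) z hz) (norm_nonneg _) (mul_nonneg hB1 (sm_nonneg _)))
                (by positivity) ((norm_nonneg _).trans (hQ z hz))
          _ = _ := by ring)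
    obtain ⟨D3, hD3⟩ := bdd_of_le_sm hL hS.toSeq hB hζ (F := fun i z =>
        dzb (fun w => ss q (h i) (f i) (a + 1) w * ss q (h i) (f i) (b + 1) w) z -
        dz (fun w => -((q w : ℂ) * (ss q (h i) (f i) a w * ss q (h i) (f i) b w))) z)
      (fun i => ((contDiff_dzb (cG i)).sub (contDiff_dz (cH i))).continuous) (C := C0)
      (M := a.natAbs + b.natAbs + 3) (fun i z hz => hC0 (h i) (f i) (hS.sol i) z hz)
    exact ⟨max D1 (max D2 D3), fun i => ⟨(hD1 i).trans (le_max_left _ _),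
      (hD2 i).trans ((le_max_left _ _).trans (le_max_right _ _)),
      (hD3 i).trans ((le_max_right _ _).trans (le_max_right _ _))⟩⟩
  have hφ' : TestR V (fun z => φ z * q z ^ (-(a + b + 2))) := hφ.mul_right (contDiff_zpow hq _)
  have main := hD V hq.isOpen _ _ (limG q r a b) (limH q r a b) cG cH lG lH hWG hWH hcpt _ hφ'
  have e1 : ∫ z, φ z * q z ^ (-(a + b + 2)) * (‖limG q r a b z‖ ^ 2 - ‖limH q r a b z‖ ^ 2) =
      ∫ z, φ z * (pp q r (a + b + 2).natAbs z - pp q r (a + b).natAbs z) := by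
    congr 1; funext z
    rw [mul_sub, weight_eq hq _ _ (norm_limG_sq hq r a b), weight_eq hq _ _ (norm_limH_sq hq r a b)]
    ring
  rw [e1] at main
  refine main.congr fun i => ?_
  have i1 : Integrable (fun z => φ z * (nn q (h i) (f i) (a + 1).natAbs z *
      nn q (h i) (f i) (b + 1).natAbs z)) := integrable_testR hφ
    ((continuous_nn hq (hS.sol i).smooth _ _).mul (continuous_nn hq (hS.sol i).smooth _ _))
  have i2 : Integrable (fun z => φ z * (nn q (h i) (f i) a.natAbs z *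
      nn q (h i) (f i) b.natAbs z)) := integrable_testR hφ
    ((continuous_nn hq (hS.sol i).smooth _ _).mul (continuous_nn hq (hS.sol i).smooth _ _))
  rw [← integral_sub i1 i2]
  congr 1; funext z
  rw [mul_sub, weight_eq hq _ _ (norm_G_sq hq a b), weight_eq hq _ _ (norm_H_sq hq a b)]

end

end Pool.Agent.A54.Rel
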