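import Pool.Agent.Lib.MP_a54f13_nt.Rel

/-!
Pointwise inequalities for the weak limits; the odd limits vanish.
-/

set_option autoImplicit false

namespace Pool.Agent.A54

open MeasureTheory Filter Topology Set
open scoped ContDiff ComplexConjugate Convolution

noncomputable section

namespace Ineq

variable {V : Set ℂ} {q : ℂ → ℝ}

lemma locInt (hV : IsOpen V) {r : ℂ → ℂ} (hr : L2loc V r) :
    LocallyIntegrableOn r V volume := by
  rw [locallyIntegrableOn_iff hV.isLocallyClosed]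
  intro K hKV hK
  have : IsFiniteMeasure (volume.restrict K) := ⟨by simpa using hK.measure_lt_top⟩
  exact (hr K hK hKV).integrable (by norm_num)

/-- a bump function at `x₀` as a test function -/
lemma testR_bump {x₀ : ℂ} {f : ContDiffBump (0 : ℂ)} (h : Metric.closedBall x₀ f.rOut ⊆ V) :
    TestR V (fun s => f.normed volume (x₀ - s)) := by
  have hs : Function.support (fun s => f.normed volume (x₀ - s)) ⊆ Metric.closedBall x₀ f.rOut := by
    intro s hs
    have h1 : x₀ - s ∈ Function.support (f.normed volume) := hs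
    rw [f.support_normed_eq, Metric.mem_ball, dist_zero_right] at h1
    rw [Metric.mem_closedBall, dist_comm, dist_eq_norm]
    exact h1.le
  have ht : tsupport (fun s => f.normed volume (x₀ - s)) ⊆ Metric.closedBall x₀ f.rOut :=
    closure_minimal hs Metric.isClosed_closedBall
  refine ⟨?_, ?_, ht.trans h⟩
  · exact (f.contDiff_normed (n := ⊤)).comp (contDiff_const.sub contDiff_id)
  · exact (isCompact_closedBall x₀ f.rOut).of_isClosed_subset (isClosed_tsupport _) ht

/-- a function with non-negative integrals against non-negative test functions -/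
lemma ae_nonneg (hV : IsOpen V) {F : ℂ → ℝ} (hF : LocallyIntegrableOn F V volume)
    (h : ∀ φ : ℂ → ℝ, TestR V φ → (∀ z, 0 ≤ φ z) → 0 ≤ ∫ z, φ z * F z) :
    ∀ᵐ z, z ∈ V → 0 ≤ F z := by
  have key : ∀ x ∈ V, ∃ U ∈ 𝓝 x, ∀ᵐ z, z ∈ U → 0 ≤ F z := by
    intro x hx
    obtain ⟨R, hR, hRV⟩ := Metric.nhds_basis_closedBall.mem_iff.mp (hV.mem_nhds hx)
    have hg : Integrable ((Metric.closedBall x R).indicator F) :=
      (integrable_indicator_iff measurableSet_closedBall).mpr
        (hF.integrableOn_compact_subset hRV (isCompact_closedBall x R))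
    let b : ℕ → ContDiffBump (0 : ℂ) := fun n =>
      ⟨1 / (2 * ((n : ℝ) + 1)), 1 / ((n : ℝ) + 1), by positivity, by
        apply one_div_lt_one_div_of_lt <;> linarith [Nat.cast_nonneg (α := ℝ) n]⟩
    have hb : Tendsto (fun n => (b n).rOut) atTop (𝓝 0) := tendsto_one_div_add_atTop_nhds_zero_nat
    have hlim := ContDiffBump.ae_convolution_tendsto_right_of_locallyIntegrable (μ := volume)
      (φ := b) (l := atTop) (K := 2) hb (Eventually.of_forall fun n => by
        change 1 / ((n : ℝ) + 1) ≤ 2 * (1 / (2 * ((n : ℝ) + 1)))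
        apply le_of_eq
        field_simp) hg.locallyIntegrable
    refine ⟨Metric.ball x R, Metric.ball_mem_nhds x hR, ?_⟩
    filter_upwards [hlim] with z hz hzU
    have hzK : z ∈ Metric.closedBall x R := Metric.ball_subset_closedBall hzU
    rw [indicator_of_mem hzK] at hz
    refine ge_of_tendsto hz ?_
    have hd : 0 < R - dist z x := sub_pos.mpr hzU
    filter_upwards [hb.eventually_lt_const hd] with n hn
    rw [convolution_eq_swap]
    have hsub : Metric.closedBall z (b n).rOut ⊆ Metric.closedBall x R := by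
      apply Metric.closedBall_subset_closedBall'
      linarith
    have hT := testR_bump (hsub.trans hRV)
    refine (h _ hT fun s => (b n).nonneg_normed _).trans (le_of_eq ?_)
    apply integral_congr_ae
    refine Eventually.of_forall fun s => ?_
    simp only [ContinuousLinearMap.lsmul_apply, smul_eq_mul]
    by_cases hs : s ∈ Metric.closedBall x R
    · rw [indicator_of_mem hs]
    · rw [indicator_of_notMem hs, mul_zero]
      have : (b n).normed volume (z - s) = 0 := by
        by_contra h0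
        have h1 : z - s ∈ Function.support ((b n).normed volume) := h0
        rw [(b n).support_normed_eq, Metric.mem_ball, dist_zero_right] at h1
        apply hs
        apply hsub
        rw [Metric.mem_closedBall, dist_comm, dist_eq_norm]
        exact h1.le
      rw [this, zero_mul]
  have h0 : volume {z | z ∈ V ∧ ¬ 0 ≤ F z} = 0 := by
    apply measure_null_of_locally_null
    rintro x ⟨hx, -⟩
    obtain ⟨U, hU, hUF⟩ := key x hx
    refine ⟨{z | z ∈ V ∧ ¬ 0 ≤ F z} ∩ U, inter_mem_nhdsWithin _ hU, ?_⟩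
    refine measure_mono_null ?_ (ae_iff.mp hUF)
    rintro z ⟨hz, hzU⟩
    simp only [mem_ofPred_eq, Classical.not_imp]
    exact ⟨hzU, hz.2⟩
  rw [ae_iff]
  refine measure_mono_null ?_ h0
  intro z hz
  simp only [mem_ofPred_eq, Classical.not_imp] at hz ⊢
  exact hz

lemma ae_zero (hV : IsOpen V) {r : ℂ → ℂ} (hr : LocallyIntegrableOn r V volume)
    (h : ∀ φ : ℂ → ℝ, TestR V φ → ∫ z, (φ z : ℂ) * r z = 0) : ∀ᵐ z, z ∈ V → r z = 0 := by
  refine hV.ae_eq_zero_of_integral_contDiff_smul_eq_zero hr fun g h1 h2 h3 => ?_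
  have := h g ⟨h1, h2, h3⟩
  simpa only [Complex.real_smul] using this

lemma ae_zero_real (hV : IsOpen V) {F : ℂ → ℝ} (hF : LocallyIntegrableOn F V volume)
    (h : ∀ φ : ℂ → ℝ, TestR V φ → ∫ z, φ z * F z = 0) : ∀ᵐ z, z ∈ V → F z = 0 := by
  refine hV.ae_eq_zero_of_integral_contDiff_smul_eq_zero hF fun g h1 h2 h3 => ?_
  have := h g ⟨h1, h2, h3⟩
  simpa only [smul_eq_mul] using this

lemma integrable_mul {r : ℂ → ℂ} (hr : LocallyIntegrableOn r V volume)
    {φ : ℂ → ℝ} (hφ : TestR V φ) : Integrable (fun z => (φ z : ℂ) * r z) := by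
  have h1 : IntegrableOn (fun z => (φ z : ℂ) * r z) (tsupport φ) :=
    (hr.integrableOn_compact_subset hφ.sub hφ.cpt).continuousOn_mul
      (Complex.continuous_ofReal.comp hφ.smooth.continuous).continuousOn hφ.cpt
  rwa [integrableOn_iff_integrable_of_support_subset] at h1
  intro z hz
  apply subset_tsupport φ
  intro h0
  apply hz
  simp [h0]

/-- the locally integrable function `|c|² Re r_0 + 2 Re (c r_n) + q^n Re r_0` -/
lemma locF (hq : Pot V q) {r0 rn : ℂ → ℂ} (h0 : LocallyIntegrableOn r0 V volume)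
    (hn : LocallyIntegrableOn rn V volume) (c : ℂ) (n : ℕ) :
    LocallyIntegrableOn (fun z => ‖c‖ ^ 2 * (r0 z).re + 2 * (c * rn z).re +
      q z ^ n * (r0 z).re) V volume := by
  have hV := hq.isOpen
  rw [locallyIntegrableOn_iff hV.isLocallyClosed] at h0 hn ⊢
  intro K hKV hK
  have a0 : IntegrableOn (fun z => (r0 z).re) K := (h0 K hKV hK).re
  have an : IntegrableOn (fun z => (c * rn z).re) K := ((hn K hKV hK).const_mul c).re
  exact ((a0.const_mul _).add (an.const_mul _)).add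
    (a0.continuousOn_mul (hq.smooth.continuous.pow n).continuousOn hK)

lemma re_integral {F : ℂ → ℂ} (hF : Integrable F) : (∫ z, F z).re = ∫ z, (F z).re :=
  (integral_re hF).symm

lemma int_re {F : ℂ → ℂ} (hF : Integrable F) : Integrable (fun z => (F z).re) := hF.re

lemma im_integral {F : ℂ → ℂ} (hF : Integrable F) : (∫ z, F z).im = ∫ z, (F z).im :=
  (integral_im hF).symm

variable {h : ℕ → ℝ} {f : ℕ → ℂ → ℝ} {r : ℕ → ℂ → ℂ}

lemma lim_zero (hS : Sm V q h f r) {φ : ℂ → ℝ} (hφ : TestR V φ) :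
    Tendsto (fun i => ((∫ z, φ z * f i z ^ 2 : ℝ) : ℂ)) atTop (𝓝 (∫ z, (φ z : ℂ) * r 0 z)) := by
  refine (hS.mode 0 _ hφ.toTest).congr fun i => ?_
  rw [← integral_complex_ofReal]
  congr 1
  funext z
  rw [gg_zero]
  push_cast
  ring

lemma lim_sq (hW : StmtWeak2) (hS : Sm V q h f r) {φ : ℂ → ℝ} (hφ : TestR V φ) (n : ℕ) :
    Tendsto (fun i => ((∫ z, φ z * ‖gg (h i) (f i) n z‖ ^ 2 : ℝ) : ℂ)) atTop
      (𝓝 (∫ z, ((φ z * q z ^ n : ℝ) : ℂ) * r 0 z)) := by
  have h1 := hW V q h f r hS n (-n) _ (hφ.mul_right (hS.pot.smooth.pow n)).toTest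
  have h2 := h1.const_mul ((-1 : ℂ) ^ n)
  have e1 : (-1 : ℂ) ^ n * ((-1) ^ (-(n : ℤ)).natAbs *
      ∫ z, ((φ z * q z ^ n : ℝ) : ℂ) * rr q r (n + -n) z) =
      ∫ z, ((φ z * q z ^ n : ℝ) : ℂ) * r 0 z := by
    rw [Int.natAbs_neg, Int.natAbs_natCast, ← mul_assoc, ← pow_add, ← two_mul, pow_mul, neg_one_sq,
      one_pow, one_mul, add_neg_cancel]
    rfl
  rw [e1] at h2
  refine h2.congr fun i => ?_
  rw [← integral_const_mul, ← integral_complex_ofReal]
  congr 1
  funext z
  rw [Rel.ss_mul_neg hS.pot]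
  have hq := (pow_pos (hS.pot.pos z) n).ne'
  unfold nn
  rw [← Complex.ofReal_mul, ← Complex.ofReal_one, ← Complex.ofReal_neg, ← Complex.ofReal_pow,
    ← Complex.ofReal_mul]
  congr 1
  have e2 : ((-1 : ℝ) ^ n) * (-1) ^ n = 1 := by
    rw [← pow_add, ← two_mul, pow_mul, neg_one_sq, one_pow]
  field_simp
  linear_combination (φ z * ‖gg (h i) (f i) n z‖ ^ 2) * e2

/-- the quadratic form is non-negative -/
lemma form (hW : StmtWeak2) (hS : Sm V q h f r) (n : ℕ) (c : ℂ) :
    ∀ᵐ z, z ∈ V → 0 ≤ ‖c‖ ^ 2 * (r 0 z).re + 2 * (c * r n z).re + q z ^ n * (r 0 z).re := by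
  have hV := hS.pot.isOpen
  have l0 := locInt hV (hS.loc 0)
  have ln := locInt hV (hS.loc n)
  refine ae_nonneg hV (locF hS.pot l0 ln c n) fun φ hφ h0 => ?_
  have hφq := hφ.mul_right (hS.pot.smooth.pow n)
  have t1 : Tendsto (fun i => ∫ z, φ z * f i z ^ 2) atTop (𝓝 (∫ z, (φ z : ℂ) * r 0 z).re) := by
    refine ((Complex.continuous_re.tendsto _).comp (lim_zero hS hφ)).congr fun i => ?_
    simp only [Function.comp_apply, Complex.ofReal_re]
  have t2 : Tendsto (fun i => ∫ z, φ z * ‖gg (h i) (f i) n z‖ ^ 2) atTop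
      (𝓝 (∫ z, ((φ z * q z ^ n : ℝ) : ℂ) * r 0 z).re) := by
    refine ((Complex.continuous_re.tendsto _).comp (lim_sq hW hS hφ n)).congr fun i => ?_
    simp only [Function.comp_apply, Complex.ofReal_re]
  have t3 : Tendsto (fun i => (c * ∫ z, (φ z : ℂ) * ((f i z : ℂ) * gg (h i) (f i) n z)).re) atTop
      (𝓝 (c * ∫ z, (φ z : ℂ) * r n z).re) :=
    (Complex.continuous_re.tendsto _).comp ((hS.mode n _ hφ.toTest).const_mul c)
  have t4 := ((t1.const_mul (‖c‖ ^ 2)).add (t3.const_mul 2)).add t2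
  have i1 : Integrable (fun z => (φ z : ℂ) * r 0 z) := integrable_mul l0 hφ
  have i2 : Integrable (fun z => (φ z : ℂ) * r n z) := integrable_mul ln hφ
  have i3 : Integrable (fun z => ((φ z * q z ^ n : ℝ) : ℂ) * r 0 z) := integrable_mul l0 hφq
  have e1 : ∫ z, φ z * (‖c‖ ^ 2 * (r 0 z).re + 2 * (c * r n z).re + q z ^ n * (r 0 z).re) =
      ‖c‖ ^ 2 * (∫ z, (φ z : ℂ) * r 0 z).re + 2 * (c * ∫ z, (φ z : ℂ) * r n z).re +
      (∫ z, ((φ z * q z ^ n : ℝ) : ℂ) * r 0 z).re := by
    have k1 := (int_re i1).const_mul (‖c‖ ^ 2)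
    have k2 := (int_re (i2.const_mul c)).const_mul 2
    have k3 : Integrable (fun z => ‖c‖ ^ 2 * ((φ z : ℂ) * r 0 z).re +
      2 * (c * ((φ z : ℂ) * r n z)).re) := k1.add k2
    rw [← integral_const_mul, re_integral i1, re_integral i3, re_integral (i2.const_mul c),
      ← integral_const_mul, ← integral_const_mul, ← integral_add k1 k2,
      ← integral_add k3 (int_re i3)]
    congr 1
    funext z
    simp only [Complex.mul_re, Complex.mul_im, Complex.ofReal_re, Complex.ofReal_im]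
    ring
  rw [e1]
  refine ge_of_tendsto' t4 fun i => ?_
  have hf := (hS.sol i).smooth
  have c1 : Continuous (f i) := hf.continuous
  have c2 : Continuous (gg (h i) (f i) n) := (contDiff_gg hf (h i) n).continuous
  have j1 : Integrable (fun z => φ z * f i z ^ 2) := Rel.integrable_testR hφ (c1.pow 2)
  have j2 : Integrable (fun z => (φ z : ℂ) * ((f i z : ℂ) * gg (h i) (f i) n z)) :=
    Rel.integrable_test hφ.toTest ((Complex.continuous_ofReal.comp c1).mul c2)
  have j3 : Integrable (fun z => φ z * ‖gg (h i) (f i) n z‖ ^ 2) :=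
    Rel.integrable_testR hφ (c2.norm.pow 2)
  have k1 := j1.const_mul (‖c‖ ^ 2)
  have k2 := (int_re (j2.const_mul c)).const_mul 2
  have k3 : Integrable (fun z => ‖c‖ ^ 2 * (φ z * f i z ^ 2) +
      2 * (c * ((φ z : ℂ) * ((f i z : ℂ) * gg (h i) (f i) n z))).re) := k1.add k2
  have e3 : (c * ∫ z, (φ z : ℂ) * ((f i z : ℂ) * gg (h i) (f i) n z)).re =
      ∫ z, (c * ((φ z : ℂ) * ((f i z : ℂ) * gg (h i) (f i) n z))).re := by
    rw [← integral_const_mul, re_integral (j2.const_mul c)]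
  rw [e3, ← integral_const_mul, ← integral_const_mul, ← integral_add k1 k2,
    ← integral_add k3 j3]
  refine integral_nonneg fun z => ?_
  have e2 : ‖c‖ ^ 2 * (φ z * f i z ^ 2) +
      2 * (c * ((φ z : ℂ) * ((f i z : ℂ) * gg (h i) (f i) n z))).re +
      φ z * ‖gg (h i) (f i) n z‖ ^ 2 =
      φ z * Complex.normSq (conj c * f i z + gg (h i) (f i) n z) := by
    rw [← Complex.normSq_eq_norm_sq, ← Complex.normSq_eq_norm_sq, Complex.normSq_apply,
      Complex.normSq_apply, Complex.normSq_apply]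
    simp only [Complex.add_re, Complex.add_im, Complex.mul_re, Complex.mul_im, Complex.ofReal_re,
      Complex.ofReal_im, Complex.conj_re, Complex.conj_im]
    ring
  change 0 ≤ ‖c‖ ^ 2 * (φ z * f i z ^ 2) +
      2 * (c * ((φ z : ℂ) * ((f i z : ℂ) * gg (h i) (f i) n z))).re +
      φ z * ‖gg (h i) (f i) n z‖ ^ 2
  rw [e2]
  exact mul_nonneg (h0 z) (Complex.normSq_nonneg _)

end Ineq

theorem stmtOddLim (hW : StmtWeak2) : StmtOddLim := by
  intro V q h f r hS n
  have hV := hS.pot.isOpen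
  rw [ae_restrict_iff' hV.measurableSet]
  refine Ineq.ae_zero hV (Ineq.locInt hV (hS.loc _)) fun φ hφ => ?_
  have h1 := hW V q h f r hS ((2 * n + 1 : ℕ) : ℤ) 0 _ hφ.toTest
  have h2 := hW V q h f r hS 0 ((2 * n + 1 : ℕ) : ℤ) _ hφ.toTest
  have h3 : (fun i => ∫ z, (φ z : ℂ) * (ss q (h i) (f i) 0 z *
      ss q (h i) (f i) ((2 * n + 1 : ℕ) : ℤ) z)) =
      fun i => ∫ z, (φ z : ℂ) * (ss q (h i) (f i) ((2 * n + 1 : ℕ) : ℤ) z *
        ss q (h i) (f i) 0 z) := by
    funext i
    congr 1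
    funext z
    ring
  rw [h3] at h2
  have h4 := tendsto_nhds_unique h1 h2
  rw [Int.natAbs_natCast, add_zero, zero_add, Int.natAbs_zero, pow_zero, one_mul,
    Odd.neg_one_pow ⟨n, rfl⟩] at h4
  change (∫ z, (φ z : ℂ) * r (2 * n + 1) z) = -1 * ∫ z, (φ z : ℂ) * r (2 * n + 1) z at h4
  linear_combination (1 / 2 : ℂ) * h4

theorem stmtIneq (hW : StmtWeak2) : StmtIneq := by
  intro V q h f r hS n
  have hV := hS.pot.isOpen
  rw [ae_restrict_iff' hV.measurableSet]
  have l0 := Ineq.locInt hV (hS.loc 0)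
  -- the imaginary part of `r 0`
  have him : ∀ᵐ z, z ∈ V → (r 0 z).im = 0 := by
    refine Ineq.ae_zero_real hV ?_ fun φ hφ => ?_
    · rw [locallyIntegrableOn_iff hV.isLocallyClosed] at l0 ⊢
      exact fun K hKV hK => (l0 K hKV hK).im
    · have i1 : Integrable (fun z => (φ z : ℂ) * r 0 z) := Ineq.integrable_mul l0 hφ
      have t1 : Tendsto (fun i => ((∫ z, φ z * f i z ^ 2 : ℝ) : ℂ).im) atTop
          (𝓝 (∫ z, (φ z : ℂ) * r 0 z).im) :=
        (Complex.continuous_im.tendsto _).comp (Ineq.lim_zero hS hφ)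
      simp only [Complex.ofReal_im] at t1
      have t2 := tendsto_nhds_unique t1 tendsto_const_nhds
      rw [Ineq.im_integral i1] at t2
      rw [← t2]
      congr 1
      funext z
      simp
  have hform : ∀ᵐ z, ∀ c ∈ range (TopologicalSpace.denseSeq ℂ), z ∈ V →
      0 ≤ ‖c‖ ^ 2 * (r 0 z).re + 2 * (c * r n z).re + q z ^ n * (r 0 z).re := by
    rw [ae_ball_iff (countable_range _)]
    exact fun c _ => Ineq.form hW hS n c
  filter_upwards [him, hform] with z hz1 hz2 hzV
  have hq := pow_pos (hS.pot.pos z) n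
  have him0 := hz1 hzV
  -- all complex numbers
  have hall : ∀ c : ℂ, 0 ≤ ‖c‖ ^ 2 * (r 0 z).re + 2 * (c * r n z).re + q z ^ n * (r 0 z).re := by
    have hcl : IsClosed {c : ℂ | 0 ≤ ‖c‖ ^ 2 * (r 0 z).re + 2 * (c * r n z).re +
        q z ^ n * (r 0 z).re} := by
      apply isClosed_le continuous_const
      fun_prop
    have hd : Dense {c : ℂ | 0 ≤ ‖c‖ ^ 2 * (r 0 z).re + 2 * (c * r n z).re +
        q z ^ n * (r 0 z).re} :=
      (TopologicalSpace.denseRange_denseSeq ℂ).mono fun c hc => hz2 c hc hzV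
    have := hcl.closure_eq ▸ hd.closure_eq
    intro c
    have hc : c ∈ (univ : Set ℂ) := mem_univ c
    rw [← this] at hc
    exact hc
  have hre : 0 ≤ (r 0 z).re := by
    have h1 := hall 0
    simp only [norm_zero, zero_mul, Complex.zero_re, mul_zero, add_zero, ne_eq, OfNat.ofNat_ne_zero,
      not_false_eq_true, zero_pow, zero_add] at h1
    exact nonneg_of_mul_nonneg_right h1 hq
  have hr0 : r 0 z = ((r 0 z).re : ℂ) := by
    apply Complex.ext
    · simp
    · simp [him0]
  refine ⟨?_, hr0, hre⟩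
  have hN : 0 ≤ ‖r n z‖ ^ 2 := sq_nonneg _
  have hdis : discrim (‖r n z‖ ^ 2 * (r 0 z).re) (-2 * ‖r n z‖ ^ 2) (q z ^ n * (r 0 z).re) ≤ 0 := by
    apply discrim_le_zero
    intro t
    have h1 := hall (-(t : ℂ) * conj (r n z))
    have e1 : ‖-(t : ℂ) * conj (r n z)‖ ^ 2 = t ^ 2 * ‖r n z‖ ^ 2 := by
      rw [norm_mul, norm_neg, Complex.norm_real, RCLike.norm_conj, mul_pow, Real.norm_eq_abs,
        sq_abs]
    have e2 : (-(t : ℂ) * conj (r n z) * r n z).re = -t * ‖r n z‖ ^ 2 := by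
      have : -(t : ℂ) * conj (r n z) * r n z = ((-t * ‖r n z‖ ^ 2 : ℝ) : ℂ) := by
        rw [mul_assoc, Complex.conj_mul']
        push_cast
        ring
      rw [this, Complex.ofReal_re]
    rw [e1, e2] at h1
    linarith
  unfold discrim at hdis
  unfold pp
  rw [pow_zero, div_one, div_le_iff₀ hq]
  have hr0n : ‖r 0 z‖ ^ 2 = (r 0 z).re ^ 2 := by
    rw [hr0]
    simp
  rw [hr0n]
  rcases eq_or_lt_of_le hN with hN0 | hN0
  · rw [← hN0]
    positivity
  · by_contra hcon
    push Not at hcon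
    nlinarith [mul_lt_mul_of_pos_left hcon hN0]

end

end Pool.Agent.A54
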