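import Pool.Agent.Lib.MP_a54f13_nt.Spec2
import Pool.Agent.Lib.MP_a54f13_nt.Rel

/-!
Weak compactness: a subsequence for which all products `f g_n` have weak limits in `L²_loc`.
-/

set_option autoImplicit false

namespace Pool.Agent.A54.Comp

open MeasureTheory Filter Topology Set
open scoped ContDiff ComplexConjugate ENNReal InnerProductSpace

noncomputable section

/-- a common subsequence with weak limits for countably many bounded sequences -/
lemma exists_subseq {E : Type*} [NormedAddCommGroup E] [InnerProductSpace ℂ E] [CompleteSpace E]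
    [TopologicalSpace.SeparableSpace E] (x : ℕ → ℕ → E) (R : ℕ → ℝ) (hx : ∀ n i, ‖x n i‖ ≤ R n) :
    ∃ (σ : ℕ → ℕ) (y : ℕ → E), StrictMono σ ∧
      ∀ n (v : E), Tendsto (fun i => ⟪x n (σ i), v⟫_ℂ) atTop (𝓝 ⟪y n, v⟫_ℂ) := by
  let B : ℕ → Set (WeakDual ℂ E) := fun n => WeakDual.toStrongDual ⁻¹' Metric.closedBall 0 (R n)
  have hB : ∀ n, IsCompact (B n) := fun n => WeakDual.isCompact_closedBall 0 (R n)
  have i1 : ∀ n, CompactSpace (B n) := fun n => isCompact_iff_compactSpace.1 (hB n)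
  have i2 : ∀ n, TopologicalSpace.MetrizableSpace (B n) := fun n =>
    WeakDual.metrizable_of_isCompact ℂ E (B n) (hB n)
  let X : ℕ → ∀ n, B n := fun i n => ⟨(InnerProductSpace.toDual ℂ E (x n i)).toWeakDual, by
    rw [Set.mem_preimage, Metric.mem_closedBall, dist_zero_right]
    have : ‖InnerProductSpace.toDual ℂ E (x n i)‖ ≤ R n := by
      rw [LinearIsometryEquiv.norm_map]
      exact hx n i
    exact this⟩
  obtain ⟨Y, σ, hσ, hY⟩ := CompactSpace.tendsto_subseq X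
  refine ⟨σ, fun n => (InnerProductSpace.toDual ℂ E).symm (WeakDual.toStrongDual (Y n).1), hσ,
    fun n v => ?_⟩
  have h1 : Tendsto (fun i => X (σ i) n) atTop (𝓝 (Y n)) := (tendsto_pi_nhds.1 hY) n
  have h2 : Tendsto (fun i => (X (σ i) n).1) atTop (𝓝 (Y n).1) :=
    (continuous_subtype_val.tendsto _).comp h1
  have h3 : Tendsto (fun i => (X (σ i) n).1 v) atTop (𝓝 ((Y n).1 v)) :=
    ((WeakDual.eval_continuous v).tendsto _).comp h2
  have h4 : ∀ i, (X (σ i) n).1 v = ⟪x n (σ i), v⟫_ℂ := fun i => rfl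
  have h5 : (Y n).1 v = ⟪(InnerProductSpace.toDual ℂ E).symm (WeakDual.toStrongDual (Y n).1), v⟫_ℂ := by
    rw [InnerProductSpace.toDual_symm_apply]
    rfl
  rw [← h5]
  exact h3

/-- exhaustion of an open set -/
lemma exists_exhaustion {V : Set ℂ} (hV : IsOpen V) : ∃ K : ℕ → Set ℂ, (∀ j, IsCompact (K j)) ∧
    (∀ j, K j ⊆ V) ∧ ∀ L, IsCompact L → L ⊆ V → ∃ j, L ⊆ K j := by
  have h1 : LocallyCompactSpace V := hV.locallyCompactSpace
  have h2 : SigmaCompactSpace V := inferInstance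
  let E : CompactExhaustion V := default
  refine ⟨fun j => Subtype.val '' (E j), fun j => (E.isCompact j).image continuous_subtype_val,
    fun j => ?_, fun L hL hLV => ?_⟩
  · rintro _ ⟨x, -, rfl⟩
    exact x.2
  · have h3 : IsCompact ((↑) ⁻¹' L : Set V) := by
      rw [Subtype.isCompact_iff]
      rwa [Subtype.image_preimage_coe, inter_eq_self_of_subset_right hLV]
    obtain ⟨n, hn⟩ := E.exists_superset_of_isCompact h3
    refine ⟨n, fun z hz => ⟨⟨z, hLV hz⟩, hn hz, rfl⟩⟩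

/-- the weight -/
lemma exists_weight (K : ℕ → Set ℂ) (hK : ∀ j, MeasurableSet (K j)) (C : ℕ → ℝ) :
    ∃ w : ℂ → ℝ, Measurable w ∧ (∀ z, 0 ≤ w z) ∧ (∀ m, ∃ c : ℝ, 0 < c ∧ ∀ z ∈ K m, c ≤ w z) ∧
      ∀ F : ℂ → ℂ, Measurable F → (∀ j, ∫⁻ z in K j, ‖F z‖ₑ ^ 2 ≤ ENNReal.ofReal (C j)) →
        ∫⁻ z, ‖(w z : ℂ) * F z‖ₑ ^ 2 ≤ 1 := by
  set B : ℕ → ℝ≥0∞ := fun j => (2 : ℝ≥0∞)⁻¹ ^ (j + 1) * (ENNReal.ofReal (C j) + 1)⁻¹ with hB
  have hB0 : ∀ j, B j ≠ 0 := by
    intro j
    apply mul_ne_zero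
    · exact pow_ne_zero _ (by simp)
    · simp
  have hB1 : ∀ j, B j ≤ (2 : ℝ≥0∞)⁻¹ ^ (j + 1) := by
    intro j
    calc B j ≤ (2 : ℝ≥0∞)⁻¹ ^ (j + 1) * 1 := by
          apply mul_le_mul_right
          rw [ENNReal.inv_le_one]
          exact le_add_self
      _ = _ := mul_one _
  have hsum : ∑' j, (2 : ℝ≥0∞)⁻¹ ^ (j + 1) = 1 := by
    rw [ENNReal.tsum_geometric_add_one, ENNReal.one_sub_inv_two, inv_inv]
    exact ENNReal.inv_mul_cancel (by simp) (by simp)
  set W : ℂ → ℝ≥0∞ := fun z => ∑' j, (K j).indicator (fun _ => B j) z with hW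
  have hWm : Measurable W := Measurable.tsum fun j => measurable_const.indicator (hK j)
  have hW1 : ∀ z, W z ≤ 1 := by
    intro z
    rw [← hsum]
    apply ENNReal.tsum_le_tsum
    intro j
    refine le_trans ?_ (hB1 j)
    exact indicator_le_self' (fun _ _ => zero_le) z
  have hWt : ∀ z, W z ≠ ⊤ := fun z => ne_top_of_le_ne_top ENNReal.one_ne_top (hW1 z)
  refine ⟨fun z => Real.sqrt (W z).toReal, hWm.ennreal_toReal.sqrt, fun z => Real.sqrt_nonneg _,
    fun m => ?_, fun F hF hC => ?_⟩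
  · have hBm : 0 < (B m).toReal :=
      ENNReal.toReal_pos (hB0 m) (ne_top_of_le_ne_top (by simp) (hB1 m))
    refine ⟨Real.sqrt (B m).toReal, Real.sqrt_pos.2 hBm, fun z hz => ?_⟩
    apply Real.sqrt_le_sqrt
    apply ENNReal.toReal_mono (hWt z)
    calc B m = (K m).indicator (fun _ => B m) z := by rw [indicator_of_mem hz]
      _ ≤ W z := ENNReal.le_tsum m
  · have h1 : ∀ z, ‖((Real.sqrt (W z).toReal : ℝ) : ℂ) * F z‖ₑ ^ 2 = W z * ‖F z‖ₑ ^ 2 := by
      intro z
      rw [enorm_mul, mul_pow]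
      congr 1
      rw [← ofReal_norm, Complex.norm_real, Real.norm_eq_abs,
        abs_of_nonneg (Real.sqrt_nonneg _), ← ENNReal.ofReal_pow (Real.sqrt_nonneg _),
        Real.sq_sqrt ENNReal.toReal_nonneg, ENNReal.ofReal_toReal (hWt z)]
    simp only [h1]
    have h2 : ∀ z, W z * ‖F z‖ₑ ^ 2 = ∑' j, (K j).indicator (fun z => B j * ‖F z‖ₑ ^ 2) z := by
      intro z
      rw [hW, ← ENNReal.tsum_mul_right]
      congr 1
      funext j
      by_cases hz : z ∈ K j
      · simp [indicator_of_mem hz]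
      · simp [indicator_of_notMem hz]
    simp only [h2]
    have hFm : Measurable fun z => ‖F z‖ₑ ^ 2 := hF.enorm.pow_const 2
    rw [lintegral_tsum fun j => ((hFm.const_mul (B j)).indicator (hK j)).aemeasurable]
    rw [← hsum]
    apply ENNReal.tsum_le_tsum
    intro j
    rw [lintegral_indicator (hK j), lintegral_const_mul _ hFm]
    calc B j * ∫⁻ z in K j, ‖F z‖ₑ ^ 2 ≤ B j * ENNReal.ofReal (C j) := by gcongr; exact hC j
      _ ≤ (2 : ℝ≥0∞)⁻¹ ^ (j + 1) * ((ENNReal.ofReal (C j) + 1)⁻¹ * (ENNReal.ofReal (C j) + 1)) := by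
          rw [hB, mul_assoc]
          gcongr
          exact le_self_add
      _ = _ := by
          rw [ENNReal.inv_mul_cancel (by simp) (by simp), mul_one]

/-- local `L²` bounds for the products -/
lemma exists_bound (hL : StmtL4) {V : Set ℂ} {q : ℂ → ℝ} {h : ℕ → ℝ} {f : ℕ → ℂ → ℝ}
    (hS : Seq V q h f) (hf : L4Bdd V f) (n : ℕ) {K : Set ℂ} (hK : IsCompact K) (hKV : K ⊆ V) :
    ∃ C : ℝ, ∀ i, ∫⁻ z in K, ‖(f i z : ℂ) * gg (h i) (f i) n z‖ₑ ^ 2 ≤ ENNReal.ofReal C := by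
  obtain ⟨ζ, hζ, hζ01, hζ1⟩ := exists_cutoff hK hS.pot.isOpen hKV
  obtain ⟨ζ', C₁, hζ', hC₁, h1⟩ := hL V q hS.pot n ζ hζ
  obtain ⟨C₂, h2⟩ := hf ζ hζ
  obtain ⟨C₃, h3⟩ := hf ζ' hζ'
  refine ⟨C₂ + C₁ * C₃, fun i => ?_⟩
  have hc1 : Continuous (f i) := (hS.sol i).smooth.continuous
  have hc2 : Continuous (gg (h i) (f i) n) := (contDiff_gg (hS.sol i).smooth (h i) n).continuous
  have hζ4 : TestR V (fun z => ζ z ^ 4) := by
    have := ((hζ.mul_right hζ.smooth).mul_right hζ.smooth).mul_right hζ.smooth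
    convert this using 2
    ring
  have hi1 : Integrable (fun z => ζ z ^ 4 * f i z ^ 4) := Rel.integrable_testR hζ4 (hc1.pow 4)
  have hi2 : Integrable (fun z => ζ z ^ 4 * ‖gg (h i) (f i) n z‖ ^ 4) :=
    Rel.integrable_testR hζ4 (hc2.norm.pow 4)
  have h4 : ∫ z, (ζ z ^ 4 * f i z ^ 4 + ζ z ^ 4 * ‖gg (h i) (f i) n z‖ ^ 4) ≤ C₂ + C₁ * C₃ := by
    rw [integral_add hi1 hi2]
    have h5 := h1 (h i) (f i) (hS.sol i)
    have h6 := mul_le_mul_of_nonneg_left (h3 i) hC₁
    linarith [h2 i]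
  calc ∫⁻ z in K, ‖(f i z : ℂ) * gg (h i) (f i) n z‖ₑ ^ 2
      ≤ ∫⁻ z in K, ENNReal.ofReal
        (ζ z ^ 4 * f i z ^ 4 + ζ z ^ 4 * ‖gg (h i) (f i) n z‖ ^ 4) := by
        apply setLIntegral_mono_ae' hK.measurableSet
        refine Eventually.of_forall fun z hz => ?_
        have hz1 : ζ z = 1 := hζ1.self_of_nhdsSet z hz
        rw [hz1, ← ofReal_norm, ← ENNReal.ofReal_pow (norm_nonneg _)]
        apply ENNReal.ofReal_le_ofReal
        rw [norm_mul, Complex.norm_real, Real.norm_eq_abs, mul_pow, sq_abs]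
        have ha : 0 ≤ f i z ^ 2 := sq_nonneg _
        have hb : 0 ≤ ‖gg (h i) (f i) n z‖ ^ 2 := sq_nonneg _
        nlinarith [sq_nonneg (f i z ^ 2 - ‖gg (h i) (f i) n z‖ ^ 2),
          sq_nonneg (f i z ^ 2), sq_nonneg (‖gg (h i) (f i) n z‖ ^ 2)]
    _ ≤ ∫⁻ z, ENNReal.ofReal
        (ζ z ^ 4 * f i z ^ 4 + ζ z ^ 4 * ‖gg (h i) (f i) n z‖ ^ 4) :=
        setLIntegral_le_lintegral _ _
    _ = ENNReal.ofReal (∫ z, (ζ z ^ 4 * f i z ^ 4 + ζ z ^ 4 * ‖gg (h i) (f i) n z‖ ^ 4)) := by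
        have hi3 : Integrable
            (fun z => ζ z ^ 4 * f i z ^ 4 + ζ z ^ 4 * ‖gg (h i) (f i) n z‖ ^ 4) := hi1.add hi2
        rw [ofReal_integral_eq_lintegral_ofReal hi3]
        exact Eventually.of_forall fun z => by positivity
    _ ≤ _ := ENNReal.ofReal_le_ofReal h4

end

end Pool.Agent.A54.Comp

namespace Pool.Agent.A54

open MeasureTheory Filter Topology Set Pool.Agent.A54.Comp
open scoped ContDiff ComplexConjugate ENNReal InnerProductSpace

theorem stmtComp (hL : StmtL4) : StmtComp := by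
  intro V q h f hS hf
  obtain ⟨K, hK1, hK2, hK3⟩ := exists_exhaustion hS.pot.isOpen
  choose C hC using fun n j => exists_bound hL hS hf n (hK1 j) (hK2 j)
  choose w hw1 hw2 hw3 hw4 using fun n => exists_weight K (fun j => (hK1 j).measurableSet) (C n)
  choose c hc0 hc using hw3
  have hFc : ∀ n i, Continuous (fun z => (f i z : ℂ) * gg (h i) (f i) n z) := fun n i =>
    (Complex.continuous_ofReal.comp (hS.sol i).smooth.continuous).mul
      (contDiff_gg (hS.sol i).smooth (h i) n).continuous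
  have hbd : ∀ n i, ∫⁻ z, ‖(w n z : ℂ) * ((f i z : ℂ) * gg (h i) (f i) n z)‖ₑ ^ 2 ≤ 1 :=
    fun n i => hw4 n _ (hFc n i).measurable fun j => hC n j i
  have hmeas : ∀ n i, AEStronglyMeasurable
      (fun z => (w n z : ℂ) * ((f i z : ℂ) * gg (h i) (f i) n z)) volume := fun n i =>
    ((Complex.measurable_ofReal.comp (hw1 n)).mul (hFc n i).measurable).aestronglyMeasurable
  have hnorm : ∀ n i, eLpNorm (fun z => (w n z : ℂ) * ((f i z : ℂ) * gg (h i) (f i) n z)) 2
      volume ≤ 1 := by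
    intro n i
    rw [eLpNorm_eq_lintegral_rpow_enorm_toReal (by norm_num) (by norm_num)]
    simp only [ENNReal.toReal_ofNat, ENNReal.rpow_ofNat]
    calc _ ≤ (1 : ℝ≥0∞) ^ (1 / (2 : ℝ)) := ENNReal.rpow_le_rpow (hbd n i) (by norm_num)
      _ = 1 := ENNReal.one_rpow _
  have hmem : ∀ n i, MemLp (fun z => (w n z : ℂ) * ((f i z : ℂ) * gg (h i) (f i) n z)) 2
      volume := fun n i => ⟨hmeas n i, (hnorm n i).trans_lt ENNReal.one_lt_top⟩
  have hfact : Fact ((2 : ℝ≥0∞) ≠ ⊤) := ⟨by norm_num⟩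
  have hsep : TopologicalSpace.SeparableSpace (Lp ℂ 2 (volume : Measure ℂ)) := inferInstance
  obtain ⟨σ, y, hσ, hy⟩ := exists_subseq (E := Lp ℂ 2 (volume : Measure ℂ))
    (fun n i => (hmem n i).toLp _) (fun _ => 1) (by
      intro n i
      rw [Lp.norm_toLp]
      calc (eLpNorm _ 2 volume).toReal ≤ (1 : ℝ≥0∞).toReal :=
            ENNReal.toReal_mono ENNReal.one_ne_top (hnorm n i)
        _ = 1 := ENNReal.toReal_one)
  refine ⟨σ, fun n z => y n z / (w n z : ℂ), hσ, ⟨⟨hS.pot, fun i => hS.sol (σ i),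
    hS.lim.comp hσ.tendsto_atTop⟩, ?_, ?_⟩⟩
  · intro n L hL' hLV
    obtain ⟨m, hm⟩ := hK3 L hL' hLV
    have h1 : MemLp (y n) 2 (volume.restrict L) := (Lp.memLp (y n)).restrict L
    refine MemLp.of_le_mul h1 (c := (c n m)⁻¹) ?_ ?_
    · exact ((Lp.memLp (y n)).aestronglyMeasurable.restrict).div₀
        ((Complex.measurable_ofReal.comp (hw1 n)).aestronglyMeasurable)
    · rw [ae_restrict_iff' hL'.measurableSet]
      refine Eventually.of_forall fun z hz => ?_
      have h2 := hc n m z (hm hz)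
      rw [norm_div, Complex.norm_real, Real.norm_eq_abs, abs_of_nonneg (hw2 n z), div_eq_inv_mul]
      exact mul_le_mul_of_nonneg_right (inv_anti₀ (hc0 n m) h2) (norm_nonneg _)
  · intro n φ hφ
    obtain ⟨m, hm⟩ := hK3 (tsupport φ) hφ.cpt hφ.sub
    have hv : MemLp (fun z => conj (φ z) / (w n z : ℂ)) 2 volume := by
      have h1 : MemLp φ 2 volume := hφ.smooth.continuous.memLp_of_hasCompactSupport hφ.cpt
      refine MemLp.of_le_mul h1 (c := (c n m)⁻¹) ?_ ?_
      · exact ((Complex.continuous_conj.comp hφ.smooth.continuous).measurable.div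
          (Complex.measurable_ofReal.comp (hw1 n))).aestronglyMeasurable
      · refine Eventually.of_forall fun z => ?_
        rw [norm_div, RCLike.norm_conj, Complex.norm_real, Real.norm_eq_abs,
          abs_of_nonneg (hw2 n z), div_eq_inv_mul]
        by_cases hz : z ∈ tsupport φ
        · exact mul_le_mul_of_nonneg_right (inv_anti₀ (hc0 n m) (hc n m z (hm hz)))
            (norm_nonneg _)
        · rw [image_eq_zero_of_notMem_tsupport hz]
          simp
    have h2 := hy n (hv.toLp _)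
    have h3 := (Complex.continuous_conj.tendsto _).comp h2
    have h4 : ∀ x : Lp ℂ 2 (volume : Measure ℂ), conj ⟪x, hv.toLp _⟫_ℂ =
        ∫ z, φ z * (x z / (w n z : ℂ)) := by
      intro x
      rw [inner_conj_symm, L2.inner_def]
      apply integral_congr_ae
      filter_upwards [hv.coeFn_toLp] with z hz
      rw [hz, RCLike.inner_apply, map_div₀, Complex.conj_conj, Complex.conj_ofReal]
      ring
    have h5 : ∀ i, ∫ z, φ z * ((hmem n (σ i)).toLp _ z / (w n z : ℂ)) =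
        ∫ z, φ z * ((f (σ i) z : ℂ) * gg (h (σ i)) (f (σ i)) n z) := by
      intro i
      apply integral_congr_ae
      filter_upwards [(hmem n (σ i)).coeFn_toLp] with z hz
      rw [hz]
      by_cases hz1 : z ∈ tsupport φ
      · have h6 : (w n z : ℂ) ≠ 0 := by
          have := (hc0 n m).trans_le (hc n m z (hm hz1))
          exact_mod_cast this.ne'
        field_simp
      · rw [image_eq_zero_of_notMem_tsupport hz1]
        simp
    simp only [Function.comp_def, h4, h5] at h3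
    exact h3

end Pool.Agent.A54
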