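import Pool.Agent.Lib.MP_a54f13_nt.LocGen

/-!
Even moments and third moment of local solutions with quantum unique ergodicity.
-/

set_option autoImplicit false

namespace Pool.Agent.A54.Loc

open MeasureTheory Filter Topology Set
open scoped ContDiff ComplexConjugate
open Pool.Agent.A54.Rel Pool.Agent.A54.LocGen

noncomputable section

variable {V : Set ℂ} {q : ℂ → ℝ} {h : ℕ → ℝ} {f : ℕ → ℂ → ℝ}

/-- the limits of the modes under quantum unique ergodicity -/
def rq (n : ℕ) (_ : ℂ) : ℂ := if n = 0 then 1 else 0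

lemma sm_of_sq (hS : Sq V q h f) : Sm V q h f rq where
  pot := hS.pot
  sol := hS.sol
  lim := hS.lim
  loc := by
    intro n K hK _
    have : IsFiniteMeasure (volume.restrict K : Measure ℂ) :=
      ⟨by rw [Measure.restrict_apply_univ]; exact hK.measure_lt_top⟩
    exact memLp_const _
  mode := by
    intro n φ hφ
    have h1 := hS.que n φ hφ
    have e : ∫ z, φ z * rq n z = if n = 0 then ∫ z, φ z else 0 := by
      unfold rq
      split_ifs <;> simp
    rw [e]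
    exact h1

lemma pp_rq (n : ℕ) (z : ℂ) : pp q rq n z = if n = 0 then 1 else 0 := by
  unfold pp rq
  split_ifs with h
  · simp [h]
  · simp

lemma PP_rq (φ : ℂ → ℝ) (n : ℕ) : PP q rq φ n = if n = 0 then ∫ z, φ z else 0 := by
  unfold PP
  simp_rw [pp_rq]
  split_ifs <;> simp

/-- the sum for the uniform limit -/
lemma pairSum_delta (c : ℝ) (N : ℕ) : pairSum (fun n => if n = 0 then c else 0) N = N * c := by
  unfold pairSum
  have e : ∀ n ∈ Finset.Icc 1 N, ∑ m ∈ Finset.Icc 1 N, (if n % 2 = m % 2 then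
      (if n + m = 0 then c else 0) + (if ((n : ℤ) - m).natAbs = 0 then c else 0) else 0) = c := by
    intro n hn
    have hn1 := (Finset.mem_Icc.mp hn).1
    rw [Finset.sum_eq_single n]
    · have h0 : n ≠ 0 := by omega
      simp [h0]
    · intro m hm hmn
      have h1 : n ≠ 0 := by omega
      have h2 : ((n : ℤ) - m).natAbs ≠ 0 := by omega
      simp [h1, h2]
    · intro h; exact absurd hn h
  rw [Finset.sum_congr rfl e, Finset.sum_const, Nat.card_Icc]
  simp

lemma dens_rq (M : ℕ) (hM : 1 ≤ M) (z : ℂ) : dens q rq M z = 3 - 3 / (4 * M) := by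
  have hM0 : (M : ℝ) ≠ 0 := by positivity
  unfold dens
  have e : (fun n => pp q rq n z) = fun n => if n = 0 then (1 : ℝ) else 0 := by
    funext n; exact pp_rq n z
  rw [e, pairSum_delta, pp_rq]
  push_cast
  field_simp
  ring

/-- fourth moment -/
lemma four_lower (hG : StmtLocGen) (hS : Sq V q h f) {φ : ℂ → ℝ} (hφ : TestR V φ)
    (hφ0 : ∀ z, 0 ≤ φ z) {ε : ℝ} (hε : 0 < ε) :
    ∀ᶠ i in atTop, 3 * (∫ z, φ z) - ε ≤ ∫ z, φ z * f i z ^ 4 := by
  have h1 : Tendsto (fun M : ℕ => 3 / 4 * (∫ z, φ z) * (1 / ((M : ℝ) + 1))) atTop (𝓝 0) := by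
    have h0 : Tendsto (fun k : ℕ => 1 / ((k : ℝ) + 1)) atTop (𝓝 0) :=
      tendsto_one_div_add_atTop_nhds_zero_nat
    simpa using h0.const_mul (3 / 4 * (∫ z, φ z))
  obtain ⟨M, hM⟩ := (h1.eventually (gt_mem_nhds (half_pos hε))).exists
  have h2 := hG V q h f rq (sm_of_sq hS) φ hφ hφ0 (M + 1) (by omega) (ε / 2) (half_pos hε)
  filter_upwards [h2] with i hi
  refine le_trans ?_ hi
  have e : ∫ z, φ z * (3 * pp q rq 0 z - 3 / (2 * (2 * ((M + 1 : ℕ) : ℝ)) ^ 2) *
      pairSum (fun n => pp q rq n z) (2 * (M + 1))) =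
      (∫ z, φ z) * (3 - 3 / (4 * ((M + 1 : ℕ) : ℝ))) := by
    rw [← integral_mul_const]
    congr 1; funext z
    have := dens_rq (q := q) (M + 1) (by omega) z
    unfold dens at this
    rw [this]
  rw [e]
  push_cast
  have hM0 : (0 : ℝ) < (M : ℝ) + 1 := by positivity
  have e2 : (∫ z, φ z) * (3 - 3 / (4 * ((M : ℝ) + 1))) =
      3 * (∫ z, φ z) - 3 / 4 * (∫ z, φ z) * (1 / ((M : ℝ) + 1)) := by
    field_simp
  rw [e2]
  linarith

lemma bern {u : ℝ} (hu : 0 ≤ u) (k : ℕ) (hk : 2 ≤ k) :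
    3 ^ (k - 1) * ((2 - (k : ℝ)) * u + ((k : ℝ) - 1) / 3 * u ^ 2) ≤ u ^ k := by
  obtain ⟨m, rfl⟩ : ∃ m, k = m + 1 := ⟨k - 1, by omega⟩
  simp only [Nat.add_sub_cancel]
  have h1 := one_add_mul_le_pow (a := u / 3 - 1) (by linarith [div_nonneg hu (by norm_num : (0:ℝ) ≤ 3)]) m
  have h2 : u ^ (m + 1) = 3 ^ m * u * (1 + (u / 3 - 1)) ^ m := by
    rw [show 1 + (u / 3 - 1) = u / 3 by ring, div_pow]
    field_simp
    ring
  rw [h2]
  have h3 : 3 ^ m * ((2 - ((m + 1 : ℕ) : ℝ)) * u + (((m + 1 : ℕ) : ℝ) - 1) / 3 * u ^ 2) =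
      3 ^ m * u * (1 + (m : ℝ) * (u / 3 - 1)) := by
    push_cast; ring
  rw [h3]
  exact mul_le_mul_of_nonneg_left h1 (by positivity)

lemma second_q (hS : Sq V q h f) {φ : ℂ → ℝ} (hφ : TestR V φ) :
    Tendsto (fun i => ∫ z, φ z * f i z ^ 2) atTop (𝓝 (∫ z, φ z)) := by
  have h1 := hS.que 0 _ hφ.toTest
  rw [if_pos rfl, integral_complex_ofReal] at h1
  have h2 := (Complex.continuous_re.tendsto _).comp h1
  simp only [Complex.ofReal_re] at h2
  refine h2.congr fun i => ?_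
  have e2 : ∫ z, (φ z : ℂ) * ((f i z : ℂ) * gg (h i) (f i) 0 z) =
      ((∫ z, φ z * f i z ^ 2 : ℝ) : ℂ) := by
    rw [← integral_complex_ofReal]
    congr 1; funext z
    rw [gg_zero]; push_cast; ring
  simp only [Function.comp_apply, e2, Complex.ofReal_re]

theorem _root_.Pool.Agent.A54.stmtLocEven (hG : StmtLocGen) : StmtLocEven := by
  intro V q h f hS φ hφ hφ0 k hk ε hε
  have hk1 : (1 : ℝ) ≤ (k : ℝ) - 1 := by
    have : (2 : ℝ) ≤ k := by exact_mod_cast hk
    linarith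
  set T : ℝ := 3 ^ (k - 1) with hT
  have hT0 : 0 < T := by positivity
  have h2 := second_q hS hφ
  have h3 := (h2.const_mul (T * (2 - (k : ℝ)))).eventually
    (lt_mem_nhds (sub_lt_self _ (half_pos hε)))
  have hc : 0 < T * (((k : ℝ) - 1) / 3) := by positivity
  have h4 := four_lower hG hS hφ hφ0 (ε := ε / 2 / (T * (((k : ℝ) - 1) / 3))) (by positivity)
  filter_upwards [h3, h4] with i hi3 hi4
  have cf := (hS.sol i).smooth.continuous
  have i2 : Integrable (fun z => φ z * f i z ^ 2) := integrable_testR hφ (cf.pow 2)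
  have i4 : Integrable (fun z => φ z * f i z ^ 4) := integrable_testR hφ (cf.pow 4)
  have h5 : ∫ z, (T * (2 - (k : ℝ)) * (φ z * f i z ^ 2) +
      T * (((k : ℝ) - 1) / 3) * (φ z * f i z ^ 4)) ≤ ∫ z, φ z * f i z ^ (2 * k) := by
    refine integral_mono ((i2.const_mul _).add (i4.const_mul _))
      (integrable_testR hφ (cf.pow (2 * k))) fun z => ?_
    have h6 := mul_le_mul_of_nonneg_left (bern (sq_nonneg (f i z)) k hk) (hφ0 z)
    calc _ = φ z * (3 ^ (k - 1) * ((2 - (k : ℝ)) * f i z ^ 2 +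
          ((k : ℝ) - 1) / 3 * (f i z ^ 2) ^ 2)) := by rw [hT]; ring
      _ ≤ φ z * (f i z ^ 2) ^ k := h6
      _ = _ := by rw [← pow_mul]
  rw [integral_add (i2.const_mul _) (i4.const_mul _), integral_const_mul, integral_const_mul] at h5
  have h7 := mul_le_mul_of_nonneg_left hi4 hc.le
  have e7 : T * (((k : ℝ) - 1) / 3) * (3 * (∫ z, φ z) - ε / 2 / (T * (((k : ℝ) - 1) / 3))) =
      T * ((k : ℝ) - 1) * (∫ z, φ z) - ε / 2 := by
    field_simp
  rw [e7] at h7
  nlinarith [h5, h7, hi3]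

/-! ### The third moment -/

/-- coefficients -/
def kap (n : ℕ) : ℝ := if 3 ∣ n then 1 else -(1 / 2)

/-- coefficients -/
def cc (n : ℕ) : ℝ := (-1) ^ n * kap n

lemma cc_block (M : ℕ) : cc (6 * M + 1) = 1 / 2 ∧ cc (6 * M + 2) = -(1 / 2) ∧
    cc (6 * M + 3) = -1 ∧ cc (6 * M + 4) = -(1 / 2) ∧ cc (6 * M + 5) = 1 / 2 ∧
    cc (6 * M + 6) = 1 := by
  have e : ∀ j : ℕ, ((-1 : ℝ)) ^ (6 * M + j) = (-1) ^ j := by
    intro j
    rw [pow_add, pow_mul]
    norm_num
  unfold cc kap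
  refine ⟨?_, ?_, ?_, ?_, ?_, ?_⟩
  · rw [e, if_neg (by omega)]; norm_num
  · rw [e, if_neg (by omega)]; norm_num
  · rw [e, if_pos (by omega)]; norm_num
  · rw [e, if_neg (by omega)]; norm_num
  · rw [e, if_neg (by omega)]; norm_num
  · rw [e, if_pos (by omega)]; norm_num

lemma sum_six (g : ℕ → ℝ) (M : ℕ) :
    ∑ m ∈ Finset.Icc 1 (6 * (M + 1)), g m = ∑ m ∈ Finset.Icc 1 (6 * M), g m + g (6 * M + 1) +
      g (6 * M + 2) + g (6 * M + 3) + g (6 * M + 4) + g (6 * M + 5) + g (6 * M + 6) := by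
  rw [show 6 * (M + 1) = 6 * M + 1 + 1 + 1 + 1 + 1 + 1 by ring,
    Finset.sum_Icc_succ_top (by omega), Finset.sum_Icc_succ_top (by omega),
    Finset.sum_Icc_succ_top (by omega), Finset.sum_Icc_succ_top (by omega),
    Finset.sum_Icc_succ_top (by omega), Finset.sum_Icc_succ_top (by omega)]

lemma sum_cc (n M : ℕ) (a b : ℝ) :
    ∑ m ∈ Finset.Icc 1 (6 * M), cc m * (if n % 2 = m % 2 then a else b) = 0 := by
  induction M with
  | zero => simp
  | succ M ih =>
    rw [sum_six, ih]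
    obtain ⟨h1, h2, h3, h4, h5, h6⟩ := cc_block M
    rw [h1, h2, h3, h4, h5, h6, show (6 * M + 1) % 2 = 1 by omega,
      show (6 * M + 2) % 2 = 0 by omega, show (6 * M + 3) % 2 = 1 by omega,
      show (6 * M + 4) % 2 = 0 by omega, show (6 * M + 5) % 2 = 1 by omega,
      show (6 * M + 6) % 2 = 0 by omega]
    ring

lemma sum_cc_sq (M : ℕ) : ∑ m ∈ Finset.Icc 1 (6 * M), cc m * cc m = 3 * M := by
  induction M with
  | zero => simp
  | succ M ih =>
    rw [sum_six, ih]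
    obtain ⟨h1, h2, h3, h4, h5, h6⟩ := cc_block M
    rw [h1, h2, h3, h4, h5, h6]
    push_cast
    ring

lemma sum_cc_tt (M : ℕ) : ∑ n ∈ Finset.Icc 1 (6 * M), ∑ m ∈ Finset.Icc 1 (6 * M),
    cc n * cc m * tt n m = 0 := by
  refine Finset.sum_eq_zero fun n _ => ?_
  simp_rw [mul_assoc]
  rw [← Finset.mul_sum]
  unfold tt
  rw [sum_cc, mul_zero]

lemma sum_cc_LL (I : ℝ) (M : ℕ) : ∑ n ∈ Finset.Icc 1 (6 * M), ∑ m ∈ Finset.Icc 1 (6 * M),
    cc n * cc m * LL (fun k => if k = 0 then I else 0) n m = 3 * M * I := by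
  have h1 : ∀ n ∈ Finset.Icc 1 (6 * M), ∑ m ∈ Finset.Icc 1 (6 * M),
      cc n * cc m * LL (fun k => if k = 0 then I else 0) n m = cc n * cc n * I := by
    intro n hn
    have hn1 := (Finset.mem_Icc.mp hn).1
    have e : ∀ m, m ∈ Finset.Icc 1 (6 * M) →
        cc n * cc m * LL (fun k => if k = 0 then I else 0) n m =
        cc n * (if m = n then cc m * I else 0) -
          cc n * (cc m * (if n % 2 = m % 2 then 2 * I else 0)) := by
      intro m hm
      unfold LL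
      by_cases hmn : m = n
      · have h0 : n ≠ 0 := by omega
        simp [hmn, h0]
        ring
      · have h0 : n ≠ 0 := by omega
        have h2 : ((n : ℤ) - m).natAbs ≠ 0 := by omega
        by_cases hp : n % 2 = m % 2
        · simp [hmn, h0, h2, hp, mul_assoc]
        · simp [hmn, hp]
    rw [Finset.sum_congr rfl e, Finset.sum_sub_distrib, ← Finset.mul_sum, ← Finset.mul_sum,
      sum_cc, Finset.sum_ite_eq' , if_pos hn]
    ring
  rw [Finset.sum_congr rfl h1, ← Finset.sum_mul, sum_cc_sq]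

/-- cubic moments in terms of the third moment -/
lemma cube_mom (hC : StmtCubic) (hS : Sq V q h f) (hB : L4Bdd V f) (n : ℕ) {φ : ℂ → ℝ}
    (hφ : TestR V φ) :
    Tendsto (fun i => (∫ z, φ z * (f i z * nn q (h i) (f i) n z)) -
      cc n * ∫ z, φ z * f i z ^ 3) atTop (𝓝 0) := by
  have h1 := hC V q h f hS hB n _ hφ.toTest
  have h2 := ((Complex.continuous_re.tendsto _).comp h1).const_mul ((-1 : ℝ) ^ n)
  simp only [Complex.zero_re, mul_zero] at h2
  refine h2.congr fun i => ?_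
  have e1 : ∫ z, (φ z : ℂ) * (ss q (h i) (f i) 0 z * ss q (h i) (f i) n z *
      ss q (h i) (f i) (-n) z) =
      (((-1) ^ n * ∫ z, φ z * (f i z * nn q (h i) (f i) n z) : ℝ) : ℂ) := by
    rw [← integral_const_mul, ← integral_complex_ofReal]
    congr 1; funext z
    rw [mul_assoc (ss q (h i) (f i) 0 z), ss_mul_neg hS.pot n]
    change (φ z : ℂ) * ((f i z : ℂ) * _) = _
    push_cast; ring
  have e2 : ∫ z, (φ z : ℂ) * (f i z : ℂ) ^ 3 = ((∫ z, φ z * f i z ^ 3 : ℝ) : ℂ) := by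
    rw [← integral_complex_ofReal]
    congr 1; funext z; push_cast; ring
  have e3 : (if 3 ∣ n then 1 else -(1 / 2 : ℂ)) = ((kap n : ℝ) : ℂ) := by
    unfold kap
    split_ifs <;> push_cast <;> ring
  simp only [Function.comp_apply]
  rw [e1, e2, e3, ← Complex.ofReal_mul, ← Complex.ofReal_sub, Complex.ofReal_re, mul_sub,
    ← mul_assoc, ← mul_assoc, ← mul_pow]
  unfold cc
  simp

lemma cube_XX (hC : StmtCubic) (hS : Sq V q h f) (hB : L4Bdd V f) (N : ℕ) {φ : ℂ → ℝ}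
    (hφ : TestR V φ) :
    Tendsto (fun i => (∫ z, φ z * (f i z * XX q (h i) (f i) cc N z)) -
      (∑ n ∈ Finset.Icc 1 N, cc n * cc n) * ∫ z, φ z * f i z ^ 3) atTop (𝓝 0) := by
  have h1 : Tendsto (fun i => ∑ n ∈ Finset.Icc 1 N, cc n *
      ((∫ z, φ z * (f i z * nn q (h i) (f i) n z)) - cc n * ∫ z, φ z * f i z ^ 3)) atTop
      (𝓝 (∑ n ∈ Finset.Icc 1 N, cc n * 0)) :=
    tendsto_finsetSum _ fun n _ => (cube_mom hC hS hB n hφ).const_mul _
  simp only [mul_zero, Finset.sum_const_zero] at h1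
  refine h1.congr fun i => ?_
  have hint : ∀ n, Integrable (fun z => cc n * (φ z * (f i z * nn q (h i) (f i) n z))) := fun n =>
    (integrable_testR hφ ((hS.sol i).smooth.continuous.mul
      (continuous_nn hS.pot (hS.sol i).smooth _ n))).const_mul _
  have e : ∀ z, φ z * (f i z * XX q (h i) (f i) cc N z) =
      ∑ n ∈ Finset.Icc 1 N, cc n * (φ z * (f i z * nn q (h i) (f i) n z)) := by
    intro z
    unfold XX
    rw [Finset.mul_sum, Finset.mul_sum]
    refine Finset.sum_congr rfl fun n _ => ?_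
    ring
  simp_rw [e]
  rw [integral_finsetSum _ fun n _ => hint n, Finset.sum_mul, ← Finset.sum_sub_distrib]
  refine Finset.sum_congr rfl fun n _ => ?_
  rw [integral_const_mul]
  ring

lemma cube_core {I : ℝ} {m ε : ℝ} (hm : 0 < m) (hε : 0 < ε) (hmI : m * I ^ 2 < (m * ε / 2) ^ 2)
    {A B F : ℕ → ℝ} (hA : ∀ i, A i ^ 2 ≤ B i) (hB : Tendsto B atTop (𝓝 (m * I ^ 2)))
    (hAF : Tendsto (fun i => A i - m * F i) atTop (𝓝 0)) : ∀ᶠ i in atTop, |F i| < ε := by
  have h1 := hB.eventually (gt_mem_nhds hmI)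
  have h2 : ∀ᶠ i in atTop, |A i - m * F i| < m * ε / 2 := by
    have := hAF.eventually (Metric.ball_mem_nhds (0 : ℝ) (show 0 < m * ε / 2 by positivity))
    filter_upwards [this] with i hi
    rw [Real.dist_eq, sub_zero] at hi
    exact hi
  filter_upwards [h1, h2] with i hi1 hi2
  have h3 : |A i| < m * ε / 2 := by
    apply abs_lt_of_sq_lt_sq _ (by positivity)
    exact (hA i).trans_lt hi1
  have h4 : m * |F i| < m * ε := by
    have e : m * |F i| = |m * F i| := by rw [abs_mul, abs_of_pos hm]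
    rw [e]
    have e2 : m * F i = A i - (A i - m * F i) := by ring
    rw [e2]
    refine (abs_sub _ _).trans_lt ?_
    linarith
  exact lt_of_mul_lt_mul_left h4 hm.le

lemma cube_nonneg (hRel : StmtRel) (hOdd : StmtOdd) (hOL : StmtOddLim) (hC : StmtCubic)
    (hS : Sq V q h f) (hB : L4Bdd V f) {φ : ℂ → ℝ} (hφ : TestR V φ) (hφ0 : ∀ z, 0 ≤ φ z) :
    Tendsto (fun i => ∫ z, φ z * f i z ^ 3) atTop (𝓝 0) := by
  rw [Metric.tendsto_nhds]
  intro ε hε
  simp_rw [Real.dist_eq, sub_zero]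
  set I := ∫ z, φ z with hI
  obtain ⟨M, hM⟩ := exists_nat_gt (4 * I ^ 2 / ε ^ 2)
  have hε2 : 0 < ε ^ 2 := by positivity
  rw [div_lt_iff₀ hε2] at hM
  have hMpos : (0 : ℝ) < ((M + 1 : ℕ) : ℝ) := by positivity
  have h1 := quad_lim hRel hOdd hOL (sm_of_sq hS) hB hφ cc (6 * (M + 1))
  have e1 : PP q rq φ = fun k => if k = 0 then I else 0 := by funext k; exact PP_rq φ k
  rw [sum_cc_tt, e1, sum_cc_LL] at h1
  simp only [zero_mul, sub_zero] at h1
  have h2 := cube_XX hC hS hB (6 * (M + 1)) hφ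
  rw [sum_cc_sq] at h2
  have h3 := second_q hS hφ
  refine cube_core (I := I) (m := 3 * ((M + 1 : ℕ) : ℝ)) (by positivity) hε ?_
    (A := fun i => ∫ z, φ z * (f i z * XX q (h i) (f i) cc (6 * (M + 1)) z))
    (B := fun i => (∫ z, φ z * f i z ^ 2) *
      ∫ z, φ z * XX q (h i) (f i) cc (6 * (M + 1)) z ^ 2) ?_ ?_ h2
  · have e : (3 * ((M + 1 : ℕ) : ℝ) * ε / 2) ^ 2 =
        3 * ((M + 1 : ℕ) : ℝ) * (3 * ((M + 1 : ℕ) : ℝ) * ε ^ 2 / 4) := by ring
    rw [e]
    apply mul_lt_mul_of_pos_left _ (by positivity)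
    push_cast
    nlinarith [hM, hε2]
  · intro i
    have cf := (hS.sol i).smooth.continuous
    have cX := continuous_XX hS.pot (hS.sol i).smooth (h i) cc (6 * (M + 1))
    exact cs hφ0 (integrable_testR hφ (cf.pow 2)) (integrable_testR hφ (cX.pow 2))
      (integrable_testR hφ (cf.mul cX))
  · have h4 := h3.mul h1
    have e : I * (3 * ((M + 1 : ℕ) : ℝ) * I) = 3 * ((M + 1 : ℕ) : ℝ) * I ^ 2 := by ring
    rw [e] at h4
    exact h4

theorem _root_.Pool.Agent.A54.stmtLocCube (hRel : StmtRel) (hOdd : StmtOdd) (hOL : StmtOddLim)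
    (hC : StmtCubic) : StmtLocCube := by
  intro V q h f hS hB φ hφ
  obtain ⟨χ, hχ, hχ01, hχ1⟩ := exists_cutoff hφ.cpt.isCompact hS.pot.isOpen hφ.sub
  obtain ⟨Z, hZ0, hZ⟩ := test_bdd hφ
  have hψ : TestR V (fun z => φ z + Z * χ z) := by
    refine ⟨hφ.smooth.add (contDiff_const.mul hχ.smooth), hφ.cpt.add hχ.cpt.mul_left, ?_⟩
    refine (tsupport_add φ (fun z => Z * χ z)).trans (union_subset hφ.sub ?_)
    exact (tsupport_mul_subset_right (f := fun _ => Z) (g := χ)).trans hχ.sub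
  have hψ0 : ∀ z, 0 ≤ φ z + Z * χ z := by
    intro z
    by_cases hz : z ∈ tsupport φ
    · have e1 : χ z = 1 := hχ1.self_of_nhdsSet z hz
      rw [e1]
      have := (abs_le.mp (hZ z)).1
      linarith
    · rw [image_eq_zero_of_notMem_tsupport hz, zero_add]
      exact mul_nonneg hZ0 (hχ01 z).1
  have h1 := cube_nonneg hRel hOdd hOL hC hS hB hψ hψ0
  have h2 := (cube_nonneg hRel hOdd hOL hC hS hB hχ (fun z => (hχ01 z).1)).const_mul Z
  have h3 := h1.sub h2
  rw [mul_zero, sub_zero] at h3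
  refine h3.congr fun i => ?_
  have c3 : Continuous (fun z => f i z ^ 3) := (hS.sol i).smooth.continuous.pow 3
  rw [← integral_const_mul, ← integral_sub (integrable_testR hψ c3)
    ((integrable_testR hχ c3).const_mul Z)]
  congr 1; funext z; ring

end

end Pool.Agent.A54.Loc
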