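import Pool.Agent.Lib.MP_a54f13_nt.LocGen

/-!
The fourth moment is at least `3/2` times the square of the second moment.
-/

set_option autoImplicit false

namespace Pool.Agent.A54.Ratio

open MeasureTheory Filter Topology Set
open scoped ContDiff ComplexConjugate
open Pool.Agent.A54.Rel Pool.Agent.A54.LocGen

noncomputable section

variable {V : Set ℂ} {q : ℂ → ℝ} {h : ℕ → ℝ} {f : ℕ → ℂ → ℝ} {r : ℕ → ℂ → ℂ}

lemma pairSum_two (p : ℕ → ℝ) : pairSum p 2 = 2 * p 0 + p 2 + p 4 := by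
  unfold pairSum
  have e : Finset.Icc 1 2 = {1, 2} := by decide
  rw [e]
  simp
  ring

lemma dens_one (hI : StmtIneq) (hS : Sm V q h f r) :
    ∀ᵐ z, z ∈ V → 3 / 2 * rho r z ^ 2 ≤ dens q r 1 z := by
  have hV := hS.pot.isOpen.measurableSet
  have h2 := (ae_restrict_iff' hV).mp (hI V q h f r hS 2)
  have h4 := (ae_restrict_iff' hV).mp (hI V q h f r hS 4)
  filter_upwards [ae_rho hI hS, h2, h4] with z hz h2 h4 hzV
  obtain ⟨_, _, e0⟩ := hz hzV
  have g2 := (h2 hzV).1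
  have g4 := (h4 hzV).1
  unfold dens
  rw [show 2 * 1 = 2 by rfl, pairSum_two]
  rw [e0] at g2 g4 ⊢
  push_cast
  linarith

/-- Cauchy–Schwarz for the second and fourth moments -/
lemma cs_four {φ g : ℂ → ℝ} (hφ : TestR V φ) (hφ0 : ∀ z, 0 ≤ φ z) (hg : Continuous g) :
    (∫ z, φ z * g z ^ 2) ^ 2 ≤ (∫ z, φ z) * ∫ z, φ z * g z ^ 4 := by
  have h1 := cs (w := φ) (a := fun _ => 1) (b := fun z => g z ^ 2) hφ0
    (by simpa using hφ.integrable) (integrable_testR hφ ((hg.pow 2).pow 2))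
    (by simpa using integrable_testR hφ (hg.pow 2))
  have e : ∀ z, φ z * (g z ^ 2) ^ 2 = φ z * g z ^ 4 := fun z => by ring
  simp only [one_mul, one_pow, mul_one] at h1
  simp_rw [e] at h1
  exact h1

/-- limit of the second moments -/
lemma second_lim (hI : StmtIneq) (hS : Sm V q h f r) {w : ℂ → ℝ} (hw : TestR V w) :
    Tendsto (fun i => ∫ z, w z * f i z ^ 2) atTop (𝓝 (∫ z, w z * rho r z)) := by
  have h1 := hS.mode 0 _ hw.toTest
  have e1 : ∫ z, (w z : ℂ) * r 0 z = ((∫ z, w z * rho r z : ℝ) : ℂ) := by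
    rw [← integral_complex_ofReal]
    apply integral_congr_ae
    filter_upwards [ae_rho hI hS] with z hz
    by_cases hV : z ∈ V
    · rw [(hz hV).1]; push_cast; rfl
    · rw [hw.eq_zero hV]; simp
  rw [e1] at h1
  have h2 := (Complex.continuous_re.tendsto _).comp h1
  simp only [Complex.ofReal_re] at h2
  refine h2.congr fun i => ?_
  have e2 : ∫ z, (w z : ℂ) * ((f i z : ℂ) * gg (h i) (f i) 0 z) =
      ((∫ z, w z * f i z ^ 2 : ℝ) : ℂ) := by
    rw [← integral_complex_ofReal]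
    congr 1; funext z
    rw [gg_zero]; push_cast; ring
  simp only [Function.comp_apply, e2, Complex.ofReal_re]

/-- `(3/2) (∫ w ρ)² ≤ (∫ w) ∫ w dens` -/
lemma dens_cs (hI : StmtIneq) (hS : Sm V q h f r) {w : ℂ → ℝ} (hw : TestR V w)
    (hw0 : ∀ z, 0 ≤ w z) :
    3 / 2 * (∫ z, w z * rho r z) ^ 2 ≤ (∫ z, w z) * ∫ z, w z * dens q r 1 z := by
  obtain ⟨i1, e1⟩ := integrable_rho_sq hI hS hw
  have h1 := cs (w := w) (a := fun _ => 1) (b := fun z => rho r z) hw0
    (by simpa using hw.integrable) i1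
    (by simpa using integrable_L2loc (L2loc_rho hS) hw continuous_const (F := fun _ => 1))
  simp only [one_mul, one_pow, mul_one] at h1
  have h2 : 3 / 2 * ∫ z, w z * rho r z ^ 2 ≤ ∫ z, w z * dens q r 1 z := by
    rw [← integral_const_mul]
    apply integral_mono_ae (i1.const_mul _) (dens_int hS.pot hS.loc hw 1).1
    filter_upwards [dens_one hI hS] with z hz
    by_cases hV : z ∈ V
    · have := mul_le_mul_of_nonneg_left (hz hV) (hw0 z)
      calc _ = w z * (3 / 2 * rho r z ^ 2) := by ring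
        _ ≤ _ := this
    · rw [hw.eq_zero hV]; simp
  have h3 : 0 ≤ ∫ z, w z := integral_nonneg hw0
  calc _ ≤ 3 / 2 * ((∫ z, w z) * ∫ z, w z * rho r z ^ 2) := by linarith
    _ = (∫ z, w z) * (3 / 2 * ∫ z, w z * rho r z ^ 2) := by ring
    _ ≤ _ := mul_le_mul_of_nonneg_left h2 h3

/-- arithmetic core of the contradiction -/
lemma core {ε I0 J B1 η D : ℝ} (hε : 0 < ε) (hI0 : 0 < I0) (hJ : J ≤ I0)
    (hη : 0 ≤ η) (hηε : 3 / 2 * (2 * B1 * η + η ^ 2) < ε / 4) {a b F4 : ℕ → ℝ} {b' : ℝ}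
    (hb : Tendsto b atTop (𝓝 b')) (ha0 : ∀ j, 0 ≤ a j)
    (hbB : ∀ j, b j ≤ B1) (hab : ∀ j, a j ≤ b j + η)
    (hF : ∀ j, I0 * F4 j < 3 / 2 * a j ^ 2 - ε)
    (hD : ∀ ε' : ℝ, 0 < ε' → ∀ᶠ j in atTop, D - ε' ≤ F4 j) (hD0 : 0 ≤ D)
    (hcs : 3 / 2 * b' ^ 2 ≤ J * D) : False := by
  have h1 : Tendsto (fun j => b j ^ 2) atTop (𝓝 (b' ^ 2)) := hb.pow 2
  have h2 := h1.eventually (gt_mem_nhds (lt_add_of_pos_right (b' ^ 2) (show 0 < ε / 8 by linarith)))
  have h3 := hD (ε / (4 * I0)) (by positivity)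
  obtain ⟨j, hj2, hj3⟩ := (h2.and h3).exists
  have h4 : I0 * (D - ε / (4 * I0)) ≤ I0 * F4 j := mul_le_mul_of_nonneg_left hj3 hI0.le
  have h5 : I0 * (D - ε / (4 * I0)) = I0 * D - ε / 4 := by field_simp
  have h6 : J * D ≤ I0 * D := mul_le_mul_of_nonneg_right hJ hD0
  have h7 : a j ^ 2 ≤ b j ^ 2 + (2 * B1 * η + η ^ 2) := by
    have e1 : a j ^ 2 ≤ (b j + η) ^ 2 := pow_le_pow_left₀ (ha0 j) (hab j) 2
    have e2 : b j * η ≤ B1 * η := mul_le_mul_of_nonneg_right (hbB j) hη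
    nlinarith [e1, e2]
  have h8 := hF j
  linarith

theorem _root_.Pool.Agent.A54.stmtRatio (hG : StmtLocGen) (hComp : StmtComp) (hI : StmtIneq) :
    StmtRatio := by
  intro V q h f hS hB2 φ hφ hφ0 ε hε
  by_contra hcon
  rw [Filter.not_eventually] at hcon
  obtain ⟨σ, hσ, hσ'⟩ := Filter.extraction_of_frequently_atTop hcon
  have hlt : ∀ i, (∫ z, φ z) * ∫ z, φ z * f (σ i) z ^ 4 <
      3 / 2 * (∫ z, φ z * f (σ i) z ^ 2) ^ 2 - ε := by
    intro i
    have := hσ' i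
    rw [not_le] at this
    exact this
  have hfc : ∀ i, Continuous (f i) := fun i => (hS.sol i).smooth.continuous
  -- bounds for the second moments
  obtain ⟨ζ, hζ, hζ01, hζ1⟩ := exists_cutoff hφ.cpt.isCompact hS.pot.isOpen hφ.sub
  obtain ⟨B, hB⟩ := hB2 ζ hζ
  have hB0 : 0 ≤ B := (integral_nonneg fun z => by positivity).trans (hB 0)
  have hle : ∀ (w : ℂ → ℝ) (c : ℝ), 0 ≤ c → Continuous w → HasCompactSupport w →
      (∀ z, w z ≤ c * ζ z ^ 2) → ∀ i, ∫ z, w z * f i z ^ 2 ≤ c * B := by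
    intro w c hc hw hwc hwle i
    have j1 : Integrable (fun z => w z * f i z ^ 2) :=
      (hw.mul ((hfc i).pow 2)).integrable_of_hasCompactSupport hwc.mul_right
    have j2 : Integrable (fun z => c * (ζ z ^ 2 * f i z ^ 2)) := by
      have h1 : HasCompactSupport (fun z => ζ z ^ 2) :=
        hζ.cpt.comp_left (g := fun x : ℝ => x ^ 2) (by simp)
      exact (((hζ.smooth.continuous.pow 2).mul ((hfc i).pow 2)).integrable_of_hasCompactSupport
        h1.mul_right).const_mul _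
    calc _ ≤ ∫ z, c * (ζ z ^ 2 * f i z ^ 2) := by
          refine integral_mono j1 j2 fun z => ?_
          calc w z * f i z ^ 2 ≤ c * ζ z ^ 2 * f i z ^ 2 :=
                mul_le_mul_of_nonneg_right (hwle z) (by positivity)
            _ = _ := by ring
      _ = c * ∫ z, ζ z ^ 2 * f i z ^ 2 := integral_const_mul _ _
      _ ≤ _ := mul_le_mul_of_nonneg_left (hB i) hc
  obtain ⟨Z, hZ0, hZ⟩ := test_bdd hφ
  have hφle : ∀ z, φ z ≤ Z * ζ z ^ 2 := by
    intro z
    by_cases hz : z ∈ tsupport φ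
    · have : ζ z = 1 := hζ1.self_of_nhdsSet z hz
      rw [this]
      have := (le_abs_self _).trans (hZ z)
      linarith
    · rw [image_eq_zero_of_notMem_tsupport hz]
      positivity
  have hA := hle φ Z hZ0 hφ.smooth.continuous hφ.cpt hφle
  have hpos2 : ∀ (w : ℂ → ℝ), (∀ z, 0 ≤ w z) → ∀ i, 0 ≤ ∫ z, w z * f i z ^ 2 := fun w hw i =>
    integral_nonneg fun z => mul_nonneg (hw z) (by positivity)
  have hI00 : 0 ≤ ∫ z, φ z := integral_nonneg hφ0
  have hI0 : 0 < ∫ z, φ z := by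
    rcases hI00.eq_or_lt with h0 | h0
    · exfalso
      have h1 := hlt 0
      have h2 := cs_four hφ hφ0 (hfc (σ 0))
      rw [← h0, zero_mul] at h1 h2
      linarith
    · exact h0
  -- the fourth moments are bounded
  have hF4 : ∀ i, ∫ z, φ z * f (σ i) z ^ 4 ≤ 3 / 2 * (Z * B) ^ 2 / ∫ z, φ z := by
    intro i
    rw [le_div_iff₀ hI0]
    have h1 := hlt i
    have h2 : (∫ z, φ z * f (σ i) z ^ 2) ^ 2 ≤ (Z * B) ^ 2 :=
      pow_le_pow_left₀ (hpos2 φ hφ0 _) (hA _) 2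
    linarith
  have hB' : L4Bdd {z | 0 < φ z} (fun i => f (σ i)) :=
    L4Bdd_pos hφ hφ0 (fun i => hfc (σ i)) hF4
  obtain ⟨τ, r, hτ, hSm⟩ := hComp {z | 0 < φ z} q (fun i => h (σ i)) (fun i => f (σ i))
    (Seq.sub hS (isOpen_pos hφ) (pos_sub hφ) hσ.tendsto_atTop) hB'
  obtain ⟨χ, hχ, h01, hχ1⟩ := exists_cutoffs hφ
  -- choice of the cutoff
  have hη : Tendsto (fun k : ℕ => 3 / 2 * (2 * (Z * B) * (1 / ((k : ℝ) + 1) * B) +
      (1 / ((k : ℝ) + 1) * B) ^ 2)) atTop (𝓝 0) := by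
    have h1 : Tendsto (fun k : ℕ => 1 / ((k : ℝ) + 1) * B) atTop (𝓝 0) := by
      have h0 : Tendsto (fun k : ℕ => 1 / ((k : ℝ) + 1)) atTop (𝓝 0) :=
        tendsto_one_div_add_atTop_nhds_zero_nat
      have := h0.mul_const B
      rw [zero_mul] at this
      exact this
    have h2 := ((h1.const_mul (2 * (Z * B))).add (h1.pow 2)).const_mul (3 / 2)
    simpa using h2
  obtain ⟨k, hk⟩ := (hη.eventually (gt_mem_nhds (show 0 < ε / 4 by linarith))).exists
  have hw := TestR.mul_cut hφ (hχ k)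
  have hw0 : ∀ z, 0 ≤ φ z * χ k z := fun z => mul_nonneg (hφ0 z) (h01 k z).1
  have hk0 : (0 : ℝ) ≤ 1 / ((k : ℝ) + 1) := by positivity
  refine core (ε := ε) (I0 := ∫ z, φ z) (J := ∫ z, φ z * χ k z) (B1 := Z * B)
    (η := 1 / ((k : ℝ) + 1) * B) (D := ∫ z, φ z * χ k z * dens q r 1 z)
    (a := fun j => ∫ z, φ z * f (σ (τ j)) z ^ 2)
    (b := fun j => ∫ z, φ z * χ k z * f (σ (τ j)) z ^ 2)
    (F4 := fun j => ∫ z, φ z * χ k z * f (σ (τ j)) z ^ 4)
    (b' := ∫ z, φ z * χ k z * rho r z) hε hI0 ?_ (by positivity) hk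
    (second_lim hI hSm hw) (fun j => hpos2 _ hφ0 _) ?_ ?_ ?_ ?_ ?_
    (dens_cs hI hSm hw hw0)
  · exact integral_mono hw.integrable hφ.integrable fun z =>
      mul_le_of_le_one_right (hφ0 z) (h01 k z).2
  · intro j
    exact (int_cut_le hφ hφ0 (hχ k) (h01 k) (g := fun z => f (σ (τ j)) z ^ 2)
      ((hfc _).pow 2) (fun z => by positivity)).trans (hA _)
  · intro j
    have h1 := hle (fun z => φ z * (1 - χ k z)) (1 / ((k : ℝ) + 1)) hk0
      (hφ.smooth.continuous.mul (continuous_const.sub (hχ k).smooth.continuous))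
      hφ.cpt.mul_right (by
        intro z
        by_cases hz : z ∈ tsupport φ
        · have e1 : ζ z = 1 := hζ1.self_of_nhdsSet z hz
          rw [e1]
          by_cases hz2 : 1 / ((k : ℝ) + 1) ≤ φ z
          · rw [hχ1 k z hz2]
            simpa using hk0
          · rw [not_le] at hz2
            have e2 : φ z * (1 - χ k z) ≤ φ z :=
              mul_le_of_le_one_right (hφ0 z) (by linarith [(h01 k z).1])
            linarith
        · rw [image_eq_zero_of_notMem_tsupport hz, zero_mul]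
          positivity) (σ (τ j))
    have e : ∫ z, φ z * (1 - χ k z) * f (σ (τ j)) z ^ 2 =
        (∫ z, φ z * f (σ (τ j)) z ^ 2) - ∫ z, φ z * χ k z * f (σ (τ j)) z ^ 2 := by
      have c2 : Continuous (fun z => f (σ (τ j)) z ^ 2) := (hfc _).pow 2
      rw [← integral_sub (integrable_testR hφ c2) (integrable_testR hw c2)]
      congr 1; funext z; ring
    rw [e] at h1
    linarith
  · intro j
    have h1 := hlt (τ j)
    have h2 := int_cut_le hφ hφ0 (hχ k) (h01 k) (g := fun z => f (σ (τ j)) z ^ 4)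
      ((hfc _).pow 4) (fun z => by positivity)
    exact (mul_le_mul_of_nonneg_left h2 hI00).trans_lt h1
  · intro ε' hε'
    have h1 := hG _ _ _ _ r hSm _ hw hw0 1 le_rfl ε' hε'
    exact h1
  · have h1 := dens_cs hI hSm hw hw0
    have h2 : ∀ᵐ z, 0 ≤ φ z * χ k z * dens q r 1 z := by
      filter_upwards [dens_one hI hSm] with z hz
      by_cases hV : z ∈ {z | 0 < φ z}
      · exact mul_nonneg (hw0 z) ((by positivity : (0 : ℝ) ≤ 3 / 2 * rho r z ^ 2).trans (hz hV))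
      · have h3 : φ z * χ k z = 0 := hw.eq_zero hV
        rw [h3]; simp
    exact integral_nonneg_of_ae h2

end

end Pool.Agent.A54.Ratio
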