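import Pool.Agent.Lib.MP_a54f13_nt.Spec

/-!
The error term: `h ∂̄ g_{n+1} = - q g_n + O(h)`.
-/

set_option autoImplicit false

namespace Pool.Agent.A54

open MeasureTheory Filter Topology Set
open scoped ContDiff ComplexConjugate

noncomputable section

namespace Err

/-- Coefficients which are polynomials in `h` with smooth coefficients. -/
inductive Good : (ℝ → ℂ → ℂ) → Prop
  | const (b : ℂ → ℂ) (hb : ContDiff ℝ ∞ b) : Good (fun _ => b)
  | hmul (c : ℝ → ℂ → ℂ) (hc : Good c) : Good (fun h z => (h : ℂ) * c h z)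
  | add (c d : ℝ → ℂ → ℂ) (hc : Good c) (hd : Good d) : Good (fun h z => c h z + d h z)

lemma Good.smooth {c : ℝ → ℂ → ℂ} (hc : Good c) (h : ℝ) : ContDiff ℝ ∞ (c h) := by
  induction hc with
  | const b hb => exact hb
  | hmul c _ ih => exact contDiff_const.mul ih
  | add c d _ _ ihc ihd => exact ihc.add ihd

lemma Good.dz {c : ℝ → ℂ → ℂ} (hc : Good c) : Good (fun h => A54.dz (c h)) := by
  induction hc with
  | const b hb => exact Good.const _ (contDiff_dz hb)
  | hmul c hc ih =>
    have e : (fun h : ℝ => A54.dz (fun z => (h : ℂ) * c h z)) =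
        fun (h : ℝ) z => (h : ℂ) * A54.dz (c h) z := by
      funext h z
      exact dz_const_mul _ (hc.smooth h)
    rw [e]
    exact Good.hmul _ ih
  | add c d hc hd ihc ihd =>
    have e : (fun h : ℝ => A54.dz (fun z => c h z + d h z)) =
        fun (h : ℝ) z => A54.dz (c h) z + A54.dz (d h) z := by
      funext h z
      exact dz_add (hc.smooth h) (hd.smooth h)
    rw [e]
    exact Good.add _ _ ihc ihd

lemma Good.bound {c : ℝ → ℂ → ℂ} (hc : Good c) {K : Set ℂ} (hK : IsCompact K) :
    ∃ C : ℝ, 0 ≤ C ∧ ∀ h : ℝ, 0 < h → h ≤ 1 → ∀ z ∈ K, ‖c h z‖ ≤ C := by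
  induction hc with
  | const b hb =>
    obtain ⟨C, hC⟩ := hK.exists_bound_of_continuousOn hb.continuous.continuousOn
    exact ⟨max C 0, le_max_right _ _, fun h _ _ z hz => (hC z hz).trans (le_max_left _ _)⟩
  | hmul c _ ih =>
    obtain ⟨C, hC0, hC⟩ := ih
    refine ⟨C, hC0, fun h h0 h1 z hz => ?_⟩
    rw [norm_mul, Complex.norm_real, Real.norm_of_nonneg h0.le]
    calc h * ‖c h z‖ ≤ 1 * ‖c h z‖ := mul_le_mul_of_nonneg_right h1 (norm_nonneg _)
      _ ≤ C := by rw [one_mul]; exact hC h h0 h1 z hz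
  | add c d _ _ ihc ihd =>
    obtain ⟨C, hC0, hC⟩ := ihc
    obtain ⟨D, hD0, hD⟩ := ihd
    refine ⟨C + D, add_nonneg hC0 hD0, fun h h0 h1 z hz => ?_⟩
    exact (norm_add_le _ _).trans (add_le_add (hC h h0 h1 z hz) (hD h h0 h1 z hz))

/-- `∂` of a finite sum. -/
lemma dz_sum (n : ℕ) (F : ℕ → ℂ → ℂ) (hF : ∀ j, ContDiff ℝ ∞ (F j)) (z : ℂ) :
    ContDiff ℝ ∞ (fun w => ∑ j ∈ Finset.range n, F j w) ∧
    A54.dz (fun w => ∑ j ∈ Finset.range n, F j w) z = ∑ j ∈ Finset.range n, A54.dz (F j) z := by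
  induction n with
  | zero =>
    simp only [Finset.range_zero, Finset.sum_empty]
    exact ⟨contDiff_const, dz_const 0⟩
  | succ n ih =>
    simp only [Finset.sum_range_succ]
    exact ⟨ih.1.add (hF n), by rw [dz_add ih.1 (hF n), ih.2]⟩

lemma main (V : Set ℂ) (q : ℂ → ℝ) (hq : Pot V q) (n : ℕ) :
    ∃ c : ℕ → ℝ → ℂ → ℂ, (∀ j, Good (c j)) ∧ ∀ (h : ℝ) (f : ℂ → ℝ), Sol V q h f → ∀ z ∈ V,
      (h : ℂ) * dzb (gg h f (n + 1)) z = -(q z : ℂ) * gg h f n z +
        (h : ℂ) * ∑ j ∈ Finset.range n, c j h z * gg h f j z := by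
  induction n with
  | zero =>
    refine ⟨fun _ _ _ => 0, fun _ => Good.const _ contDiff_const, fun h f hf z hz => ?_⟩
    rw [zero_add, hf.eq z hz, gg_zero]
    simp
  | succ n ih =>
    obtain ⟨c, hc, hmain⟩ := ih
    refine ⟨fun j h z => (if j = n then -A54.dz (fun w => (q w : ℂ)) z
        else (h : ℂ) * A54.dz (c j h) z) + (if j = 0 then 0 else c (j - 1) h z), fun j => ?_,
        fun h f hf z hz => ?_⟩
    · apply Good.add
      · by_cases hj : j = n
        · simp only [hj, if_true]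
          exact Good.const _ (contDiff_dz (contDiff_ofReal hq.smooth)).neg
        · simp only [hj, if_false]
          exact Good.hmul _ (hc j).dz
      · by_cases hj : j = 0
        · simp only [hj, if_true]
          exact Good.const _ contDiff_const
        · simp only [hj, if_false]
          exact hc (j - 1)
    · have hg : ∀ m, ContDiff ℝ ∞ (gg h f m) := contDiff_gg hf.smooth h
      have hQ : ContDiff ℝ ∞ (fun w => (q w : ℂ)) := contDiff_ofReal hq.smooth
      have hF : ∀ j, ContDiff ℝ ∞ (fun w => c j h w * gg h f j w) := fun j =>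
        ((hc j).smooth h).mul (hg j)
      have e1 : (h : ℂ) * dzb (gg h f (n + 1 + 1)) z =
          (h : ℂ) * A54.dz (fun w => (h : ℂ) * dzb (gg h f (n + 1)) w) z := by
        have : gg h f (n + 1 + 1) = fun w => (h : ℂ) * A54.dz (gg h f (n + 1)) w := rfl
        rw [this, dzb_const_mul _ (contDiff_dz (hg (n + 1))), ← dz_dzb_comm (hg (n + 1)),
          dz_const_mul _ (contDiff_dzb (hg (n + 1)))]
      have e2 : A54.dz (fun w => (h : ℂ) * dzb (gg h f (n + 1)) w) z =
          A54.dz (fun w => -(q w : ℂ) * gg h f n w +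
            (h : ℂ) * ∑ j ∈ Finset.range n, c j h w * gg h f j w) z :=
        dz_congr hq.isOpen (fun w hw => hmain h f hf w hw) hz
      have e3 : A54.dz (fun w => -(q w : ℂ) * gg h f n w +
            (h : ℂ) * ∑ j ∈ Finset.range n, c j h w * gg h f j w) z =
          -A54.dz (fun w => (q w : ℂ)) z * gg h f n z + -(q z : ℂ) * A54.dz (gg h f n) z +
          (h : ℂ) * ∑ j ∈ Finset.range n, (A54.dz (c j h) z * gg h f j z +
            c j h z * A54.dz (gg h f j) z) := by
        rw [dz_add (hQ.neg.mul (hg n)) (contDiff_const.mul (dz_sum n _ hF z).1),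
          dz_mul hQ.neg (hg n), dz_neg hQ, dz_const_mul _ (dz_sum n _ hF z).1,
          (dz_sum n _ hF z).2]
        congr 2
        refine Finset.sum_congr rfl fun j _ => ?_
        exact dz_mul ((hc j).smooth h) (hg j)
      rw [e1, e2, e3]
      have e4 : ∑ j ∈ Finset.range (n + 1), ((if j = n then -A54.dz (fun w => (q w : ℂ)) z
          else (h : ℂ) * A54.dz (c j h) z) + (if j = 0 then 0 else c (j - 1) h z)) *
            gg h f j z =
          ∑ j ∈ Finset.range n, (h : ℂ) * A54.dz (c j h) z * gg h f j z +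
            -A54.dz (fun w => (q w : ℂ)) z * gg h f n z +
            ∑ j ∈ Finset.range n, c j h z * gg h f (j + 1) z := by
        simp only [add_mul, Finset.sum_add_distrib]
        congr 1
        · rw [Finset.sum_range_succ, if_pos rfl]
          congr 1
          refine Finset.sum_congr rfl fun j hj => ?_
          rw [if_neg (Finset.mem_range.1 hj).ne]
        · rw [Finset.sum_range_succ']
          simp
      rw [e4]
      simp only [gg_succ, Finset.sum_add_distrib, mul_add, Finset.mul_sum]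
      have e5 : ∀ j ∈ Finset.range n, (h : ℂ) * ((h : ℂ) * A54.dz (c j h) z * gg h f j z) =
          (h : ℂ) * ((h : ℂ) * (A54.dz (c j h) z * gg h f j z)) := fun j _ => by ring
      have e6 : ∀ j ∈ Finset.range n, (h : ℂ) * (c j h z * ((h : ℂ) * A54.dz (gg h f j) z)) =
          (h : ℂ) * ((h : ℂ) * (c j h z * A54.dz (gg h f j) z)) := fun j _ => by ring
      rw [Finset.sum_congr rfl e5, Finset.sum_congr rfl e6]
      ring

end Err

theorem stmtErr : StmtErr := by
  intro V q hq n K hK hKV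
  obtain ⟨c, hc, hmain⟩ := Err.main V q hq n
  choose C hC0 hC using fun j => (hc j).bound hK
  refine ⟨∑ j ∈ Finset.range n, C j, Finset.sum_nonneg fun j _ => hC0 j, fun h f hf z hz => ?_⟩
  rw [hmain h f hf z (hKV hz)]
  have e : -(q z : ℂ) * gg h f n z + (h : ℂ) * ∑ j ∈ Finset.range n, c j h z * gg h f j z +
      (q z : ℂ) * gg h f n z = (h : ℂ) * ∑ j ∈ Finset.range n, c j h z * gg h f j z := by ring
  rw [e, norm_mul, Complex.norm_real, Real.norm_of_nonneg hf.hpos.le]
  refine mul_le_mul_of_nonneg_left ?_ hf.hpos.le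
  refine (norm_sum_le _ _).trans ?_
  rw [Finset.mul_sum]
  refine Finset.sum_le_sum fun j hj => ?_
  rw [norm_mul]
  refine mul_le_mul_of_nonneg_right ?_ (norm_nonneg _)
  exact (hC j h hf.hpos hf.hle z hz).trans
    (Finset.single_le_sum (f := C) (fun i _ => hC0 i) hj)

end

end Pool.Agent.A54
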