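import Pool.Agent.Lib.MP_a54f13_nt.Spec

/-!
Weak limits of the products `s_a s_b`.
-/

set_option autoImplicit false

namespace Pool.Agent.A54

open MeasureTheory Filter Topology Set
open scoped ContDiff ComplexConjugate

noncomputable section

namespace Weak

variable {V : Set ℂ} {q : ℂ → ℝ}

lemma contDiff_qinv (hq : Pot V q) (m : ℕ) : ContDiff ℝ ∞ (fun z => (q z ^ m)⁻¹) :=
  (hq.smooth.pow m).inv (fun z => pow_ne_zero _ (hq.pos z).ne')

lemma ss_neg (q : ℂ → ℝ) (h : ℝ) (f : ℂ → ℝ) (n : ℕ) (z : ℂ) :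
    ss q h f (Int.negSucc n) z =
      (-1) ^ (n + 1) * conj (gg h f (n + 1) z) * (((q z ^ (n + 1))⁻¹ : ℝ) : ℂ) := by
  simp [ss, div_eq_mul_inv]

lemma contDiff_ss (hq : Pot V q) {f : ℂ → ℝ} (hf : ContDiff ℝ ∞ f) (h : ℝ) (a : ℤ) :
    ContDiff ℝ ∞ (ss q h f a) := by
  cases a with
  | ofNat n => exact contDiff_gg hf h n
  | negSucc n =>
    have : ss q h f (Int.negSucc n) = fun z =>
        (-1) ^ (n + 1) * conj (gg h f (n + 1) z) * (((q z ^ (n + 1))⁻¹ : ℝ) : ℂ) := by
      funext z; exact ss_neg q h f n z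
    rw [this]
    exact (contDiff_const.mul (contDiff_conj (contDiff_gg hf h (n + 1)))).mul
      (contDiff_ofReal (contDiff_qinv hq _))

/-- locally bounded in `L²` -/
def Bd (V : Set ℂ) (A : ℕ → ℂ → ℝ) : Prop :=
  (∀ i, Continuous (A i)) ∧ ∀ ζ : ℂ → ℝ, TestR V ζ → ∃ C : ℝ, ∀ i, ∫ z, ζ z ^ 2 * A i z ^ 2 ≤ C

lemma bd_gg (hC : StmtCacc) {h : ℕ → ℝ} {f : ℕ → ℂ → ℝ} (hS : Sq V q h f) (n : ℕ) :
    Bd V (fun i z => ‖gg (h i) (f i) n z‖) := by
  refine ⟨fun i => (contDiff_gg (hS.sol i).smooth (h i) n).continuous.norm, fun ζ hζ => ?_⟩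
  obtain ⟨ζ', C, hζ', hC0, hb⟩ := hC V q hS.pot n ζ hζ
  have hT := hS.que 0 _ (hζ'.mul_right hζ'.smooth).toTest
  obtain ⟨M, hM⟩ := hT.norm.bddAbove_range
  refine ⟨C * M, fun i => ?_⟩
  have h1 := hb (h i) (f i) (fun _ => 1) (hS.sol i) contDiff_const (fun _ => one_pos)
    (fun z => by simp)
  simp only [one_pow, mul_one] at h1
  refine h1.trans (mul_le_mul_of_nonneg_left ?_ hC0)
  have h2 := hM (mem_range_self i)
  have h3 : (∫ z, ((ζ' z * ζ' z : ℝ) : ℂ) * ((f i z : ℂ) * gg (h i) (f i) 0 z)) =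
      ((∫ z, ζ' z ^ 2 * f i z ^ 2 : ℝ) : ℂ) := by
    rw [← integral_complex_ofReal]
    congr 1
    funext z
    rw [gg_zero]
    push_cast
    ring
  rw [h3, Complex.norm_real] at h2
  exact (le_abs_self _).trans h2

lemma Bd.add {A B : ℕ → ℂ → ℝ} (hA : Bd V A) (hB : Bd V B) :
    Bd V (fun i z => A i z + B i z) := by
  refine ⟨fun i => (hA.1 i).add (hB.1 i), fun ζ hζ => ?_⟩
  obtain ⟨C1, h1⟩ := hA.2 ζ hζ
  obtain ⟨C2, h2⟩ := hB.2 ζ hζ
  refine ⟨2 * C1 + 2 * C2, fun i => ?_⟩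
  have hint : ∀ D : ℂ → ℝ, Continuous D → Integrable (fun z => ζ z ^ 2 * D z ^ 2) := by
    intro D hD
    apply ((hζ.smooth.continuous.pow 2).mul (hD.pow 2)).integrable_of_hasCompactSupport
    have hc : HasCompactSupport (fun z => ζ z ^ 2) := by
      have := hζ.cpt.comp_left (g := fun x : ℝ => x ^ 2) (by simp)
      exact this
    exact hc.mul_right
  have e1 : ∫ z, ζ z ^ 2 * (A i z + B i z) ^ 2 ≤
      ∫ z, (2 * (ζ z ^ 2 * A i z ^ 2) + 2 * (ζ z ^ 2 * B i z ^ 2)) := by
    refine integral_mono (hint _ ((hA.1 i).add (hB.1 i)))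
      (((hint _ (hA.1 i)).const_mul 2).add ((hint _ (hB.1 i)).const_mul 2)) fun z => ?_
    have h0 : 0 ≤ ζ z ^ 2 := sq_nonneg _
    have h3 : (A i z + B i z) ^ 2 ≤ 2 * A i z ^ 2 + 2 * B i z ^ 2 := by
      nlinarith [sq_nonneg (A i z - B i z)]
    calc ζ z ^ 2 * (A i z + B i z) ^ 2 ≤ ζ z ^ 2 * (2 * A i z ^ 2 + 2 * B i z ^ 2) :=
          mul_le_mul_of_nonneg_left h3 h0
      _ = _ := by ring
  rw [integral_add ((hint _ (hA.1 i)).const_mul 2) ((hint _ (hB.1 i)).const_mul 2),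
    integral_const_mul, integral_const_mul] at e1
  linarith [h1 i, h2 i]

lemma bd_sm (hC : StmtCacc) {h : ℕ → ℝ} {f : ℕ → ℂ → ℝ} (hS : Sq V q h f) (n : ℕ) :
    Bd V (fun i z => sm (h i) (f i) n z) := by
  induction n with
  | zero =>
    have : (fun (i : ℕ) z => sm (h i) (f i) 0 z) = fun i z => ‖gg (h i) (f i) 0 z‖ := by
      funext i z; simp [sm]
    rw [this]
    exact bd_gg hC hS 0
  | succ n ih =>
    have : (fun (i : ℕ) z => sm (h i) (f i) (n + 1) z) =
        fun i z => sm (h i) (f i) n z + ‖gg (h i) (f i) (n + 1) z‖ := by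
      funext i z; simp only [sm]; rw [Finset.sum_range_succ _ (n + 1)]
    rw [this]
    exact ih.add (bd_gg hC hS (n + 1))

lemma bd_ss (hC : StmtCacc) {h : ℕ → ℝ} {f : ℕ → ℂ → ℝ} (hS : Sq V q h f) (a : ℤ) :
    Bd V (fun i z => ‖ss q (h i) (f i) a z‖) := by
  refine ⟨fun i => (contDiff_ss hS.pot (hS.sol i).smooth (h i) a).continuous.norm,
    fun ζ hζ => ?_⟩
  cases a with
  | ofNat n => exact (bd_gg hC hS n).2 ζ hζ
  | negSucc n =>
    obtain ⟨C, h1⟩ := (bd_gg hC hS (n + 1)).2 _ (hζ.mul_right (contDiff_qinv hS.pot (n + 1)))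
    refine ⟨C, fun i => le_of_eq_of_le ?_ (h1 i)⟩
    congr 1
    funext z
    have hq := hS.pot.pos z
    simp only
    rw [ss_neg, norm_mul, norm_mul, norm_pow, norm_neg, norm_one, one_pow, one_mul,
      RCLike.norm_conj, Complex.norm_real, Real.norm_of_nonneg (by positivity)]
    ring

lemma Bd.prod {A B : ℕ → ℂ → ℝ} (hA : Bd V A) (hB : Bd V B) (hV : IsOpen V) {φ : ℂ → ℂ}
    (hφ : Test V φ) : ∃ C : ℝ, ∀ i, ∫ z, ‖φ z‖ * (|A i z| * |B i z|) ≤ C := by
  obtain ⟨ζ, hζ, -, h1⟩ := exists_cutoff hφ.cpt hV hφ.sub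
  obtain ⟨M, hM⟩ := hφ.smooth.continuous.bounded_above_of_compact_support hφ.cpt
  have hM0 : 0 ≤ M := (norm_nonneg _).trans (hM 0)
  obtain ⟨C1, h2⟩ := hA.2 ζ hζ
  obtain ⟨C2, h3⟩ := hB.2 ζ hζ
  have hint : ∀ D : ℂ → ℝ, Continuous D → Integrable (fun z => ζ z ^ 2 * D z ^ 2) := by
    intro D hD
    apply ((hζ.smooth.continuous.pow 2).mul (hD.pow 2)).integrable_of_hasCompactSupport
    have hc : HasCompactSupport (fun z => ζ z ^ 2) := by
      have := hζ.cpt.comp_left (g := fun x : ℝ => x ^ 2) (by simp)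
      exact this
    exact hc.mul_right
  refine ⟨M / 2 * C1 + M / 2 * C2, fun i => ?_⟩
  have hi : Integrable (fun z => ‖φ z‖ * (|A i z| * |B i z|)) := by
    apply (hφ.smooth.continuous.norm.mul ((hA.1 i).abs.mul (hB.1 i).abs)).integrable_of_hasCompactSupport
    have hc : HasCompactSupport (fun z => ‖φ z‖) := hφ.cpt.norm
    exact hc.mul_right
  have e1 : ∫ z, ‖φ z‖ * (|A i z| * |B i z|) ≤
      ∫ z, (M / 2 * (ζ z ^ 2 * A i z ^ 2) + M / 2 * (ζ z ^ 2 * B i z ^ 2)) := by
    refine integral_mono hi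
      (((hint _ (hA.1 i)).const_mul _).add ((hint _ (hB.1 i)).const_mul _)) fun z => ?_
    have hAB : |A i z| * |B i z| ≤ (A i z ^ 2 + B i z ^ 2) / 2 := by
      have := sq_nonneg (|A i z| - |B i z|)
      have e1 := sq_abs (A i z)
      have e2 := sq_abs (B i z)
      nlinarith
    by_cases hz : z ∈ tsupport φ
    · have hz1 : ζ z = 1 := h1.self_of_nhdsSet z hz
      simp only [hz1, one_pow, one_mul]
      calc ‖φ z‖ * (|A i z| * |B i z|) ≤ M * ((A i z ^ 2 + B i z ^ 2) / 2) :=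
            mul_le_mul (hM z) hAB (by positivity) hM0
        _ = _ := by ring
    · have : φ z = 0 := image_eq_zero_of_notMem_tsupport hz
      simp only [this, norm_zero, zero_mul]
      positivity
  rw [integral_add ((hint _ (hA.1 i)).const_mul _) ((hint _ (hB.1 i)).const_mul _),
    integral_const_mul, integral_const_mul] at e1
  have := mul_le_mul_of_nonneg_left (h2 i) (by positivity : 0 ≤ M / 2)
  have := mul_le_mul_of_nonneg_left (h3 i) (by positivity : 0 ≤ M / 2)
  linarith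

/-- one step: moving `h ∂` from one factor to the other one -/
lemma step (hZ : StmtErrZ) (hC : StmtCacc) {h : ℕ → ℝ} {f : ℕ → ℂ → ℝ} (hS : Sq V q h f)
    (a b : ℤ) {φ : ℂ → ℂ} (hφ : Test V φ) :
    Tendsto (fun i => (∫ z, φ z * (ss q (h i) (f i) (a + 1) z * ss q (h i) (f i) b z)) +
      ∫ z, φ z * (ss q (h i) (f i) a z * ss q (h i) (f i) (b + 1) z)) atTop (𝓝 0) := by
  have hV := hS.pot.isOpen
  obtain ⟨Ca, hCa, ha⟩ := hZ V q hS.pot a _ hφ.cpt hφ.sub
  obtain ⟨Cb, hCb, hb⟩ := hZ V q hS.pot b _ hφ.cpt hφ.sub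
  obtain ⟨M1, hM1⟩ := (bd_sm hC hS (a.natAbs + 1)).prod (bd_ss hC hS b) hV hφ
  obtain ⟨M2, hM2⟩ := (bd_ss hC hS a).prod (bd_sm hC hS (b.natAbs + 1)) hV hφ
  obtain ⟨M3, hM3⟩ := (bd_ss hC hS a).prod (bd_ss hC hS b) hV hφ.dz
  have hlim : Tendsto (fun i => h i * (Ca * M1 + Cb * M2 + M3)) atTop (𝓝 0) := by
    simpa using hS.lim.mul_const (Ca * M1 + Cb * M2 + M3)
  refine squeeze_zero_norm (fun i => ?_) hlim
  have hh : 0 < h i := (hS.sol i).hpos
  have sA : ∀ c, ContDiff ℝ ∞ (ss q (h i) (f i) c) := fun c =>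
    contDiff_ss hS.pot (hS.sol i).smooth (h i) c
  set s := ss q (h i) (f i) with hs
  have hsm0 : ∀ n z, 0 ≤ sm (h i) (f i) n z := fun n z =>
    Finset.sum_nonneg fun _ _ => norm_nonneg _
  have hsmc : ∀ n, Continuous (sm (h i) (f i) n) := fun n => (bd_sm hC hS n).1 i
  have ic : ∀ {g : ℂ → ℂ}, Continuous g → Integrable (fun z => φ z * g z) := fun hg =>
    integrable_of_cpt (hφ.smooth.continuous.mul hg) hφ.cpt.mul_right
  -- the main identity
  have e0 : (∫ z, φ z * (s (a + 1) z * s b z)) + ∫ z, φ z * (s a z * s (b + 1) z) =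
      (h i : ℂ) * (∫ z, φ z * dz (fun w => s a w * s b w) z) -
      ∫ z, φ z * (((h i : ℂ) * dz (s a) z - s (a + 1) z) * s b z +
        s a z * ((h i : ℂ) * dz (s b) z - s (b + 1) z)) := by
    have c1 := (sA a).continuous
    have c2 := (sA b).continuous
    have c3 := (sA (a + 1)).continuous
    have c4 := (sA (b + 1)).continuous
    have c5 := (contDiff_dz (sA a)).continuous
    have c6 := (contDiff_dz (sA b)).continuous
    have c7 := (contDiff_dz ((sA a).mul (sA b))).continuous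
    have j1 : Integrable (fun z => φ z * (s (a + 1) z * s b z)) := ic (c3.mul c2)
    have j2 : Integrable (fun z => φ z * (s a z * s (b + 1) z)) := ic (c1.mul c4)
    have j3 : Integrable (fun z => (h i : ℂ) * (φ z * dz (fun w => s a w * s b w) z)) :=
      (ic c7).const_mul _
    have j4 : Integrable (fun z => φ z * (((h i : ℂ) * dz (s a) z - s (a + 1) z) * s b z +
        s a z * ((h i : ℂ) * dz (s b) z - s (b + 1) z))) :=
      ic (((continuous_const.mul c5).sub c3).mul c2 |>.add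
          (c1.mul ((continuous_const.mul c6).sub c4)))
    rw [← integral_const_mul, ← integral_add j1 j2, ← integral_sub j3 j4]
    congr 1
    funext z
    rw [dz_mul (sA a) (sA b)]
    ring
  rw [e0, integral_mul_dz hφ.smooth ((sA a).mul (sA b)) (Or.inl hφ.cpt)]
  have n1 : ‖∫ z, dz φ z * (s a z * s b z)‖ ≤ M3 := by
    refine (norm_integral_le_integral_norm _).trans (le_of_eq_of_le ?_ (hM3 i))
    congr 1
    funext z
    rw [norm_mul, norm_mul, abs_norm, abs_norm]
  have n2 : ‖∫ z, φ z * (((h i : ℂ) * dz (s a) z - s (a + 1) z) * s b z +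
        s a z * ((h i : ℂ) * dz (s b) z - s (b + 1) z))‖ ≤ h i * (Ca * M1 + Cb * M2) := by
    refine (norm_integral_le_integral_norm _).trans ?_
    have i1 : Integrable (fun z => ‖φ z‖ *
        (|sm (h i) (f i) (a.natAbs + 1) z| * |‖s b z‖|)) := by
      apply (hφ.smooth.continuous.norm.mul
        ((hsmc _).abs.mul (sA b).continuous.norm.abs)).integrable_of_hasCompactSupport
      have hc : HasCompactSupport (fun z => ‖φ z‖) := hφ.cpt.norm
      exact hc.mul_right
    have i2 : Integrable (fun z => ‖φ z‖ *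
        (|‖s a z‖| * |sm (h i) (f i) (b.natAbs + 1) z|)) := by
      apply (hφ.smooth.continuous.norm.mul
        ((sA a).continuous.norm.abs.mul (hsmc _).abs)).integrable_of_hasCompactSupport
      have hc : HasCompactSupport (fun z => ‖φ z‖) := hφ.cpt.norm
      exact hc.mul_right
    have e1 : ∫ z, ‖φ z * (((h i : ℂ) * dz (s a) z - s (a + 1) z) * s b z +
        s a z * ((h i : ℂ) * dz (s b) z - s (b + 1) z))‖ ≤
        ∫ z, (h i * Ca * (‖φ z‖ * (|sm (h i) (f i) (a.natAbs + 1) z| * |‖s b z‖|)) +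
          h i * Cb * (‖φ z‖ * (|‖s a z‖| * |sm (h i) (f i) (b.natAbs + 1) z|))) := by
      have c1 := (sA a).continuous
      have c2 := (sA b).continuous
      have c3 := (sA (a + 1)).continuous
      have c4 := (sA (b + 1)).continuous
      have c5 := (contDiff_dz (sA a)).continuous
      have c6 := (contDiff_dz (sA b)).continuous
      refine integral_mono (ic (((continuous_const.mul c5).sub c3).mul c2 |>.add
          (c1.mul ((continuous_const.mul c6).sub c4)))).norm
          ((i1.const_mul _).add (i2.const_mul _)) fun z => ?_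
      simp only [abs_norm, abs_of_nonneg (hsm0 _ _)]
      rw [norm_mul]
      by_cases hz : z ∈ tsupport φ
      · have ha' := (ha (h i) (f i) (hS.sol i) z hz).1
        have hb' := (hb (h i) (f i) (hS.sol i) z hz).1
        have t1 : ‖((h i : ℂ) * dz (s a) z - s (a + 1) z) * s b z +
            s a z * ((h i : ℂ) * dz (s b) z - s (b + 1) z)‖ ≤
            h i * (Ca * sm (h i) (f i) (a.natAbs + 1) z) * ‖s b z‖ +
            ‖s a z‖ * (h i * (Cb * sm (h i) (f i) (b.natAbs + 1) z)) := by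
          refine (norm_add_le _ _).trans ?_
          rw [norm_mul, norm_mul]
          exact add_le_add (mul_le_mul_of_nonneg_right ha' (norm_nonneg _))
            (mul_le_mul_of_nonneg_left hb' (norm_nonneg _))
        calc _ ≤ ‖φ z‖ * (h i * (Ca * sm (h i) (f i) (a.natAbs + 1) z) * ‖s b z‖ +
            ‖s a z‖ * (h i * (Cb * sm (h i) (f i) (b.natAbs + 1) z))) :=
              mul_le_mul_of_nonneg_left t1 (norm_nonneg _)
          _ = _ := by ring
      · have : φ z = 0 := image_eq_zero_of_notMem_tsupport hz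
        simp [this]
    refine e1.trans ?_
    rw [integral_add (i1.const_mul _) (i2.const_mul _), integral_const_mul, integral_const_mul]
    have t1 := mul_le_mul_of_nonneg_left (hM1 i) (mul_nonneg hh.le hCa)
    have t2 := mul_le_mul_of_nonneg_left (hM2 i) (mul_nonneg hh.le hCb)
    calc _ ≤ h i * Ca * M1 + h i * Cb * M2 := add_le_add t1 t2
      _ = _ := by ring
  refine (norm_sub_le _ _).trans ?_
  rw [norm_mul, norm_neg, Complex.norm_real, Real.norm_of_nonneg hh.le]
  have := mul_le_mul_of_nonneg_left n1 hh.le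
  calc _ ≤ h i * M3 + h i * (Ca * M1 + Cb * M2) := add_le_add this n2
    _ = _ := by ring

lemma neg_one_pow_natAbs (b : ℤ) : (-1 : ℂ) ^ b.natAbs = (-1) ^ b := by
  rcases Int.even_or_odd b with hb | hb
  · rw [(Int.natAbs_even.mpr hb).neg_one_pow, hb.neg_one_zpow]
  · rw [(Int.natAbs_odd.mpr hb).neg_one_pow, hb.neg_one_zpow]

/-- moving everything to the first factor -/
lemma move (hZ : StmtErrZ) (hC : StmtCacc) {h : ℕ → ℝ} {f : ℕ → ℂ → ℝ} (hS : Sq V q h f)
    {φ : ℂ → ℂ} (hφ : Test V φ) (b : ℤ) : ∀ a : ℤ,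
    Tendsto (fun i => (∫ z, φ z * (ss q (h i) (f i) a z * ss q (h i) (f i) b z)) -
      (-1) ^ b * ∫ z, φ z * (ss q (h i) (f i) (a + b) z * ss q (h i) (f i) 0 z)) atTop (𝓝 0) := by
  induction b with
  | zero =>
    intro a
    simp
  | succ b ih =>
    intro a
    have h1 := (step hZ hC hS a b hφ).sub (ih (a + 1))
    rw [sub_zero] at h1
    refine h1.congr fun i => ?_
    rw [zpow_add₀ (by norm_num : (-1 : ℂ) ≠ 0), zpow_one,
      show a + 1 + (b : ℤ) = a + (b + 1) by ring]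
    ring
  | pred b ih =>
    intro a
    have h1 := (step hZ hC hS (a - 1) (-b - 1) hφ).sub (ih (a - 1))
    rw [sub_zero] at h1
    refine h1.congr fun i => ?_
    rw [zpow_sub₀ (by norm_num : (-1 : ℂ) ≠ 0), zpow_one,
      show a - 1 + -(b : ℤ) = a + (-b - 1) by ring, show a - 1 + 1 = a by ring,
      show -(b : ℤ) - 1 + 1 = -b by ring]
    ring

/-- the case `b = 0` -/
lemma base {h : ℕ → ℝ} {f : ℕ → ℂ → ℝ} (hS : Sq V q h f) {φ : ℂ → ℂ} (hφ : Test V φ) (a : ℤ) :
    Tendsto (fun i => ∫ z, φ z * (ss q (h i) (f i) a z * ss q (h i) (f i) 0 z)) atTop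
      (𝓝 (if a = 0 then ∫ z, φ z else 0)) := by
  cases a with
  | ofNat n =>
    have h1 := hS.que n φ hφ
    have e : (if Int.ofNat n = 0 then ∫ z, φ z else 0) = if n = 0 then ∫ z, φ z else 0 := by
      congr 1
      simp
    rw [e]
    refine h1.congr fun i => ?_
    congr 1
    funext z
    change φ z * ((f i z : ℂ) * gg (h i) (f i) n z) =
      φ z * (gg (h i) (f i) n z * gg (h i) (f i) 0 z)
    rw [gg_zero]
    ring
  | negSucc n =>
    have h1 := hS.que (n + 1) _
      (hφ.conj.mul_right (contDiff_ofReal (contDiff_qinv hS.pot (n + 1))))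
    rw [if_neg (Nat.succ_ne_zero n)] at h1
    rw [if_neg (Int.negSucc_ne_zero n)]
    have h2 := ((Complex.continuous_conj.tendsto _).comp h1).const_mul ((-1 : ℂ) ^ (n + 1))
    rw [map_zero, mul_zero] at h2
    refine h2.congr fun i => ?_
    simp only [Function.comp_apply]
    rw [← integral_conj, ← integral_const_mul]
    congr 1
    funext z
    rw [ss_neg]
    change _ = φ z * (_ * gg (h i) (f i) 0 z)
    rw [gg_zero]
    simp only [map_mul, Complex.conj_conj, Complex.conj_ofReal]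
    ring

end Weak

theorem stmtWeak (hZ : StmtErrZ) (hC : StmtCacc) : StmtWeak := by
  intro V q h f hS a b φ hφ
  have h1 := Weak.move hZ hC hS hφ b a
  have h2 := (Weak.base hS hφ (a + b)).const_mul ((-1 : ℂ) ^ b)
  have h3 := h1.add h2
  rw [zero_add] at h3
  have e : (if a + b = 0 then (-1 : ℂ) ^ b.natAbs * ∫ z, φ z else 0) =
      (-1) ^ b * if a + b = 0 then ∫ z, φ z else 0 := by
    rw [Weak.neg_one_pow_natAbs]
    split_ifs <;> simp
  rw [e]
  refine h3.congr fun i => ?_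
  ring

end

end Pool.Agent.A54
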