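import Pool.Agent.Lib.MP_a54f13_nt.Rel

/-!
The lower bound for the fourth moment (general weak limits).
-/

set_option autoImplicit false

namespace Pool.Agent.A54.LocGen

open MeasureTheory Filter Topology Set
open scoped ContDiff ComplexConjugate
open Pool.Agent.A54.Rel

noncomputable section

variable {V : Set ℂ} {q : ℂ → ℝ} {h : ℕ → ℝ} {f : ℕ → ℂ → ℝ} {r : ℕ → ℂ → ℂ}

/-- Cauchy–Schwarz with a weight -/
lemma cs {w a b : ℂ → ℝ} (hw : ∀ z, 0 ≤ w z) (i1 : Integrable (fun z => w z * a z ^ 2))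
    (i2 : Integrable (fun z => w z * b z ^ 2)) (i3 : Integrable (fun z => w z * (a z * b z))) :
    (∫ z, w z * (a z * b z)) ^ 2 ≤ (∫ z, w z * a z ^ 2) * ∫ z, w z * b z ^ 2 := by
  have h1 : ∀ x : ℝ, 0 ≤ (∫ z, w z * b z ^ 2) * (x * x) + (2 * ∫ z, w z * (a z * b z)) * x +
      ∫ z, w z * a z ^ 2 := by
    intro x
    have e : (∫ z, w z * b z ^ 2) * (x * x) + (2 * ∫ z, w z * (a z * b z)) * x +
        ∫ z, w z * a z ^ 2 = ∫ z, w z * (a z + x * b z) ^ 2 := by
      have e1 : ∀ z, w z * (a z + x * b z) ^ 2 =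
          (x * x) * (w z * b z ^ 2) + (2 * x) * (w z * (a z * b z)) + w z * a z ^ 2 := by
        intro z; ring
      simp_rw [e1]
      have j2 := i2.const_mul (x * x)
      have j3 := i3.const_mul (2 * x)
      rw [integral_add (f := fun z => x * x * (w z * b z ^ 2) + 2 * x * (w z * (a z * b z)))
          (j2.add j3) i1,
        integral_add j2 j3, integral_const_mul, integral_const_mul]
      ring
    rw [e]
    exact integral_nonneg fun z => mul_nonneg (hw z) (sq_nonneg _)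
  have h2 := discrim_le_zero h1
  unfold discrim at h2
  nlinarith [h2]

lemma move_ind {P : ℤ → ℤ → Prop} (hstep : ∀ a b, P a b → P (a + 1) (b + 1))
    (hsym : ∀ a b, P a b → P a (-b)) (hcomm : ∀ a b, P a b → P b a) {e : ℤ} (h0 : P e 0)
    (n m : ℕ) (c : ℕ) (hc : (n : ℤ) = e + 2 * c + m ∨ (m : ℤ) = e + 2 * c + n) :
    P n m := by
  have h1 : ∀ c : ℕ, P (e + 2 * c) 0 := by
    intro c
    induction c with
    | zero => simpa using h0
    | succ c ih =>
      have s1 := hstep _ _ ih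
      have s2 := hsym _ _ s1
      have s3 := hstep _ _ s2
      have e1 : e + 2 * (c : ℤ) + 1 + 1 = e + 2 * ((c + 1 : ℕ) : ℤ) := by push_cast; ring
      have e2 : -((0 : ℤ) + 1) + 1 = 0 := by ring
      rw [e1, e2] at s3
      exact s3
  have h2 : ∀ (c m : ℕ), P (e + 2 * c + m) m := by
    intro c m
    induction m with
    | zero => simpa using h1 c
    | succ m ih =>
      have := hstep _ _ ih
      have e1 : e + 2 * (c : ℤ) + m + 1 = e + 2 * c + ((m + 1 : ℕ) : ℤ) := by push_cast; ring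
      rw [e1] at this
      simpa using this
  rcases hc with hc | hc
  · rw [hc]; exact h2 c m
  · rw [hc]; exact hcomm _ _ (h2 c n)

/-- `∫ φ N_n N_m` -/
def AA (q : ℂ → ℝ) (h : ℝ) (f : ℂ → ℝ) (φ : ℂ → ℝ) (n m : ℕ) : ℝ :=
  ∫ z, φ z * (nn q h f n z * nn q h f m z)

lemma AA_comm (q : ℂ → ℝ) (h : ℝ) (f : ℂ → ℝ) (φ : ℂ → ℝ) (n m : ℕ) :
    AA q h f φ n m = AA q h f φ m n := by
  unfold AA
  congr 1; funext z; ring

lemma AA_zero (q : ℂ → ℝ) (h : ℝ) (f : ℂ → ℝ) (φ : ℂ → ℝ) :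
    AA q h f φ 0 0 = ∫ z, φ z * f z ^ 4 := by
  unfold AA
  congr 1; funext z; rw [nn_zero]; ring

/-- `∫ φ p_n` -/
def PP (q : ℂ → ℝ) (r : ℕ → ℂ → ℂ) (φ : ℂ → ℝ) (n : ℕ) : ℝ := ∫ z, φ z * pp q r n z

lemma integrable_pp (hq : Pot V q) (hr : ∀ n, L2loc V (r n)) {φ : ℂ → ℝ} (hφ : TestR V φ) (n : ℕ) :
    Integrable (fun z => φ z * pp q r n z) := by
  have hK := hφ.cpt.isCompact
  have h1 : IntegrableOn (fun z => ‖r n z‖ ^ 2) (tsupport φ) := by
    have := (hr n _ hK hφ.sub).integrable_norm_pow (p := 2) (by norm_num)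
    exact this
  obtain ⟨C, hC⟩ := hK.exists_bound_of_continuousOn (f := fun z => φ z * ((q z) ^ n)⁻¹)
    (hφ.smooth.continuous.mul (contDiff_inv_pow hq n).continuous).continuousOn
  have h2 : IntegrableOn (fun z => φ z * pp q r n z) (tsupport φ) := by
    have e : (fun z => φ z * pp q r n z) = fun z => (φ z * ((q z) ^ n)⁻¹) * ‖r n z‖ ^ 2 := by
      funext z; unfold pp; rw [div_eq_mul_inv]; ring
    rw [e]
    refine Integrable.bdd_mul (c := C) h1 ?_ ?_
    · exact (hφ.smooth.continuous.mul (contDiff_inv_pow hq n).continuous).aestronglyMeasurable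
    · filter_upwards [ae_restrict_mem hK.measurableSet] with z hz
      exact hC z hz
  rw [integrableOn_iff_integrable_of_support_subset] at h2
  · exact h2
  · intro z hz
    apply subset_tsupport
    intro h0
    exact hz (by simp [h0])

lemma rel' (hRel : StmtRel) (hS : Sm V q h f r) (hB : L4Bdd V f) (a b : ℤ) {φ : ℂ → ℝ}
    (hφ : TestR V φ) :
    Tendsto (fun i => AA q (h i) (f i) φ (a + 1).natAbs (b + 1).natAbs -
      AA q (h i) (f i) φ a.natAbs b.natAbs) atTop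
      (𝓝 (PP q r φ (a + b + 2).natAbs - PP q r φ (a + b).natAbs)) := by
  have h1 := hRel V q h f r hS hB a b φ hφ
  have e : ∫ z, φ z * (pp q r (a + b + 2).natAbs z - pp q r (a + b).natAbs z) =
      PP q r φ (a + b + 2).natAbs - PP q r φ (a + b).natAbs := by
    unfold PP
    rw [← integral_sub (integrable_pp hS.pot hS.loc hφ _) (integrable_pp hS.pot hS.loc hφ _)]
    congr 1; funext z; ring
  rw [e] at h1
  exact h1

/-- same parity: `A(n,m) = A(0,0) + ∫ φ (p_{n+m} + p_{|n-m|} - 2 p_0) + o(1)` -/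
lemma even_lim (hRel : StmtRel) (hS : Sm V q h f r) (hB : L4Bdd V f) {φ : ℂ → ℝ}
    (hφ : TestR V φ) (n m : ℕ) (hnm : n % 2 = m % 2) :
    Tendsto (fun i => AA q (h i) (f i) φ n m - AA q (h i) (f i) φ 0 0) atTop
      (𝓝 (PP q r φ (n + m) + PP q r φ ((n : ℤ) - m).natAbs - 2 * PP q r φ 0)) := by
  have key : (fun a b : ℤ => Tendsto (fun i => AA q (h i) (f i) φ a.natAbs b.natAbs -
      AA q (h i) (f i) φ 0 0) atTop (𝓝 (PP q r φ (a + b).natAbs + PP q r φ (a - b).natAbs -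
        2 * PP q r φ 0))) n m := by
    refine move_ind (P := fun a b : ℤ => Tendsto (fun i => AA q (h i) (f i) φ a.natAbs b.natAbs -
      AA q (h i) (f i) φ 0 0) atTop (𝓝 (PP q r φ (a + b).natAbs + PP q r φ (a - b).natAbs -
        2 * PP q r φ 0))) ?_ ?_ ?_ (e := 0) ?_ n m (((n : ℤ) - m).natAbs / 2) (by omega)
    · intro a b hab
      have h1 := rel' hRel hS hB a b hφ
      have h2 := hab.add h1
      have e1 : PP q r φ (a + b).natAbs + PP q r φ (a - b).natAbs - 2 * PP q r φ 0 +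
          (PP q r φ (a + b + 2).natAbs - PP q r φ (a + b).natAbs) =
          PP q r φ (a + 1 + (b + 1)).natAbs + PP q r φ (a + 1 - (b + 1)).natAbs -
            2 * PP q r φ 0 := by
        rw [show a + 1 + (b + 1) = a + b + 2 by ring, show a + 1 - (b + 1) = a - b by ring]
        ring
      rw [e1] at h2
      refine h2.congr fun i => ?_
      ring
    · intro a b hab
      rw [show (-b).natAbs = b.natAbs by simp, show a + -b = a - b by ring,
        show a - -b = a + b by ring]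
      rw [add_comm (PP q r φ (a - b).natAbs)]
      exact hab
    · intro a b hab
      rw [add_comm b a, show (b - a).natAbs = (a - b).natAbs by omega]
      refine hab.congr fun i => ?_
      rw [AA_comm]
    · have e1 : PP q r φ ((0 : ℤ) + 0).natAbs + PP q r φ ((0 : ℤ) - 0).natAbs -
          2 * PP q r φ 0 = 0 := by simp; ring
      rw [e1]
      simp only [Int.natAbs_zero, sub_self]
      exact tendsto_const_nhds
  exact key

lemma PP_odd (hOL : StmtOddLim) (hS : Sm V q h f r) {φ : ℂ → ℝ} (hφ : TestR V φ) (n : ℕ)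
    (hn : n % 2 = 1) : PP q r φ n = 0 := by
  obtain ⟨k, rfl⟩ : ∃ k, n = 2 * k + 1 := ⟨n / 2, by omega⟩
  have h1 := hOL V q h f r hS k
  unfold PP
  rw [← integral_zero ℂ ℝ]
  apply integral_congr_ae
  have h2 : ∀ᵐ z, z ∈ V → r (2 * k + 1) z = 0 :=
    (ae_restrict_iff' hS.pot.isOpen.measurableSet).mp h1
  filter_upwards [h2] with z hz
  by_cases hV : z ∈ V
  · simp only [pp, hz hV, norm_zero]; ring
  · rw [hφ.eq_zero hV]; ring

/-- different parity: `A(n,m) = A(0,0)/3 + o(1)` -/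
lemma odd_lim (hRel : StmtRel) (hOdd : StmtOdd) (hOL : StmtOddLim) (hS : Sm V q h f r)
    (hB : L4Bdd V f) {φ : ℂ → ℝ} (hφ : TestR V φ) (n m : ℕ) (hnm : n % 2 ≠ m % 2) :
    Tendsto (fun i => AA q (h i) (f i) φ n m - 1 / 3 * AA q (h i) (f i) φ 0 0) atTop (𝓝 0) := by
  have key : (fun a b : ℤ => (a + b) % 2 = 1 → Tendsto (fun i =>
      AA q (h i) (f i) φ a.natAbs b.natAbs - 1 / 3 * AA q (h i) (f i) φ 0 0) atTop (𝓝 0)) n m := by
    refine move_ind (P := fun a b : ℤ => (a + b) % 2 = 1 → Tendsto (fun i =>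
      AA q (h i) (f i) φ a.natAbs b.natAbs - 1 / 3 * AA q (h i) (f i) φ 0 0) atTop (𝓝 0))
      ?_ ?_ ?_ (e := 1) ?_ n m (((n : ℤ) - m).natAbs / 2) (by omega)
    · intro a b hab hp
      have h1 := rel' hRel hS hB a b hφ
      rw [PP_odd hOL hS hφ (a + b + 2).natAbs (by omega),
        PP_odd hOL hS hφ (a + b).natAbs (by omega)] at h1
      have h2 := (hab (by omega)).add h1
      simp only [sub_self, add_zero] at h2
      refine h2.congr fun i => ?_
      ring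
    · intro a b hab hp
      rw [show (-b).natAbs = b.natAbs by simp]
      exact hab (by omega)
    · intro a b hab hp
      refine (hab (by omega)).congr fun i => ?_
      rw [AA_comm]
    · intro _
      have h1 := hOdd V q h f hS.toSeq hB φ hφ
      refine h1.congr fun i => ?_
      rw [AA_zero]
      rfl
  exact key (by omega)

/-! ### Quadratic forms in the `N_n` -/

/-- `∑ c_n N_n` -/
def XX (q : ℂ → ℝ) (h : ℝ) (f : ℂ → ℝ) (c : ℕ → ℝ) (N : ℕ) (z : ℂ) : ℝ :=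
  ∑ n ∈ Finset.Icc 1 N, c n * nn q h f n z

lemma continuous_XX (hq : Pot V q) {f : ℂ → ℝ} (hf : ContDiff ℝ ∞ f) (h : ℝ) (c : ℕ → ℝ) (N : ℕ) :
    Continuous (XX q h f c N) :=
  continuous_finsetSum _ fun n _ => continuous_const.mul (continuous_nn hq hf h n)

lemma int_XX_sq (hq : Pot V q) {f : ℂ → ℝ} (hf : ContDiff ℝ ∞ f) (h : ℝ) (c : ℕ → ℝ) (N : ℕ)
    {φ : ℂ → ℝ} (hφ : TestR V φ) :
    ∫ z, φ z * XX q h f c N z ^ 2 =
      ∑ n ∈ Finset.Icc 1 N, ∑ m ∈ Finset.Icc 1 N, c n * c m * AA q h f φ n m := by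
  have hint : ∀ n m, Integrable (fun z => c n * c m * (φ z * (nn q h f n z * nn q h f m z))) :=
    fun n m => (integrable_testR hφ ((continuous_nn hq hf h n).mul
      (continuous_nn hq hf h m))).const_mul _
  have e : ∀ z, φ z * XX q h f c N z ^ 2 = ∑ n ∈ Finset.Icc 1 N, ∑ m ∈ Finset.Icc 1 N,
      c n * c m * (φ z * (nn q h f n z * nn q h f m z)) := by
    intro z
    unfold XX
    rw [sq, Finset.sum_mul_sum, Finset.mul_sum]
    refine Finset.sum_congr rfl fun n _ => ?_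
    rw [Finset.mul_sum]
    refine Finset.sum_congr rfl fun m _ => ?_
    ring
  simp_rw [e]
  rw [integral_finsetSum _ fun n _ => integrable_finsetSum _ fun m _ => hint n m]
  refine Finset.sum_congr rfl fun n _ => ?_
  rw [integral_finsetSum _ fun m _ => hint n m]
  refine Finset.sum_congr rfl fun m _ => ?_
  rw [integral_const_mul]
  rfl

/-- the coefficient of `A(0,0)` -/
def tt (n m : ℕ) : ℝ := if n % 2 = m % 2 then 1 else 1 / 3

/-- the limit of `A(n,m) - t(n,m) A(0,0)` -/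
def LL (P : ℕ → ℝ) (n m : ℕ) : ℝ :=
  if n % 2 = m % 2 then P (n + m) + P ((n : ℤ) - m).natAbs - 2 * P 0 else 0

lemma AA_lim (hRel : StmtRel) (hOdd : StmtOdd) (hOL : StmtOddLim) (hS : Sm V q h f r)
    (hB : L4Bdd V f) {φ : ℂ → ℝ} (hφ : TestR V φ) (n m : ℕ) :
    Tendsto (fun i => AA q (h i) (f i) φ n m - tt n m * AA q (h i) (f i) φ 0 0) atTop
      (𝓝 (LL (PP q r φ) n m)) := by
  unfold tt LL
  by_cases hnm : n % 2 = m % 2
  · simp only [hnm, if_true, one_mul]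
    exact even_lim hRel hS hB hφ n m hnm
  · simp only [hnm, if_false]
    exact odd_lim hRel hOdd hOL hS hB hφ n m hnm

lemma quad_lim (hRel : StmtRel) (hOdd : StmtOdd) (hOL : StmtOddLim) (hS : Sm V q h f r)
    (hB : L4Bdd V f) {φ : ℂ → ℝ} (hφ : TestR V φ) (c : ℕ → ℝ) (N : ℕ) :
    Tendsto (fun i => (∫ z, φ z * XX q (h i) (f i) c N z ^ 2) -
      (∑ n ∈ Finset.Icc 1 N, ∑ m ∈ Finset.Icc 1 N, c n * c m * tt n m) *
        ∫ z, φ z * f i z ^ 4) atTop
      (𝓝 (∑ n ∈ Finset.Icc 1 N, ∑ m ∈ Finset.Icc 1 N, c n * c m * LL (PP q r φ) n m)) := by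
  have h1 : Tendsto (fun i => ∑ n ∈ Finset.Icc 1 N, ∑ m ∈ Finset.Icc 1 N, c n * c m *
      (AA q (h i) (f i) φ n m - tt n m * AA q (h i) (f i) φ 0 0)) atTop
      (𝓝 (∑ n ∈ Finset.Icc 1 N, ∑ m ∈ Finset.Icc 1 N, c n * c m * LL (PP q r φ) n m)) :=
    tendsto_finsetSum _ fun n _ => tendsto_finsetSum _ fun m _ =>
      (AA_lim hRel hOdd hOL hS hB hφ n m).const_mul _
  refine h1.congr fun i => ?_
  rw [int_XX_sq hS.pot (hS.sol i).smooth _ _ _ hφ, ← AA_zero q (h i) (f i) φ, Finset.sum_mul,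
    ← Finset.sum_sub_distrib]
  refine Finset.sum_congr rfl fun n _ => ?_
  rw [Finset.sum_mul, ← Finset.sum_sub_distrib]
  refine Finset.sum_congr rfl fun m _ => ?_
  ring

/-! ### Counting -/

lemma sum_two (g : ℕ → ℝ) (M : ℕ) :
    ∑ m ∈ Finset.Icc 1 (2 * (M + 1)), g m =
      ∑ m ∈ Finset.Icc 1 (2 * M), g m + g (2 * M + 1) + g (2 * M + 2) := by
  rw [show 2 * (M + 1) = 2 * M + 1 + 1 by ring, Finset.sum_Icc_succ_top (by omega),
    Finset.sum_Icc_succ_top (by omega)]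

lemma count_inner (n M : ℕ) (a b : ℝ) :
    ∑ m ∈ Finset.Icc 1 (2 * M), (if n % 2 = m % 2 then a else b) = M * (a + b) := by
  induction M with
  | zero => simp
  | succ M ih =>
    rw [sum_two, ih]
    rcases Nat.mod_two_eq_zero_or_one n with hn | hn
    · have h1 : (2 * M + 1) % 2 = 1 := by omega
      have h2 : (2 * M + 2) % 2 = 0 := by omega
      rw [hn, h1, h2]
      push_cast
      ring
    · have h1 : (2 * M + 1) % 2 = 1 := by omega
      have h2 : (2 * M + 2) % 2 = 0 := by omega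
      rw [hn, h1, h2]
      push_cast
      ring

lemma count_pairs (M : ℕ) (a b : ℝ) :
    ∑ n ∈ Finset.Icc 1 (2 * M), ∑ m ∈ Finset.Icc 1 (2 * M), (if n % 2 = m % 2 then a else b) =
      2 * M ^ 2 * (a + b) := by
  simp_rw [count_inner]
  rw [Finset.sum_const, Nat.card_Icc]
  simp only [nsmul_eq_mul]
  push_cast
  ring

lemma sum_tt (M : ℕ) :
    ∑ n ∈ Finset.Icc 1 (2 * M), ∑ m ∈ Finset.Icc 1 (2 * M), (1 : ℝ) * 1 * tt n m =
      8 / 3 * M ^ 2 := by
  simp only [one_mul]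
  unfold tt
  rw [count_pairs]
  ring

lemma sum_LL (P : ℕ → ℝ) (M : ℕ) :
    ∑ n ∈ Finset.Icc 1 (2 * M), ∑ m ∈ Finset.Icc 1 (2 * M), (1 : ℝ) * 1 * LL P n m =
      pairSum P (2 * M) - 4 * M ^ 2 * P 0 := by
  have e : ∀ n m, (1 : ℝ) * 1 * LL P n m =
      (if n % 2 = m % 2 then P (n + m) + P ((n : ℤ) - m).natAbs else 0) -
        (if n % 2 = m % 2 then 2 * P 0 else 0) := by
    intro n m
    unfold LL
    split_ifs <;> ring
  simp_rw [e, Finset.sum_sub_distrib]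
  rw [count_pairs]
  unfold pairSum
  ring

/-! ### Weak lower semicontinuity -/

lemma nn_le (hq : Pot V q) (n : ℕ) {K : Set ℂ} (hK : IsCompact K) : ∃ C : ℝ, 0 ≤ C ∧
    ∀ (h : ℝ) (f : ℂ → ℝ) (M : ℕ), n ≤ M → ∀ z ∈ K, nn q h f n z ≤ C * sm h f M z ^ 2 := by
  obtain ⟨C, hC⟩ := hK.exists_bound_of_continuousOn
    (f := fun z => ((q z) ^ n)⁻¹) (contDiff_inv_pow hq n).continuous.continuousOn
  refine ⟨max C 0, le_max_right _ _, fun h f M hM z hz => ?_⟩
  have h1 : nn q h f n z = ((q z) ^ n)⁻¹ * ‖gg h f n z‖ ^ 2 := by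
    unfold nn; rw [div_eq_inv_mul]
  rw [h1]
  exact mul_le_mul ((le_abs_self _).trans ((hC z hz).trans (le_max_left _ _)))
    (pow_le_pow_left₀ (norm_nonneg _) (norm_gg_le_sm hM) 2) (by positivity) (le_max_right _ _)

/-- the real weak limit of the squares -/
def rho (r : ℕ → ℂ → ℂ) (z : ℂ) : ℝ := (r 0 z).re

lemma L2loc_rho (hS : Sm V q h f r) : L2loc V (fun z => (rho r z : ℂ)) := by
  intro K hK hKV
  have h1 := hS.loc 0 K hK hKV
  have h2 := h1.re
  exact h2.ofReal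

lemma ae_rho (hI : StmtIneq) (hS : Sm V q h f r) :
    ∀ᵐ z, z ∈ V → r 0 z = (rho r z : ℂ) ∧ 0 ≤ rho r z ∧ pp q r 0 z = rho r z ^ 2 := by
  have h1 := (ae_restrict_iff' hS.pot.isOpen.measurableSet).mp (hI V q h f r hS 0)
  filter_upwards [h1] with z hz hzV
  obtain ⟨h2, h3, h4⟩ := hz hzV
  refine ⟨h3, h4, ?_⟩
  unfold pp
  rw [h3]
  unfold rho
  simp

lemma nn_weak (hW : StmtWeak2) (hI : StmtIneq) (hS : Sm V q h f r) (n : ℕ) {φ : ℂ → ℂ}
    (hφ : Test V φ) :
    Tendsto (fun i => ∫ z, φ z * (nn q (h i) (f i) n z : ℂ)) atTop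
      (𝓝 (∫ z, φ z * (rho r z : ℂ))) := by
  have h1 := (hW V q h f r hS n (-n) φ hφ).const_mul ((-1) ^ n)
  have e1 : (-1 : ℂ) ^ n * ((-1) ^ (-(n : ℤ)).natAbs * ∫ z, φ z * rr q r ((n : ℤ) + -n) z) =
      ∫ z, φ z * (rho r z : ℂ) := by
    rw [← mul_assoc, show (-(n : ℤ)).natAbs = n by simp, ← mul_pow, show (n : ℤ) + -n = 0 by ring]
    simp only [mul_neg, mul_one, neg_neg, one_pow, one_mul]
    apply integral_congr_ae
    filter_upwards [ae_rho hI hS] with z hz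
    by_cases hV : z ∈ V
    · show φ z * r 0 z = _
      rw [(hz hV).1]
    · rw [hφ.eq_zero hV]; ring
  rw [e1] at h1
  refine h1.congr fun i => ?_
  rw [← integral_const_mul]
  congr 1; funext z
  rw [ss_mul_neg hS.pot n]
  push_cast
  have : ((-1 : ℂ) ^ n) * (-1) ^ n = 1 := by rw [← mul_pow]; simp
  linear_combination (φ z * (nn q (h i) (f i) n z : ℂ)) * this

lemma XX_weak (hW : StmtWeak2) (hI : StmtIneq) (hS : Sm V q h f r) (N : ℕ) {φ : ℂ → ℂ}
    (hφ : Test V φ) :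
    Tendsto (fun i => ∫ z, φ z * (XX q (h i) (f i) (fun _ => 1) N z : ℂ)) atTop
      (𝓝 (∫ z, φ z * ((N : ℂ) * (rho r z : ℂ)))) := by
  have h1 : Tendsto (fun i => ∑ n ∈ Finset.Icc 1 N, ∫ z, φ z * (nn q (h i) (f i) n z : ℂ)) atTop
      (𝓝 (∑ n ∈ Finset.Icc 1 N, ∫ z, φ z * (rho r z : ℂ))) :=
    tendsto_finsetSum _ fun n _ => nn_weak hW hI hS n hφ
  have e1 : ∑ n ∈ Finset.Icc 1 N, ∫ z, φ z * (rho r z : ℂ) =
      ∫ z, φ z * ((N : ℂ) * (rho r z : ℂ)) := by
    rw [Finset.sum_const, Nat.card_Icc, Nat.add_sub_cancel, nsmul_eq_mul, ← integral_const_mul]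
    congr 1; funext z; ring
  rw [e1] at h1
  refine h1.congr fun i => ?_
  rw [← integral_finsetSum]
  · congr 1; funext z
    unfold XX
    push_cast
    rw [Finset.mul_sum]
    simp
  · intro n _
    exact integrable_test hφ
      (Complex.continuous_ofReal.comp (continuous_nn hS.pot (hS.sol i).smooth _ n))

lemma XX_bdd (hL : StmtL4) (hS : Seq V q h f) (hB : L4Bdd V f) (N : ℕ) {ζ : ℂ → ℝ}
    (hζ : TestR V ζ) :
    ∃ B : ℝ, ∀ i, ∫ z, ζ z ^ 2 * ‖(XX q (h i) (f i) (fun _ => 1) N z : ℂ)‖ ^ 2 ≤ B := by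
  choose C hC0 hC using fun n => nn_le hS.pot n (K := tsupport ζ) hζ.cpt.isCompact
  refine bdd_of_le_sm hL hS hB hζ (F := fun i z => (XX q (h i) (f i) (fun _ => 1) N z : ℂ))
    (fun i => Complex.continuous_ofReal.comp (continuous_XX hS.pot (hS.sol i).smooth _ _ _))
    (C := ∑ n ∈ Finset.Icc 1 N, C n) (M := N) ?_
  intro i z hz
  rw [Complex.norm_real, Real.norm_eq_abs]
  unfold XX
  refine (Finset.abs_sum_le_sum_abs _ _).trans ?_
  rw [Finset.sum_mul]
  refine Finset.sum_le_sum fun n hn => ?_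
  rw [one_mul, abs_of_nonneg (nn_nonneg hS.pot n)]
  exact hC n (h i) (f i) N (Finset.mem_Icc.mp hn).2 z hz

/-- `∫ φ ρ X → N ∫ φ ρ²` -/
lemma XX_rho (hT : StmtTest) (hL : StmtL4) (hW : StmtWeak2) (hI : StmtIneq) (hS : Sm V q h f r)
    (hB : L4Bdd V f) (N : ℕ) {φ : ℂ → ℝ} (hφ : TestR V φ) :
    Tendsto (fun i => ∫ z, φ z * (rho r z * XX q (h i) (f i) (fun _ => 1) N z)) atTop
      (𝓝 (N * PP q r φ 0)) := by
  have h1 := hT V hS.pot.isOpen (fun i z => (XX q (h i) (f i) (fun _ => 1) N z : ℂ))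
    (fun z => (N : ℂ) * (rho r z : ℂ)) (fun z => (rho r z : ℂ))
    (fun i => Complex.continuous_ofReal.comp (continuous_XX hS.pot (hS.sol i).smooth _ _ _))
    (L2loc.mul_cont (L2loc_rho hS) (g := fun _ => (N : ℂ)) continuous_const) (L2loc_rho hS)
    (fun φ hφ => XX_weak hW hI hS N hφ) (fun ζ hζ => XX_bdd hL hS.toSeq hB N hζ) _ hφ.toTest
  have e1 : ∫ z, (φ z : ℂ) * ((rho r z : ℂ) * ((N : ℂ) * (rho r z : ℂ))) =
      ((N * PP q r φ 0 : ℝ) : ℂ) := by
    unfold PP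
    rw [← integral_const_mul, ← integral_complex_ofReal]
    apply integral_congr_ae
    filter_upwards [ae_rho hI hS] with z hz
    by_cases hV : z ∈ V
    · rw [(hz hV).2.2]; push_cast; ring
    · rw [hφ.eq_zero hV]; simp
  rw [e1] at h1
  have h2 := (Complex.continuous_re.tendsto _).comp h1
  simp only [Complex.ofReal_re] at h2
  refine h2.congr fun i => ?_
  have e2 : ∫ z, (φ z : ℂ) * ((rho r z : ℂ) * (XX q (h i) (f i) (fun _ => 1) N z : ℂ)) =
      ((∫ z, φ z * (rho r z * XX q (h i) (f i) (fun _ => 1) N z) : ℝ) : ℂ) := by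
    rw [← integral_complex_ofReal]
    congr 1; funext z; push_cast; ring
  simp only [Function.comp_apply, e2, Complex.ofReal_re]

lemma integrable_L2loc {g : ℂ → ℝ} (hg : L2loc V (fun z => (g z : ℂ))) {φ : ℂ → ℝ}
    (hφ : TestR V φ) {F : ℂ → ℝ} (hF : Continuous F) : Integrable (fun z => φ z * (g z * F z)) := by
  have hK := hφ.cpt.isCompact
  have : IsFiniteMeasure (volume.restrict (tsupport φ) : Measure ℂ) :=
    ⟨by rw [Measure.restrict_apply_univ]; exact hK.measure_lt_top⟩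
  have h1 : IntegrableOn (fun z => g z) (tsupport φ) := by
    have h0 := ((hg _ hK hφ.sub).integrable (by norm_num)).re
    exact h0
  obtain ⟨C, hC⟩ := hK.exists_bound_of_continuousOn (f := fun z => φ z * F z)
    (hφ.smooth.continuous.mul hF).continuousOn
  have h2 : IntegrableOn (fun z => φ z * (g z * F z)) (tsupport φ) := by
    have e : (fun z => φ z * (g z * F z)) = fun z => (φ z * F z) * g z := by
      funext z; ring
    rw [e]
    refine Integrable.bdd_mul (c := C) h1 ?_ ?_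
    · exact (hφ.smooth.continuous.mul hF).aestronglyMeasurable
    · filter_upwards [ae_restrict_mem hK.measurableSet] with z hz
      exact hC z hz
  rw [integrableOn_iff_integrable_of_support_subset] at h2
  · exact h2
  · intro z hz
    apply subset_tsupport
    intro h0
    exact hz (by simp [h0])

lemma integrable_rho_sq (hI : StmtIneq) (hS : Sm V q h f r) {φ : ℂ → ℝ} (hφ : TestR V φ) :
    Integrable (fun z => φ z * rho r z ^ 2) ∧ ∫ z, φ z * rho r z ^ 2 = PP q r φ 0 := by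
  have h1 := integrable_pp hS.pot hS.loc hφ 0
  have h2 : (fun z => φ z * pp q r 0 z) =ᵐ[volume] fun z => φ z * rho r z ^ 2 := by
    filter_upwards [ae_rho hI hS] with z hz
    by_cases hV : z ∈ V
    · rw [(hz hV).2.2]
    · rw [hφ.eq_zero hV]; ring
  exact ⟨h1.congr h2, (integral_congr_ae h2).symm⟩

/-- `liminf ∫ φ X² ≥ N² ∫ φ p_0` -/
lemma XX_lower (hT : StmtTest) (hL : StmtL4) (hW : StmtWeak2) (hI : StmtIneq) (hS : Sm V q h f r)
    (hB : L4Bdd V f) (N : ℕ) {φ : ℂ → ℝ} (hφ : TestR V φ) (hφ0 : ∀ z, 0 ≤ φ z) {ε : ℝ}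
    (hε : 0 < ε) :
    ∀ᶠ i in atTop, (N : ℝ) ^ 2 * PP q r φ 0 - ε ≤
      ∫ z, φ z * XX q (h i) (f i) (fun _ => 1) N z ^ 2 := by
  have h1 := (XX_rho hT hL hW hI hS hB N hφ).const_mul (2 * (N : ℝ))
  obtain ⟨hr1, hr2⟩ := integrable_rho_sq hI hS hφ
  have h3 := h1.eventually (lt_mem_nhds (sub_lt_self (2 * (N : ℝ) * (N * PP q r φ 0)) hε))
  filter_upwards [h3] with i hi
  have cX := continuous_XX hS.pot (hS.sol i).smooth (h i) (fun _ => 1) N
  have i1 : Integrable (fun z => φ z * XX q (h i) (f i) (fun _ => 1) N z ^ 2) :=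
    integrable_testR hφ (cX.pow 2)
  have i2 : Integrable (fun z => φ z * (rho r z * XX q (h i) (f i) (fun _ => 1) N z)) :=
    integrable_L2loc (L2loc_rho hS) hφ cX
  have h4 : 0 ≤ ∫ z, φ z * (XX q (h i) (f i) (fun _ => 1) N z - N * rho r z) ^ 2 :=
    integral_nonneg fun z => mul_nonneg (hφ0 z) (sq_nonneg _)
  have e1 : ∀ z, φ z * (XX q (h i) (f i) (fun _ => 1) N z - N * rho r z) ^ 2 =
      φ z * XX q (h i) (f i) (fun _ => 1) N z ^ 2 -
        2 * (N : ℝ) * (φ z * (rho r z * XX q (h i) (f i) (fun _ => 1) N z)) +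
          (N : ℝ) ^ 2 * (φ z * rho r z ^ 2) := by
    intro z; ring
  simp_rw [e1] at h4
  rw [integral_add (f := fun z => φ z * XX q (h i) (f i) (fun _ => 1) N z ^ 2 -
        2 * (N : ℝ) * (φ z * (rho r z * XX q (h i) (f i) (fun _ => 1) N z)))
      (i1.sub (i2.const_mul _)) (hr1.const_mul _), integral_sub i1 (i2.const_mul _),
    integral_const_mul, integral_const_mul, hr2] at h4
  nlinarith [h4, hi]

lemma pairSum_int (hq : Pot V q) (hr : ∀ n, L2loc V (r n)) {φ : ℂ → ℝ} (hφ : TestR V φ) (N : ℕ) :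
    Integrable (fun z => φ z * pairSum (fun n => pp q r n z) N) ∧
      ∫ z, φ z * pairSum (fun n => pp q r n z) N = pairSum (PP q r φ) N := by
  have hint : ∀ n m : ℕ, Integrable (fun z => if n % 2 = m % 2 then
      φ z * pp q r (n + m) z + φ z * pp q r ((n : ℤ) - m).natAbs z else 0) := by
    intro n m
    split_ifs
    · exact (integrable_pp hq hr hφ _).add (integrable_pp hq hr hφ _)
    · exact integrable_zero _ _ _
  have e : ∀ z, φ z * pairSum (fun n => pp q r n z) N =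
      ∑ n ∈ Finset.Icc 1 N, ∑ m ∈ Finset.Icc 1 N, if n % 2 = m % 2 then
        φ z * pp q r (n + m) z + φ z * pp q r ((n : ℤ) - m).natAbs z else 0 := by
    intro z
    unfold pairSum
    rw [Finset.mul_sum]
    refine Finset.sum_congr rfl fun n _ => ?_
    rw [Finset.mul_sum]
    refine Finset.sum_congr rfl fun m _ => ?_
    split_ifs <;> ring
  simp_rw [e]
  refine ⟨integrable_finsetSum _ fun n _ => integrable_finsetSum _ fun m _ => hint n m, ?_⟩
  rw [integral_finsetSum _ fun n _ => integrable_finsetSum _ fun m _ => hint n m]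
  unfold pairSum
  refine Finset.sum_congr rfl fun n _ => ?_
  rw [integral_finsetSum _ fun m _ => hint n m]
  refine Finset.sum_congr rfl fun m _ => ?_
  split_ifs
  · rw [integral_add (integrable_pp hq hr hφ _) (integrable_pp hq hr hφ _)]
    rfl
  · simp

/-- the density in the lower bound -/
def dens (q : ℂ → ℝ) (r : ℕ → ℂ → ℂ) (M : ℕ) (z : ℂ) : ℝ :=
  3 * pp q r 0 z - 3 / (2 * (2 * M) ^ 2) * pairSum (fun n => pp q r n z) (2 * M)

lemma dens_int (hq : Pot V q) (hr : ∀ n, L2loc V (r n)) {φ : ℂ → ℝ} (hφ : TestR V φ) (M : ℕ) :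
    Integrable (fun z => φ z * dens q r M z) ∧ ∫ z, φ z * dens q r M z =
      3 * PP q r φ 0 - 3 / (2 * (2 * M) ^ 2) * pairSum (PP q r φ) (2 * M) := by
  obtain ⟨i1, e1⟩ := pairSum_int hq hr hφ (2 * M)
  have i0 := integrable_pp hq hr hφ 0
  have e : ∀ z, φ z * dens q r M z = 3 * (φ z * pp q r 0 z) -
      3 / (2 * (2 * M) ^ 2) * (φ z * pairSum (fun n => pp q r n z) (2 * M)) := by
    intro z; unfold dens; ring
  simp_rw [e]
  refine ⟨(i0.const_mul _).sub (i1.const_mul _), ?_⟩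
  rw [integral_sub (i0.const_mul _) (i1.const_mul _), integral_const_mul, integral_const_mul, e1]
  rfl

/-- the lower bound if the `L⁴` norms are bounded -/
lemma bounded_case (hRel : StmtRel) (hOdd : StmtOdd) (hOL : StmtOddLim) (hT : StmtTest)
    (hL : StmtL4) (hW : StmtWeak2) (hI : StmtIneq) (hS : Sm V q h f r) (hB : L4Bdd V f)
    {φ : ℂ → ℝ} (hφ : TestR V φ) (hφ0 : ∀ z, 0 ≤ φ z) (M : ℕ) (hM : 1 ≤ M) {ε : ℝ} (hε : 0 < ε) :
    ∀ᶠ i in atTop, (∫ z, φ z * dens q r M z) - ε ≤ ∫ z, φ z * f i z ^ 4 := by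
  have hM0 : (0 : ℝ) < M := by exact_mod_cast hM
  rw [(dens_int hS.pot hS.loc hφ M).2]
  have h1 := quad_lim hRel hOdd hOL hS hB hφ (fun _ => 1) (2 * M)
  rw [sum_tt, sum_LL] at h1
  have hε' : 0 < 4 / 3 * (M : ℝ) ^ 2 * ε := by positivity
  have h2 := XX_lower hT hL hW hI hS hB (2 * M) hφ hφ0 hε'
  have h3 := h1.eventually (gt_mem_nhds (lt_add_of_pos_right
    (pairSum (PP q r φ) (2 * M) - 4 * (M : ℝ) ^ 2 * PP q r φ 0) hε'))
  filter_upwards [h2, h3] with i hi2 hi3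
  push_cast at hi2
  have h4 : 8 / 3 * (M : ℝ) ^ 2 * (3 * PP q r φ 0 -
      3 / (2 * (2 * M) ^ 2) * pairSum (PP q r φ) (2 * M) - ε) ≤
      8 / 3 * (M : ℝ) ^ 2 * ∫ z, φ z * f i z ^ 4 := by
    have e : 8 / 3 * (M : ℝ) ^ 2 * (3 * PP q r φ 0 -
        3 / (2 * (2 * M) ^ 2) * pairSum (PP q r φ) (2 * M) - ε) =
        8 * (M : ℝ) ^ 2 * PP q r φ 0 - pairSum (PP q r φ) (2 * M) - 8 / 3 * (M : ℝ) ^ 2 * ε := by
      field_simp
      ring
    rw [e]
    nlinarith [hi2, hi3]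
  exact le_of_mul_le_mul_left h4 (by positivity)

/-! ### The general case -/

lemma Pot.sub (hq : Pot V q) {V' : Set ℂ} (hV' : IsOpen V') : Pot V' q :=
  ⟨hV', hq.smooth, hq.pos⟩

lemma Seq.sub (hS : Seq V q h f) {V' : Set ℂ} (hV' : IsOpen V') (hsub : V' ⊆ V) {σ : ℕ → ℕ}
    (hσ : Tendsto σ atTop atTop) : Seq V' q (fun i => h (σ i)) (fun i => f (σ i)) where
  pot := Pot.sub hS.pot hV'
  sol := fun i => ⟨(hS.sol (σ i)).smooth, (hS.sol (σ i)).hpos, (hS.sol (σ i)).hle,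
    fun z hz => (hS.sol (σ i)).eq z (hsub hz)⟩
  lim := hS.lim.comp hσ

lemma Sm.sub (hS : Sm V q h f r) {V' : Set ℂ} (hV' : IsOpen V') (hsub : V' ⊆ V) {σ : ℕ → ℕ}
    (hσ : Tendsto σ atTop atTop) : Sm V' q (fun i => h (σ i)) (fun i => f (σ i)) r where
  toSeq := Seq.sub hS.toSeq hV' hsub hσ
  loc := fun n K hK hKV => hS.loc n K hK (hKV.trans hsub)
  mode := fun n φ hφ => (hS.mode n φ ⟨hφ.smooth, hφ.cpt, hφ.sub.trans hsub⟩).comp hσ

lemma isOpen_pos {φ : ℂ → ℝ} (hφ : TestR V φ) : IsOpen {z | 0 < φ z} :=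
  isOpen_lt continuous_const hφ.smooth.continuous

lemma pos_sub {φ : ℂ → ℝ} (hφ : TestR V φ) : {z | 0 < φ z} ⊆ V := by
  intro z hz
  by_contra h
  rw [mem_ofPred_eq, hφ.eq_zero h] at hz
  exact lt_irrefl _ hz

/-- cutoff functions exhausting the set where `φ` is positive -/
lemma exists_cutoffs {φ : ℂ → ℝ} (hφ : TestR V φ) :
    ∃ χ : ℕ → ℂ → ℝ, (∀ k, TestR {z | 0 < φ z} (χ k)) ∧ (∀ k z, 0 ≤ χ k z ∧ χ k z ≤ 1) ∧
      ∀ (k : ℕ) (z : ℂ), 1 / ((k : ℝ) + 1) ≤ φ z → χ k z = 1 := by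
  have h1 : ∀ k : ℕ, ∃ χ : ℂ → ℝ, TestR {z | 0 < φ z} χ ∧ (∀ z, 0 ≤ χ z ∧ χ z ≤ 1) ∧
      ∀ z, 1 / ((k : ℝ) + 1) ≤ φ z → χ z = 1 := by
    intro k
    have hk : (0 : ℝ) < 1 / ((k : ℝ) + 1) := by positivity
    have hK : IsCompact {z | 1 / ((k : ℝ) + 1) ≤ φ z} := by
      refine hφ.cpt.isCompact.of_isClosed_subset
        (isClosed_le continuous_const hφ.smooth.continuous) ?_
      intro z hz
      apply subset_tsupport
      intro h0
      rw [mem_ofPred_eq, h0] at hz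
      linarith
    obtain ⟨χ, h1, h2, h3⟩ := exists_cutoff hK (isOpen_pos hφ)
      (fun z hz => lt_of_lt_of_le hk hz)
    exact ⟨χ, h1, h2, fun z hz => h3.self_of_nhdsSet z hz⟩
  choose χ h1 h2 h3 using h1
  exact ⟨χ, h1, h2, h3⟩

lemma L4Bdd_pos {φ : ℂ → ℝ} (hφ : TestR V φ) (hφ0 : ∀ z, 0 ≤ φ z)
    (hf : ∀ i, Continuous (f i)) {C : ℝ} (hC : ∀ i, ∫ z, φ z * f i z ^ 4 ≤ C) :
    L4Bdd {z | 0 < φ z} f := by
  intro ζ hζ
  obtain ⟨Z, hZ0, hZ⟩ := test_bdd hζ
  obtain ⟨δ, hδ, hδ'⟩ : ∃ δ : ℝ, 0 < δ ∧ ∀ z ∈ tsupport ζ, δ ≤ φ z := by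
    rcases (tsupport ζ).eq_empty_or_nonempty with he | hne
    · exact ⟨1, one_pos, fun z hz => by rw [he] at hz; exact absurd hz (by simp)⟩
    · obtain ⟨z0, hz0, hmin⟩ := hζ.cpt.isCompact.exists_isMinOn hne
        hφ.smooth.continuous.continuousOn
      exact ⟨φ z0, hζ.sub hz0, fun z hz => hmin hz⟩
  refine ⟨Z ^ 4 / δ * C, fun i => ?_⟩
  have hle : ∀ z, ζ z ^ 4 ≤ Z ^ 4 / δ * φ z := by
    intro z
    by_cases hz : z ∈ tsupport ζ
    · have e1 : ζ z ^ 4 ≤ Z ^ 4 := by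
        rw [← (show Even 4 by decide).pow_abs]
        exact pow_le_pow_left₀ (abs_nonneg _) (hZ z) 4
      calc _ ≤ Z ^ 4 := e1
        _ = Z ^ 4 / δ * δ := by field_simp
        _ ≤ _ := mul_le_mul_of_nonneg_left (hδ' z hz) (by positivity)
    · rw [image_eq_zero_of_notMem_tsupport hz]
      have h2 : 0 ≤ Z ^ 4 / δ * φ z := mul_nonneg (by positivity) (hφ0 z)
      rw [zero_pow (by norm_num)]
      exact h2
  have i1 : Integrable (fun z => ζ z ^ 4 * f i z ^ 4) := by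
    have h1 : HasCompactSupport (fun z => ζ z ^ 4) :=
      hζ.cpt.comp_left (g := fun x : ℝ => x ^ 4) (by simp)
    exact ((hζ.smooth.continuous.pow 4).mul ((hf i).pow 4)).integrable_of_hasCompactSupport
      h1.mul_right
  have i2 : Integrable (fun z => Z ^ 4 / δ * (φ z * f i z ^ 4)) :=
    (integrable_testR hφ ((hf i).pow 4)).const_mul _
  calc _ ≤ ∫ z, Z ^ 4 / δ * (φ z * f i z ^ 4) := by
        refine integral_mono i1 i2 fun z => ?_
        calc ζ z ^ 4 * f i z ^ 4 ≤ Z ^ 4 / δ * φ z * f i z ^ 4 :=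
              mul_le_mul_of_nonneg_right (hle z) (by positivity)
          _ = _ := by ring
    _ = Z ^ 4 / δ * ∫ z, φ z * f i z ^ 4 := integral_const_mul _ _
    _ ≤ _ := mul_le_mul_of_nonneg_left (hC i) (by positivity)

lemma TestR.mul_cut {φ χ : ℂ → ℝ} (hφ : TestR V φ) {V' : Set ℂ} (hχ : TestR V' χ) :
    TestR V' (fun z => φ z * χ z) where
  smooth := hφ.smooth.mul hχ.smooth
  cpt := hχ.cpt.mul_left
  sub := (tsupport_mul_subset_right (f := φ) (g := χ)).trans hχ.sub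

/-- dominated convergence along the cutoff functions -/
lemma cut_lim {φ : ℂ → ℝ} (hφ0 : ∀ z, 0 ≤ φ z) {F : ℂ → ℝ}
    (hF : Integrable (fun z => φ z * F z)) {χ : ℕ → ℂ → ℝ} (hχc : ∀ k, Continuous (χ k))
    (h01 : ∀ k z, 0 ≤ χ k z ∧ χ k z ≤ 1)
    (h1 : ∀ (k : ℕ) (z : ℂ), 1 / ((k : ℝ) + 1) ≤ φ z → χ k z = 1) :
    Tendsto (fun k => ∫ z, φ z * χ k z * F z) atTop (𝓝 (∫ z, φ z * F z)) := by
  refine tendsto_integral_of_dominated_convergence (fun z => ‖φ z * F z‖) ?_ hF.norm ?_ ?_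
  · intro k
    have e : (fun z => φ z * χ k z * F z) = fun z => χ k z * (φ z * F z) := by
      funext z; ring
    rw [e]
    exact (hχc k).aestronglyMeasurable.mul hF.1
  · intro k
    refine Eventually.of_forall fun z => ?_
    have e : φ z * χ k z * F z = χ k z * (φ z * F z) := by ring
    rw [e, norm_mul]
    refine mul_le_of_le_one_left (norm_nonneg _) ?_
    rw [Real.norm_eq_abs, abs_of_nonneg (h01 k z).1]
    exact (h01 k z).2
  · refine Eventually.of_forall fun z => ?_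
    rcases (hφ0 z).eq_or_lt with h0 | h0
    · simp only [← h0, zero_mul]
      exact tendsto_const_nhds
    · obtain ⟨k0, hk0⟩ := exists_nat_one_div_lt h0
      refine tendsto_const_nhds.congr' ?_
      filter_upwards [eventually_ge_atTop k0] with k hk
      have : 1 / ((k : ℝ) + 1) ≤ 1 / ((k0 : ℝ) + 1) := by
        apply one_div_le_one_div_of_le (by positivity)
        have : (k0 : ℝ) ≤ k := by exact_mod_cast hk
        linarith
      rw [h1 k z (this.trans hk0.le), mul_one]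

lemma int_cut_le {φ χ g : ℂ → ℝ} (hφ : TestR V φ) (hφ0 : ∀ z, 0 ≤ φ z) {V' : Set ℂ}
    (hχ : TestR V' χ) (h01 : ∀ z, 0 ≤ χ z ∧ χ z ≤ 1) (hg : Continuous g) (hg0 : ∀ z, 0 ≤ g z) :
    ∫ z, φ z * χ z * g z ≤ ∫ z, φ z * g z := by
  refine integral_mono (integrable_testR (TestR.mul_cut hφ hχ) hg) (integrable_testR hφ hg)
    fun z => ?_
  exact mul_le_mul_of_nonneg_right (mul_le_of_le_one_right (hφ0 z) (h01 z).2) (hg0 z)

theorem _root_.Pool.Agent.A54.stmtLocGen (hRel : StmtRel) (hOdd : StmtOdd) (hOL : StmtOddLim)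
    (hT : StmtTest) (hL : StmtL4) (hW : StmtWeak2) (hI : StmtIneq) : StmtLocGen := by
  intro V q h f r hS φ hφ hφ0 M hM ε hε
  by_contra hcon
  rw [Filter.not_eventually] at hcon
  obtain ⟨σ, hσ, hσ'⟩ := Filter.extraction_of_frequently_atTop hcon
  have hd := (dens_int hS.pot hS.loc hφ M).1
  have hlt : ∀ i, ∫ z, φ z * f (σ i) z ^ 4 < (∫ z, φ z * dens q r M z) - ε := by
    intro i
    have := hσ' i
    rw [not_le] at this
    exact this
  obtain ⟨χ, hχ, h01, hχ1⟩ := exists_cutoffs hφ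
  have hcl := cut_lim hφ0 hd (fun k => (hχ k).smooth.continuous) h01 hχ1
  obtain ⟨k, hk⟩ := (hcl.eventually (lt_mem_nhds (sub_lt_self (∫ z, φ z * dens q r M z)
    (half_pos hε)))).exists
  have hS' := Sm.sub hS (isOpen_pos hφ) (pos_sub hφ) hσ.tendsto_atTop
  have hB' : L4Bdd {z | 0 < φ z} (fun i => f (σ i)) :=
    L4Bdd_pos hφ hφ0 (fun i => (hS.sol (σ i)).smooth.continuous) (fun i => (hlt i).le)
  have hm := bounded_case hRel hOdd hOL hT hL hW hI hS' hB' (TestR.mul_cut hφ (hχ k))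
    (fun z => mul_nonneg (hφ0 z) (h01 k z).1) M hM (half_pos hε)
  obtain ⟨i, hi⟩ := hm.exists
  have h5 := int_cut_le hφ hφ0 (hχ k) (h01 k) (g := fun z => f (σ i) z ^ 4)
    ((hS.sol (σ i)).smooth.continuous.pow 4) (fun z => by positivity)
  have h6 := hlt i
  linarith

end

end Pool.Agent.A54.LocGen
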