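import Pool.Agent.Lib.MP_a54f13_nt.Spec

/-!
Weighted Caccioppoli bounds.
-/

set_option autoImplicit false

namespace Pool.Agent.A54

open MeasureTheory Filter Topology Set
open scoped ContDiff ComplexConjugate

noncomputable section

namespace Cacc

variable {V : Set ℂ} {q : ℂ → ℝ}

lemma norm_fderiv_ofReal_le {f : ℂ → ℝ} (hf : ContDiff ℝ ∞ f) (z : ℂ) :
    ‖fderiv ℝ (fun z => (f z : ℂ)) z‖ ≤ ‖fderiv ℝ f z‖ := by
  have hd : DifferentiableAt ℝ f z := (hf.differentiable (by simp)).differentiableAt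
  have h1 : HasFDerivAt (fun z => (f z : ℂ)) (Complex.ofRealCLM.comp (fderiv ℝ f z)) z :=
    Complex.ofRealCLM.hasFDerivAt.comp z hd.hasFDerivAt
  rw [h1.fderiv]
  refine (ContinuousLinearMap.opNorm_comp_le _ _).trans ?_
  rw [Complex.ofRealCLM_norm, one_mul]

lemma norm_dz_ofReal_le {f : ℂ → ℝ} (hf : ContDiff ℝ ∞ f) (z : ℂ) :
    ‖dz (fun z => (f z : ℂ)) z‖ ≤ 2 * ‖fderiv ℝ f z‖ :=
  norm_dz_le.trans (by
    have := norm_fderiv_ofReal_le hf z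
    linarith)

lemma sum_sq_le (n : ℕ) (u : ℕ → ℝ) :
    (∑ j ∈ Finset.range (n + 1), u j) ^ 2 ≤
      ((n : ℝ) + 1) * ∑ j ∈ Finset.range (n + 1), u j ^ 2 := by
  have h := sq_sum_le_card_mul_sum_sq (s := Finset.range (n + 1)) (f := u)
  rw [Finset.card_range] at h
  push_cast at h
  exact h

/-- the one step inequality at a point -/
lemma pointwise {e wz G g D Er s S A Z Q C₀ qz m : ℝ} (he0 : 0 ≤ e) (hw : 0 ≤ wz) (hG : 0 ≤ G)
    (hg : 0 ≤ g) (hD0 : 0 ≤ D) (hEr0 : 0 ≤ Er) (hs : 0 ≤ s) (hA : 0 ≤ A) (hZ : 0 ≤ Z)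
    (hQ : 0 ≤ Q) (hC₀ : 0 ≤ C₀) (hqz : 0 ≤ qz) (hqQ : qz ≤ Q) (heZ : e ≤ Z * wz)
    (hDA : D ≤ A * wz) (hErs : Er ≤ C₀ * s) (hgS : g ^ 2 ≤ S) (hsg : s * g ≤ m * S)
    (hm : 0 ≤ m) :
    (2 * e * D * G + e ^ 2 * (qz * g + Er)) * g ≤
      e ^ 2 * G ^ 2 / 2 + (2 * A ^ 2 + Z ^ 2 * (Q + C₀ * m)) * (wz ^ 2 * S) := by
  have hS : 0 ≤ S := (sq_nonneg g).trans hgS
  have h1 : 2 * e * D * G * g ≤ e ^ 2 * G ^ 2 / 2 + 2 * (D ^ 2 * g ^ 2) := by
    nlinarith [sq_nonneg (e * G - 2 * (D * g))]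
  have h2 : D ^ 2 * g ^ 2 ≤ (A * wz) ^ 2 * S := by
    have := pow_le_pow_left₀ hD0 hDA 2
    exact mul_le_mul this hgS (sq_nonneg g) (sq_nonneg _)
  have he2 : e ^ 2 ≤ (Z * wz) ^ 2 := pow_le_pow_left₀ he0 heZ 2
  have h3 : e ^ 2 * (qz * g ^ 2) ≤ (Z * wz) ^ 2 * (Q * S) := by
    have : qz * g ^ 2 ≤ Q * S := mul_le_mul hqQ hgS (sq_nonneg g) hQ
    exact mul_le_mul he2 this (mul_nonneg hqz (sq_nonneg g)) (sq_nonneg _)
  have h4 : e ^ 2 * (Er * g) ≤ (Z * wz) ^ 2 * (C₀ * (m * S)) := by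
    have h5 : Er * g ≤ C₀ * (m * S) := by
      calc Er * g ≤ C₀ * s * g := mul_le_mul_of_nonneg_right hErs hg
        _ = C₀ * (s * g) := by ring
        _ ≤ C₀ * (m * S) := mul_le_mul_of_nonneg_left hsg hC₀
    exact mul_le_mul he2 h5 (mul_nonneg hEr0 hg) (sq_nonneg _)
  nlinarith

lemma integ {ζ : ℂ → ℝ} (hζ : HasCompactSupport ζ) {F : ℂ → ℝ} (hF : Continuous F)
    (h : ∀ z, ζ z = 0 → F z = 0) : Integrable F :=
  hF.integrable_of_hasCompactSupport (hζ.mono fun z hz hz0 => hz (h z hz0))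

lemma one_step (hE : StmtErr) (hq : Pot V q) (n : ℕ) {ζ : ℂ → ℝ} (hζ : TestR V ζ) :
    ∃ (ζ₁ : ℂ → ℝ) (C : ℝ), TestR V ζ₁ ∧ 0 ≤ C ∧ ∀ (h : ℝ) (f w : ℂ → ℝ), Sol V q h f →
      ContDiff ℝ ∞ w → (∀ z, 0 < w z) → (∀ z, h * ‖fderiv ℝ w z‖ ≤ 4 * w z) →
      ∫ z, ζ z ^ 2 * w z ^ 2 * ‖gg h f (n + 1) z‖ ^ 2 ≤
        C * ∫ z, ζ₁ z ^ 2 * w z ^ 2 * ∑ j ∈ Finset.range (n + 1), ‖gg h f j z‖ ^ 2 := by
  obtain ⟨C₀, hC₀, hErr⟩ := hE V q hq n (tsupport ζ) hζ.cpt hζ.sub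
  obtain ⟨ζ₁, hζ₁, -, hone⟩ := exists_cutoff hζ.cpt hq.isOpen hζ.sub
  have hone' : ∀ z ∈ tsupport ζ, ζ₁ z = 1 := fun z hz => subset_of_mem_nhdsSet hone hz
  obtain ⟨Z', hZ'⟩ := IsCompact.exists_bound_of_continuousOn hζ.cpt
    hζ.smooth.continuous.continuousOn
  obtain ⟨F', hF'⟩ := IsCompact.exists_bound_of_continuousOn hζ.cpt
    (hζ.smooth.continuous_fderiv (by simp)).continuousOn
  obtain ⟨Q', hQ'⟩ := IsCompact.exists_bound_of_continuousOn hζ.cpt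
    hq.smooth.continuous.continuousOn
  obtain ⟨Z, hZ0, hZ⟩ : ∃ Z : ℝ, 0 ≤ Z ∧ ∀ z ∈ tsupport ζ, |ζ z| ≤ Z :=
    ⟨max Z' 0, le_max_right _ _, fun z hz => (hZ' z hz).trans (le_max_left _ _)⟩
  obtain ⟨F, hF0, hF⟩ : ∃ F : ℝ, 0 ≤ F ∧ ∀ z ∈ tsupport ζ, ‖fderiv ℝ ζ z‖ ≤ F :=
    ⟨max F' 0, le_max_right _ _, fun z hz => (hF' z hz).trans (le_max_left _ _)⟩
  obtain ⟨Q, hQ0, hQ⟩ : ∃ Q : ℝ, 0 ≤ Q ∧ ∀ z ∈ tsupport ζ, q z ≤ Q :=
    ⟨max Q' 0, le_max_right _ _, fun z hz =>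
      ((le_abs_self _).trans (hQ' z hz)).trans (le_max_left _ _)⟩
  refine ⟨ζ₁, 2 * (2 * (2 * F + 8 * Z) ^ 2 + Z ^ 2 * (Q + C₀ * ((n : ℝ) + 1))), hζ₁,
    by positivity, ?_⟩
  intro h f w hf hw hw0 hww
  have hg : ContDiff ℝ ∞ (gg h f n) := contDiff_gg hf.smooth h n
  have hG : ContDiff ℝ ∞ (gg h f (n + 1)) := contDiff_gg hf.smooth h (n + 1)
  have hηr : ContDiff ℝ ∞ (fun z => ζ z * w z) := hζ.smooth.mul hw
  have hη : ContDiff ℝ ∞ (fun z => ((ζ z * w z : ℝ) : ℂ)) := contDiff_ofReal hηr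
  have hηc : HasCompactSupport (fun z => ((ζ z * w z : ℝ) : ℂ)) :=
    (hζ.cpt.mul_right (f' := w)).comp_left (g := fun x : ℝ => (x : ℂ)) (by simp)
  have ha : ContDiff ℝ ∞ (fun z => ((ζ z * w z : ℝ) : ℂ) * ((ζ z * w z : ℝ) : ℂ) *
      conj (gg h f (n + 1) z)) := (hη.mul hη).mul (contDiff_conj hG)
  have hac : HasCompactSupport (fun z => ((ζ z * w z : ℝ) : ℂ) * ((ζ z * w z : ℝ) : ℂ) *
      conj (gg h f (n + 1) z)) := (hηc.mul_right).mul_right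
  have hdza : ∀ z, dz (fun z => ((ζ z * w z : ℝ) : ℂ) * ((ζ z * w z : ℝ) : ℂ) *
      conj (gg h f (n + 1) z)) z =
      2 * ((ζ z * w z : ℝ) : ℂ) * dz (fun z => ((ζ z * w z : ℝ) : ℂ)) z *
        conj (gg h f (n + 1) z) +
      ((ζ z * w z : ℝ) : ℂ) ^ 2 * conj (dzb (gg h f (n + 1)) z) := by
    intro z
    rw [dz_mul (hη.mul hη) (contDiff_conj hG), dz_mul hη hη, dz_conj hG]
    ring
  -- the function on the left
  have hFlc : Continuous (fun z => ζ z ^ 2 * w z ^ 2 * ‖gg h f (n + 1) z‖ ^ 2) :=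
    ((hζ.smooth.continuous.pow 2).mul (hw.continuous.pow 2)).mul (hG.continuous.norm.pow 2)
  have hFrc : Continuous (fun z => ζ₁ z ^ 2 * w z ^ 2 *
      ∑ j ∈ Finset.range (n + 1), ‖gg h f j z‖ ^ 2) :=
    ((hζ₁.smooth.continuous.pow 2).mul (hw.continuous.pow 2)).mul
      (continuous_finsetSum _ fun j _ => (contDiff_gg hf.smooth h j).continuous.norm.pow 2)
  have hFli : Integrable (fun z => ζ z ^ 2 * w z ^ 2 * ‖gg h f (n + 1) z‖ ^ 2) :=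
    integ hζ.cpt hFlc (fun z hz => by simp [hz])
  have hFri : Integrable (fun z => ζ₁ z ^ 2 * w z ^ 2 *
      ∑ j ∈ Finset.range (n + 1), ‖gg h f j z‖ ^ 2) :=
    integ hζ₁.cpt hFrc (fun z hz => by simp [hz])
  -- integration by parts
  have hid : ((∫ z, ζ z ^ 2 * w z ^ 2 * ‖gg h f (n + 1) z‖ ^ 2 : ℝ) : ℂ) =
      ∫ z, -((h : ℂ) * (dz (fun z => ((ζ z * w z : ℝ) : ℂ) * ((ζ z * w z : ℝ) : ℂ) *
      conj (gg h f (n + 1) z)) z * gg h f n z)) := by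
    have h0 : ((∫ z, ζ z ^ 2 * w z ^ 2 * ‖gg h f (n + 1) z‖ ^ 2 : ℝ) : ℂ) =
        ∫ z, ((ζ z ^ 2 * w z ^ 2 * ‖gg h f (n + 1) z‖ ^ 2 : ℝ) : ℂ) :=
      integral_complex_ofReal.symm
    rw [h0, integral_neg, integral_const_mul, ← mul_neg, ← integral_mul_dz ha hg (Or.inl hac),
      ← integral_const_mul]
    refine integral_congr_ae (Filter.Eventually.of_forall fun z => ?_)
    have h1 : (‖gg h f (n + 1) z‖ : ℂ) ^ 2 = conj (gg h f (n + 1) z) * gg h f (n + 1) z := by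
      rw [mul_comm, Complex.mul_conj, Complex.normSq_eq_norm_sq]
      push_cast
      rfl
    have h2 : gg h f (n + 1) z = (h : ℂ) * dz (gg h f n) z := gg_succ h f n z
    change (((ζ z ^ 2 * w z ^ 2 * ‖gg h f (n + 1) z‖ ^ 2 : ℝ)) : ℂ) =
      (h : ℂ) * (((ζ z * w z : ℝ) : ℂ) * ((ζ z * w z : ℝ) : ℂ) *
      conj (gg h f (n + 1) z) * dz (gg h f n) z)
    push_cast
    rw [h1]
    have h3 : (h : ℂ) * ((ζ z : ℂ) * (w z : ℂ) * ((ζ z : ℂ) * (w z : ℂ)) *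
        conj (gg h f (n + 1) z) * dz (gg h f n) z) =
        (ζ z : ℂ) ^ 2 * (w z : ℂ) ^ 2 * (conj (gg h f (n + 1) z) *
        ((h : ℂ) * dz (gg h f n) z)) := by ring
    rw [h3, ← h2]
  have hΦc : Continuous (fun z => ‖-((h : ℂ) * (dz (fun z => ((ζ z * w z : ℝ) : ℂ) *
      ((ζ z * w z : ℝ) : ℂ) * conj (gg h f (n + 1) z)) z * gg h f n z))‖) :=
    (continuous_const.mul ((contDiff_dz ha).continuous.mul hg.continuous)).neg.norm
  have hΦi : Integrable (fun z => ‖-((h : ℂ) * (dz (fun z => ((ζ z * w z : ℝ) : ℂ) *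
      ((ζ z * w z : ℝ) : ℂ) * conj (gg h f (n + 1) z)) z * gg h f n z))‖) := by
    refine Integrable.norm ?_
    refine Continuous.integrable_of_hasCompactSupport
      (continuous_const.mul ((contDiff_dz ha).continuous.mul hg.continuous)).neg ?_
    refine (hasCompactSupport_dz hac).mono fun z hz hz0 => hz ?_
    change -((h : ℂ) * (_ * gg h f n z)) = 0
    rw [hz0]
    ring
  have hpt : ∀ z, ‖-((h : ℂ) * (dz (fun z => ((ζ z * w z : ℝ) : ℂ) * ((ζ z * w z : ℝ) : ℂ) *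
      conj (gg h f (n + 1) z)) z * gg h f n z))‖ ≤
      (ζ z ^ 2 * w z ^ 2 * ‖gg h f (n + 1) z‖ ^ 2) / 2 +
      (2 * (2 * F + 8 * Z) ^ 2 + Z ^ 2 * (Q + C₀ * ((n : ℝ) + 1))) *
        (ζ₁ z ^ 2 * w z ^ 2 * ∑ j ∈ Finset.range (n + 1), ‖gg h f j z‖ ^ 2) := by
    intro z
    by_cases hz : z ∈ tsupport ζ
    · have h1 : ζ₁ z = 1 := hone' z hz
      have hh : 0 ≤ h := hf.hpos.le
      rw [norm_neg, norm_mul, hdza z, Complex.norm_real, Real.norm_eq_abs, abs_of_nonneg hh,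
        norm_mul, h1]
      have e0 : 0 ≤ |ζ z| * w z := mul_nonneg (abs_nonneg _) (hw0 z).le
      have hD : h * ‖dz (fun z => ((ζ z * w z : ℝ) : ℂ)) z‖ ≤ (2 * F + 8 * Z) * w z := by
        have h2 : dz (fun z => ((ζ z * w z : ℝ) : ℂ)) z =
            dz (fun z => (ζ z : ℂ)) z * (w z : ℂ) + (ζ z : ℂ) * dz (fun z => (w z : ℂ)) z := by
          rw [← dz_mul (contDiff_ofReal hζ.smooth) (contDiff_ofReal hw)]
          congr 1
          funext z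
          push_cast
          rfl
        rw [h2]
        have h3 : ‖dz (fun z => (ζ z : ℂ)) z‖ ≤ 2 * F :=
          (norm_dz_ofReal_le hζ.smooth z).trans (by have := hF z hz; linarith)
        have h4 : h * ‖dz (fun z => (w z : ℂ)) z‖ ≤ 8 * w z := by
          have h5 := norm_dz_ofReal_le hw z
          have h6 := hww z
          calc h * ‖dz (fun z => (w z : ℂ)) z‖ ≤ h * (2 * ‖fderiv ℝ w z‖) :=
                mul_le_mul_of_nonneg_left h5 hh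
            _ = 2 * (h * ‖fderiv ℝ w z‖) := by ring
            _ ≤ _ := by linarith
        have h7 : |ζ z| ≤ Z := hZ z hz
        calc h * ‖dz (fun z => (ζ z : ℂ)) z * (w z : ℂ) + (ζ z : ℂ) * dz (fun z => (w z : ℂ)) z‖
            ≤ h * (‖dz (fun z => (ζ z : ℂ)) z‖ * w z + |ζ z| * ‖dz (fun z => (w z : ℂ)) z‖) := by
              refine mul_le_mul_of_nonneg_left ((norm_add_le _ _).trans (le_of_eq ?_)) hh
              rw [norm_mul, norm_mul, Complex.norm_real, Complex.norm_real, Real.norm_eq_abs,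
                Real.norm_eq_abs, abs_of_pos (hw0 z)]
          _ = h * ‖dz (fun z => (ζ z : ℂ)) z‖ * w z + |ζ z| * (h * ‖dz (fun z => (w z : ℂ)) z‖) := by
              ring
          _ ≤ 1 * (2 * F) * w z + Z * (8 * w z) := by
              refine add_le_add ?_ ?_
              · refine mul_le_mul_of_nonneg_right ?_ (hw0 z).le
                exact mul_le_mul hf.hle h3 (norm_nonneg _) zero_le_one
              · exact mul_le_mul h7 h4 (mul_nonneg hh (norm_nonneg _)) hZ0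
          _ = _ := by ring
      have hS : ‖gg h f n z‖ ^ 2 ≤ ∑ j ∈ Finset.range (n + 1), ‖gg h f j z‖ ^ 2 :=
        Finset.single_le_sum (f := fun j => ‖gg h f j z‖ ^ 2) (fun j _ => sq_nonneg _)
          (Finset.self_mem_range_succ n)
      have hs0 : 0 ≤ ∑ j ∈ Finset.range n, ‖gg h f j z‖ :=
        Finset.sum_nonneg fun j _ => norm_nonneg _
      have hsg : (∑ j ∈ Finset.range n, ‖gg h f j z‖) * ‖gg h f n z‖ ≤
          ((n : ℝ) + 1) * ∑ j ∈ Finset.range (n + 1), ‖gg h f j z‖ ^ 2 := by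
        refine le_trans ?_ (sum_sq_le n fun j => ‖gg h f j z‖)
        rw [Finset.sum_range_succ]
        nlinarith [norm_nonneg (gg h f n z)]
      have hEr : ‖(h : ℂ) * dzb (gg h f (n + 1)) z + (q z : ℂ) * gg h f n z‖ ≤
          C₀ * ∑ j ∈ Finset.range n, ‖gg h f j z‖ := by
        refine (hErr h f hf z hz).trans ?_
        have : 0 ≤ C₀ * ∑ j ∈ Finset.range n, ‖gg h f j z‖ := mul_nonneg hC₀ hs0
        nlinarith [hf.hle]
      have hdzb : h * ‖dzb (gg h f (n + 1)) z‖ ≤ q z * ‖gg h f n z‖ +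
          ‖(h : ℂ) * dzb (gg h f (n + 1)) z + (q z : ℂ) * gg h f n z‖ := by
        have h8 : (h : ℂ) * dzb (gg h f (n + 1)) z =
            ((h : ℂ) * dzb (gg h f (n + 1)) z + (q z : ℂ) * gg h f n z) -
              (q z : ℂ) * gg h f n z := by ring
        have h9 : ‖(h : ℂ) * dzb (gg h f (n + 1)) z‖ = h * ‖dzb (gg h f (n + 1)) z‖ := by
          rw [norm_mul, Complex.norm_real, Real.norm_eq_abs, abs_of_nonneg hh]
        rw [← h9]
        conv_lhs => rw [h8]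
        refine (norm_sub_le _ _).trans (le_of_eq ?_)
        rw [norm_mul, Complex.norm_real, Real.norm_eq_abs, abs_of_pos (hq.pos z)]
        ring
      have hP := pointwise (e := |ζ z| * w z) (wz := w z) (G := ‖gg h f (n + 1) z‖)
        (g := ‖gg h f n z‖) (D := h * ‖dz (fun z => ((ζ z * w z : ℝ) : ℂ)) z‖)
        (Er := ‖(h : ℂ) * dzb (gg h f (n + 1)) z + (q z : ℂ) * gg h f n z‖)
        (s := ∑ j ∈ Finset.range n, ‖gg h f j z‖)
        (S := ∑ j ∈ Finset.range (n + 1), ‖gg h f j z‖ ^ 2) (A := 2 * F + 8 * Z) (Z := Z) (Q := Q)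
        (C₀ := C₀) (qz := q z) (m := (n : ℝ) + 1) e0 (hw0 z).le (norm_nonneg _) (norm_nonneg _)
        (mul_nonneg hh (norm_nonneg _)) (norm_nonneg _) hs0 (by positivity) hZ0 hQ0 hC₀
        (hq.pos z).le (hQ z hz) (mul_le_mul_of_nonneg_right (hZ z hz) (hw0 z).le) hD hEr hS hsg
        (by positivity)
      have hn : h * (‖2 * ((ζ z * w z : ℝ) : ℂ) * dz (fun z => ((ζ z * w z : ℝ) : ℂ)) z *
          conj (gg h f (n + 1) z) + ((ζ z * w z : ℝ) : ℂ) ^ 2 * conj (dzb (gg h f (n + 1)) z)‖ *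
          ‖gg h f n z‖) ≤ (2 * (|ζ z| * w z) *
          (h * ‖dz (fun z => ((ζ z * w z : ℝ) : ℂ)) z‖) * ‖gg h f (n + 1) z‖ +
          (|ζ z| * w z) ^ 2 * (q z * ‖gg h f n z‖ +
          ‖(h : ℂ) * dzb (gg h f (n + 1)) z + (q z : ℂ) * gg h f n z‖)) * ‖gg h f n z‖ := by
        rw [← mul_assoc]
        refine mul_le_mul_of_nonneg_right ?_ (norm_nonneg _)
        have hab : ‖((ζ z * w z : ℝ) : ℂ)‖ = |ζ z| * w z := by
          rw [Complex.norm_real, Real.norm_eq_abs, abs_mul, abs_of_pos (hw0 z)]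
        calc h * ‖2 * ((ζ z * w z : ℝ) : ℂ) * dz (fun z => ((ζ z * w z : ℝ) : ℂ)) z *
            conj (gg h f (n + 1) z) + ((ζ z * w z : ℝ) : ℂ) ^ 2 *
              conj (dzb (gg h f (n + 1)) z)‖ ≤
            h * (2 * (|ζ z| * w z) * ‖dz (fun z => ((ζ z * w z : ℝ) : ℂ)) z‖ *
              ‖gg h f (n + 1) z‖ + (|ζ z| * w z) ^ 2 * ‖dzb (gg h f (n + 1)) z‖) := by
              refine mul_le_mul_of_nonneg_left ((norm_add_le _ _).trans (le_of_eq ?_)) hh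
              rw [norm_mul, norm_mul, norm_mul, norm_mul, norm_pow, hab, RCLike.norm_conj,
                RCLike.norm_conj]
              norm_num
          _ = 2 * (|ζ z| * w z) * (h * ‖dz (fun z => ((ζ z * w z : ℝ) : ℂ)) z‖) *
              ‖gg h f (n + 1) z‖ + (|ζ z| * w z) ^ 2 * (h * ‖dzb (gg h f (n + 1)) z‖) := by
              ring
          _ ≤ _ := by
              have := mul_le_mul_of_nonneg_left hdzb (sq_nonneg (|ζ z| * w z))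
              linarith
      refine hn.trans (hP.trans (le_of_eq ?_))
      rw [mul_pow, sq_abs]
      ring
    · have h1 : ζ z = 0 := image_eq_zero_of_notMem_tsupport hz
      have h2 : dz (fun z => ((ζ z * w z : ℝ) : ℂ) * ((ζ z * w z : ℝ) : ℂ) *
          conj (gg h f (n + 1) z)) z = 0 := by
        rw [hdza z, h1]
        simp
      rw [h2, h1]
      have h3 : 0 ≤ (2 * (2 * F + 8 * Z) ^ 2 + Z ^ 2 * (Q + C₀ * ((n : ℝ) + 1))) *
          (ζ₁ z ^ 2 * w z ^ 2 * ∑ j ∈ Finset.range (n + 1), ‖gg h f j z‖ ^ 2) := by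
        refine mul_nonneg (by positivity) (mul_nonneg (by positivity) ?_)
        exact Finset.sum_nonneg fun j _ => sq_nonneg _
      simpa using h3
  have hI0 : 0 ≤ ∫ z, ζ z ^ 2 * w z ^ 2 * ‖gg h f (n + 1) z‖ ^ 2 :=
    integral_nonneg fun z => by positivity
  have hfin : ∫ z, ζ z ^ 2 * w z ^ 2 * ‖gg h f (n + 1) z‖ ^ 2 ≤
      (∫ z, ζ z ^ 2 * w z ^ 2 * ‖gg h f (n + 1) z‖ ^ 2) / 2 +
      (2 * (2 * F + 8 * Z) ^ 2 + Z ^ 2 * (Q + C₀ * ((n : ℝ) + 1))) *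
        ∫ z, ζ₁ z ^ 2 * w z ^ 2 * ∑ j ∈ Finset.range (n + 1), ‖gg h f j z‖ ^ 2 := by
    have h1 : ∫ z, ζ z ^ 2 * w z ^ 2 * ‖gg h f (n + 1) z‖ ^ 2 =
        ‖((∫ z, ζ z ^ 2 * w z ^ 2 * ‖gg h f (n + 1) z‖ ^ 2 : ℝ) : ℂ)‖ := by
      rw [Complex.norm_real, Real.norm_eq_abs, abs_of_nonneg hI0]
    rw [h1, hid]
    refine (norm_integral_le_integral_norm _).trans ?_
    rw [← hid, ← h1, ← integral_div, ← integral_const_mul, ← integral_add (hFli.div_const 2)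
      (hFri.const_mul _)]
    exact integral_mono hΦi ((hFli.div_const 2).add (hFri.const_mul _)) hpt
  linarith

/-- A common majorant of two test functions. -/
lemma dom (hV : IsOpen V) {ζ₁ ζ₂ : ℂ → ℝ} (h₁ : TestR V ζ₁) (h₂ : TestR V ζ₂) :
    ∃ (ζ' : ℂ → ℝ) (M : ℝ), TestR V ζ' ∧ 0 ≤ M ∧
      ∀ z, ζ₁ z ^ 2 ≤ M * ζ' z ^ 2 ∧ ζ₂ z ^ 2 ≤ M * ζ' z ^ 2 := by
  obtain ⟨ζ', hζ', -, hone⟩ := exists_cutoff (h₁.cpt.union h₂.cpt) hV (union_subset h₁.sub h₂.sub)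
  have hone' : ∀ z ∈ tsupport ζ₁ ∪ tsupport ζ₂, ζ' z = 1 :=
    fun z hz => subset_of_mem_nhdsSet hone hz
  obtain ⟨M₁, hM₁⟩ := h₁.cpt.exists_bound_of_continuous h₁.smooth.continuous
  obtain ⟨M₂, hM₂⟩ := h₂.cpt.exists_bound_of_continuous h₂.smooth.continuous
  refine ⟨ζ', M₁ ^ 2 + M₂ ^ 2, hζ', by positivity, fun z => ⟨?_, ?_⟩⟩
  · by_cases hz : z ∈ tsupport ζ₁
    · rw [hone' z (Or.inl hz)]
      have h3 : |ζ₁ z| ≤ M₁ := hM₁ z
      have h4 : ζ₁ z ^ 2 ≤ M₁ ^ 2 := by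
        rw [← sq_abs]
        exact pow_le_pow_left₀ (abs_nonneg _) h3 2
      nlinarith [sq_nonneg M₂]
    · rw [image_eq_zero_of_notMem_tsupport hz]
      have : 0 ≤ (M₁ ^ 2 + M₂ ^ 2) * ζ' z ^ 2 := by positivity
      simpa using this
  · by_cases hz : z ∈ tsupport ζ₂
    · rw [hone' z (Or.inr hz)]
      have h3 : |ζ₂ z| ≤ M₂ := hM₂ z
      have h4 : ζ₂ z ^ 2 ≤ M₂ ^ 2 := by
        rw [← sq_abs]
        exact pow_le_pow_left₀ (abs_nonneg _) h3 2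
      nlinarith [sq_nonneg M₁]
    · rw [image_eq_zero_of_notMem_tsupport hz]
      have : 0 ≤ (M₁ ^ 2 + M₂ ^ 2) * ζ' z ^ 2 := by positivity
      simpa using this

lemma all_steps (hE : StmtErr) (hq : Pot V q) (n : ℕ) : ∀ {ζ : ℂ → ℝ}, TestR V ζ →
    ∃ (ζ' : ℂ → ℝ) (C : ℝ), TestR V ζ' ∧ 0 ≤ C ∧ ∀ (h : ℝ) (f w : ℂ → ℝ), Sol V q h f →
      ContDiff ℝ ∞ w → (∀ z, 0 < w z) → (∀ z, h * ‖fderiv ℝ w z‖ ≤ 4 * w z) →
      ∫ z, ζ z ^ 2 * w z ^ 2 * ∑ j ∈ Finset.range (n + 1), ‖gg h f j z‖ ^ 2 ≤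
        C * ∫ z, ζ' z ^ 2 * w z ^ 2 * f z ^ 2 := by
  induction n with
  | zero =>
    intro ζ hζ
    refine ⟨ζ, 1, hζ, zero_le_one, fun h f w hf hw hw0 hww => le_of_eq ?_⟩
    rw [one_mul]
    refine integral_congr_ae (Filter.Eventually.of_forall fun z => ?_)
    change ζ z ^ 2 * w z ^ 2 * ∑ j ∈ Finset.range (0 + 1), ‖gg h f j z‖ ^ 2 = _
    rw [zero_add, Finset.sum_range_one, gg_zero, Complex.norm_real, Real.norm_eq_abs, sq_abs]
  | succ n ih =>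
    intro ζ hζ
    obtain ⟨ζ₁, C₁, hζ₁, hC₁, h1⟩ := one_step hE hq n hζ
    obtain ⟨ζ₂, C₂, hζ₂, hC₂, h2⟩ := ih hζ₁
    obtain ⟨ζ₃, C₃, hζ₃, hC₃, h3⟩ := ih hζ
    obtain ⟨ζ', M, hζ', hM, hdom⟩ := dom hq.isOpen hζ₂ hζ₃
    refine ⟨ζ', (C₁ * C₂ + C₃) * M, hζ', by positivity, ?_⟩
    intro h f w hf hw hw0 hww
    have i1 : Integrable (fun z => ζ z ^ 2 * w z ^ 2 *
        ∑ j ∈ Finset.range (n + 1), ‖gg h f j z‖ ^ 2) :=
      integ hζ.cpt (((hζ.smooth.continuous.pow 2).mul (hw.continuous.pow 2)).mul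
        (continuous_finsetSum _ fun j _ =>
          (contDiff_gg hf.smooth h j).continuous.norm.pow 2)) (fun z hz => by simp [hz])
    have i2 : Integrable (fun z => ζ z ^ 2 * w z ^ 2 * ‖gg h f (n + 1) z‖ ^ 2) :=
      integ hζ.cpt (((hζ.smooth.continuous.pow 2).mul (hw.continuous.pow 2)).mul
        ((contDiff_gg hf.smooth h (n + 1)).continuous.norm.pow 2)) (fun z hz => by simp [hz])
    have i3 : ∀ {ξ : ℂ → ℝ}, TestR V ξ → Integrable (fun z => ξ z ^ 2 * w z ^ 2 * f z ^ 2) := by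
      intro ξ hξ
      exact integ hξ.cpt (((hξ.smooth.continuous.pow 2).mul (hw.continuous.pow 2)).mul
        (hf.smooth.continuous.pow 2)) (fun z hz => by simp [hz])
    have hle : ∀ {ξ : ℂ → ℝ}, TestR V ξ → (∀ z, ξ z ^ 2 ≤ M * ζ' z ^ 2) →
        ∫ z, ξ z ^ 2 * w z ^ 2 * f z ^ 2 ≤ M * ∫ z, ζ' z ^ 2 * w z ^ 2 * f z ^ 2 := by
      intro ξ hξ hle
      rw [← integral_const_mul]
      refine integral_mono (i3 hξ) ((i3 hζ').const_mul M) fun z => ?_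
      have h4 : 0 ≤ w z ^ 2 * f z ^ 2 := by positivity
      have h5 := mul_le_mul_of_nonneg_right (hle z) h4
      change ξ z ^ 2 * w z ^ 2 * f z ^ 2 ≤ M * (ζ' z ^ 2 * w z ^ 2 * f z ^ 2)
      linarith
    have e2 := hle hζ₂ fun z => (hdom z).1
    have e3 := hle hζ₃ fun z => (hdom z).2
    have a1 := h1 h f w hf hw hw0 hww
    have a2 := h2 h f w hf hw hw0 hww
    have a3 := h3 h f w hf hw hw0 hww
    have hsplit : ∫ z, ζ z ^ 2 * w z ^ 2 *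
        ∑ j ∈ Finset.range (n + 1 + 1), ‖gg h f j z‖ ^ 2 =
        (∫ z, ζ z ^ 2 * w z ^ 2 * ∑ j ∈ Finset.range (n + 1), ‖gg h f j z‖ ^ 2) +
        ∫ z, ζ z ^ 2 * w z ^ 2 * ‖gg h f (n + 1) z‖ ^ 2 := by
      rw [← integral_add i1 i2]
      refine integral_congr_ae (Filter.Eventually.of_forall fun z => ?_)
      change ζ z ^ 2 * w z ^ 2 * ∑ j ∈ Finset.range (n + 1 + 1), ‖gg h f j z‖ ^ 2 = _
      rw [Finset.sum_range_succ, mul_add]
    rw [hsplit]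
    have b1 : C₁ * (∫ z, ζ₁ z ^ 2 * w z ^ 2 *
        ∑ j ∈ Finset.range (n + 1), ‖gg h f j z‖ ^ 2) ≤
        C₁ * (C₂ * (M * ∫ z, ζ' z ^ 2 * w z ^ 2 * f z ^ 2)) :=
      mul_le_mul_of_nonneg_left (a2.trans (mul_le_mul_of_nonneg_left e2 hC₂)) hC₁
    have b3 := a3.trans (mul_le_mul_of_nonneg_left e3 hC₃)
    calc _ ≤ C₃ * (M * ∫ z, ζ' z ^ 2 * w z ^ 2 * f z ^ 2) +
          C₁ * (C₂ * (M * ∫ z, ζ' z ^ 2 * w z ^ 2 * f z ^ 2)) := add_le_add b3 (a1.trans b1)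
      _ = _ := by ring

end Cacc

theorem stmtCacc (hE : StmtErr) : StmtCacc := by
  intro V q hq n ζ hζ
  obtain ⟨ζ', C, hζ', hC, h1⟩ := Cacc.all_steps hE hq n hζ
  refine ⟨ζ', C, hζ', hC, fun h f w hf hw hw0 hww => le_trans ?_ (h1 h f w hf hw hw0 hww)⟩
  refine integral_mono ?_ ?_ fun z => ?_
  · exact Cacc.integ hζ.cpt (((hζ.smooth.continuous.pow 2).mul (hw.continuous.pow 2)).mul
        ((contDiff_gg hf.smooth h n).continuous.norm.pow 2)) (fun z hz => by simp [hz])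
  · exact Cacc.integ hζ.cpt (((hζ.smooth.continuous.pow 2).mul (hw.continuous.pow 2)).mul
        (continuous_finsetSum _ fun j _ =>
          (contDiff_gg hf.smooth h j).continuous.norm.pow 2)) (fun z hz => by simp [hz])
  · refine mul_le_mul_of_nonneg_left ?_ (by positivity)
    exact Finset.single_le_sum (f := fun j => ‖gg h f j z‖ ^ 2) (fun j _ => sq_nonneg _)
      (Finset.self_mem_range_succ n)

end

end Pool.Agent.A54
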