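import Pool.Agent.Lib.MP_a54f13_nt.Spec

/-!
Local `L⁴` bounds for the derivatives of a solution.
-/

set_option autoImplicit false

namespace Pool.Agent.A54.L4

open MeasureTheory Filter Topology Set
open scoped ContDiff ComplexConjugate

noncomputable section

/-! ### The weight -/

/-- the profile -/
def kf (u : ℝ) : ℝ := (u ^ 2)⁻¹

/-- the weight at scale one -/
def w1 (y : ℂ) : ℝ := kf (1 + ‖y‖ ^ 2)

lemma w1_eq (y : ℂ) : w1 y = ((1 + ‖y‖ ^ 2) ^ 2)⁻¹ := rfl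

lemma w1_pos (y : ℂ) : 0 < w1 y := by rw [w1_eq]; positivity

lemma base_pos (y : ℂ) : 0 < 1 + ‖y‖ ^ 2 := by positivity

lemma contDiff_w1 : ContDiff ℝ ∞ w1 := by
  have : w1 = fun y : ℂ => ((1 + ‖y‖ ^ 2) ^ 2)⁻¹ := rfl
  rw [this]
  exact ((contDiff_const.add (contDiff_norm_sq ℝ)).pow 2).inv fun y => (by positivity)

lemma hasDerivAt_kf {u : ℝ} (hu : u ≠ 0) : HasDerivAt kf (-(2 * u) / (u ^ 2) ^ 2) u := by
  have h := ((hasDerivAt_id u).pow 2).inv (c := fun x => (id x) ^ 2) (by simpa using hu)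
  convert! h using 1
  simp

lemma norm_fderiv_w1 (y : ℂ) : ‖fderiv ℝ w1 y‖ ≤ 4 * w1 y := by
  have h1 : HasFDerivAt (fun y : ℂ => 1 + ‖y‖ ^ 2) (2 • (innerSL ℝ y)) y :=
    (hasStrictFDerivAt_norm_sq y).hasFDerivAt.const_add 1
  have hb := base_pos y
  have h2 := hasDerivAt_kf hb.ne'
  have h3 : HasFDerivAt w1 _ y := h2.comp_hasFDerivAt y h1
  rw [h3.fderiv]
  refine ContinuousLinearMap.opNorm_le_bound _ (mul_nonneg (by norm_num) (w1_pos y).le) fun v => ?_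
  have h4 : ‖inner ℝ y v‖ ≤ ‖y‖ * ‖v‖ := norm_inner_le_norm y v
  have h5 : ((-(2 * (1 + ‖y‖ ^ 2)) / ((1 + ‖y‖ ^ 2) ^ 2) ^ 2) • (2 • (innerSL ℝ y))) v =
      (-(2 * (1 + ‖y‖ ^ 2)) / ((1 + ‖y‖ ^ 2) ^ 2) ^ 2) * (2 * inner ℝ y v) := by
    simp [innerSL_apply_apply]
    left
    ring
  rw [h5, norm_mul, norm_mul, norm_div, norm_neg]
  have h6 : ‖(2 * (1 + ‖y‖ ^ 2) : ℝ)‖ = 2 * (1 + ‖y‖ ^ 2) := by
    rw [Real.norm_eq_abs, abs_of_pos (by positivity)]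
  have h7 : ‖(((1 + ‖y‖ ^ 2) ^ 2) ^ 2 : ℝ)‖ = ((1 + ‖y‖ ^ 2) ^ 2) ^ 2 := by
    rw [Real.norm_eq_abs, abs_of_pos (by positivity)]
  have h8 : ‖(2 : ℝ)‖ = 2 := by norm_num
  rw [h6, h7, h8, w1_eq]
  have h9 : ‖y‖ ≤ 1 + ‖y‖ ^ 2 := by nlinarith [sq_nonneg (‖y‖ - 1)]
  set u := 1 + ‖y‖ ^ 2 with hu
  have h10 : 2 * u / (u ^ 2) ^ 2 = 2 / u ^ 3 := by
    field_simp
  rw [h10]
  calc 2 / u ^ 3 * (2 * ‖inner ℝ y v‖) ≤ 2 / u ^ 3 * (2 * (u * ‖v‖)) := by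
        have : ‖inner ℝ y v‖ ≤ u * ‖v‖ := h4.trans (mul_le_mul_of_nonneg_right h9 (norm_nonneg v))
        gcongr
    _ = 4 * (u ^ 2)⁻¹ * ‖v‖ := by
        field_simp
        ring

lemma integrable_w1_pow (k : ℕ) (hk : 1 ≤ k) : Integrable (fun y => w1 y ^ k) := by
  have h := integrable_rpow_neg_one_add_norm_sq (E := ℂ) (μ := volume) (r := ((4 * k : ℕ) : ℝ)) (by
    rw [Complex.finrank_real_complex]
    have : (1 : ℝ) ≤ k := by exact_mod_cast hk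
    push_cast
    linarith)
  convert! h using 1
  funext y
  have e1 : -(((4 * k : ℕ) : ℝ)) / 2 = -((2 * k : ℕ) : ℝ) := by
    push_cast
    ring
  rw [e1, Real.rpow_neg (base_pos y).le, Real.rpow_natCast, w1_eq, inv_pow, ← pow_mul]

lemma integral_w1_pow_pos (k : ℕ) (hk : 1 ≤ k) : 0 < ∫ y, w1 y ^ k := by
  refine (integral_pos_iff_support_of_nonneg (fun y => (pow_pos (w1_pos y) k).le)
    (integrable_w1_pow k hk)).mpr ?_
  have : Function.support (fun y => w1 y ^ k) = Set.univ := by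
    ext y
    simp [(w1_pos y).ne']
  rw [this]
  exact Measure.measure_univ_pos.mpr (NeZero.ne _)

/-- the weight at scale `h` centred at `x0` -/
def wt (h : ℝ) (x0 z : ℂ) : ℝ := w1 (h⁻¹ • (x0 - z))

lemma wt_pos (h : ℝ) (x0 z : ℂ) : 0 < wt h x0 z := w1_pos _

lemma contDiff_wt (h : ℝ) (x0 : ℂ) : ContDiff ℝ ∞ (wt h x0) :=
  contDiff_w1.comp ((contDiff_const.sub contDiff_id).const_smul _)

lemma fderiv_wt {h : ℝ} (hh : 0 < h) (x0 z : ℂ) : h * ‖fderiv ℝ (wt h x0) z‖ ≤ 4 * wt h x0 z := by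
  have h1 : HasFDerivAt (fun z : ℂ => h⁻¹ • (x0 - z)) (h⁻¹ • (-(ContinuousLinearMap.id ℝ ℂ))) z :=
    ((hasFDerivAt_id z).const_sub x0).const_smul h⁻¹
  have h2 : HasFDerivAt w1 (fderiv ℝ w1 (h⁻¹ • (x0 - z))) (h⁻¹ • (x0 - z)) :=
    ((contDiff_w1.differentiable (by simp)) _).hasFDerivAt
  have h3 : HasFDerivAt (wt h x0) _ z := h2.comp z h1
  rw [h3.fderiv]
  have h4 := ContinuousLinearMap.opNorm_comp_le (fderiv ℝ w1 (h⁻¹ • (x0 - z)))
    (h⁻¹ • (-(ContinuousLinearMap.id ℝ ℂ)))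
  have h5 : ‖(h⁻¹ • (-(ContinuousLinearMap.id ℝ ℂ)) : ℂ →L[ℝ] ℂ)‖ ≤ h⁻¹ := by
    rw [norm_smul, norm_neg, Real.norm_eq_abs, abs_of_pos (inv_pos.mpr hh)]
    have := ContinuousLinearMap.norm_id_le (𝕜 := ℝ) (E := ℂ)
    have h6 := (inv_pos.mpr hh).le
    nlinarith
  have h6 := norm_fderiv_w1 (h⁻¹ • (x0 - z))
  have h7 : ‖(fderiv ℝ w1 (h⁻¹ • (x0 - z))).comp (h⁻¹ • (-(ContinuousLinearMap.id ℝ ℂ)))‖ ≤
      4 * w1 (h⁻¹ • (x0 - z)) * h⁻¹ :=
    h4.trans (mul_le_mul h6 h5 (norm_nonneg _) (mul_nonneg (by norm_num) (w1_pos _).le))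
  calc h * ‖(fderiv ℝ w1 (h⁻¹ • (x0 - z))).comp (h⁻¹ • (-(ContinuousLinearMap.id ℝ ℂ)))‖
      ≤ h * (4 * w1 (h⁻¹ • (x0 - z)) * h⁻¹) := mul_le_mul_of_nonneg_left h7 hh.le
    _ = 4 * wt h x0 z := by
      unfold wt
      field_simp

/-! ### Pointwise bounds -/

variable {V : Set ℂ} {q : ℂ → ℝ}

lemma gg_le_sm {h : ℝ} {f : ℂ → ℝ} {j n : ℕ} (hj : j ≤ n) (z : ℂ) : ‖gg h f j z‖ ≤ sm h f n z := by
  unfold sm
  exact Finset.single_le_sum (f := fun j => ‖gg h f j z‖) (fun _ _ => norm_nonneg _)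
    (Finset.mem_range.mpr (by omega))

lemma sum_le_sm {h : ℝ} {f : ℂ → ℝ} {m n : ℕ} (hm : m ≤ n + 1) (z : ℂ) :
    ∑ j ∈ Finset.range m, ‖gg h f j z‖ ≤ sm h f n z := by
  unfold sm
  exact Finset.sum_le_sum_of_subset_of_nonneg (Finset.range_mono hm) fun _ _ _ => norm_nonneg _

lemma sm_nonneg (h : ℝ) (f : ℂ → ℝ) (n : ℕ) (z : ℂ) : 0 ≤ sm h f n z :=
  Finset.sum_nonneg fun _ _ => norm_nonneg _

lemma fderiv_gg (hE : StmtErr) (hP : Pot V q) (n : ℕ) {K : Set ℂ} (hK : IsCompact K)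
    (hKV : K ⊆ V) : ∃ C : ℝ, 0 ≤ C ∧ ∀ (h : ℝ) (f : ℂ → ℝ), Sol V q h f → ∀ z ∈ K,
      h * ‖fderiv ℝ (gg h f n) z‖ ≤ C * sm h f (n + 1) z := by
  have key : ∀ (h : ℝ) (f : ℂ → ℝ), Sol V q h f → ∀ z, h * ‖fderiv ℝ (gg h f n) z‖ ≤
      ‖gg h f (n + 1) z‖ + ‖(h : ℂ) * dzb (gg h f n) z‖ := by
    intro h f hf z
    have h1 := norm_fderiv_le (g := gg h f n) (z := z)
    rw [gg_succ, norm_mul, norm_mul, Complex.norm_real, Real.norm_eq_abs, abs_of_pos hf.hpos]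
    have := mul_le_mul_of_nonneg_left h1 hf.hpos.le
    linarith
  cases n with
  | zero =>
    refine ⟨2, by norm_num, fun h f hf z hz => ?_⟩
    have h1 := key h f hf z
    have h2 : dzb (gg h f 0) z = conj (dz (gg h f 0) z) := by
      have h3 : gg h f 0 = fun w => conj (gg h f 0 w) := by
        funext w
        rw [gg_zero, Complex.conj_ofReal]
      conv_lhs => rw [h3]
      exact dzb_conj (contDiff_gg hf.smooth h 0)
    have h3 : ‖(h : ℂ) * dzb (gg h f 0) z‖ = ‖gg h f 1 z‖ := by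
      rw [h2, gg_succ, norm_mul, norm_mul, Complex.norm_conj]
    have h4 := gg_le_sm (h := h) (f := f) (le_refl 1) z
    rw [h3] at h1
    simp only [zero_add] at h1 ⊢
    linarith
  | succ m =>
    obtain ⟨Q, hQ⟩ := hK.exists_bound_of_continuousOn hP.smooth.continuous.continuousOn
    obtain ⟨C, hC0, hC⟩ := hE V q hP m K hK hKV
    refine ⟨1 + |Q| + C, by positivity, fun h f hf z hz => ?_⟩
    have h1 := key h f hf z
    have h2 := hC h f hf z hz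
    have h3 : ‖(h : ℂ) * dzb (gg h f (m + 1)) z‖ ≤ h * (C * ∑ j ∈ Finset.range m, ‖gg h f j z‖) +
        ‖(q z : ℂ) * gg h f m z‖ := by
      have h4 : (h : ℂ) * dzb (gg h f (m + 1)) z = ((h : ℂ) * dzb (gg h f (m + 1)) z +
        (q z : ℂ) * gg h f m z) - (q z : ℂ) * gg h f m z := by ring
      rw [h4]
      exact (norm_sub_le _ _).trans (add_le_add_left h2 _)
    have h4 : ‖(q z : ℂ) * gg h f m z‖ ≤ |Q| * sm h f (m + 1 + 1) z := by
      rw [norm_mul, Complex.norm_real]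
      exact mul_le_mul ((hQ z hz).trans (le_abs_self Q)) (gg_le_sm (by omega) z) (norm_nonneg _)
        (abs_nonneg _)
    have h5 : h * (C * ∑ j ∈ Finset.range m, ‖gg h f j z‖) ≤ C * sm h f (m + 1 + 1) z := by
      have h6 : ∑ j ∈ Finset.range m, ‖gg h f j z‖ ≤ sm h f (m + 1 + 1) z :=
        sum_le_sm (by omega) z
      have h7 : 0 ≤ ∑ j ∈ Finset.range m, ‖gg h f j z‖ :=
        Finset.sum_nonneg fun i _ => norm_nonneg _
      calc h * (C * ∑ j ∈ Finset.range m, ‖gg h f j z‖)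
          ≤ 1 * (C * ∑ j ∈ Finset.range m, ‖gg h f j z‖) :=
            mul_le_mul_of_nonneg_right hf.hle (mul_nonneg hC0 h7)
        _ = C * ∑ j ∈ Finset.range m, ‖gg h f j z‖ := one_mul _
        _ ≤ _ := mul_le_mul_of_nonneg_left h6 hC0
    have h6 := gg_le_sm (h := h) (f := f) (le_refl (m + 1 + 1)) z
    have h7 : (1 + |Q| + C) * sm h f (m + 1 + 1) z = sm h f (m + 1 + 1) z +
      |Q| * sm h f (m + 1 + 1) z + C * sm h f (m + 1 + 1) z := by ring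
    rw [h7]
    linarith

/-- the localized function -/
def vv (ζ w : ℂ → ℝ) (g : ℂ → ℂ) (z : ℂ) : ℂ := (ζ z * w z) • g z

lemma contDiff_vv {ζ w : ℂ → ℝ} {g : ℂ → ℂ} (hζ : ContDiff ℝ ∞ ζ) (hw : ContDiff ℝ ∞ w)
    (hg : ContDiff ℝ ∞ g) : ContDiff ℝ ∞ (vv ζ w g) := (hζ.mul hw).smul hg

lemma tsupport_vv {ζ w : ℂ → ℝ} {g : ℂ → ℂ} : tsupport (vv ζ w g) ⊆ tsupport ζ := by
  apply closure_minimal _ (isClosed_tsupport ζ)
  intro z hz
  apply subset_tsupport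
  intro h0
  apply hz
  unfold vv
  rw [h0, zero_mul, zero_smul]

lemma norm_vv (ζ w : ℂ → ℝ) (g : ℂ → ℂ) (z : ℂ) : ‖vv ζ w g z‖ = |ζ z| * |w z| * ‖g z‖ := by
  unfold vv
  rw [norm_smul, Real.norm_eq_abs, abs_mul]

lemma fderiv_vv (hE : StmtErr) (hP : Pot V q) (n : ℕ) {ζ : ℂ → ℝ} (hζ : TestR V ζ) :
    ∃ M : ℝ, 0 ≤ M ∧ ∀ (h : ℝ) (f w : ℂ → ℝ), Sol V q h f → ContDiff ℝ ∞ w → (∀ z, 0 < w z) →
      (∀ z, h * ‖fderiv ℝ w z‖ ≤ 4 * w z) → ∀ z,
      (z ∉ tsupport ζ → fderiv ℝ (vv ζ w (gg h f n)) z = 0) ∧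
      (z ∈ tsupport ζ →
        h * ‖fderiv ℝ (vv ζ w (gg h f n)) z‖ ≤ M * (w z * sm h f (n + 1) z)) := by
  obtain ⟨C, hC0, hC⟩ := fderiv_gg hE hP n hζ.cpt.isCompact hζ.sub
  obtain ⟨B0, hB0⟩ := hζ.cpt.isCompact.exists_bound_of_continuousOn
    hζ.smooth.continuous.continuousOn
  obtain ⟨B1, hB1⟩ := hζ.cpt.isCompact.exists_bound_of_continuousOn
    (hζ.smooth.continuous_fderiv (by simp)).continuousOn
  refine ⟨|B0| * C + |B1| + 4 * |B0|, by positivity, fun h f w hf hw hw0 hw1 z => ⟨?_, ?_⟩⟩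
  · intro hz
    exact fderiv_eq_zero_of_notMem fun h' => hz (tsupport_vv h')
  · intro hz
    have hg := contDiff_gg hf.smooth h n
    have hdζ : DifferentiableAt ℝ ζ z := (hζ.smooth.differentiable (by simp)).differentiableAt
    have hdw : DifferentiableAt ℝ w z := (hw.differentiable (by simp)).differentiableAt
    have e1 : fderiv ℝ (vv ζ w (gg h f n)) z = (ζ z * w z) • fderiv ℝ (gg h f n) z +
        (ζ z • fderiv ℝ w z + w z • fderiv ℝ ζ z).smulRight (gg h f n z) := by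
      unfold vv
      rw [fderiv_fun_smul (c := fun z => ζ z * w z) (hdζ.mul hdw) (diffAt hg),
        fderiv_fun_mul hdζ hdw]
    have hz1 : |ζ z| ≤ |B0| := (hB0 z hz).trans (le_abs_self _)
    have hz2 : ‖fderiv ℝ ζ z‖ ≤ |B1| := (hB1 z hz).trans (le_abs_self _)
    have hw' := (hw0 z).le
    have hh := hf.hpos.le
    have hG := hC h f hf z hz
    have hS := sm_nonneg h f (n + 1) z
    have hgs := gg_le_sm (h := h) (f := f) (Nat.le_succ n) z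
    have n1 : ‖fderiv ℝ (vv ζ w (gg h f n)) z‖ ≤ |ζ z| * w z * ‖fderiv ℝ (gg h f n) z‖ +
        (|ζ z| * ‖fderiv ℝ w z‖ + w z * ‖fderiv ℝ ζ z‖) * ‖gg h f n z‖ := by
      rw [e1]
      refine (norm_add_le _ _).trans (add_le_add ?_ ?_)
      · rw [norm_smul, Real.norm_eq_abs, abs_mul, abs_of_pos (hw0 z)]
      · rw [ContinuousLinearMap.norm_smulRight_apply]
        refine mul_le_mul_of_nonneg_right ?_ (norm_nonneg _)
        refine (norm_add_le _ _).trans (add_le_add ?_ ?_)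
        · rw [norm_smul, Real.norm_eq_abs]
        · rw [norm_smul, Real.norm_eq_abs, abs_of_pos (hw0 z)]
    calc h * ‖fderiv ℝ (vv ζ w (gg h f n)) z‖
        ≤ h * (|ζ z| * w z * ‖fderiv ℝ (gg h f n) z‖ +
          (|ζ z| * ‖fderiv ℝ w z‖ + w z * ‖fderiv ℝ ζ z‖) * ‖gg h f n z‖) :=
          mul_le_mul_of_nonneg_left n1 hh
      _ = |ζ z| * (w z * (h * ‖fderiv ℝ (gg h f n) z‖)) +
          (|ζ z| * (h * ‖fderiv ℝ w z‖) + h * (w z * ‖fderiv ℝ ζ z‖)) * ‖gg h f n z‖ := by ring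
      _ ≤ |B0| * (w z * (C * sm h f (n + 1) z)) +
          (|B0| * (4 * w z) + 1 * (w z * |B1|)) * sm h f (n + 1) z := by
          refine add_le_add ?_ ?_
          · exact mul_le_mul hz1 (mul_le_mul_of_nonneg_left hG hw')
              (mul_nonneg hw' (mul_nonneg hh (norm_nonneg _))) (abs_nonneg _)
          · refine mul_le_mul ?_ hgs (norm_nonneg _) (by positivity)
            refine add_le_add ?_ ?_
            · exact mul_le_mul hz1 (hw1 z) (mul_nonneg hh (norm_nonneg _)) (abs_nonneg _)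
            · exact mul_le_mul hf.hle (mul_le_mul_of_nonneg_left hz2 hw')
                (mul_nonneg hw' (norm_nonneg _)) zero_le_one
      _ = _ := by ring

/-! ### Integrals -/

lemma hasCompactSupport_test {ζ : ℂ → ℝ} (hζ : TestR V ζ) (F : ℂ → ℝ) (k : ℕ) :
    HasCompactSupport (fun z => ζ z ^ (k + 1) * F z) := by
  have h1 : HasCompactSupport (fun z => ζ z ^ (k + 1)) :=
    hζ.cpt.comp_left (g := fun x : ℝ => x ^ (k + 1)) (by simp)
  exact h1.mul_right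

lemma integrable_test {ζ : ℂ → ℝ} (hζ : TestR V ζ) {F : ℂ → ℝ} (hF : Continuous F) (k : ℕ) :
    Integrable (fun z => ζ z ^ (k + 1) * F z) :=
  ((hζ.smooth.continuous.pow _).mul hF).integrable_of_hasCompactSupport
    (hasCompactSupport_test hζ F k)

lemma exists_dom (hV : IsOpen V) {ζ₁ ζ₂ : ℂ → ℝ} (h1 : TestR V ζ₁) (h2 : TestR V ζ₂) :
    ∃ ζ₃ : ℂ → ℝ, TestR V ζ₃ ∧ ∃ B : ℝ, 0 ≤ B ∧
      ∀ z, ζ₁ z ^ 2 ≤ B * ζ₃ z ^ 2 ∧ ζ₂ z ^ 2 ≤ B * ζ₃ z ^ 2 := by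
  obtain ⟨ζ₃, h3, -, h3'⟩ := exists_cutoff (h1.cpt.isCompact.union h2.cpt.isCompact) hV
    (Set.union_subset h1.sub h2.sub)
  have h4 : ∀ z ∈ tsupport ζ₁ ∪ tsupport ζ₂, ζ₃ z = 1 := fun z hz => h3'.self_of_nhdsSet z hz
  obtain ⟨B1, hB1⟩ := h1.cpt.exists_bound_of_continuous h1.smooth.continuous
  obtain ⟨B2, hB2⟩ := h2.cpt.exists_bound_of_continuous h2.smooth.continuous
  have hsq : ∀ {x B : ℝ}, ‖x‖ ≤ B → x ^ 2 ≤ B ^ 2 := by
    intro x B h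
    rw [← sq_abs]
    exact pow_le_pow_left₀ (abs_nonneg _) h 2
  have gen : ∀ (ζ : ℂ → ℝ) (B : ℝ), (∀ x, ‖ζ x‖ ≤ B) → (tsupport ζ ⊆ tsupport ζ₁ ∪ tsupport ζ₂) →
      B ^ 2 ≤ B1 ^ 2 + B2 ^ 2 → ∀ z, ζ z ^ 2 ≤ (B1 ^ 2 + B2 ^ 2) * ζ₃ z ^ 2 := by
    intro ζ B hB hs hle z
    by_cases hz : z ∈ tsupport ζ
    · rw [h4 z (hs hz), one_pow, mul_one]
      exact (hsq (hB z)).trans hle
    · rw [image_eq_zero_of_notMem_tsupport hz, zero_pow two_ne_zero]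
      positivity
  refine ⟨ζ₃, h3, B1 ^ 2 + B2 ^ 2, by positivity, fun z => ⟨?_, ?_⟩⟩
  · exact gen ζ₁ B1 hB1 Set.subset_union_left (by nlinarith [sq_nonneg B2]) z
  · exact gen ζ₂ B2 hB2 Set.subset_union_right (by nlinarith [sq_nonneg B1]) z

/-- the hypotheses on the weight -/
def WC (h : ℝ) (w : ℂ → ℝ) : Prop :=
  ContDiff ℝ ∞ w ∧ (∀ z, 0 < w z) ∧ (∀ z, h * ‖fderiv ℝ w z‖ ≤ 4 * w z)

lemma nn3 (a b c : ℝ) : 0 ≤ a ^ 2 * b ^ 2 * c ^ 2 := by positivity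

lemma int_dom {ζ₁ ζ₃ : ℂ → ℝ} (h3 : TestR V ζ₃) {B : ℝ} (hB : ∀ z, ζ₁ z ^ 2 ≤ B * ζ₃ z ^ 2)
    {w f : ℂ → ℝ} (hw : Continuous w) (hf : Continuous f) :
    ∫ z, ζ₁ z ^ 2 * w z ^ 2 * f z ^ 2 ≤ B * ∫ z, ζ₃ z ^ 2 * w z ^ 2 * f z ^ 2 := by
  rw [← integral_const_mul]
  refine integral_mono_of_nonneg (ae_of_all _ fun z => nn3 _ _ _) ?_ (ae_of_all _ fun z => ?_)
  · have := integrable_test h3 (F := fun z => w z ^ 2 * f z ^ 2) (by fun_prop) 1
    refine (this.const_mul B).congr (ae_of_all _ fun z => ?_)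
    simp only
    ring
  · have h1 := hB z
    have h2 : 0 ≤ w z ^ 2 * f z ^ 2 := by positivity
    have h4 := mul_le_mul_of_nonneg_right h1 h2
    simp only
    nlinarith

lemma cacc_all (hC : StmtCacc) (hP : Pot V q) (N : ℕ) {ζ : ℂ → ℝ} (hζ : TestR V ζ) :
    ∃ (ζ' : ℂ → ℝ) (C : ℝ), TestR V ζ' ∧ 0 ≤ C ∧ ∀ (h : ℝ) (f w : ℂ → ℝ), Sol V q h f → WC h w →
      ∀ j ≤ N, ∫ z, ζ z ^ 2 * w z ^ 2 * ‖gg h f j z‖ ^ 2 ≤
        C * ∫ z, ζ' z ^ 2 * w z ^ 2 * f z ^ 2 := by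
  induction N with
  | zero =>
    obtain ⟨ζ', C, h1, h2, h3⟩ := hC V q hP 0 ζ hζ
    refine ⟨ζ', C, h1, h2, fun h f w hf hw j hj => ?_⟩
    obtain rfl : j = 0 := by omega
    exact h3 h f w hf hw.1 hw.2.1 hw.2.2
  | succ N ih =>
    obtain ⟨ζ₁, C₁, h1, h2, h3⟩ := ih
    obtain ⟨ζ₂, C₂, h1', h2', h3'⟩ := hC V q hP (N + 1) ζ hζ
    obtain ⟨ζ₃, h4, B, hB, h5⟩ := exists_dom hP.isOpen h1 h1'
    refine ⟨ζ₃, (C₁ + C₂) * B, h4, by positivity, fun h f w hf hw j hj => ?_⟩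
    have hwc := hw.1.continuous
    have hfc := hf.smooth.continuous
    have d1 := int_dom h4 (fun z => (h5 z).1) hwc hfc
    have d2 := int_dom h4 (fun z => (h5 z).2) hwc hfc
    have hI : 0 ≤ ∫ z, ζ₃ z ^ 2 * w z ^ 2 * f z ^ 2 := integral_nonneg fun z => by positivity
    rcases Nat.lt_or_ge N j with hj' | hj'
    · obtain rfl : j = N + 1 := by omega
      refine (h3' h f w hf hw.1 hw.2.1 hw.2.2).trans ?_
      calc C₂ * ∫ z, ζ₂ z ^ 2 * w z ^ 2 * f z ^ 2 ≤ C₂ * (B * ∫ z, ζ₃ z ^ 2 * w z ^ 2 * f z ^ 2) :=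
            mul_le_mul_of_nonneg_left d2 h2'
        _ ≤ _ := by
          rw [mul_assoc, add_mul]
          have := mul_nonneg h2 (mul_nonneg hB hI)
          linarith
    · refine (h3 h f w hf hw j hj').trans ?_
      calc C₁ * ∫ z, ζ₁ z ^ 2 * w z ^ 2 * f z ^ 2 ≤ C₁ * (B * ∫ z, ζ₃ z ^ 2 * w z ^ 2 * f z ^ 2) :=
            mul_le_mul_of_nonneg_left d1 h2
        _ ≤ _ := by
          rw [mul_assoc, add_mul]
          have := mul_nonneg h2' (mul_nonneg hB hI)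
          linarith

lemma one_centre (hE : StmtErr) (hC : StmtCacc) (hL : StmtLady) (hP : Pot V q) (n : ℕ)
    {ζ : ℂ → ℝ} (hζ : TestR V ζ) :
    ∃ (ζ' : ℂ → ℝ) (C : ℝ), TestR V ζ' ∧ 0 ≤ C ∧ ∀ (h : ℝ) (f w : ℂ → ℝ), Sol V q h f → WC h w →
      h ^ 2 * ∫ z, ζ z ^ 4 * w z ^ 4 * ‖gg h f n z‖ ^ 4 ≤
        C * (∫ z, ζ' z ^ 2 * w z ^ 2 * f z ^ 2) ^ 2 := by
  obtain ⟨χ, hχ, -, hχ1⟩ := exists_cutoff hζ.cpt.isCompact hP.isOpen hζ.sub
  have hχ1' : ∀ z ∈ tsupport ζ, χ z = 1 := fun z hz => hχ1.self_of_nhdsSet z hz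
  obtain ⟨ζ', C', h1, h2, h3⟩ := cacc_all hC hP (n + 1) hχ
  obtain ⟨B0, hB0⟩ := hζ.cpt.exists_bound_of_continuous hζ.smooth.continuous
  obtain ⟨M, hM0, hM⟩ := fderiv_vv hE hP n hζ
  obtain ⟨L, hL0, hL'⟩ := hL
  refine ⟨ζ', L * (B0 ^ 2 * C') * (M ^ 2 * ((n : ℝ) + 2) ^ 2 * C'), h1, by positivity,
    fun h f w hf hw => ?_⟩
  set I := ∫ z, ζ' z ^ 2 * w z ^ 2 * f z ^ 2 with hI
  have hI0 : 0 ≤ I := integral_nonneg fun z => by positivity
  have hg := fun j => contDiff_gg hf.smooth h j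
  have hwc := hw.1.continuous
  have hint : ∀ j, Integrable fun z => χ z ^ 2 * w z ^ 2 * ‖gg h f j z‖ ^ 2 := by
    intro j
    have hgc := (hg j).continuous
    have := integrable_test hχ (F := fun z => w z ^ 2 * ‖gg h f j z‖ ^ 2) (by fun_prop) 1
    refine this.congr (ae_of_all _ fun z => ?_)
    simp only
    ring
  have hv := contDiff_vv hζ.smooth hw.1 (hg n)
  have hvc : HasCompactSupport (vv ζ w (gg h f n)) :=
    hζ.cpt.isCompact.of_isClosed_subset (isClosed_tsupport _) tsupport_vv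
  have key := hL' _ hv hvc
  have e4 : ∀ z, ‖vv ζ w (gg h f n) z‖ ^ 4 = ζ z ^ 4 * w z ^ 4 * ‖gg h f n z‖ ^ 4 := by
    intro z
    rw [norm_vv, mul_pow, mul_pow]
    congr 2
    · rw [← abs_pow, abs_of_nonneg (by positivity)]
    · rw [← abs_pow, abs_of_nonneg (by positivity)]
  have e2 : ∀ z, ‖vv ζ w (gg h f n) z‖ ^ 2 = ζ z ^ 2 * w z ^ 2 * ‖gg h f n z‖ ^ 2 := by
    intro z
    rw [norm_vv, mul_pow, mul_pow, sq_abs, sq_abs]
  simp only [e4, e2] at key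
  -- first factor
  have k1 : ∫ z, ζ z ^ 2 * w z ^ 2 * ‖gg h f n z‖ ^ 2 ≤ B0 ^ 2 * C' * I := by
    have k2 : ∫ z, ζ z ^ 2 * w z ^ 2 * ‖gg h f n z‖ ^ 2 ≤
        B0 ^ 2 * ∫ z, χ z ^ 2 * w z ^ 2 * ‖gg h f n z‖ ^ 2 := by
      rw [← integral_const_mul]
      refine integral_mono_of_nonneg (ae_of_all _ fun z => nn3 _ _ _)
        ((hint n).const_mul _) (ae_of_all _ fun z => ?_)
      simp only
      have hle : ζ z ^ 2 ≤ B0 ^ 2 * χ z ^ 2 := by
        by_cases hz : z ∈ tsupport ζ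
        · rw [hχ1' z hz, one_pow, mul_one, ← sq_abs]
          exact pow_le_pow_left₀ (abs_nonneg _) (hB0 z) 2
        · rw [image_eq_zero_of_notMem_tsupport hz, zero_pow two_ne_zero]
          positivity
      have h5 : 0 ≤ w z ^ 2 * ‖gg h f n z‖ ^ 2 := by positivity
      have h6 := mul_le_mul_of_nonneg_right hle h5
      nlinarith
    refine k2.trans ?_
    rw [mul_assoc]
    exact mul_le_mul_of_nonneg_left (h3 h f w hf hw n (by omega)) (by positivity)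
  -- second factor
  have k3 : h ^ 2 * ∫ z, ‖fderiv ℝ (vv ζ w (gg h f n)) z‖ ^ 2 ≤
      M ^ 2 * ((n : ℝ) + 2) ^ 2 * C' * I := by
    have k4 : h ^ 2 * ∫ z, ‖fderiv ℝ (vv ζ w (gg h f n)) z‖ ^ 2 ≤
        ∫ z, M ^ 2 * ((n : ℝ) + 2) * ∑ j ∈ Finset.range (n + 2),
          χ z ^ 2 * w z ^ 2 * ‖gg h f j z‖ ^ 2 := by
      rw [← integral_const_mul]
      refine integral_mono_of_nonneg (ae_of_all _ fun z => mul_nonneg (sq_nonneg _) (sq_nonneg _))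
        ((integrable_finsetSum _ fun j _ => hint j).const_mul _) (ae_of_all _ fun z => ?_)
      simp only
      obtain ⟨hz1, hz2⟩ := hM h f w hf hw.1 hw.2.1 hw.2.2 z
      by_cases hz : z ∈ tsupport ζ
      · have h5 := hz2 hz
        have h6 : 0 ≤ h * ‖fderiv ℝ (vv ζ w (gg h f n)) z‖ :=
          mul_nonneg hf.hpos.le (norm_nonneg _)
        have h7 := pow_le_pow_left₀ h6 h5 2
        have h8 : sm h f (n + 1) z ^ 2 ≤ ((n : ℝ) + 2) *
            ∑ j ∈ Finset.range (n + 2), ‖gg h f j z‖ ^ 2 := by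
          have h9 := sq_sum_le_card_mul_sum_sq (s := Finset.range (n + 2))
            (f := fun j => ‖gg h f j z‖)
          rw [Finset.card_range] at h9
          push_cast at h9
          exact h9
        rw [hχ1' z hz, one_pow]
        simp only [one_mul]
        rw [← Finset.mul_sum]
        calc h ^ 2 * ‖fderiv ℝ (vv ζ w (gg h f n)) z‖ ^ 2
            = (h * ‖fderiv ℝ (vv ζ w (gg h f n)) z‖) ^ 2 := by ring
          _ ≤ (M * (w z * sm h f (n + 1) z)) ^ 2 := h7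
          _ = M ^ 2 * w z ^ 2 * sm h f (n + 1) z ^ 2 := by ring
          _ ≤ M ^ 2 * w z ^ 2 * (((n : ℝ) + 2) *
              ∑ j ∈ Finset.range (n + 2), ‖gg h f j z‖ ^ 2) :=
              mul_le_mul_of_nonneg_left h8 (by positivity)
          _ = _ := by ring
      · rw [hz1 hz, norm_zero]
        have : 0 ≤ M ^ 2 * ((n : ℝ) + 2) * ∑ j ∈ Finset.range (n + 2),
            χ z ^ 2 * w z ^ 2 * ‖gg h f j z‖ ^ 2 :=
          mul_nonneg (by positivity) (Finset.sum_nonneg fun j _ => by positivity)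
        simpa using this
    refine k4.trans ?_
    rw [integral_const_mul, integral_finsetSum _ fun j _ => hint j]
    have h5 : ∑ j ∈ Finset.range (n + 2), ∫ z, χ z ^ 2 * w z ^ 2 * ‖gg h f j z‖ ^ 2 ≤
        ((n : ℝ) + 2) * (C' * I) := by
      have h6 : ∑ j ∈ Finset.range (n + 2), ∫ z, χ z ^ 2 * w z ^ 2 * ‖gg h f j z‖ ^ 2 ≤
          ∑ j ∈ Finset.range (n + 2), C' * I :=
        Finset.sum_le_sum fun j hj => h3 h f w hf hw j (by
          have := Finset.mem_range.mp hj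
          omega)
      rw [Finset.sum_const, Finset.card_range, nsmul_eq_mul] at h6
      push_cast at h6
      exact h6
    calc M ^ 2 * ((n : ℝ) + 2) *
          ∑ j ∈ Finset.range (n + 2), ∫ z, χ z ^ 2 * w z ^ 2 * ‖gg h f j z‖ ^ 2
        ≤ M ^ 2 * ((n : ℝ) + 2) * (((n : ℝ) + 2) * (C' * I)) :=
          mul_le_mul_of_nonneg_left h5 (by positivity)
      _ = _ := by ring
  have hk0 : 0 ≤ h ^ 2 * ∫ z, ‖fderiv ℝ (vv ζ w (gg h f n)) z‖ ^ 2 :=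
    mul_nonneg (by positivity) (integral_nonneg fun z => by positivity)
  calc h ^ 2 * ∫ z, ζ z ^ 4 * w z ^ 4 * ‖gg h f n z‖ ^ 4
      ≤ h ^ 2 * (L * (∫ z, ζ z ^ 2 * w z ^ 2 * ‖gg h f n z‖ ^ 2) *
        ∫ z, ‖fderiv ℝ (vv ζ w (gg h f n)) z‖ ^ 2) := mul_le_mul_of_nonneg_left key (by positivity)
    _ = L * (∫ z, ζ z ^ 2 * w z ^ 2 * ‖gg h f n z‖ ^ 2) *
        (h ^ 2 * ∫ z, ‖fderiv ℝ (vv ζ w (gg h f n)) z‖ ^ 2) := by ring
    _ ≤ L * (B0 ^ 2 * C' * I) * (M ^ 2 * ((n : ℝ) + 2) ^ 2 * C' * I) := by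
        refine mul_le_mul (mul_le_mul_of_nonneg_left k1 hL0) k3 hk0 (by positivity)
    _ = _ := by ring

lemma cauchy_schwarz {a b : ℂ → ℝ} (ha : Integrable fun z => a z ^ 2)
    (hb : Integrable fun z => b z ^ 2) (hab : Integrable fun z => a z * b z) :
    (∫ z, a z * b z) ^ 2 ≤ (∫ z, a z ^ 2) * ∫ z, b z ^ 2 := by
  have h1 : ∀ t : ℝ, 0 ≤ (∫ z, a z ^ 2) * (t * t) + (-2 * ∫ z, a z * b z) * t + ∫ z, b z ^ 2 := by
    intro t
    have h2 : 0 ≤ ∫ z, (t * a z - b z) ^ 2 := integral_nonneg fun z => sq_nonneg _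
    have h3 : ∫ z, (t * a z - b z) ^ 2 = ∫ z, ((t * t) * a z ^ 2 + (-2 * t) * (a z * b z) +
        b z ^ 2) := by
      congr 1
      funext z
      ring
    have i0 : Integrable fun z => (t * t) * a z ^ 2 := ha.const_mul _
    have i1 : Integrable fun z => (-2 * t) * (a z * b z) := hab.const_mul _
    have i2 : Integrable fun z => (t * t) * a z ^ 2 + (-2 * t) * (a z * b z) := i0.add i1
    rw [h3, integral_add i2 hb, integral_add i0 i1, integral_const_mul,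
      integral_const_mul] at h2
    linarith
  have h2 := discrim_le_zero h1
  unfold discrim at h2
  nlinarith

/-! ### Averaging over the centres -/

lemma integrable_scale {h : ℝ} (hh : 0 < h) (k : ℕ) (hk : 1 ≤ k) :
    Integrable fun y : ℂ => w1 (h⁻¹ • y) ^ k :=
  (integrable_w1_pow k hk).comp_smul (inv_pos.mpr hh).ne'

lemma integral_scale {h : ℝ} (hh : 0 < h) (k : ℕ) :
    ∫ y : ℂ, w1 (h⁻¹ • y) ^ k = h ^ 2 * ∫ y, w1 y ^ k := by
  rw [Measure.integral_comp_inv_smul_of_nonneg volume (fun y => w1 y ^ k) hh.le,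
    Complex.finrank_real_complex, smul_eq_mul]

lemma integrable_wt_pow {h : ℝ} (hh : 0 < h) (x0 : ℂ) (k : ℕ) (hk : 1 ≤ k) :
    Integrable fun z => wt h x0 z ^ k :=
  (integrable_scale hh k hk).comp_sub_left x0

lemma integral_wt_pow {h : ℝ} (hh : 0 < h) (x0 : ℂ) (k : ℕ) :
    ∫ z, wt h x0 z ^ k = h ^ 2 * ∫ y, w1 y ^ k := by
  unfold wt
  rw [integral_sub_left_eq_self (fun y => w1 (h⁻¹ • y) ^ k) volume x0, integral_scale hh]

lemma integral_conv {A W : ℂ → ℝ} (hA : Integrable A) (hW : Integrable W) :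
    ∫ x, ∫ z, A z * W (x - z) = (∫ z, A z) * ∫ y, W y := by
  have h := integral_convolution (μ := volume) (ν := volume) (ContinuousLinearMap.mul ℝ ℝ) hA hW
  simpa [convolution_mul] using h

lemma integrable_conv {A W : ℂ → ℝ} (hA : Integrable A) (hW : Integrable W) :
    Integrable fun x => ∫ z, A z * W (x - z) := by
  have h := Integrable.integrable_convolution (μ := volume) (ContinuousLinearMap.mul ℝ ℝ) hA hW
  refine h.congr (ae_of_all _ fun x => ?_)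
  rw [convolution_mul]

lemma wc_wt {h : ℝ} (hh : 0 < h) (x0 : ℂ) : WC h (wt h x0) :=
  ⟨contDiff_wt h x0, wt_pos h x0, fderiv_wt hh x0⟩

end

end Pool.Agent.A54.L4

namespace Pool.Agent.A54

open MeasureTheory L4

theorem stmtL4 (hE : StmtErr) (hC : StmtCacc) (hL : StmtLady) : StmtL4 := by
  intro V q hP n ζ hζ
  obtain ⟨ζ', C3, h1, h2, h3⟩ := one_centre hE hC hL hP n hζ
  have hc1 := integral_w1_pow_pos 2 (by norm_num)
  have hc2 := integral_w1_pow_pos 4 (by norm_num)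
  set c1 := ∫ y, w1 y ^ 2 with hc1'
  set c2 := ∫ y, w1 y ^ 4 with hc2'
  refine ⟨ζ', C3 * c1 ^ 2 / c2, h1, by positivity, fun h f hf => ?_⟩
  have hh := hf.hpos
  have hgc := (contDiff_gg hf.smooth h n).continuous
  have hfc := hf.smooth.continuous
  have iA1 : Integrable fun z => ζ z ^ 4 * ‖gg h f n z‖ ^ 4 :=
    integrable_test hζ (F := fun z => ‖gg h f n z‖ ^ 4) (by fun_prop) 3
  have iA2 : Integrable fun z => ζ' z ^ 4 * f z ^ 4 :=
    integrable_test h1 (F := fun z => f z ^ 4) (by fun_prop) 3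
  have key : ∀ x0, h ^ 2 * ∫ z, (ζ z ^ 4 * ‖gg h f n z‖ ^ 4) * w1 (h⁻¹ • (x0 - z)) ^ 4 ≤
      (C3 * (h ^ 2 * c1)) * ∫ z, (ζ' z ^ 4 * f z ^ 4) * w1 (h⁻¹ • (x0 - z)) ^ 2 := by
    intro x0
    have hwc : Continuous (wt h x0) := (contDiff_wt h x0).continuous
    have k0 := h3 h f (wt h x0) hf (wc_wt hh x0)
    have ia : Integrable fun z => wt h x0 z ^ 2 := integrable_wt_pow hh x0 2 (by norm_num)
    have ib : Integrable fun z => (ζ' z ^ 2 * wt h x0 z * f z ^ 2) ^ 2 := by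
      have := integrable_test h1 (F := fun z => wt h x0 z ^ 2 * f z ^ 4) (by fun_prop) 3
      refine this.congr (ae_of_all _ fun z => ?_)
      simp only
      ring
    have iab : Integrable fun z => wt h x0 z * (ζ' z ^ 2 * wt h x0 z * f z ^ 2) := by
      have := integrable_test h1 (F := fun z => wt h x0 z ^ 2 * f z ^ 2) (by fun_prop) 1
      refine this.congr (ae_of_all _ fun z => ?_)
      simp only
      ring
    have cs := cauchy_schwarz ia ib iab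
    rw [integral_wt_pow hh] at cs
    have e1 : ∫ z, wt h x0 z * (ζ' z ^ 2 * wt h x0 z * f z ^ 2) =
        ∫ z, ζ' z ^ 2 * wt h x0 z ^ 2 * f z ^ 2 := by
      congr 1
      funext z
      ring
    have e2 : ∫ z, (ζ' z ^ 2 * wt h x0 z * f z ^ 2) ^ 2 =
        ∫ z, (ζ' z ^ 4 * f z ^ 4) * w1 (h⁻¹ • (x0 - z)) ^ 2 := by
      congr 1
      funext z
      unfold wt
      ring
    have e3 : ∫ z, ζ z ^ 4 * wt h x0 z ^ 4 * ‖gg h f n z‖ ^ 4 =
        ∫ z, (ζ z ^ 4 * ‖gg h f n z‖ ^ 4) * w1 (h⁻¹ • (x0 - z)) ^ 4 := by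
      congr 1
      funext z
      unfold wt
      ring
    rw [e1, e2] at cs
    rw [e3] at k0
    refine k0.trans ((mul_le_mul_of_nonneg_left cs h2).trans (le_of_eq ?_))
    ring
  have iW4 := integrable_scale hh 4 (by norm_num)
  have iW2 := integrable_scale hh 2 (by norm_num)
  have m1 := integral_mono ((integrable_conv iA1 iW4).const_mul (h ^ 2))
    ((integrable_conv iA2 iW2).const_mul (C3 * (h ^ 2 * c1))) key
  rw [integral_const_mul, integral_const_mul, integral_conv iA1 iW4, integral_conv iA2 iW2,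
    integral_scale hh, integral_scale hh] at m1
  rw [div_mul_eq_mul_div, le_div_iff₀ hc2]
  have h4 : 0 < h ^ 4 := by positivity
  refine le_of_mul_le_mul_left (a := h ^ 4) ?_ h4
  calc h ^ 4 * ((∫ z, ζ z ^ 4 * ‖gg h f n z‖ ^ 4) * c2)
      = h ^ 2 * ((∫ z, ζ z ^ 4 * ‖gg h f n z‖ ^ 4) * (h ^ 2 * c2)) := by ring
    _ ≤ C3 * (h ^ 2 * c1) * ((∫ z, ζ' z ^ 4 * f z ^ 4) * (h ^ 2 * c1)) := m1
    _ = _ := by ring

end Pool.Agent.A54
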