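import Pool.Agent.Lib.MP_a54f13_nt.Spec

/-! The local div-curl lemma, from its Fourier analytic core. -/

set_option autoImplicit false

namespace Pool.Agent.A54.DC

open MeasureTheory Filter Topology Set
open scoped ContDiff ComplexConjugate

variable {V : Set ℂ}

theorem int_cpt {g : ℂ → ℝ} (hg : Continuous g) (hc : HasCompactSupport g) :
    Integrable g := hg.integrable_of_hasCompactSupport hc

theorem cpt_left {η : ℂ → ℝ} {g : ℂ → ℝ} (hη : HasCompactSupport η) :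
    HasCompactSupport (fun z => η z ^ 2 * g z) := by
  have h : HasCompactSupport (fun z => η z ^ 2) :=
    hη.comp_left (g := fun x : ℝ => x ^ 2) (by simp)
  exact h.mul_right

theorem pointwise (e : ℝ) (a b : ℂ) :
    e ^ 2 * ‖a‖ ^ 2 - ‖(e : ℂ) * (a - b)‖ ^ 2 =
      2 * ((e : ℂ) ^ 2 * conj b * a).re - e ^ 2 * ‖b‖ ^ 2 := by
  rw [norm_mul, mul_pow, Complex.norm_real, Real.norm_eq_abs, sq_abs]
  simp only [← Complex.normSq_eq_norm_sq, Complex.normSq_apply, Complex.mul_re, Complex.sub_re,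
    Complex.sub_im, Complex.mul_im, Complex.conj_re, Complex.conj_im]
  have h1 : ((e : ℂ) ^ 2).re = e ^ 2 := by
    rw [← Complex.ofReal_pow]; exact Complex.ofReal_re _
  have h2 : ((e : ℂ) ^ 2).im = 0 := by
    rw [← Complex.ofReal_pow]; exact Complex.ofReal_im _
  rw [h1, h2]
  ring

theorem cpt_c {η : ℂ → ℝ} (hη : TestR V η) : HasCompactSupport (fun z => (η z : ℂ)) :=
  hη.toTest.cpt

/-- the function `η (G - G')` -/
noncomputable def vv (η : ℂ → ℝ) (G G' : ℂ → ℂ) (z : ℂ) : ℂ := (η z : ℂ) * (G z - G' z)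

theorem vv_smooth {η : ℂ → ℝ} (hη : TestR V η) {G G' : ℂ → ℂ} (hG : ContDiff ℝ ∞ G)
    (hG' : ContDiff ℝ ∞ G') : ContDiff ℝ ∞ (vv η G G') :=
  (contDiff_ofReal hη.smooth).mul (hG.sub hG')

theorem vv_cpt {η : ℂ → ℝ} (hη : TestR V η) (G G' : ℂ → ℂ) : HasCompactSupport (vv η G G') :=
  (cpt_c hη).mul_right

theorem expand {η : ℂ → ℝ} (hη : TestR V η) {G G' : ℂ → ℂ} (hG : ContDiff ℝ ∞ G)
    (hG' : ContDiff ℝ ∞ G') :
    (∫ z, η z ^ 2 * ‖G z‖ ^ 2) - ∫ z, ‖vv η G G' z‖ ^ 2 =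
      2 * (∫ z, ((η z : ℂ) ^ 2 * conj (G' z)) * G z).re - ∫ z, η z ^ 2 * ‖G' z‖ ^ 2 := by
  have hηc := hη.smooth.continuous
  have hGc := hG.continuous
  have hG'c := hG'.continuous
  have i1 : Integrable (fun z => η z ^ 2 * ‖G z‖ ^ 2) :=
    int_cpt (by fun_prop) (cpt_left hη.cpt)
  have i2 : Integrable (fun z => ‖vv η G G' z‖ ^ 2) :=
    int_cpt (by have := (vv_smooth hη hG hG').continuous; fun_prop)
      ((vv_cpt hη G G').comp_left (g := fun x : ℂ => ‖x‖ ^ 2) (by simp))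
  have i3 : Integrable (fun z => ((η z : ℂ) ^ 2 * conj (G' z)) * G z) := by
    refine integrable_of_cpt (by fun_prop) ?_
    have h : HasCompactSupport (fun z => (η z : ℂ) ^ 2) :=
      (cpt_c hη).comp_left (g := fun x : ℂ => x ^ 2) (by simp)
    exact h.mul_right.mul_right
  have i4 : Integrable (fun z => η z ^ 2 * ‖G' z‖ ^ 2) :=
    int_cpt (by fun_prop) (cpt_left hη.cpt)
  have e3 : (∫ z, ((η z : ℂ) ^ 2 * conj (G' z)) * G z).re =
      ∫ z, (((η z : ℂ) ^ 2 * conj (G' z)) * G z).re := (integral_re i3).symm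
  have i3' : Integrable (fun z => 2 * (((η z : ℂ) ^ 2 * conj (G' z)) * G z).re) :=
    i3.re.const_mul 2
  rw [e3, ← integral_const_mul, ← integral_sub i1 i2, ← integral_sub i3' i4]
  refine integral_congr_ae (ae_of_all _ fun z => ?_)
  exact pointwise (η z) (G z) (G' z)

theorem self_re {η : ℂ → ℝ} (hη : TestR V η) {G' : ℂ → ℂ} (hG' : ContDiff ℝ ∞ G') :
    (∫ z, ((η z : ℂ) ^ 2 * conj (G' z)) * G' z).re = ∫ z, η z ^ 2 * ‖G' z‖ ^ 2 := by
  have h := expand hη hG' hG'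
  have h0 : ∫ z, ‖vv η G' G' z‖ ^ 2 = 0 := by
    simp [vv]
  rw [h0] at h
  linarith

theorem test_sq {η : ℂ → ℝ} (hη : TestR V η) {G' : ℂ → ℂ} (hG' : ContDiff ℝ ∞ G') :
    Test V (fun z => (η z : ℂ) ^ 2 * conj (G' z)) := by
  have h := (hη.toTest.mul_right (contDiff_ofReal hη.smooth)).mul_right (contDiff_conj hG')
  simpa [pow_two] using h

theorem lim_one {η : ℂ → ℝ} (hη : TestR V η) {G : ℕ → ℂ → ℂ} {G' : ℂ → ℂ}
    (hG : ∀ i, ContDiff ℝ ∞ (G i)) (hG' : ContDiff ℝ ∞ G')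
    (hw : ∀ φ, Test V φ →
      Tendsto (fun i => ∫ z, φ z * G i z) atTop (𝓝 (∫ z, φ z * G' z))) :
    Tendsto (fun i => (∫ z, η z ^ 2 * ‖G i z‖ ^ 2) - ∫ z, ‖vv η (G i) G' z‖ ^ 2) atTop
      (𝓝 (∫ z, η z ^ 2 * ‖G' z‖ ^ 2)) := by
  have h1 := hw _ (test_sq hη hG')
  have h2 : Tendsto (fun i => 2 * (∫ z, ((η z : ℂ) ^ 2 * conj (G' z)) * G i z).re -
      ∫ z, η z ^ 2 * ‖G' z‖ ^ 2) atTop
      (𝓝 (2 * (∫ z, ((η z : ℂ) ^ 2 * conj (G' z)) * G' z).re - ∫ z, η z ^ 2 * ‖G' z‖ ^ 2)) :=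
    ((Complex.continuous_re.tendsto _).comp h1 |>.const_mul 2).sub_const _
  rw [self_re hη hG'] at h2
  have e : 2 * (∫ z, η z ^ 2 * ‖G' z‖ ^ 2) - (∫ z, η z ^ 2 * ‖G' z‖ ^ 2) =
      ∫ z, η z ^ 2 * ‖G' z‖ ^ 2 := by ring
  rw [e] at h2
  refine h2.congr fun i => ?_
  exact (expand hη (hG i) hG').symm

theorem fourier_zero {η : ℂ → ℝ} (hη : TestR V η) {G : ℕ → ℂ → ℂ} {G' : ℂ → ℂ}
    (hG : ∀ i, ContDiff ℝ ∞ (G i)) (hG' : ContDiff ℝ ∞ G')
    (hw : ∀ φ, Test V φ →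
      Tendsto (fun i => ∫ z, φ z * G i z) atTop (𝓝 (∫ z, φ z * G' z))) (κ : ℂ) :
    Tendsto (fun i => FourierTransform.fourier (vv η (G i) G') κ) atTop (𝓝 0) := by
  set e : ℂ → ℂ := fun z => Complex.exp (((-2 * Real.pi * inner ℝ z κ : ℝ) : ℂ) * Complex.I)
    with he
  have hes : ContDiff ℝ ∞ e := by
    have h1 : ContDiff ℝ ∞ (fun z : ℂ => (-2 * Real.pi * inner ℝ z κ : ℝ)) :=
      contDiff_const.mul (contDiff_id.inner ℝ contDiff_const)
    exact (Complex.contDiff_exp.comp ((contDiff_ofReal h1).mul contDiff_const))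
  have ht : Test V (fun z => e z * (η z : ℂ)) := hη.toTest.mul_left hes
  have h1 := hw _ ht
  have h2 : Tendsto (fun i => (∫ z, (e z * (η z : ℂ)) * G i z) -
      ∫ z, (e z * (η z : ℂ)) * G' z) atTop (𝓝 0) := by
    have := h1.sub_const (∫ z, (e z * (η z : ℂ)) * G' z)
    rwa [sub_self] at this
  refine h2.congr fun i => ?_
  have hηc := hη.smooth.continuous
  have hec := hes.continuous
  have hGc := (hG i).continuous
  have hG'c := hG'.continuous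
  rw [Real.fourier_eq', ← integral_sub]
  · refine integral_congr_ae (ae_of_all _ fun z => ?_)
    simp only [vv, smul_eq_mul, he]
    ring
  · exact integrable_of_cpt (by fun_prop) ht.cpt.mul_right
  · exact integrable_of_cpt (by fun_prop) ht.cpt.mul_right

theorem vv_sq_bound {η : ℂ → ℝ} (hη : TestR V η) {G G' : ℂ → ℂ} (hG : ContDiff ℝ ∞ G)
    (hG' : ContDiff ℝ ∞ G') :
    ∫ z, ‖vv η G G' z‖ ^ 2 ≤ 2 * (∫ z, η z ^ 2 * ‖G z‖ ^ 2) + 2 * ∫ z, η z ^ 2 * ‖G' z‖ ^ 2 := by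
  have hηc := hη.smooth.continuous
  have hGc := hG.continuous
  have hG'c := hG'.continuous
  have i1 : Integrable (fun z => η z ^ 2 * ‖G z‖ ^ 2) :=
    int_cpt (by fun_prop) (cpt_left hη.cpt)
  have i2 : Integrable (fun z => ‖vv η G G' z‖ ^ 2) :=
    int_cpt (by have := (vv_smooth hη hG hG').continuous; fun_prop)
      ((vv_cpt hη G G').comp_left (g := fun x : ℂ => ‖x‖ ^ 2) (by simp))
  have i4 : Integrable (fun z => η z ^ 2 * ‖G' z‖ ^ 2) :=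
    int_cpt (by fun_prop) (cpt_left hη.cpt)
  rw [← integral_const_mul, ← integral_const_mul, ← integral_add (i1.const_mul 2) (i4.const_mul 2)]
  refine integral_mono i2 ((i1.const_mul 2).add (i4.const_mul 2)) fun z => ?_
  simp only [vv]
  rw [norm_mul, mul_pow, Complex.norm_real, Real.norm_eq_abs, sq_abs]
  have h1 : ‖G z - G' z‖ ^ 2 ≤ 2 * ‖G z‖ ^ 2 + 2 * ‖G' z‖ ^ 2 := by
    have := norm_sub_le (G z) (G' z)
    nlinarith [norm_nonneg (G z - G' z), sq_nonneg (‖G z‖ - ‖G' z‖), norm_nonneg (G z),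
      norm_nonneg (G' z)]
  nlinarith [sq_nonneg (η z)]

theorem vv_one_bound {η χ : ℂ → ℝ} (hη : TestR V η) (hχ : TestR V χ)
    (h1 : ∀ z, η z ≠ 0 → χ z = 1) {G G' : ℂ → ℂ} (hG : ContDiff ℝ ∞ G)
    (hG' : ContDiff ℝ ∞ G') :
    ∫ z, ‖vv η G G' z‖ ≤ (∫ z, χ z ^ 2) + ∫ z, ‖vv η G G' z‖ ^ 2 := by
  have hχc := hχ.smooth.continuous
  have hvc := (vv_smooth hη hG hG').continuous
  have i1 : Integrable (fun z => ‖vv η G G' z‖) :=
    int_cpt (by fun_prop) ((vv_cpt hη G G').comp_left (g := fun x : ℂ => ‖x‖) (by simp))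
  have i2 : Integrable (fun z => ‖vv η G G' z‖ ^ 2) :=
    int_cpt (by fun_prop) ((vv_cpt hη G G').comp_left (g := fun x : ℂ => ‖x‖ ^ 2) (by simp))
  have i3 : Integrable (fun z => χ z ^ 2) :=
    int_cpt (by fun_prop) (hχ.cpt.comp_left (g := fun x : ℝ => x ^ 2) (by simp))
  rw [← integral_add i3 i2]
  refine integral_mono i1 (i3.add i2) fun z => ?_
  by_cases h : η z = 0
  · simp only [vv, h, Complex.ofReal_zero, zero_mul, norm_zero]
    positivity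
  · simp only [h1 z h]
    nlinarith [norm_nonneg (vv η G G' z), sq_nonneg (‖vv η G G' z‖ - 1)]

theorem four_sq (a b c d : ℂ) :
    ‖a - b + c - d‖ ^ 2 ≤ 4 * (‖a‖ ^ 2 + ‖b‖ ^ 2 + ‖c‖ ^ 2 + ‖d‖ ^ 2) := by
  have h : ‖a - b + c - d‖ ≤ ‖a‖ + ‖b‖ + ‖c‖ + ‖d‖ := by
    calc ‖a - b + c - d‖ ≤ ‖a - b + c‖ + ‖d‖ := norm_sub_le _ _
      _ ≤ ‖a - b‖ + ‖c‖ + ‖d‖ := by gcongr; exact norm_add_le _ _
      _ ≤ ‖a‖ + ‖b‖ + ‖c‖ + ‖d‖ := by gcongr; exact norm_sub_le _ _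
  have h2 : ‖a - b + c - d‖ ^ 2 ≤ (‖a‖ + ‖b‖ + ‖c‖ + ‖d‖) ^ 2 :=
    pow_le_pow_left₀ (norm_nonneg _) h 2
  refine h2.trans ?_
  nlinarith [sq_nonneg (‖a‖ - ‖b‖), sq_nonneg (‖a‖ - ‖c‖), sq_nonneg (‖a‖ - ‖d‖),
    sq_nonneg (‖b‖ - ‖c‖), sq_nonneg (‖b‖ - ‖d‖), sq_nonneg (‖c‖ - ‖d‖)]

theorem bound_mul {η χ : ℂ → ℝ}
    (h1 : ∀ z ∈ tsupport η, χ z = 1) (a : ℂ → ℂ) (ha : Continuous a)
    (hs : ∀ z, z ∉ tsupport η → a z = 0) (hc : HasCompactSupport a) :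
    ∃ M : ℝ, 0 ≤ M ∧ ∀ z (b : ℂ), ‖a z * b‖ ^ 2 ≤ M * (χ z ^ 2 * ‖b‖ ^ 2) := by
  obtain ⟨M, hM⟩ := ha.bounded_above_of_compact_support hc
  refine ⟨M ^ 2, sq_nonneg _, fun z b => ?_⟩
  by_cases h : z ∈ tsupport η
  · rw [h1 z h, norm_mul, mul_pow]
    have h2 : ‖a z‖ ^ 2 ≤ M ^ 2 := pow_le_pow_left₀ (norm_nonneg _) (hM z) 2
    nlinarith [sq_nonneg ‖b‖]
  · rw [hs z h]
    simp only [zero_mul, norm_zero]
    rw [zero_pow two_ne_zero]
    positivity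

theorem core (hF : StmtFour) (hV : IsOpen V) {G H : ℕ → ℂ → ℂ} {G' H' : ℂ → ℂ}
    (hG : ∀ i, ContDiff ℝ ∞ (G i)) (hH : ∀ i, ContDiff ℝ ∞ (H i)) (hG' : ContDiff ℝ ∞ G')
    (hH' : ContDiff ℝ ∞ H')
    (hwG : ∀ φ, Test V φ → Tendsto (fun i => ∫ z, φ z * G i z) atTop (𝓝 (∫ z, φ z * G' z)))
    (hwH : ∀ φ, Test V φ → Tendsto (fun i => ∫ z, φ z * H i z) atTop (𝓝 (∫ z, φ z * H' z)))
    (hb : ∀ ζ, TestR V ζ → ∃ C : ℝ, ∀ i, ∫ z, ζ z ^ 2 * ‖G i z‖ ^ 2 ≤ C ∧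
      ∫ z, ζ z ^ 2 * ‖H i z‖ ^ 2 ≤ C ∧ ∫ z, ζ z ^ 2 * ‖dzb (G i) z - dz (H i) z‖ ^ 2 ≤ C)
    {η : ℂ → ℝ} (hη : TestR V η) :
    Tendsto (fun i => (∫ z, η z ^ 2 * ‖G i z‖ ^ 2) - ∫ z, η z ^ 2 * ‖H i z‖ ^ 2) atTop
      (𝓝 ((∫ z, η z ^ 2 * ‖G' z‖ ^ 2) - ∫ z, η z ^ 2 * ‖H' z‖ ^ 2)) := by
  obtain ⟨χ, hχ, hχ01, hχ1⟩ := exists_cutoff hη.cpt.isCompact hV hη.sub
  have hχ1' : ∀ z ∈ tsupport η, χ z = 1 := fun z hz =>
    (hχ1.self_of_nhdsSet z hz)
  have hχ2 : ∀ z, η z ≠ 0 → χ z = 1 := fun z hz => hχ1' z (subset_tsupport η hz)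
  obtain ⟨C1, hC1⟩ := hb η hη
  obtain ⟨C2, hC2⟩ := hb χ hχ
  have hηt := hη.toTest
  have hts : ∀ z, z ∉ tsupport η → z ∉ tsupport (fun w => (η w : ℂ)) := fun z hz h =>
    hz (tsupport_comp_subset (g := fun x : ℝ => (x : ℂ)) (by simp) η h)
  obtain ⟨M1, hM1, hb1⟩ := bound_mul hχ1' (dzb (fun w => (η w : ℂ)))
    (contDiff_dzb hηt.smooth).continuous (fun z hz => dzb_eq_zero_of_notMem (hts z hz))
    (hasCompactSupport_dzb hηt.cpt)
  obtain ⟨M2, hM2, hb2⟩ := bound_mul hχ1' (dz (fun w => (η w : ℂ)))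
    (contDiff_dz hηt.smooth).continuous (fun z hz => dz_eq_zero_of_notMem (hts z hz))
    (hasCompactSupport_dz hηt.cpt)
  have hηc := hη.smooth.continuous
  have hχc := hχ.smooth.continuous
  have hG'c := hG'.continuous
  have hH'c := hH'.continuous
  -- the L² bounds
  set A1 : ℝ := 2 * C1 + 2 * ∫ z, η z ^ 2 * ‖G' z‖ ^ 2 with hA1
  set A2 : ℝ := 2 * C1 + 2 * ∫ z, η z ^ 2 * ‖H' z‖ ^ 2 with hA2
  have bG : ∀ i, ∫ z, ‖vv η (G i) G' z‖ ^ 2 ≤ A1 := fun i => by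
    have := vv_sq_bound hη (hG i) hG'
    have := (hC1 i).1
    rw [hA1]; linarith
  have bH : ∀ i, ∫ z, ‖vv η (H i) H' z‖ ^ 2 ≤ A2 := fun i => by
    have := vv_sq_bound hη (hH i) hH'
    have := (hC1 i).2.1
    rw [hA2]; linarith
  have cG : ∀ i, ∫ z, ‖vv χ (G i) G' z‖ ^ 2 ≤ 2 * C2 + 2 * ∫ z, χ z ^ 2 * ‖G' z‖ ^ 2 := fun i => by
    have := vv_sq_bound hχ (hG i) hG'
    have := (hC2 i).1
    linarith
  have cH : ∀ i, ∫ z, ‖vv χ (H i) H' z‖ ^ 2 ≤ 2 * C2 + 2 * ∫ z, χ z ^ 2 * ‖H' z‖ ^ 2 := fun i => by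
    have := vv_sq_bound hχ (hH i) hH'
    have := (hC2 i).2.1
    linarith
  set A0 : ℝ := ∫ z, χ z ^ 2 with hA0
  -- the bound for the div-curl expression
  set B0 : ℝ := ∫ z, η z ^ 2 * ‖dzb G' z - dz H' z‖ ^ 2 with hB0
  set A3 : ℝ := 4 * (C1 + B0 + M1 * (2 * C2 + 2 * ∫ z, χ z ^ 2 * ‖G' z‖ ^ 2) +
    M2 * (2 * C2 + 2 * ∫ z, χ z ^ 2 * ‖H' z‖ ^ 2)) with hA3
  have bD : ∀ i, ∫ z, ‖dzb (vv η (G i) G') z - dz (vv η (H i) H') z‖ ^ 2 ≤ A3 := by
    intro i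
    have hvG := vv_smooth hη (hG i) hG'
    have hvH := vv_smooth hη (hH i) hH'
    have hGc := (hG i).continuous
    have hHc := (hH i).continuous
    have c1 := (contDiff_dzb hvG).continuous
    have c2 := (contDiff_dz hvH).continuous
    have c3 := (contDiff_dzb (hG i)).continuous
    have c4 := (contDiff_dz (hH i)).continuous
    have c5 := (contDiff_dzb hG').continuous
    have c6 := (contDiff_dz hH').continuous
    have c7 := (vv_smooth hχ (hG i) hG').continuous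
    have c8 := (vv_smooth hχ (hH i) hH').continuous
    have i0 : Integrable (fun z => ‖dzb (vv η (G i) G') z - dz (vv η (H i) H') z‖ ^ 2) := by
      refine int_cpt (by fun_prop) ?_
      have h := (hasCompactSupport_dzb (vv_cpt hη (G i) G')).sub
        (hasCompactSupport_dz (vv_cpt hη (H i) H'))
      exact h.comp_left (g := fun x : ℂ => ‖x‖ ^ 2) (by simp)
    have i1 : Integrable (fun z => η z ^ 2 * ‖dzb (G i) z - dz (H i) z‖ ^ 2) :=
      int_cpt (by fun_prop) (cpt_left hη.cpt)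
    have i2 : Integrable (fun z => η z ^ 2 * ‖dzb G' z - dz H' z‖ ^ 2) :=
      int_cpt (by fun_prop) (cpt_left hη.cpt)
    have i3 : Integrable (fun z => ‖vv χ (G i) G' z‖ ^ 2) :=
      int_cpt (by fun_prop) ((vv_cpt hχ (G i) G').comp_left (g := fun x : ℂ => ‖x‖ ^ 2) (by simp))
    have i4 : Integrable (fun z => ‖vv χ (H i) H' z‖ ^ 2) :=
      int_cpt (by fun_prop) ((vv_cpt hχ (H i) H').comp_left (g := fun x : ℂ => ‖x‖ ^ 2) (by simp))
    have hle : ∫ z, ‖dzb (vv η (G i) G') z - dz (vv η (H i) H') z‖ ^ 2 ≤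
        ∫ z, 4 * (η z ^ 2 * ‖dzb (G i) z - dz (H i) z‖ ^ 2 +
          η z ^ 2 * ‖dzb G' z - dz H' z‖ ^ 2 + M1 * ‖vv χ (G i) G' z‖ ^ 2 +
          M2 * ‖vv χ (H i) H' z‖ ^ 2) := by
      refine integral_mono i0 ((((i1.add i2).add (i3.const_mul M1)).add
        (i4.const_mul M2)).const_mul 4) fun z => ?_
      have e1 : dzb (vv η (G i) G') z = dzb (fun w => (η w : ℂ)) z * (G i z - G' z) +
          (η z : ℂ) * (dzb (G i) z - dzb G' z) := by
        unfold vv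
        rw [dzb_mul hηt.smooth ((hG i).sub hG'), dzb_sub (hG i) hG']
      have e2 : dz (vv η (H i) H') z = dz (fun w => (η w : ℂ)) z * (H i z - H' z) +
          (η z : ℂ) * (dz (H i) z - dz H' z) := by
        unfold vv
        rw [dz_mul hηt.smooth ((hH i).sub hH'), dz_sub (hH i) hH']
      have e3 : dzb (vv η (G i) G') z - dz (vv η (H i) H') z =
          (η z : ℂ) * (dzb (G i) z - dz (H i) z) - (η z : ℂ) * (dzb G' z - dz H' z) +
          dzb (fun w => (η w : ℂ)) z * (G i z - G' z) -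
          dz (fun w => (η w : ℂ)) z * (H i z - H' z) := by
        rw [e1, e2]; ring
      show ‖dzb (vv η (G i) G') z - dz (vv η (H i) H') z‖ ^ 2 ≤ _
      rw [e3]
      refine (four_sq _ _ _ _).trans ?_
      have n1 : ‖(η z : ℂ) * (dzb (G i) z - dz (H i) z)‖ ^ 2 =
          η z ^ 2 * ‖dzb (G i) z - dz (H i) z‖ ^ 2 := by
        rw [norm_mul, mul_pow, Complex.norm_real, Real.norm_eq_abs, sq_abs]
      have n2 : ‖(η z : ℂ) * (dzb G' z - dz H' z)‖ ^ 2 =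
          η z ^ 2 * ‖dzb G' z - dz H' z‖ ^ 2 := by
        rw [norm_mul, mul_pow, Complex.norm_real, Real.norm_eq_abs, sq_abs]
      have n3 := hb1 z (G i z - G' z)
      have n4 := hb2 z (H i z - H' z)
      have n5 : ‖vv χ (G i) G' z‖ ^ 2 = χ z ^ 2 * ‖G i z - G' z‖ ^ 2 := by
        unfold vv
        rw [norm_mul, mul_pow, Complex.norm_real, Real.norm_eq_abs, sq_abs]
      have n6 : ‖vv χ (H i) H' z‖ ^ 2 = χ z ^ 2 * ‖H i z - H' z‖ ^ 2 := by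
        unfold vv
        rw [norm_mul, mul_pow, Complex.norm_real, Real.norm_eq_abs, sq_abs]
      rw [n1, n2, n5, n6]
      linarith
    refine hle.trans ?_
    have j12 : Integrable (fun z => η z ^ 2 * ‖dzb (G i) z - dz (H i) z‖ ^ 2 +
      η z ^ 2 * ‖dzb G' z - dz H' z‖ ^ 2) := i1.add i2
    have j3 : Integrable (fun z => M1 * ‖vv χ (G i) G' z‖ ^ 2) := i3.const_mul M1
    have j4 : Integrable (fun z => M2 * ‖vv χ (H i) H' z‖ ^ 2) := i4.const_mul M2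
    have j123 : Integrable (fun z => η z ^ 2 * ‖dzb (G i) z - dz (H i) z‖ ^ 2 +
      η z ^ 2 * ‖dzb G' z - dz H' z‖ ^ 2 + M1 * ‖vv χ (G i) G' z‖ ^ 2) := j12.add j3
    rw [integral_const_mul, integral_add j123 j4, integral_add j12 j3, integral_add i1 i2,
      integral_const_mul, integral_const_mul]
    have g1 := (hC1 i).2.2
    have g2 := mul_le_mul_of_nonneg_left (cG i) hM1
    have g3 := mul_le_mul_of_nonneg_left (cH i) hM2
    rw [hA3]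
    linarith
  have hfour := hF (fun i => vv η (G i) G') (fun i => vv η (H i) H')
    (fun i => ⟨vv_smooth hη (hG i) hG', vv_cpt hη (G i) G'⟩)
    (fun i => ⟨vv_smooth hη (hH i) hH', vv_cpt hη (H i) H'⟩)
    (fourier_zero hη hG hG' hwG) (fourier_zero hη hH hH' hwH)
    ⟨max (A0 + A1) (max (A0 + A2) (max A1 (max A2 A3))), fun i => by
      have t1 := vv_one_bound hη hχ hχ2 (hG i) hG'
      have t2 := vv_one_bound hη hχ hχ2 (hH i) hH'
      have t3 := bG i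
      have t4 := bH i
      have t5 := bD i
      refine ⟨?_, ?_, ?_, ?_, ?_⟩
      · exact le_max_of_le_left (by linarith)
      · exact le_max_of_le_right (le_max_of_le_left (by linarith))
      · exact le_max_of_le_right (le_max_of_le_right (le_max_of_le_left t3))
      · exact le_max_of_le_right (le_max_of_le_right (le_max_of_le_right (le_max_of_le_left t4)))
      · exact le_max_of_le_right (le_max_of_le_right (le_max_of_le_right
          (le_max_of_le_right t5)))⟩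
  have l1 := lim_one hη hG hG' hwG
  have l2 := lim_one hη hH hH' hwH
  have l3 := (l1.sub l2).add hfour
  rw [add_zero] at l3
  refine l3.congr fun i => ?_
  ring

theorem _root_.Pool.Agent.A54.stmtDC (hF : StmtFour) : StmtDC := by
  intro V hV G H G' H' hG hH hG' hH' hwG hwH hb φ hφ
  obtain ⟨χ, hχ, -, hχ1⟩ := exists_cutoff hφ.cpt.isCompact hV hφ.sub
  have hχ1' : ∀ z ∈ tsupport φ, χ z = 1 := fun z hz => (hχ1.self_of_nhdsSet z hz)
  set φ1 : ℂ → ℝ := fun z => χ z * ((φ z + 1) / 2) with hφ1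
  set φ2 : ℂ → ℝ := fun z => χ z * ((φ z - 1) / 2) with hφ2
  have t1 : TestR V φ1 := hχ.mul_right (by
    exact (hφ.smooth.add contDiff_const).div_const 2)
  have t2 : TestR V φ2 := hχ.mul_right (by
    exact (hφ.smooth.sub contDiff_const).div_const 2)
  have hφe : ∀ z, φ z = φ1 z ^ 2 - φ2 z ^ 2 := by
    intro z
    by_cases h : z ∈ tsupport φ
    · simp only [hφ1, hφ2, hχ1' z h]; ring
    · have h0 : φ z = 0 := image_eq_zero_of_notMem_tsupport h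
      simp only [hφ1, hφ2, h0]; ring
  have c1 := core hF hV hG hH hG' hH' hwG hwH hb t1
  have c2 := core hF hV hG hH hG' hH' hwG hwH hb t2
  have key : ∀ (G H : ℂ → ℂ), ContDiff ℝ ∞ G → ContDiff ℝ ∞ H →
      ((∫ z, φ1 z ^ 2 * ‖G z‖ ^ 2) - ∫ z, φ1 z ^ 2 * ‖H z‖ ^ 2) -
      ((∫ z, φ2 z ^ 2 * ‖G z‖ ^ 2) - ∫ z, φ2 z ^ 2 * ‖H z‖ ^ 2) =
      ∫ z, φ z * (‖G z‖ ^ 2 - ‖H z‖ ^ 2) := by
    intro G H hG hH
    have hGc := hG.continuous
    have hHc := hH.continuous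
    have p1 := t1.smooth.continuous
    have p2 := t2.smooth.continuous
    have i1 : Integrable (fun z => φ1 z ^ 2 * ‖G z‖ ^ 2) :=
      int_cpt (by fun_prop) (cpt_left t1.cpt)
    have i2 : Integrable (fun z => φ1 z ^ 2 * ‖H z‖ ^ 2) :=
      int_cpt (by fun_prop) (cpt_left t1.cpt)
    have i3 : Integrable (fun z => φ2 z ^ 2 * ‖G z‖ ^ 2) :=
      int_cpt (by fun_prop) (cpt_left t2.cpt)
    have i4 : Integrable (fun z => φ2 z ^ 2 * ‖H z‖ ^ 2) :=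
      int_cpt (by fun_prop) (cpt_left t2.cpt)
    have j1 : Integrable (fun z => φ1 z ^ 2 * ‖G z‖ ^ 2 - φ1 z ^ 2 * ‖H z‖ ^ 2) := i1.sub i2
    have j2 : Integrable (fun z => φ2 z ^ 2 * ‖G z‖ ^ 2 - φ2 z ^ 2 * ‖H z‖ ^ 2) := i3.sub i4
    rw [← integral_sub i1 i2, ← integral_sub i3 i4, ← integral_sub j1 j2]
    refine integral_congr_ae (ae_of_all _ fun z => ?_)
    simp only [hφe z]
    ring
  have l := c1.sub c2
  rw [key G' H' hG' hH'] at l
  exact l.congr fun i => key (G i) (H i) (hG i) (hH i)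

end Pool.Agent.A54.DC
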