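import Pool.Agent.Lib.MP_a54f13_nt.Spec2
import Pool.Agent.Lib.MP_a54f13_nt.DC

/-! The local div-curl lemma, for limits which are only locally square integrable. -/

set_option autoImplicit false

namespace Pool.Agent.A54.DC2

open MeasureTheory Filter Topology Set
open scoped ContDiff ComplexConjugate
open Pool.Agent.A54.DC

variable {V : Set ℂ}

theorem int_l2 {η : ℂ → ℝ} (hη : TestR V η) {r : ℂ → ℂ} (hr : L2loc V r) :
    Integrable (fun z => η z ^ 2 * ‖r z‖ ^ 2) := by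
  have hK := hr (tsupport η) hη.cpt.isCompact hη.sub
  have h1 : IntegrableOn (fun z => ‖r z‖ ^ 2) (tsupport η) := by
    have := hK.integrable_norm_pow (by norm_num)
    exact_mod_cast this
  have h2 : IntegrableOn (fun z => η z ^ 2 * ‖r z‖ ^ 2) (tsupport η) :=
    h1.continuousOn_mul (hη.smooth.continuous.pow 2).continuousOn hη.cpt.isCompact
  refine (integrableOn_iff_integrable_of_support_subset ?_).1 h2
  intro z hz
  refine subset_tsupport η ?_
  intro h0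
  apply hz
  simp [h0]

theorem l2_conj {r : ℂ → ℂ} (hr : L2loc V r) : L2loc V (fun z => conj (r z)) := by
  intro K hK hKV
  have h := hr K hK hKV
  refine ⟨Complex.continuous_conj.comp_aestronglyMeasurable h.1, ?_⟩
  have : eLpNorm (fun z => conj (r z)) 2 (volume.restrict K) =
      eLpNorm r 2 (volume.restrict K) := by
    apply eLpNorm_congr_norm_ae
    exact ae_of_all _ fun z => by simp
  rw [this]
  exact h.2

theorem test_sq_one {η : ℂ → ℝ} (hη : TestR V η) : Test V (fun z => (η z : ℂ) ^ 2) := by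
  have h := test_sq hη (contDiff_const (c := (1 : ℂ)))
  simpa using h

/-- `Re ⟨η G, η G'⟩` -/
noncomputable def P (η : ℂ → ℝ) (G G' : ℂ → ℂ) : ℝ :=
  (∫ z, ((η z : ℂ) ^ 2 * conj (G' z)) * G z).re

theorem P_eq (η : ℂ → ℝ) (G G' : ℂ → ℂ) :
    P η G G' = (∫ z, (η z : ℂ) ^ 2 * (conj (G z) * G' z)).re := by
  have h : (∫ z, ((η z : ℂ) ^ 2 * conj (G' z)) * G z) =
      conj (∫ z, (η z : ℂ) ^ 2 * (conj (G z) * G' z)) := by
    rw [← integral_conj]
    refine integral_congr_ae (ae_of_all _ fun z => ?_)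
    simp only [map_mul, map_pow, Complex.conj_ofReal, Complex.conj_conj]
    ring
  unfold P
  rw [h, Complex.conj_re]

theorem P_self (η : ℂ → ℝ) (G : ℂ → ℂ) :
    (∫ z, (η z : ℂ) ^ 2 * (conj (G z) * G z)).re = ∫ z, η z ^ 2 * ‖G z‖ ^ 2 := by
  have h : (∫ z, (η z : ℂ) ^ 2 * (conj (G z) * G z)) =
      ((∫ z, η z ^ 2 * ‖G z‖ ^ 2 : ℝ) : ℂ) := by
    rw [← integral_complex_ofReal]
    refine integral_congr_ae (ae_of_all _ fun z => ?_)
    simp only [Complex.ofReal_mul, Complex.ofReal_pow, Complex.conj_mul']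
  rw [h, Complex.ofReal_re]

/-- the Fourier transforms of `η (G_{i_k} - G_{j_k})` -/
theorem fourier_zero2 {η : ℂ → ℝ} (hη : TestR V η) {G : ℕ → ℂ → ℂ} {G' : ℂ → ℂ}
    (hG : ∀ i, ContDiff ℝ ∞ (G i))
    (hw : ∀ φ, Test V φ →
      Tendsto (fun i => ∫ z, φ z * G i z) atTop (𝓝 (∫ z, φ z * G' z)))
    {i j : ℕ → ℕ} (hi : Tendsto i atTop atTop) (hj : Tendsto j atTop atTop) (κ : ℂ) :
    Tendsto (fun k => FourierTransform.fourier (vv η (G (i k)) (G (j k))) κ) atTop (𝓝 0) := by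
  set e : ℂ → ℂ := fun z => Complex.exp (((-2 * Real.pi * inner ℝ z κ : ℝ) : ℂ) * Complex.I)
    with he
  have hes : ContDiff ℝ ∞ e := by
    have h1 : ContDiff ℝ ∞ (fun z : ℂ => (-2 * Real.pi * inner ℝ z κ : ℝ)) :=
      contDiff_const.mul (contDiff_id.inner ℝ contDiff_const)
    exact (Complex.contDiff_exp.comp ((contDiff_ofReal h1).mul contDiff_const))
  have ht : Test V (fun z => e z * (η z : ℂ)) := hη.toTest.mul_left hes
  have h1 := hw _ ht
  have h2 : Tendsto (fun k => (∫ z, (e z * (η z : ℂ)) * G (i k) z) -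
      ∫ z, (e z * (η z : ℂ)) * G (j k) z) atTop (𝓝 0) := by
    have := (h1.comp hi).sub (h1.comp hj)
    rwa [sub_self] at this
  refine h2.congr fun k => ?_
  have hηc := hη.smooth.continuous
  have hec := hes.continuous
  have hGc := (hG (i k)).continuous
  have hG'c := (hG (j k)).continuous
  rw [Real.fourier_eq', ← integral_sub]
  · refine integral_congr_ae (ae_of_all _ fun z => ?_)
    simp only [vv, smul_eq_mul, he]
    ring
  · exact integrable_of_cpt (by fun_prop) ht.cpt.mul_right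
  · exact integrable_of_cpt (by fun_prop) ht.cpt.mul_right

/-- the bounds for the differences -/
theorem bounds (hV : IsOpen V) {G H : ℕ → ℂ → ℂ}
    (hG : ∀ i, ContDiff ℝ ∞ (G i)) (hH : ∀ i, ContDiff ℝ ∞ (H i))
    (hb : ∀ ζ, TestR V ζ → ∃ C : ℝ, ∀ i, ∫ z, ζ z ^ 2 * ‖G i z‖ ^ 2 ≤ C ∧
      ∫ z, ζ z ^ 2 * ‖H i z‖ ^ 2 ≤ C ∧ ∫ z, ζ z ^ 2 * ‖dzb (G i) z - dz (H i) z‖ ^ 2 ≤ C)
    {η : ℂ → ℝ} (hη : TestR V η) :
    ∃ C : ℝ, ∀ i j, ∫ z, ‖vv η (G i) (G j) z‖ ≤ C ∧ ∫ z, ‖vv η (H i) (H j) z‖ ≤ C ∧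
      ∫ z, ‖vv η (G i) (G j) z‖ ^ 2 ≤ C ∧ ∫ z, ‖vv η (H i) (H j) z‖ ^ 2 ≤ C ∧
      ∫ z, ‖dzb (vv η (G i) (G j)) z - dz (vv η (H i) (H j)) z‖ ^ 2 ≤ C := by
  obtain ⟨χ, hχ, hχ01, hχ1⟩ := exists_cutoff hη.cpt.isCompact hV hη.sub
  have hχ1' : ∀ z ∈ tsupport η, χ z = 1 := fun z hz =>
    (hχ1.self_of_nhdsSet z hz)
  have hχ2 : ∀ z, η z ≠ 0 → χ z = 1 := fun z hz => hχ1' z (subset_tsupport η hz)
  obtain ⟨C1, hC1⟩ := hb η hη
  obtain ⟨C2, hC2⟩ := hb χ hχ
  have hηt := hη.toTest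
  have hts : ∀ z, z ∉ tsupport η → z ∉ tsupport (fun w => (η w : ℂ)) := fun z hz h =>
    hz (tsupport_comp_subset (g := fun x : ℝ => (x : ℂ)) (by simp) η h)
  obtain ⟨M1, hM1, hb1⟩ := bound_mul hχ1' (dzb (fun w => (η w : ℂ)))
    (contDiff_dzb hηt.smooth).continuous (fun z hz => dzb_eq_zero_of_notMem (hts z hz))
    (hasCompactSupport_dzb hηt.cpt)
  obtain ⟨M2, hM2, hb2⟩ := bound_mul hχ1' (dz (fun w => (η w : ℂ)))
    (contDiff_dz hηt.smooth).continuous (fun z hz => dz_eq_zero_of_notMem (hts z hz))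
    (hasCompactSupport_dz hηt.cpt)
  have hηc := hη.smooth.continuous
  have hχc := hχ.smooth.continuous
  -- the L² bounds
  have bG : ∀ i j, ∫ z, ‖vv η (G i) (G j) z‖ ^ 2 ≤ 4 * C1 := fun i j => by
    have := vv_sq_bound hη (hG i) (hG j)
    have := (hC1 i).1
    have := (hC1 j).1
    linarith
  have bH : ∀ i j, ∫ z, ‖vv η (H i) (H j) z‖ ^ 2 ≤ 4 * C1 := fun i j => by
    have := vv_sq_bound hη (hH i) (hH j)
    have := (hC1 i).2.1
    have := (hC1 j).2.1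
    linarith
  have cG : ∀ i j, ∫ z, ‖vv χ (G i) (G j) z‖ ^ 2 ≤ 4 * C2 := fun i j => by
    have := vv_sq_bound hχ (hG i) (hG j)
    have := (hC2 i).1
    have := (hC2 j).1
    linarith
  have cH : ∀ i j, ∫ z, ‖vv χ (H i) (H j) z‖ ^ 2 ≤ 4 * C2 := fun i j => by
    have := vv_sq_bound hχ (hH i) (hH j)
    have := (hC2 i).2.1
    have := (hC2 j).2.1
    linarith
  set A0 : ℝ := ∫ z, χ z ^ 2 with hA0
  -- the bound for the div-curl expression
  set A3 : ℝ := 4 * (C1 + C1 + M1 * (4 * C2) + M2 * (4 * C2)) with hA3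
  have bD : ∀ i j, ∫ z, ‖dzb (vv η (G i) (G j)) z - dz (vv η (H i) (H j)) z‖ ^ 2 ≤ A3 := by
    intro i j
    have hvG := vv_smooth hη (hG i) (hG j)
    have hvH := vv_smooth hη (hH i) (hH j)
    have c1 := (contDiff_dzb hvG).continuous
    have c2 := (contDiff_dz hvH).continuous
    have c3 := (contDiff_dzb (hG i)).continuous
    have c4 := (contDiff_dz (hH i)).continuous
    have c5 := (contDiff_dzb (hG j)).continuous
    have c6 := (contDiff_dz (hH j)).continuous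
    have c7 := (vv_smooth hχ (hG i) (hG j)).continuous
    have c8 := (vv_smooth hχ (hH i) (hH j)).continuous
    have i0 : Integrable (fun z =>
        ‖dzb (vv η (G i) (G j)) z - dz (vv η (H i) (H j)) z‖ ^ 2) := by
      refine int_cpt (by fun_prop) ?_
      have h := (hasCompactSupport_dzb (vv_cpt hη (G i) (G j))).sub
        (hasCompactSupport_dz (vv_cpt hη (H i) (H j)))
      exact h.comp_left (g := fun x : ℂ => ‖x‖ ^ 2) (by simp)
    have i1 : Integrable (fun z => η z ^ 2 * ‖dzb (G i) z - dz (H i) z‖ ^ 2) :=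
      int_cpt (by fun_prop) (cpt_left hη.cpt)
    have i2 : Integrable (fun z => η z ^ 2 * ‖dzb (G j) z - dz (H j) z‖ ^ 2) :=
      int_cpt (by fun_prop) (cpt_left hη.cpt)
    have i3 : Integrable (fun z => ‖vv χ (G i) (G j) z‖ ^ 2) :=
      int_cpt (by fun_prop)
        ((vv_cpt hχ (G i) (G j)).comp_left (g := fun x : ℂ => ‖x‖ ^ 2) (by simp))
    have i4 : Integrable (fun z => ‖vv χ (H i) (H j) z‖ ^ 2) :=
      int_cpt (by fun_prop)
        ((vv_cpt hχ (H i) (H j)).comp_left (g := fun x : ℂ => ‖x‖ ^ 2) (by simp))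
    have hle : ∫ z, ‖dzb (vv η (G i) (G j)) z - dz (vv η (H i) (H j)) z‖ ^ 2 ≤
        ∫ z, 4 * (η z ^ 2 * ‖dzb (G i) z - dz (H i) z‖ ^ 2 +
          η z ^ 2 * ‖dzb (G j) z - dz (H j) z‖ ^ 2 + M1 * ‖vv χ (G i) (G j) z‖ ^ 2 +
          M2 * ‖vv χ (H i) (H j) z‖ ^ 2) := by
      refine integral_mono i0 ((((i1.add i2).add (i3.const_mul M1)).add
        (i4.const_mul M2)).const_mul 4) fun z => ?_
      have e1 : dzb (vv η (G i) (G j)) z = dzb (fun w => (η w : ℂ)) z * (G i z - G j z) +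
          (η z : ℂ) * (dzb (G i) z - dzb (G j) z) := by
        unfold vv
        rw [dzb_mul hηt.smooth ((hG i).sub (hG j)), dzb_sub (hG i) (hG j)]
      have e2 : dz (vv η (H i) (H j)) z = dz (fun w => (η w : ℂ)) z * (H i z - H j z) +
          (η z : ℂ) * (dz (H i) z - dz (H j) z) := by
        unfold vv
        rw [dz_mul hηt.smooth ((hH i).sub (hH j)), dz_sub (hH i) (hH j)]
      have e3 : dzb (vv η (G i) (G j)) z - dz (vv η (H i) (H j)) z =
          (η z : ℂ) * (dzb (G i) z - dz (H i) z) - (η z : ℂ) * (dzb (G j) z - dz (H j) z) +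
          dzb (fun w => (η w : ℂ)) z * (G i z - G j z) -
          dz (fun w => (η w : ℂ)) z * (H i z - H j z) := by
        rw [e1, e2]; ring
      show ‖dzb (vv η (G i) (G j)) z - dz (vv η (H i) (H j)) z‖ ^ 2 ≤ _
      rw [e3]
      refine (four_sq _ _ _ _).trans ?_
      have n1 : ‖(η z : ℂ) * (dzb (G i) z - dz (H i) z)‖ ^ 2 =
          η z ^ 2 * ‖dzb (G i) z - dz (H i) z‖ ^ 2 := by
        rw [norm_mul, mul_pow, Complex.norm_real, Real.norm_eq_abs, sq_abs]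
      have n2 : ‖(η z : ℂ) * (dzb (G j) z - dz (H j) z)‖ ^ 2 =
          η z ^ 2 * ‖dzb (G j) z - dz (H j) z‖ ^ 2 := by
        rw [norm_mul, mul_pow, Complex.norm_real, Real.norm_eq_abs, sq_abs]
      have n3 := hb1 z (G i z - G j z)
      have n4 := hb2 z (H i z - H j z)
      have n5 : ‖vv χ (G i) (G j) z‖ ^ 2 = χ z ^ 2 * ‖G i z - G j z‖ ^ 2 := by
        unfold vv
        rw [norm_mul, mul_pow, Complex.norm_real, Real.norm_eq_abs, sq_abs]
      have n6 : ‖vv χ (H i) (H j) z‖ ^ 2 = χ z ^ 2 * ‖H i z - H j z‖ ^ 2 := by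
        unfold vv
        rw [norm_mul, mul_pow, Complex.norm_real, Real.norm_eq_abs, sq_abs]
      rw [n1, n2, n5, n6]
      linarith
    refine hle.trans ?_
    have j12 : Integrable (fun z => η z ^ 2 * ‖dzb (G i) z - dz (H i) z‖ ^ 2 +
      η z ^ 2 * ‖dzb (G j) z - dz (H j) z‖ ^ 2) := i1.add i2
    have j3 : Integrable (fun z => M1 * ‖vv χ (G i) (G j) z‖ ^ 2) := i3.const_mul M1
    have j4 : Integrable (fun z => M2 * ‖vv χ (H i) (H j) z‖ ^ 2) := i4.const_mul M2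
    have j123 : Integrable (fun z => η z ^ 2 * ‖dzb (G i) z - dz (H i) z‖ ^ 2 +
      η z ^ 2 * ‖dzb (G j) z - dz (H j) z‖ ^ 2 + M1 * ‖vv χ (G i) (G j) z‖ ^ 2) := j12.add j3
    rw [integral_const_mul, integral_add j123 j4, integral_add j12 j3, integral_add i1 i2,
      integral_const_mul, integral_const_mul]
    have g1 := (hC1 i).2.2
    have g1' := (hC1 j).2.2
    have g2 := mul_le_mul_of_nonneg_left (cG i j) hM1
    have g3 := mul_le_mul_of_nonneg_left (cH i j) hM2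
    rw [hA3]
    linarith
  refine ⟨max (A0 + 4 * C1) (max (4 * C1) A3), fun i j => ?_⟩
  have t1 := vv_one_bound hη hχ hχ2 (hG i) (hG j)
  have t2 := vv_one_bound hη hχ hχ2 (hH i) (hH j)
  have t3 := bG i j
  have t4 := bH i j
  have t5 := bD i j
  refine ⟨?_, ?_, ?_, ?_, ?_⟩
  · exact le_max_of_le_left (by linarith)
  · exact le_max_of_le_left (by linarith)
  · exact le_max_of_le_right (le_max_of_le_left t3)
  · exact le_max_of_le_right (le_max_of_le_left t4)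
  · exact le_max_of_le_right (le_max_of_le_right t5)

/-- abstract convergence lemma -/
theorem conv {x y : ℕ → ℝ} {w : ℕ → ℕ → ℝ} {L : ℝ}
    (h1 : Tendsto (fun p : ℕ × ℕ => x p.1 + x p.2 - 2 * w p.1 p.2) atTop (𝓝 0))
    (h2 : ∀ i, Tendsto (fun j => w i j) atTop (𝓝 (y i))) (h3 : Tendsto y atTop (𝓝 L)) :
    Tendsto x atTop (𝓝 L) := by
  rw [Metric.tendsto_atTop]
  intro ε hε
  have e1 : ∀ᶠ p : ℕ × ℕ in atTop, |x p.1 + x p.2 - 2 * w p.1 p.2| < ε / 20 := by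
    have := h1.eventually (Metric.ball_mem_nhds 0 (by positivity : 0 < ε / 20))
    filter_upwards [this] with p hp
    simpa [Real.dist_eq] using hp
  obtain ⟨⟨N1, N2⟩, hN⟩ := eventually_atTop.1 e1
  have e3 : ∀ᶠ i in atTop, |y i - L| < ε / 20 := by
    have := h3.eventually (Metric.ball_mem_nhds L (by positivity : 0 < ε / 20))
    filter_upwards [this] with p hp
    simpa [Real.dist_eq] using hp
  obtain ⟨N3, hN3⟩ := eventually_atTop.1 e3
  have key : ∀ i, max N1 N3 ≤ i → ∃ J, ∀ j, J ≤ j → |x i + x j - 2 * L| < ε / 4 := by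
    intro i hi
    have e2 : ∀ᶠ j in atTop, |w i j - y i| < ε / 20 := by
      have := (h2 i).eventually (Metric.ball_mem_nhds (y i) (by positivity : 0 < ε / 20))
      filter_upwards [this] with p hp
      simpa [Real.dist_eq] using hp
    obtain ⟨J, hJ⟩ := eventually_atTop.1 e2
    refine ⟨max J N2, fun j hj => ?_⟩
    have a1 := hN (i, j) ⟨(le_max_left _ _).trans hi, (le_max_right _ _).trans hj⟩
    have a2 := hJ j ((le_max_left _ _).trans hj)
    have a3 := hN3 i ((le_max_right _ _).trans hi)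
    simp only at a1
    rw [abs_lt] at a1 a2 a3 ⊢
    constructor <;> linarith [a1.1, a1.2, a2.1, a2.2, a3.1, a3.2]
  refine ⟨max N1 N3, fun i hi => ?_⟩
  obtain ⟨J1, hJ1⟩ := key i hi
  obtain ⟨J2, hJ2⟩ := key (max J1 (max N1 N3)) (le_max_right _ _)
  have b1 := hJ1 (max J1 (max N1 N3)) (le_max_left _ _)
  have b2 := hJ1 (max J1 J2) (le_max_left _ _)
  have b3 := hJ2 (max J1 J2) (le_max_right _ _)
  rw [Real.dist_eq]
  rw [abs_lt] at b1 b2 b3 ⊢
  constructor <;> linarith [b1.1, b1.2, b2.1, b2.2, b3.1, b3.2]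

theorem core (hF : StmtFour) (hT : StmtTest) (hV : IsOpen V) {G H : ℕ → ℂ → ℂ} {G' H' : ℂ → ℂ}
    (hG : ∀ i, ContDiff ℝ ∞ (G i)) (hH : ∀ i, ContDiff ℝ ∞ (H i)) (hG' : L2loc V G')
    (hH' : L2loc V H')
    (hwG : ∀ φ, Test V φ → Tendsto (fun i => ∫ z, φ z * G i z) atTop (𝓝 (∫ z, φ z * G' z)))
    (hwH : ∀ φ, Test V φ → Tendsto (fun i => ∫ z, φ z * H i z) atTop (𝓝 (∫ z, φ z * H' z)))
    (hb : ∀ ζ, TestR V ζ → ∃ C : ℝ, ∀ i, ∫ z, ζ z ^ 2 * ‖G i z‖ ^ 2 ≤ C ∧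
      ∫ z, ζ z ^ 2 * ‖H i z‖ ^ 2 ≤ C ∧ ∫ z, ζ z ^ 2 * ‖dzb (G i) z - dz (H i) z‖ ^ 2 ≤ C)
    {η : ℂ → ℝ} (hη : TestR V η) :
    Tendsto (fun i => (∫ z, η z ^ 2 * ‖G i z‖ ^ 2) - ∫ z, η z ^ 2 * ‖H i z‖ ^ 2) atTop
      (𝓝 ((∫ z, η z ^ 2 * ‖G' z‖ ^ 2) - ∫ z, η z ^ 2 * ‖H' z‖ ^ 2)) := by
  obtain ⟨C, hC⟩ := bounds hV hG hH hb hη
  refine conv (w := fun i j => P η (G j) (G i) - P η (H j) (H i))
    (y := fun i => P η G' (G i) - P η H' (H i)) ?_ ?_ ?_
  · have h0 : Tendsto (fun p : ℕ × ℕ => (∫ z, ‖vv η (G p.2) (G p.1) z‖ ^ 2) -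
        ∫ z, ‖vv η (H p.2) (H p.1) z‖ ^ 2) atTop (𝓝 0) := by
      refine tendsto_of_seq_tendsto fun u hu => ?_
      rw [← prod_atTop_atTop_eq, tendsto_prod_iff'] at hu
      obtain ⟨hu1, hu2⟩ := hu
      exact hF (fun k => vv η (G (u k).2) (G (u k).1)) (fun k => vv η (H (u k).2) (H (u k).1))
        (fun k => ⟨vv_smooth hη (hG _) (hG _), vv_cpt hη _ _⟩)
        (fun k => ⟨vv_smooth hη (hH _) (hH _), vv_cpt hη _ _⟩)
        (fourier_zero2 hη hG hwG hu2 hu1) (fourier_zero2 hη hH hwH hu2 hu1)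
        ⟨C, fun k => hC _ _⟩
    refine h0.congr fun p => ?_
    have e1 := expand hη (hG p.2) (hG p.1)
    have e2 := expand hη (hH p.2) (hH p.1)
    unfold P
    linarith
  · intro i
    have l1 := (Complex.continuous_re.tendsto _).comp (hwG _ (test_sq hη (hG i)))
    have l2 := (Complex.continuous_re.tendsto _).comp (hwH _ (test_sq hη (hH i)))
    exact l1.sub l2
  · have bG : ∀ ζ, TestR V ζ → ∃ C : ℝ, ∀ i, ∫ z, ζ z ^ 2 * ‖G i z‖ ^ 2 ≤ C := fun ζ hζ => by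
      obtain ⟨C, hC⟩ := hb ζ hζ
      exact ⟨C, fun i => (hC i).1⟩
    have bH : ∀ ζ, TestR V ζ → ∃ C : ℝ, ∀ i, ∫ z, ζ z ^ 2 * ‖H i z‖ ^ 2 ≤ C := fun ζ hζ => by
      obtain ⟨C, hC⟩ := hb ζ hζ
      exact ⟨C, fun i => (hC i).2.1⟩
    have l1 := (Complex.continuous_re.tendsto _).comp
      (hT V hV G G' (fun z => conj (G' z)) (fun i => (hG i).continuous) hG' (l2_conj hG') hwG bG _
        (test_sq_one hη))
    have l2 := (Complex.continuous_re.tendsto _).comp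
      (hT V hV H H' (fun z => conj (H' z)) (fun i => (hH i).continuous) hH' (l2_conj hH') hwH bH _
        (test_sq_one hη))
    rw [P_self] at l1 l2
    refine (l1.sub l2).congr fun i => ?_
    simp only [Function.comp_apply]
    rw [P_eq, P_eq]

theorem _root_.Pool.Agent.A54.stmtDC2 (hF : StmtFour) (hT : StmtTest) : StmtDC2 := by
  intro V hV G H G' H' hG hH hG' hH' hwG hwH hb φ hφ
  obtain ⟨χ, hχ, -, hχ1⟩ := exists_cutoff hφ.cpt.isCompact hV hφ.sub
  have hχ1' : ∀ z ∈ tsupport φ, χ z = 1 := fun z hz => (hχ1.self_of_nhdsSet z hz)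
  set φ1 : ℂ → ℝ := fun z => χ z * ((φ z + 1) / 2) with hφ1
  set φ2 : ℂ → ℝ := fun z => χ z * ((φ z - 1) / 2) with hφ2
  have t1 : TestR V φ1 := hχ.mul_right (by
    exact (hφ.smooth.add contDiff_const).div_const 2)
  have t2 : TestR V φ2 := hχ.mul_right (by
    exact (hφ.smooth.sub contDiff_const).div_const 2)
  have hφe : ∀ z, φ z = φ1 z ^ 2 - φ2 z ^ 2 := by
    intro z
    by_cases h : z ∈ tsupport φ
    · simp only [hφ1, hφ2, hχ1' z h]; ring
    · have h0 : φ z = 0 := image_eq_zero_of_notMem_tsupport h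
      simp only [hφ1, hφ2, h0]; ring
  have c1 := core hF hT hV hG hH hG' hH' hwG hwH hb t1
  have c2 := core hF hT hV hG hH hG' hH' hwG hwH hb t2
  have key : ∀ (G H : ℂ → ℂ), L2loc V G → L2loc V H →
      ((∫ z, φ1 z ^ 2 * ‖G z‖ ^ 2) - ∫ z, φ1 z ^ 2 * ‖H z‖ ^ 2) -
      ((∫ z, φ2 z ^ 2 * ‖G z‖ ^ 2) - ∫ z, φ2 z ^ 2 * ‖H z‖ ^ 2) =
      ∫ z, φ z * (‖G z‖ ^ 2 - ‖H z‖ ^ 2) := by
    intro G H hG hH
    have i1 : Integrable (fun z => φ1 z ^ 2 * ‖G z‖ ^ 2) := int_l2 t1 hG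
    have i2 : Integrable (fun z => φ1 z ^ 2 * ‖H z‖ ^ 2) := int_l2 t1 hH
    have i3 : Integrable (fun z => φ2 z ^ 2 * ‖G z‖ ^ 2) := int_l2 t2 hG
    have i4 : Integrable (fun z => φ2 z ^ 2 * ‖H z‖ ^ 2) := int_l2 t2 hH
    have j1 : Integrable (fun z => φ1 z ^ 2 * ‖G z‖ ^ 2 - φ1 z ^ 2 * ‖H z‖ ^ 2) := i1.sub i2
    have j2 : Integrable (fun z => φ2 z ^ 2 * ‖G z‖ ^ 2 - φ2 z ^ 2 * ‖H z‖ ^ 2) := i3.sub i4
    rw [← integral_sub i1 i2, ← integral_sub i3 i4, ← integral_sub j1 j2]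
    refine integral_congr_ae (ae_of_all _ fun z => ?_)
    simp only [hφe z]
    ring
  have loc : ∀ {g : ℂ → ℂ}, Continuous g → L2loc V g := by
    intro g hg K hK _
    have : IsFiniteMeasure (volume.restrict K) :=
      isFiniteMeasure_restrict.2 hK.measure_lt_top.ne
    obtain ⟨C, hC⟩ := hK.exists_bound_of_continuousOn hg.continuousOn
    exact MemLp.of_bound hg.aestronglyMeasurable C
      ((ae_restrict_iff' hK.measurableSet).2 (ae_of_all _ hC))
  have l := c1.sub c2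
  rw [key G' H' hG' hH'] at l
  exact l.congr fun i => key (G i) (H i) (loc (hG i).continuous) (loc (hH i).continuous)

end Pool.Agent.A54.DC2
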