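import Mathlib

/-!
Definitions for MP_a54f13_nt (fourth moment of Maass forms).  The plane is `ℂ` with Lebesgue
measure, `∂ = ∂_x - i ∂_y`, `∂̄ = ∂_x + i ∂_y`, so `∂ ∂̄ = Δ`.
-/

set_option autoImplicit false

namespace Pool.Agent.A54

open MeasureTheory Filter Topology Set
open scoped ContDiff ComplexConjugate

noncomputable section

/-- `∂ = ∂_x - i ∂_y` -/
def dz (g : ℂ → ℂ) (z : ℂ) : ℂ := fderiv ℝ g z 1 - Complex.I * fderiv ℝ g z Complex.I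

/-- `∂̄ = ∂_x + i ∂_y` -/
def dzb (g : ℂ → ℂ) (z : ℂ) : ℂ := fderiv ℝ g z 1 + Complex.I * fderiv ℝ g z Complex.I

/-- complex valued test functions with support in `V` -/
structure Test (V : Set ℂ) (φ : ℂ → ℂ) : Prop where
  smooth : ContDiff ℝ ∞ φ
  cpt : HasCompactSupport φ
  sub : tsupport φ ⊆ V

/-- real valued test functions with support in `V` -/
structure TestR (V : Set ℂ) (φ : ℂ → ℝ) : Prop where
  smooth : ContDiff ℝ ∞ φ
  cpt : HasCompactSupport φ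
  sub : tsupport φ ⊆ V

/-- `g_n = (h ∂)^n f` -/
def gg (h : ℝ) (f : ℂ → ℝ) : ℕ → ℂ → ℂ
  | 0 => fun z => (f z : ℂ)
  | n + 1 => fun z => (h : ℂ) * dz (gg h f n) z

/-- an admissible potential; the equation is considered on the open set `V` -/
structure Pot (V : Set ℂ) (q : ℂ → ℝ) : Prop where
  isOpen : IsOpen V
  smooth : ContDiff ℝ ∞ q
  pos : ∀ z, 0 < q z

/-- `s_n = g_n` for `n ≥ 0` and `s_{-m} = (-1)^m q^{-m} conj g_m`; up to errors of size `h`,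
`h ∂ s_a = s_{a+1}` and `h ∂̄ s_a = - q s_{a-1}` for all integers `a`. -/
def ss (q : ℂ → ℝ) (h : ℝ) (f : ℂ → ℝ) : ℤ → ℂ → ℂ
  | Int.ofNat n => gg h f n
  | Int.negSucc n => fun z => (-1) ^ (n + 1) * conj (gg h f (n + 1) z) / (q z : ℂ) ^ (n + 1)

/-- `|g_0| + ... + |g_n|` -/
def sm (h : ℝ) (f : ℂ → ℝ) (n : ℕ) (z : ℂ) : ℝ := ∑ j ∈ Finset.range (n + 1), ‖gg h f j z‖

/-- solutions of `h² Δ f = - q f` on `V` (smooth in the whole plane) -/
structure Sol (V : Set ℂ) (q : ℂ → ℝ) (h : ℝ) (f : ℂ → ℝ) : Prop where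
  smooth : ContDiff ℝ ∞ f
  hpos : 0 < h
  hle : h ≤ 1
  eq : ∀ z ∈ V, (h : ℂ) * dzb (gg h f 1) z = -((q z : ℂ) * (f z : ℂ))

end

end Pool.Agent.A54
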