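import Pool.Agent.Lib.MP_a54f13_nt.Spec

/-!
Second part: statements with no ergodicity assumption (general weak limits).
-/

set_option autoImplicit false

namespace Pool.Agent.A54

open MeasureTheory Filter Topology Set
open scoped ContDiff ComplexConjugate UpperHalfPlane MatrixGroups

noncomputable section

/-- locally square integrable on `V` -/
def L2loc (V : Set ℂ) (r : ℂ → ℂ) : Prop :=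
  ∀ K : Set ℂ, IsCompact K → K ⊆ V → MemLp r 2 (volume.restrict K)

/-- `N_n = |g_n|² / q^n` -/
def nn (q : ℂ → ℝ) (h : ℝ) (f : ℂ → ℝ) (n : ℕ) (z : ℂ) : ℝ := ‖gg h f n z‖ ^ 2 / q z ^ n

/-- a sequence of solutions, `h → 0` -/
structure Seq (V : Set ℂ) (q : ℂ → ℝ) (h : ℕ → ℝ) (f : ℕ → ℂ → ℝ) : Prop where
  pot : Pot V q
  sol : ∀ i, Sol V q (h i) (f i)
  lim : Tendsto h atTop (𝓝 0)

/-- the squares have bounded integrals over compact sets -/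
def L2Bdd (V : Set ℂ) (f : ℕ → ℂ → ℝ) : Prop :=
  ∀ ζ : ℂ → ℝ, TestR V ζ → ∃ C : ℝ, ∀ i, ∫ z, ζ z ^ 2 * f i z ^ 2 ≤ C

/-- a sequence of solutions such that `f g_n` converges weakly to `r n`, for every `n` -/
structure Sm (V : Set ℂ) (q : ℂ → ℝ) (h : ℕ → ℝ) (f : ℕ → ℂ → ℝ) (r : ℕ → ℂ → ℂ) : Prop
    extends Seq V q h f where
  loc : ∀ n, L2loc V (r n)
  mode : ∀ (n : ℕ) (φ : ℂ → ℂ), Test V φ →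
    Tendsto (fun i => ∫ z, φ z * ((f i z : ℂ) * gg (h i) (f i) n z)) atTop
      (𝓝 (∫ z, φ z * r n z))

/-- `r_{-m} = (-1)^m q^{-m} conj r_m` -/
def rr (q : ℂ → ℝ) (r : ℕ → ℂ → ℂ) : ℤ → ℂ → ℂ
  | Int.ofNat n => r n
  | Int.negSucc n => fun z => (-1) ^ (n + 1) * conj (r (n + 1) z) / (q z : ℂ) ^ (n + 1)

/-- `p_n = |r_n|² / q^n` -/
def pp (q : ℂ → ℝ) (r : ℕ → ℂ → ℂ) (n : ℕ) (z : ℂ) : ℝ := ‖r n z‖ ^ 2 / q z ^ n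

/-- weak limits of all products -/
def StmtWeak2 : Prop := ∀ (V : Set ℂ) (q : ℂ → ℝ) (h : ℕ → ℝ) (f : ℕ → ℂ → ℝ) (r : ℕ → ℂ → ℂ),
  Sm V q h f r → ∀ (a b : ℤ) (φ : ℂ → ℂ), Test V φ →
    Tendsto (fun i => ∫ z, φ z * (ss q (h i) (f i) a z * ss q (h i) (f i) b z)) atTop
      (𝓝 ((-1) ^ b.natAbs * ∫ z, φ z * rr q r (a + b) z))

/-- the div-curl lemma, limits in `L²_loc` -/
def StmtDC2 : Prop := ∀ (V : Set ℂ), IsOpen V → ∀ (G H : ℕ → ℂ → ℂ) (G' H' : ℂ → ℂ),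
  (∀ i, ContDiff ℝ ∞ (G i)) → (∀ i, ContDiff ℝ ∞ (H i)) → L2loc V G' → L2loc V H' →
  (∀ φ, Test V φ → Tendsto (fun i => ∫ z, φ z * G i z) atTop (𝓝 (∫ z, φ z * G' z))) →
  (∀ φ, Test V φ → Tendsto (fun i => ∫ z, φ z * H i z) atTop (𝓝 (∫ z, φ z * H' z))) →
  (∀ ζ, TestR V ζ → ∃ C : ℝ, ∀ i, ∫ z, ζ z ^ 2 * ‖G i z‖ ^ 2 ≤ C ∧
    ∫ z, ζ z ^ 2 * ‖H i z‖ ^ 2 ≤ C ∧ ∫ z, ζ z ^ 2 * ‖dzb (G i) z - dz (H i) z‖ ^ 2 ≤ C) →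
  ∀ φ, TestR V φ →
    Tendsto (fun i => ∫ z, φ z * (‖G i z‖ ^ 2 - ‖H i z‖ ^ 2)) atTop
      (𝓝 (∫ z, φ z * (‖G' z‖ ^ 2 - ‖H' z‖ ^ 2)))

/-- weak convergence can be tested against functions in `L²_loc` -/
def StmtTest : Prop := ∀ (V : Set ℂ), IsOpen V → ∀ (G : ℕ → ℂ → ℂ) (G' g : ℂ → ℂ),
  (∀ i, Continuous (G i)) → L2loc V G' → L2loc V g →
  (∀ φ, Test V φ → Tendsto (fun i => ∫ z, φ z * G i z) atTop (𝓝 (∫ z, φ z * G' z))) →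
  (∀ ζ, TestR V ζ → ∃ C : ℝ, ∀ i, ∫ z, ζ z ^ 2 * ‖G i z‖ ^ 2 ≤ C) →
  ∀ φ, Test V φ → Tendsto (fun i => ∫ z, φ z * (g z * G i z)) atTop
    (𝓝 (∫ z, φ z * (g z * G' z)))

/-- `∫ φ N_1 N_0 = (1/3) ∫ φ f⁴ + o(1)` -/
def StmtOdd : Prop := ∀ (V : Set ℂ) (q : ℂ → ℝ) (h : ℕ → ℝ) (f : ℕ → ℂ → ℝ), Seq V q h f →
  L4Bdd V f → ∀ φ : ℂ → ℝ, TestR V φ →
    Tendsto (fun i => (∫ z, φ z * (nn q (h i) (f i) 1 z * nn q (h i) (f i) 0 z)) -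
      1 / 3 * ∫ z, φ z * f i z ^ 4) atTop (𝓝 0)

/-- relations between the quartic moments -/
def StmtRel : Prop := ∀ (V : Set ℂ) (q : ℂ → ℝ) (h : ℕ → ℝ) (f : ℕ → ℂ → ℝ) (r : ℕ → ℂ → ℂ),
  Sm V q h f r → L4Bdd V f → ∀ (a b : ℤ) (φ : ℂ → ℝ), TestR V φ →
    Tendsto (fun i =>
      (∫ z, φ z * (nn q (h i) (f i) (a + 1).natAbs z * nn q (h i) (f i) (b + 1).natAbs z)) -
      ∫ z, φ z * (nn q (h i) (f i) a.natAbs z * nn q (h i) (f i) b.natAbs z)) atTop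
      (𝓝 (∫ z, φ z * (pp q r (a + b + 2).natAbs z - pp q r (a + b).natAbs z)))

/-- pointwise inequalities for the weak limits -/
def StmtIneq : Prop := ∀ (V : Set ℂ) (q : ℂ → ℝ) (h : ℕ → ℝ) (f : ℕ → ℂ → ℝ) (r : ℕ → ℂ → ℂ),
  Sm V q h f r → ∀ n : ℕ, ∀ᵐ z ∂(volume.restrict V), pp q r n z ≤ pp q r 0 z ∧
    r 0 z = ((r 0 z).re : ℂ) ∧ 0 ≤ (r 0 z).re

/-- the odd limits vanish -/
def StmtOddLim : Prop := ∀ (V : Set ℂ) (q : ℂ → ℝ) (h : ℕ → ℝ) (f : ℕ → ℂ → ℝ)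
  (r : ℕ → ℂ → ℂ), Sm V q h f r → ∀ n : ℕ, ∀ᵐ z ∂(volume.restrict V), r (2 * n + 1) z = 0

/-- weak compactness -/
def StmtComp : Prop := ∀ (V : Set ℂ) (q : ℂ → ℝ) (h : ℕ → ℝ) (f : ℕ → ℂ → ℝ), Seq V q h f →
  L4Bdd V f → ∃ (σ : ℕ → ℕ) (r : ℕ → ℂ → ℂ), StrictMono σ ∧
    Sm V q (fun i => h (σ i)) (fun i => f (σ i)) r

/-- the sum over `1 ≤ n, m ≤ N`, `n ≡ m (mod 2)`, of `p_{n+m} + p_{|n-m|}` -/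
def pairSum (p : ℕ → ℝ) (N : ℕ) : ℝ :=
  ∑ n ∈ Finset.Icc 1 N, ∑ m ∈ Finset.Icc 1 N,
    if n % 2 = m % 2 then p (n + m) + p ((n : ℤ) - m).natAbs else 0

/-- the general lower bound for the fourth moment -/
def StmtLocGen : Prop := ∀ (V : Set ℂ) (q : ℂ → ℝ) (h : ℕ → ℝ) (f : ℕ → ℂ → ℝ)
  (r : ℕ → ℂ → ℂ), Sm V q h f r → ∀ φ : ℂ → ℝ, TestR V φ → (∀ z, 0 ≤ φ z) →
    ∀ M : ℕ, 1 ≤ M → ∀ ε : ℝ, 0 < ε → ∀ᶠ i in atTop,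
      (∫ z, φ z * (3 * pp q r 0 z -
        3 / (2 * (2 * M) ^ 2) * pairSum (fun n => pp q r n z) (2 * M))) - ε ≤
      ∫ z, φ z * f i z ^ 4

/-- the fourth moment is at least `3/2` times the square of the second moment -/
def StmtRatio : Prop := ∀ (V : Set ℂ) (q : ℂ → ℝ) (h : ℕ → ℝ) (f : ℕ → ℂ → ℝ), Seq V q h f →
  L2Bdd V f → ∀ φ : ℂ → ℝ, TestR V φ → (∀ z, 0 ≤ φ z) → ∀ ε : ℝ, 0 < ε →
    ∀ᶠ i in atTop, 3 / 2 * (∫ z, φ z * f i z ^ 2) ^ 2 - ε ≤ (∫ z, φ z) * ∫ z, φ z * f i z ^ 4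

/-! ### The upper half-plane and the modular surface -/

/-- `ρ n` is the limit of the `n`-th microlocal mode of the forms `f i`:
`(1/4 + t²)^(-n/2) ∫_ℍ φ f yⁿ (∂_x - i ∂_y)ⁿ f dμ → ∫_ℍ φ ρ_n dμ`. -/
def ModeLim (f : ℕ → ℍ → ℝ) (t : ℕ → ℝ) (ρ : ℕ → ℍ → ℂ) : Prop :=
  (∀ (n : ℕ) (K : Set ℍ), IsCompact K → MemLp (ρ n) 2 (volume.restrict K)) ∧
  ∀ (n : ℕ) (φ : ℂ → ℂ), Test {z : ℂ | 0 < z.im} φ →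
    Tendsto (fun i => ((Real.sqrt (1 / 4 + t i ^ 2) : ℝ) : ℂ)⁻¹ ^ n *
        ∫ z : ℍ, φ z * (f i z * ((z.im : ℂ) ^ n * (dz^[n] (fun w => (ext (f i) w : ℂ))) z)))
      atTop (𝓝 (∫ z : ℍ, φ z * ρ n z))

/-- general lower bound for the fourth moment -/
def FinalGen (f : ℕ → ℍ → ℝ) (ρ : ℕ → ℍ → ℂ) : Prop :=
  ∀ ψ : ℍ → ℝ, TestX ψ → (∀ z, 0 ≤ ψ z) → ∀ M : ℕ, 1 ≤ M → ∀ ε : ℝ, 0 < ε →
    ∀ᶠ i in atTop, (∫ z in ModularGroup.fdo, ψ z * (3 * ‖ρ 0 z‖ ^ 2 -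
      3 / (2 * (2 * M) ^ 2) * pairSum (fun n => ‖ρ n z‖ ^ 2) (2 * M))) - ε ≤
      ∫ z in ModularGroup.fdo, ψ z * f i z ^ 4

/-- the fourth moment is at least `3/2` times the square of the second moment -/
def FinalRatio (f : ℕ → ℍ → ℝ) : Prop :=
  ∀ ψ : ℍ → ℝ, TestX ψ → (∀ z, 0 ≤ ψ z) → ∀ ε : ℝ, 0 < ε → ∀ᶠ i in atTop,
    3 / 2 * (∫ z in ModularGroup.fdo, ψ z * f i z ^ 2) ^ 2 - ε ≤
      (∫ z in ModularGroup.fdo, ψ z) * ∫ z in ModularGroup.fdo, ψ z * f i z ^ 4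

/-- general lower bound on the half-plane -/
def HalfGen (f : ℕ → ℍ → ℝ) (ρ : ℕ → ℍ → ℂ) : Prop :=
  ∀ φ : ℂ → ℝ, TestR {z : ℂ | 0 < z.im} φ → (∀ z, 0 ≤ φ z) → ∀ M : ℕ, 1 ≤ M → ∀ ε : ℝ, 0 < ε →
    ∀ᶠ i in atTop, (∫ z : ℍ, φ z * (3 * ‖ρ 0 z‖ ^ 2 -
      3 / (2 * (2 * M) ^ 2) * pairSum (fun n => ‖ρ n z‖ ^ 2) (2 * M))) - ε ≤
      ∫ z : ℍ, φ z * f i z ^ 4

/-- the open fundamental domain as a subset of `ℂ` -/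
def Ofd : Set ℂ := {z | 0 < z.im ∧ 1 < Complex.normSq z ∧ |z.re| < 1 / 2}

/-- ratio bound for test functions with support in the open fundamental domain -/
def HalfRatio (f : ℕ → ℍ → ℝ) : Prop :=
  ∀ φ : ℂ → ℝ, TestR Ofd φ → (∀ z, 0 ≤ φ z) → ∀ ε : ℝ, 0 < ε → ∀ᶠ i in atTop,
    3 / 2 * (∫ z : ℍ, φ z * f i z ^ 2) ^ 2 - ε ≤ (∫ z : ℍ, φ z) * ∫ z : ℍ, φ z * f i z ^ 4

/-- from the local theorems to the half-plane -/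
def StmtHalf2 : Prop := StmtLocGen → StmtRatio → ∀ (f : ℕ → ℍ → ℝ) (t : ℕ → ℝ),
  (∀ i, IsHeckeMaass (f i) (t i)) → Tendsto t atTop atTop →
    (∀ ρ : ℕ → ℍ → ℂ, ModeLim f t ρ → HalfGen f ρ) ∧ HalfRatio f

/-- from the half-plane to the modular surface -/
def StmtX2 : Prop := ∀ (f : ℕ → ℍ → ℝ) (t : ℕ → ℝ), (∀ i, IsHeckeMaass (f i) (t i)) →
  (∀ ρ : ℕ → ℍ → ℂ, (∀ (n : ℕ) (K : Set ℍ), IsCompact K → MemLp (ρ n) 2 (volume.restrict K)) →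
    HalfGen f ρ → FinalGen f ρ) ∧ (HalfRatio f → FinalRatio f)

end

end Pool.Agent.A54
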