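import Pool.Agent.Lib.MP_a54f13_nt.Spec

/-! Ladyzhenskaya's inequality in the plane. -/

set_option autoImplicit false

namespace Pool.Agent.A54.Lady

open MeasureTheory Filter Topology Set
open scoped ContDiff ComplexConjugate ENNReal NNReal

theorem holder_two : Real.HolderConjugate (Module.finrank ℝ ℂ : ℝ) 2 := by
  rw [Complex.finrank_real_complex]
  norm_num
  exact Real.HolderConjugate.two_two

theorem fderiv_sq (v : ℂ → ℂ) (hv : ContDiff ℝ ∞ v) (x : ℂ) :
    ‖fderiv ℝ (fun z => v z ^ 2) x‖ ≤ 2 * (‖v x‖ * ‖fderiv ℝ v x‖) := by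
  have hd : DifferentiableAt ℝ v x := (hv.differentiable (by simp)).differentiableAt
  have h1 : HasFDerivAt (fun z => v z ^ 2) ((2 * v x) • fderiv ℝ v x) x := by
    have h := hd.hasFDerivAt.pow 2
    refine h.congr_fderiv ?_
    ext1 y
    simp
  rw [h1.fderiv]
  refine (norm_smul_le _ _).trans (le_of_eq ?_)
  rw [norm_mul]
  norm_num
  ring

theorem sq_ineq : ∃ C : ℝ, 0 ≤ C ∧ ∀ v : ℂ → ℂ, ContDiff ℝ ∞ v → HasCompactSupport v →
    ∫ z, ‖v z‖ ^ 4 ≤ C * (∫ z, ‖fderiv ℝ (fun z => v z ^ 2) z‖) ^ 2 := by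
  set C0 : ℝ≥0 := lintegralPowLePowLIntegralFDerivConst (volume : Measure ℂ) 2 with hC0
  refine ⟨C0, C0.coe_nonneg, fun v hv hc => ?_⟩
  have hu : ContDiff ℝ 1 (fun z => v z ^ 2) := (hv.of_le (by simp)).pow 2
  have huc : HasCompactSupport (fun z => v z ^ 2) := by
    have := hc.comp_left (g := fun w : ℂ => w ^ 2) (by simp)
    exact this
  have key := lintegral_pow_le_pow_lintegral_fderiv (volume : Measure ℂ) hu huc holder_two
  have hi1 : Integrable (fun z => ‖v z‖ ^ 4) := by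
    refine Continuous.integrable_of_hasCompactSupport (by fun_prop) ?_
    exact hc.comp_left (g := fun w : ℂ => ‖w‖ ^ 4) (by simp)
  have hi2 : Integrable (fun z => fderiv ℝ (fun z => v z ^ 2) z) := by
    refine Continuous.integrable_of_hasCompactSupport (hu.continuous_fderiv (by simp)) ?_
    exact huc.fderiv ℝ
  have e1 : ∫⁻ x, ‖v x ^ 2‖ₑ ^ (2 : ℝ) = ENNReal.ofReal (∫ z, ‖v z‖ ^ 4) := by
    rw [ofReal_integral_eq_lintegral_ofReal hi1 (ae_of_all _ fun z => by positivity)]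
    refine lintegral_congr fun z => ?_
    rw [← ofReal_norm, ENNReal.ofReal_rpow_of_nonneg (norm_nonneg _) (by norm_num)]
    congr 1
    rw [norm_pow]
    norm_num
    ring
  have e2 : ∫⁻ x, ‖fderiv ℝ (fun z => v z ^ 2) x‖ₑ =
      ENNReal.ofReal (∫ z, ‖fderiv ℝ (fun z => v z ^ 2) z‖) := by
    rw [ofReal_integral_norm_eq_lintegral_enorm hi2]
  rw [e1, e2, ENNReal.ofReal_rpow_of_nonneg (integral_nonneg fun _ => norm_nonneg _) (by norm_num),
    ← ENNReal.ofReal_coe_nnreal, ← ENNReal.ofReal_mul C0.coe_nonneg] at key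
  have h2 := (ENNReal.ofReal_le_ofReal_iff (by positivity)).1 key
  rw [Real.rpow_two] at h2
  exact h2

theorem _root_.Pool.Agent.A54.stmtLady : StmtLady := by
  obtain ⟨C0, hC0, h0⟩ := sq_ineq
  refine ⟨C0 * 4, by positivity, fun v hv hc => ?_⟩
  refine (h0 v hv hc).trans ?_
  have hdc : Continuous (fderiv ℝ v) := hv.continuous_fderiv (by simp)
  have hdcs : HasCompactSupport (fderiv ℝ v) := hc.fderiv ℝ
  have hu : ContDiff ℝ 1 (fun z => v z ^ 2) := (hv.of_le (by simp)).pow 2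
  have huc : HasCompactSupport (fun z => v z ^ 2) :=
    hc.comp_left (g := fun w : ℂ => w ^ 2) (by simp)
  have hi2 : Integrable (fun z => fderiv ℝ (fun z => v z ^ 2) z) := by
    refine Continuous.integrable_of_hasCompactSupport (hu.continuous_fderiv (by simp)) ?_
    exact huc.fderiv ℝ
  have hi3 : Integrable (fun z => ‖v z‖ * ‖fderiv ℝ v z‖) := by
    refine Continuous.integrable_of_hasCompactSupport (by fun_prop) ?_
    exact (hc.comp_left (g := fun w : ℂ => ‖w‖) (by simp)).mul_right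
  have m1 : MemLp (fun z => ‖v z‖) (ENNReal.ofReal 2) := by
    refine Continuous.memLp_of_hasCompactSupport (by fun_prop) ?_
    exact hc.comp_left (g := fun w : ℂ => ‖w‖) (by simp)
  have m2 : MemLp (fun z => ‖fderiv ℝ v z‖) (ENNReal.ofReal 2) := by
    refine Continuous.memLp_of_hasCompactSupport (by fun_prop) ?_
    exact hdcs.comp_left (g := fun w : ℂ →L[ℝ] ℂ => ‖w‖) (by simp)
  have cs := integral_mul_le_Lp_mul_Lq_of_nonneg (μ := (volume : Measure ℂ))
    Real.HolderConjugate.two_two (ae_of_all _ fun z => norm_nonneg (v z))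
    (ae_of_all _ fun z => norm_nonneg (fderiv ℝ v z)) m1 m2
  have h1 : ∫ z, ‖fderiv ℝ (fun z => v z ^ 2) z‖ ≤ 2 * ∫ z, ‖v z‖ * ‖fderiv ℝ v z‖ := by
    rw [← integral_const_mul]
    exact integral_mono hi2.norm (hi3.const_mul 2) (fderiv_sq v hv)
  set A : ℝ := ∫ z, ‖v z‖ ^ 2 with hA
  set B : ℝ := ∫ z, ‖fderiv ℝ v z‖ ^ 2 with hB
  have hA0 : 0 ≤ A := integral_nonneg fun _ => by positivity
  have hB0 : 0 ≤ B := integral_nonneg fun _ => by positivity
  simp only [Real.rpow_two, ← Real.sqrt_eq_rpow] at cs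
  have h3 : ∫ z, ‖fderiv ℝ (fun z => v z ^ 2) z‖ ≤ 2 * (√A * √B) :=
    h1.trans (mul_le_mul_of_nonneg_left cs (by norm_num))
  have h4 : 0 ≤ ∫ z, ‖fderiv ℝ (fun z => v z ^ 2) z‖ := integral_nonneg fun _ => norm_nonneg _
  have h5 : (∫ z, ‖fderiv ℝ (fun z => v z ^ 2) z‖) ^ 2 ≤ (2 * (√A * √B)) ^ 2 :=
    pow_le_pow_left₀ h4 h3 2
  have h6 : (2 * (√A * √B)) ^ 2 = 4 * A * B := by
    rw [mul_pow, mul_pow, Real.sq_sqrt hA0, Real.sq_sqrt hB0]
    ring
  calc C0 * (∫ z, ‖fderiv ℝ (fun z => v z ^ 2) z‖) ^ 2 ≤ C0 * (4 * A * B) := by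
        rw [← h6]
        exact mul_le_mul_of_nonneg_left h5 hC0
    _ = C0 * 4 * A * B := by ring

end Pool.Agent.A54.Lady
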