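import Pool.Agent.Lib.MP_a54f13_nt.Rel

/-!
`∫ φ N_1 N_0 = (1/3) ∫ φ f⁴ + o(1)`.
-/

set_option autoImplicit false

namespace Pool.Agent.A54

open MeasureTheory Filter Topology Set
open scoped ContDiff ComplexConjugate

noncomputable section

namespace Odd

variable {V : Set ℂ} {q : ℂ → ℝ}

/-- Uniform bound of the quartic integrals. -/
lemma bdd (hL : StmtL4) {h : ℕ → ℝ} {f : ℕ → ℂ → ℝ} (hS : Seq V q h f) (hB : L4Bdd V f)
    {φ : ℂ → ℂ} (hφ : Test V φ) (N : ℕ) :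
    ∃ B : ℝ, ∀ i, ∫ z, ‖φ z‖ * sm (h i) (f i) N z ^ 4 ≤ B := by
  obtain ⟨ζ, hζ, hζ01, hζ1⟩ := exists_cutoff hφ.cpt hS.pot.isOpen hφ.sub
  have hζ1' : ∀ z ∈ tsupport φ, ζ z = 1 := fun z hz => hζ1.self_of_nhdsSet z hz
  obtain ⟨M, hM⟩ := hφ.cpt.exists_bound_of_continuous hφ.smooth.continuous
  have hM0 : 0 ≤ M := (norm_nonneg _).trans (hM 0)
  choose ζ' C' hζ' hC'0 hC' using fun n : ℕ => hL V q hS.pot n ζ hζ
  choose B' hB' using fun n : ℕ => hB (ζ' n) (hζ' n)
  have hint4 : ∀ i j, Integrable (fun z => ζ z ^ 4 * ‖gg (h i) (f i) j z‖ ^ 4) := by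
    intro i j
    refine Continuous.integrable_of_hasCompactSupport ?_ ?_
    · exact (hζ.smooth.continuous.pow 4).mul
        ((contDiff_gg (hS.sol i).smooth (h i) j).continuous.norm.pow 4)
    · exact HasCompactSupport.mul_right (hζ.cpt.comp_left (g := fun x : ℝ => x ^ 4) (by simp))
  refine ⟨M * ((N + 1 : ℕ) : ℝ) ^ 3 *
    ∑ j ∈ Finset.range (N + 1), |C' j| * |B' j|, fun i => ?_⟩
  have hint : Integrable (fun z => ‖φ z‖ * sm (h i) (f i) N z ^ 4) := by
    refine Continuous.integrable_of_hasCompactSupport ?_ ?_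
    · exact hφ.smooth.continuous.norm.mul ((Rel.continuous_sm (hS.sol i).smooth (h i) N).pow 4)
    · exact HasCompactSupport.mul_right hφ.cpt.norm
  have hpt : ∀ z, ‖φ z‖ * sm (h i) (f i) N z ^ 4 ≤
      M * ((N + 1 : ℕ) : ℝ) ^ 3 *
        ∑ j ∈ Finset.range (N + 1), ζ z ^ 4 * ‖gg (h i) (f i) j z‖ ^ 4 := by
    intro z
    by_cases hz : z ∈ tsupport φ
    · rw [hζ1' z hz]
      simp only [one_pow, one_mul]
      set s := sm (h i) (f i) N z with hs
      have hs0 : 0 ≤ s := Rel.sm_nonneg _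
      have h2 : s ^ 2 ≤ ((N + 1 : ℕ) : ℝ) * ∑ j ∈ Finset.range (N + 1),
          ‖gg (h i) (f i) j z‖ ^ 2 := by
        have := sq_sum_le_card_mul_sum_sq (s := Finset.range (N + 1))
          (f := fun j => ‖gg (h i) (f i) j z‖)
        rwa [Finset.card_range] at this
      have h3 : (∑ j ∈ Finset.range (N + 1), ‖gg (h i) (f i) j z‖ ^ 2) ^ 2 ≤
          ((N + 1 : ℕ) : ℝ) * ∑ j ∈ Finset.range (N + 1), ‖gg (h i) (f i) j z‖ ^ 4 := by
        have := sq_sum_le_card_mul_sum_sq (s := Finset.range (N + 1))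
          (f := fun j => ‖gg (h i) (f i) j z‖ ^ 2)
        rw [Finset.card_range] at this
        refine this.trans (le_of_eq ?_)
        congr 1
        exact Finset.sum_congr rfl fun j _ => by ring
      set S2 := ∑ j ∈ Finset.range (N + 1), ‖gg (h i) (f i) j z‖ ^ 2 with hS2
      set S4 := ∑ j ∈ Finset.range (N + 1), ‖gg (h i) (f i) j z‖ ^ 4 with hS4
      have hS20 : 0 ≤ S2 := Finset.sum_nonneg fun _ _ => by positivity
      have hN0 : (0 : ℝ) ≤ ((N + 1 : ℕ) : ℝ) := Nat.cast_nonneg _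
      have h4 : s ^ 4 ≤ ((N + 1 : ℕ) : ℝ) ^ 3 * S4 := by
        calc s ^ 4 = (s ^ 2) ^ 2 := by ring
          _ ≤ (((N + 1 : ℕ) : ℝ) * S2) ^ 2 := by gcongr
          _ = ((N + 1 : ℕ) : ℝ) ^ 2 * S2 ^ 2 := by ring
          _ ≤ ((N + 1 : ℕ) : ℝ) ^ 2 * (((N + 1 : ℕ) : ℝ) * S4) := by gcongr
          _ = _ := by ring
      calc ‖φ z‖ * s ^ 4 ≤ M * (((N + 1 : ℕ) : ℝ) ^ 3 * S4) := by
            apply mul_le_mul (hM z) h4 (by positivity) hM0
        _ = _ := by ring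
    · rw [image_eq_zero_of_notMem_tsupport hz, norm_zero, zero_mul]
      have : 0 ≤ ∑ j ∈ Finset.range (N + 1), ζ z ^ 4 * ‖gg (h i) (f i) j z‖ ^ 4 :=
        Finset.sum_nonneg fun _ _ => by positivity
      positivity
  have hint2 : Integrable (fun z => ∑ j ∈ Finset.range (N + 1),
      ζ z ^ 4 * ‖gg (h i) (f i) j z‖ ^ 4) := integrable_finsetSum _ fun j _ => hint4 i j
  calc ∫ z, ‖φ z‖ * sm (h i) (f i) N z ^ 4
      ≤ ∫ z, (M * ((N + 1 : ℕ) : ℝ) ^ 3 *
        ∑ j ∈ Finset.range (N + 1), ζ z ^ 4 * ‖gg (h i) (f i) j z‖ ^ 4) :=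
        integral_mono hint (hint2.const_mul _) hpt
    _ = M * ((N + 1 : ℕ) : ℝ) ^ 3 *
        ∑ j ∈ Finset.range (N + 1), ∫ z, ζ z ^ 4 * ‖gg (h i) (f i) j z‖ ^ 4 := by
        rw [integral_const_mul, integral_finsetSum _ fun j _ => hint4 i j]
    _ ≤ _ := by
        gcongr with j hj
        refine (hC' j (h i) (f i) (hS.sol i)).trans ?_
        have h5 := hB' j i
        have h6 : (0 : ℝ) ≤ ∫ z, ζ' j z ^ 4 * f i z ^ 4 :=
          integral_nonneg fun z => by positivity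
        exact mul_le_mul (le_abs_self _) (h5.trans (le_abs_self _)) h6 (abs_nonneg _)

/-- Integrals of small functions. -/
lemma small (hL : StmtL4) {h : ℕ → ℝ} {f : ℕ → ℂ → ℝ} (hS : Seq V q h f) (hB : L4Bdd V f)
    {φ : ℂ → ℂ} (hφ : Test V φ) (N : ℕ) {C : ℝ} (hC : 0 ≤ C) (F : ℕ → ℂ → ℂ)
    (hF : ∀ i z, ‖F i z‖ ≤ h i * (C * (‖φ z‖ * sm (h i) (f i) N z ^ 4))) :
    Tendsto (fun i => ∫ z, F i z) atTop (𝓝 0) := by
  obtain ⟨B, hB'⟩ := bdd hL hS hB hφ N
  rw [tendsto_zero_iff_norm_tendsto_zero]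
  have h1 : Tendsto (fun i => h i * (C * B)) atTop (𝓝 0) := by
    simpa using hS.lim.mul_const (C * B)
  refine squeeze_zero (fun i => norm_nonneg _) (fun i => ?_) h1
  have hint : Integrable (fun z => h i * (C * (‖φ z‖ * sm (h i) (f i) N z ^ 4))) := by
    refine (Integrable.const_mul ?_ _).const_mul _
    refine Continuous.integrable_of_hasCompactSupport ?_ ?_
    · exact hφ.smooth.continuous.norm.mul ((Rel.continuous_sm (hS.sol i).smooth (h i) N).pow 4)
    · exact HasCompactSupport.mul_right hφ.cpt.norm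
  refine (norm_integral_le_of_norm_le hint (Eventually.of_forall (hF i))).trans ?_
  rw [integral_const_mul, integral_const_mul]
  have := (hS.sol i).hpos
  exact mul_le_mul_of_nonneg_left (mul_le_mul_of_nonneg_left (hB' i) hC) this.le

lemma int_add_sub {F P A B : ℂ → ℂ} (hP : Integrable P) (hA : Integrable A) (hB : Integrable B)
    (hF : ∀ z, F z = P z + (A z - B z)) :
    ∫ z, F z = (∫ z, P z) + ((∫ z, A z) - ∫ z, B z) := by
  have e1 : ∫ z, F z = ∫ z, (P z + (A z - B z)) := by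
    congr 1
    ext z
    exact hF z
  have hAB : Integrable (fun z => A z - B z) := hA.sub hB
  rw [e1, integral_add hP hAB, integral_sub hA hB]

end Odd

theorem stmtOdd (hZ : StmtErrZ) (hL : StmtL4) : StmtOdd := by
  intro V q h f hS hB φ hφ
  have hP := hS.pot
  have hφc := hφ.toTest
  set K := tsupport (fun z => (φ z : ℂ)) with hKdef
  have hK : IsCompact K := hφc.cpt
  obtain ⟨Cs, hCs0, hCs⟩ := Rel.ss_le hP (-1) hK
  obtain ⟨E, hE0, hE⟩ := hZ V q hP (-1) K hK hφc.sub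
  have hKz : ∀ z, z ∉ K → (φ z : ℂ) = 0 := fun z hz =>
    image_eq_zero_of_notMem_tsupport (f := fun z => (φ z : ℂ)) hz
  let e : ℕ → ℂ → ℂ := fun i z =>
    (h i : ℂ) * dz (ss q (h i) (f i) (-1)) z - ss q (h i) (f i) (-1 + 1) z
  let F1 : ℕ → ℂ → ℂ := fun i z => dz (fun z => (φ z : ℂ)) z * ((h i : ℂ) *
    (gg (h i) (f i) 0 z * gg (h i) (f i) 0 z * gg (h i) (f i) 0 z * ss q (h i) (f i) (-1) z))
  let F2 : ℕ → ℂ → ℂ := fun i z => (φ z : ℂ) *
    (gg (h i) (f i) 0 z * gg (h i) (f i) 0 z * gg (h i) (f i) 0 z * e i z)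
  have hF1 : Tendsto (fun i => ∫ z, F1 i z) atTop (𝓝 0) := by
    refine Odd.small hL hS hB hφc.dz 2 (C := Cs) hCs0 F1 fun i z => ?_
    have hh := (hS.sol i).hpos
    by_cases hz : z ∈ K
    · have hs0 := Rel.sm_nonneg (h := h i) (f := f i) (z := z) 2
      have h0 : ‖gg (h i) (f i) 0 z‖ ≤ sm (h i) (f i) 2 z := Rel.norm_gg_le_sm (by norm_num)
      have h1 : ‖ss q (h i) (f i) (-1) z‖ ≤ Cs * sm (h i) (f i) 2 z :=
        hCs (h i) (f i) 2 (by norm_num) z hz
      simp only [F1]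
      rw [norm_mul, norm_mul, norm_mul, norm_mul, norm_mul, Complex.norm_real,
        Real.norm_of_nonneg hh.le]
      calc _ ≤ ‖dz (fun z => (φ z : ℂ)) z‖ * (h i * ((sm (h i) (f i) 2 z) *
            (sm (h i) (f i) 2 z) * (sm (h i) (f i) 2 z) * (Cs * sm (h i) (f i) 2 z))) := by
            gcongr
        _ = _ := by ring
    · have : dz (fun z => (φ z : ℂ)) z = 0 := dz_eq_zero_of_notMem hz
      simp only [F1]
      rw [this, zero_mul, norm_zero, zero_mul, mul_zero, mul_zero]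
  have hF2 : Tendsto (fun i => ∫ z, F2 i z) atTop (𝓝 0) := by
    refine Odd.small hL hS hB hφc 2 (C := E) hE0 F2 fun i z => ?_
    have hh := (hS.sol i).hpos
    by_cases hz : z ∈ K
    · have hs0 := Rel.sm_nonneg (h := h i) (f := f i) (z := z) 2
      have h0 : ‖gg (h i) (f i) 0 z‖ ≤ sm (h i) (f i) 2 z := Rel.norm_gg_le_sm (by norm_num)
      have h1 : ‖e i z‖ ≤ h i * (E * sm (h i) (f i) 2 z) := (hE _ _ (hS.sol i) z hz).1
      simp only [F2]
      rw [norm_mul, norm_mul, norm_mul, norm_mul]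
      calc _ ≤ ‖(φ z : ℂ)‖ * (sm (h i) (f i) 2 z *
            sm (h i) (f i) 2 z * sm (h i) (f i) 2 z * (h i * (E * sm (h i) (f i) 2 z))) := by
            gcongr
        _ = _ := by ring
    · simp only [F2]
      rw [hKz z hz, zero_mul, norm_zero, zero_mul, mul_zero, mul_zero]
  have hkey : ∀ i, (((∫ z, φ z * (nn q (h i) (f i) 1 z * nn q (h i) (f i) 0 z)) -
      1 / 3 * ∫ z, φ z * f i z ^ 4 : ℝ) : ℂ) = 1 / 3 * ((∫ z, F1 i z) + ∫ z, F2 i z) := by
    intro i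
    have hf := (hS.sol i).smooth
    have hg := contDiff_gg hf (h i) 0
    have hs := Rel.contDiff_ss hP hf (h i) (-1)
    have hp : ContDiff ℝ ∞ (fun z => (h i : ℂ) * (gg (h i) (f i) 0 z * gg (h i) (f i) 0 z *
      gg (h i) (f i) 0 z * ss q (h i) (f i) (-1) z)) :=
      contDiff_const.mul (((hg.mul hg).mul hg).mul hs)
    have hibp := integral_mul_dz hφc.smooth hp (Or.inl hφc.cpt)
    have hdz : ∀ z, dz (fun z => (h i : ℂ) * (gg (h i) (f i) 0 z * gg (h i) (f i) 0 z *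
      gg (h i) (f i) 0 z * ss q (h i) (f i) (-1) z)) z =
      (h i : ℂ) * (((dz (gg (h i) (f i) 0) z * gg (h i) (f i) 0 z +
        gg (h i) (f i) 0 z * dz (gg (h i) (f i) 0) z) * gg (h i) (f i) 0 z +
        gg (h i) (f i) 0 z * gg (h i) (f i) 0 z * dz (gg (h i) (f i) 0) z) *
        ss q (h i) (f i) (-1) z + gg (h i) (f i) 0 z * gg (h i) (f i) 0 z *
        gg (h i) (f i) 0 z * dz (ss q (h i) (f i) (-1)) z) := by
      intro z
      rw [dz_const_mul _ (((hg.mul hg).mul hg).mul hs), dz_mul ((hg.mul hg).mul hg) hs,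
        dz_mul (hg.mul hg) hg, dz_mul hg hg]
    have hintp : Integrable (fun z => (φ z : ℂ) * dz (fun z => (h i : ℂ) *
      (gg (h i) (f i) 0 z * gg (h i) (f i) 0 z * gg (h i) (f i) 0 z *
        ss q (h i) (f i) (-1) z)) z) := (hφc.mul_right (contDiff_dz hp)).integrable
    have hintA : Integrable (fun z => 3 * ((φ z * (nn q (h i) (f i) 1 z *
        nn q (h i) (f i) 0 z) : ℝ) : ℂ)) :=
      ((Rel.integrable_testR hφ ((Rel.continuous_nn hP hf (h i) 1).mul
        (Rel.continuous_nn hP hf (h i) 0))).ofReal).const_mul 3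
    have hintB : Integrable (fun z => ((φ z * f i z ^ 4 : ℝ) : ℂ)) :=
      (Rel.integrable_testR hφ (hf.continuous.pow 4)).ofReal
    have hsum := Odd.int_add_sub (F := F2 i) hintp hintA hintB (fun z => by
      have h1 : (h i : ℂ) * dz (gg (h i) (f i) 0) z = gg (h i) (f i) 1 z := rfl
      have h2 : gg (h i) (f i) 1 z * ss q (h i) (f i) (-1) z =
          ((-nn q (h i) (f i) 1 z : ℝ) : ℂ) := by
        have h3 := Rel.ss_mul_neg (q := q) (h := h i) (f := f i) (z := z) hP 1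
        have h4 : ss q (h i) (f i) ((1 : ℕ) : ℤ) z = gg (h i) (f i) 1 z := rfl
        rw [h4] at h3
        have h5 : (-((1 : ℕ) : ℤ)) = -1 := rfl
        rw [h5] at h3
        rw [h3]
        push_cast
        ring
      have h3 : ss q (h i) (f i) (-1 + 1) z = gg (h i) (f i) 0 z := rfl
      have h4 : gg (h i) (f i) 0 z = (f i z : ℂ) := rfl
      have h5 : nn q (h i) (f i) 0 z = f i z ^ 2 := Rel.nn_zero
      simp only [F2, e]
      rw [hdz z, h3, h5, h4]
      push_cast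
      push_cast at h2
      rw [← h1] at h2
      linear_combination (-3 * (φ z : ℂ) * (f i z : ℂ) ^ 2) * h2)
    have hI1 : ∫ z, F1 i z = -∫ z, (φ z : ℂ) * dz (fun z => (h i : ℂ) *
        (gg (h i) (f i) 0 z * gg (h i) (f i) 0 z * gg (h i) (f i) 0 z *
        ss q (h i) (f i) (-1) z)) z := by
      rw [hibp, neg_neg]
    have hr1 : ∫ z, ((φ z * (nn q (h i) (f i) 1 z * nn q (h i) (f i) 0 z) : ℝ) : ℂ) =
        ((∫ z, φ z * (nn q (h i) (f i) 1 z * nn q (h i) (f i) 0 z) : ℝ) : ℂ) :=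
      integral_complex_ofReal
    have hr2 : ∫ z, ((φ z * f i z ^ 4 : ℝ) : ℂ) = ((∫ z, φ z * f i z ^ 4 : ℝ) : ℂ) :=
      integral_complex_ofReal
    rw [hI1, hsum, integral_const_mul, hr1, hr2]
    rw [Complex.ofReal_sub, Complex.ofReal_mul]
    push_cast
    ring
  have hlim : Tendsto (fun i => (((∫ z, φ z * (nn q (h i) (f i) 1 z * nn q (h i) (f i) 0 z)) -
      1 / 3 * ∫ z, φ z * f i z ^ 4 : ℝ) : ℂ)) atTop (𝓝 0) := by
    simp_rw [hkey]
    simpa using (hF1.add hF2).const_mul (1 / 3 : ℂ)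
  rw [tendsto_zero_iff_norm_tendsto_zero] at hlim ⊢
  refine hlim.congr fun i => ?_
  rw [Complex.norm_real]

end

end Pool.Agent.A54
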