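import Pool.Agent.Lib.MP_a54f13_nt.Spec

/-!
Relations for `s_a`, `a` an integer.
-/

set_option autoImplicit false

namespace Pool.Agent.A54

open MeasureTheory Filter Topology Set
open scoped ContDiff ComplexConjugate

noncomputable section

namespace ErrZ

lemma le_sm {h : ℝ} {f : ℂ → ℝ} {j n : ℕ} {z : ℂ} (hj : j ≤ n) :
    ‖gg h f j z‖ ≤ sm h f n z := by
  unfold sm
  exact Finset.single_le_sum (f := fun j => ‖gg h f j z‖) (fun _ _ => norm_nonneg _)
    (Finset.mem_range.2 (by omega))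

lemma sum_le_sm {h : ℝ} {f : ℂ → ℝ} {m n : ℕ} {z : ℂ} (hj : m ≤ n + 1) :
    ∑ j ∈ Finset.range m, ‖gg h f j z‖ ≤ sm h f n z := by
  unfold sm
  exact Finset.sum_le_sum_of_subset_of_nonneg (Finset.range_mono hj)
    (fun _ _ _ => norm_nonneg _)

lemma sm_nonneg {h : ℝ} {f : ℂ → ℝ} {n : ℕ} {z : ℂ} : 0 ≤ sm h f n z :=
  Finset.sum_nonneg fun _ _ => norm_nonneg _

/-- the factor of `s_{-(m+1)}` -/
def rr (q : ℂ → ℝ) (m : ℕ) (z : ℂ) : ℂ := (((-1) ^ (m + 1) / q z ^ (m + 1) : ℝ) : ℂ)

lemma contDiff_rr {q : ℂ → ℝ} (hq : ContDiff ℝ ∞ q) (hp : ∀ z, 0 < q z) (m : ℕ) :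
    ContDiff ℝ ∞ (rr q m) :=
  contDiff_ofReal (contDiff_const.div (hq.pow _) fun z => (pow_pos (hp z) _).ne')

lemma ss_neg (q : ℂ → ℝ) (h : ℝ) (f : ℂ → ℝ) (m : ℕ) :
    ss q h f (Int.negSucc m) = fun z => rr q m z * conj (gg h f (m + 1) z) := by
  funext z
  show (-1) ^ (m + 1) * conj (gg h f (m + 1) z) / (q z : ℂ) ^ (m + 1) = _
  unfold rr
  push_cast
  ring

lemma ss_nat (q : ℂ → ℝ) (h : ℝ) (f : ℂ → ℝ) (n : ℕ) :
    ss q h f (n : ℤ) = gg h f n := rfl

lemma conj_gg_zero (h : ℝ) (f : ℂ → ℝ) : (fun z => conj (gg h f 0 z)) = gg h f 0 := by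
  funext z
  show conj ((f z : ℂ)) = (f z : ℂ)
  simp

/-- `s_{-m}` for natural `m` -/
lemma ss_neg_nat (q : ℂ → ℝ) (hp : ∀ z, 0 < q z) (h : ℝ) (f : ℂ → ℝ) (m : ℕ) (z : ℂ) :
    ss q h f (Int.negSucc m + 1) z = -(rr q m z * ((q z : ℂ) * conj (gg h f m z))) := by
  have hq : (q z : ℂ) ≠ 0 := by exact_mod_cast (hp z).ne'
  cases m with
  | zero =>
    show gg h f 0 z = _
    have h1 : conj (gg h f 0 z) = gg h f 0 z := congrFun (conj_gg_zero h f) z
    rw [h1]
    unfold rr
    push_cast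
    field_simp
  | succ m =>
    have e : Int.negSucc (m + 1) + 1 = Int.negSucc m := by
      rw [Int.negSucc_eq, Int.negSucc_eq]; push_cast; ring
    rw [e, ss_neg]
    unfold rr
    push_cast
    field_simp
    ring

end ErrZ

open ErrZ in
theorem stmtErrZ (hE : StmtErr) : StmtErrZ := by
  intro V q hP a K hK hKV
  rcases a with n | m
  · -- `a = n ≥ 0`
    rcases n with _ | n
    · refine ⟨0, le_rfl, fun h f hS z hz => ⟨?_, ?_⟩⟩
      · have : (h : ℂ) * dz (ss q h f (Int.ofNat 0)) z - ss q h f (Int.ofNat 0 + 1) z = 0 := by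
          show (h : ℂ) * dz (gg h f 0) z - gg h f 1 z = 0
          rw [gg_succ]; ring
        rw [this]; simp
      · have hq : (q z : ℂ) ≠ 0 := by exact_mod_cast (hP.pos z).ne'
        have h1 : dzb (gg h f 0) z = conj (dz (gg h f 0) z) := by
          rw [← dzb_conj (contDiff_gg hS.smooth h 0), conj_gg_zero]
        have : (h : ℂ) * dzb (ss q h f (Int.ofNat 0)) z +
            (q z : ℂ) * ss q h f (Int.ofNat 0 - 1) z = 0 := by
          show (h : ℂ) * dzb (gg h f 0) z +
            (q z : ℂ) * ss q h f (Int.negSucc 0) z = 0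
          rw [ss_neg, h1]
          simp only [zero_add, gg_succ]
          unfold rr
          rw [map_mul, Complex.conj_ofReal]
          push_cast
          field_simp
          ring
        rw [this]; simp
    · obtain ⟨C, hC, hb⟩ := hE V q hP n K hK hKV
      refine ⟨C, hC, fun h f hS z hz => ⟨?_, ?_⟩⟩
      · have : (h : ℂ) * dz (ss q h f (Int.ofNat (n + 1))) z -
            ss q h f (Int.ofNat (n + 1) + 1) z = 0 := by
          show (h : ℂ) * dz (gg h f (n + 1)) z - gg h f (n + 1 + 1) z = 0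
          rw [gg_succ h f (n + 1)]; ring
        rw [this, norm_zero]
        exact mul_nonneg hS.hpos.le (mul_nonneg hC sm_nonneg)
      · have e : Int.ofNat (n + 1) - 1 = Int.ofNat n := by
          show ((n + 1 : ℕ) : ℤ) - 1 = (n : ℤ)
          push_cast; ring
        rw [e]
        show ‖(h : ℂ) * dzb (gg h f (n + 1)) z + (q z : ℂ) * gg h f n z‖ ≤ _
        refine (hb h f hS z hz).trans ?_
        refine mul_le_mul_of_nonneg_left (mul_le_mul_of_nonneg_left ?_ hC) hS.hpos.le
        exact sum_le_sm (by simp; omega)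
  · -- `a = -(m+1)`
    have hr := contDiff_rr hP.smooth hP.pos m
    obtain ⟨C, hC, hb⟩ := hE V q hP m K hK hKV
    obtain ⟨C1, h1⟩ := hK.exists_bound_of_continuousOn (contDiff_dz hr).continuous.continuousOn
    obtain ⟨C2, h2⟩ := hK.exists_bound_of_continuousOn (contDiff_dzb hr).continuous.continuousOn
    obtain ⟨C3, h3⟩ := hK.exists_bound_of_continuousOn hr.continuous.continuousOn
    refine ⟨|C1| + |C2| + |C3| * C, by positivity, fun h f hS z hz => ?_⟩
    have hg := contDiff_gg hS.smooth h (m + 1)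
    have hgc := contDiff_conj hg
    have hsm : 0 ≤ sm h f (m + 2) z := sm_nonneg
    have hab : (Int.negSucc m).natAbs + 1 = m + 2 := rfl
    have b1 : ‖gg h f (m + 1) z‖ ≤ sm h f (m + 2) z := le_sm (by omega)
    have k1 : ‖dz (rr q m) z‖ ≤ |C1| := (h1 z hz).trans (le_abs_self _)
    have k2 : ‖dzb (rr q m) z‖ ≤ |C2| := (h2 z hz).trans (le_abs_self _)
    have k3 : ‖rr q m z‖ ≤ |C3| := (h3 z hz).trans (le_abs_self _)
    rw [hab, ss_neg]
    constructor
    · rw [ss_neg_nat q hP.pos, dz_mul hr hgc, dz_conj hg]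
      have e : (h : ℂ) * (dz (rr q m) z * conj (gg h f (m + 1) z) +
          rr q m z * conj (dzb (gg h f (m + 1)) z)) -
          -(rr q m z * ((q z : ℂ) * conj (gg h f m z))) =
          (h : ℂ) * (dz (rr q m) z * conj (gg h f (m + 1) z)) +
          rr q m z * conj ((h : ℂ) * dzb (gg h f (m + 1)) z + (q z : ℂ) * gg h f m z) := by
        rw [map_add, map_mul, map_mul, Complex.conj_ofReal, Complex.conj_ofReal]
        ring
      rw [e]
      have n1 : ‖(h : ℂ) * (dz (rr q m) z * conj (gg h f (m + 1) z))‖ ≤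
          h * (|C1| * sm h f (m + 2) z) := by
        rw [norm_mul, norm_mul, Complex.norm_real, Real.norm_of_nonneg hS.hpos.le,
          Complex.norm_conj]
        exact mul_le_mul_of_nonneg_left
          (mul_le_mul k1 b1 (norm_nonneg _) (abs_nonneg _)) hS.hpos.le
      have n2 : ‖rr q m z * conj ((h : ℂ) * dzb (gg h f (m + 1)) z +
          (q z : ℂ) * gg h f m z)‖ ≤ |C3| * (h * (C * sm h f (m + 2) z)) := by
        rw [norm_mul, Complex.norm_conj]
        refine mul_le_mul k3 ((hb h f hS z hz).trans ?_) (norm_nonneg _) (abs_nonneg _)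
        refine mul_le_mul_of_nonneg_left (mul_le_mul_of_nonneg_left ?_ hC) hS.hpos.le
        exact sum_le_sm (by omega)
      have n3 : 0 ≤ h * (|C2| * sm h f (m + 2) z) :=
        mul_nonneg hS.hpos.le (mul_nonneg (abs_nonneg _) hsm)
      refine (norm_add_le _ _).trans ?_
      nlinarith
    · have e0 : Int.negSucc m - 1 = Int.negSucc (m + 1) := by
        rw [Int.negSucc_eq, Int.negSucc_eq]; push_cast; ring
      rw [e0, ss_neg, dzb_mul hr hgc, dzb_conj hg]
      have hq : (q z : ℂ) ≠ 0 := by exact_mod_cast (hP.pos z).ne'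
      have e : (h : ℂ) * (dzb (rr q m) z * conj (gg h f (m + 1) z) +
          rr q m z * conj (dz (gg h f (m + 1)) z)) +
          (q z : ℂ) * (rr q (m + 1) z * conj (gg h f (m + 1 + 1) z)) =
          (h : ℂ) * (dzb (rr q m) z * conj (gg h f (m + 1) z)) := by
        have hr2 : (q z : ℂ) * rr q (m + 1) z = - rr q m z := by
          unfold rr
          push_cast
          field_simp
          ring
        rw [gg_succ h f (m + 1), map_mul, Complex.conj_ofReal]
        linear_combination (h : ℂ) * conj (dz (gg h f (m + 1)) z) * hr2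
      simp only [] at *
      rw [e, norm_mul, norm_mul, Complex.norm_real, Real.norm_of_nonneg hS.hpos.le,
        Complex.norm_conj]
      have n2 : ‖dzb (rr q m) z‖ * ‖gg h f (m + 1) z‖ ≤ |C2| * sm h f (m + 2) z :=
        mul_le_mul k2 b1 (norm_nonneg _) (abs_nonneg _)
      have n3 : 0 ≤ (|C1| + |C3| * C) * sm h f (m + 2) z :=
        mul_nonneg (by positivity) hsm
      refine mul_le_mul_of_nonneg_left ?_ hS.hpos.le
      linarith

end

end Pool.Agent.A54
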