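import Pool.Agent.Lib.MP_a54f13_nt.Defs

/-!
Hecke–Maass forms, quantum unique ergodicity for microlocal lifts, test functions on the modular
surface, for MP_a54f13_nt.
-/

set_option autoImplicit false

namespace Pool.Agent.A54

open MeasureTheory Filter Topology Set
open scoped ContDiff ComplexConjugate UpperHalfPlane MatrixGroups

noncomputable section

/-- A function on `ℍ` as a function on `ℂ` (only its values on the upper half-plane matter). -/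
def ext (f : ℍ → ℝ) (z : ℂ) : ℝ := f (UpperHalfPlane.ofComplex z)

/-- `f` is a real valued Hecke–Maass cusp form for `SL(2, ℤ)` with spectral parameter `t > 0`,
normalised by `(3 / π) ∫_X f² dμ = 1`.  The integral over `X = SL(2, ℤ) \ ℍ` is the integral over
the standard open fundamental domain for the invariant measure `dx dy / y²`. -/
structure IsHeckeMaass (f : ℍ → ℝ) (t : ℝ) : Prop where
  smooth : ContDiffOn ℝ ∞ (ext f) {z : ℂ | 0 < z.im}
  invariant : ∀ (γ : SL(2, ℤ)) (z : ℍ), f (γ • z) = f z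
  pos : 0 < t
  eigen : ∀ z : ℍ, -z.im ^ 2 * Laplacian.laplacian (ext f) (z : ℂ) = (1 / 4 + t ^ 2) * f z
  cuspidal : ∀ y : ℝ, 0 < y → ∫ x in (0 : ℝ)..1, ext f ⟨x, y⟩ = 0
  hecke : ∀ m : ℕ, 1 ≤ m → ∃ c : ℝ, ∀ z : ℍ,
    ∑ d ∈ m.divisors, ∑ b ∈ Finset.range d, ext f ((((m / d : ℕ) : ℂ) * z + b) / d) = c * f z
  normalised : ∫ z in ModularGroup.fdo, f z ^ 2 = Real.pi / 3

/-- Quantum unique ergodicity for the microlocal lifts of the forms `f i` (the theorem of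
Lindenstrauss and Soundararajan), in elementary form: for every `n` and every smooth `φ` with
compact support in the upper half-plane,
`(1/4 + t²)^(-n/2) ∫_ℍ φ f yⁿ (∂_x - i ∂_y)ⁿ f dμ` tends to `∫_ℍ φ dμ` if `n = 0`, to `0` if
`n ≥ 1`. -/
def MicroQUE (f : ℕ → ℍ → ℝ) (t : ℕ → ℝ) : Prop :=
  ∀ (n : ℕ) (φ : ℂ → ℂ), Test {z : ℂ | 0 < z.im} φ →
    Tendsto (fun i => ((Real.sqrt (1 / 4 + t i ^ 2) : ℝ) : ℂ)⁻¹ ^ n *
        ∫ z : ℍ, φ z * (f i z * ((z.im : ℂ) ^ n * (dz^[n] (fun w => (ext (f i) w : ℂ))) z)))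
      atTop (𝓝 (if n = 0 then ∫ z : ℍ, φ z else 0))

/-- `ψ ∈ C_c^∞(X)`, `X = SL(2, ℤ) \ ℍ`: a smooth invariant function on `ℍ` which vanishes high in
the cusp. -/
structure TestX (ψ : ℍ → ℝ) : Prop where
  smooth : ContDiffOn ℝ ∞ (ext ψ) {z : ℂ | 0 < z.im}
  invariant : ∀ (γ : SL(2, ℤ)) (z : ℍ), ψ (γ • z) = ψ z
  cusp : ∃ Y : ℝ, ∀ z ∈ ModularGroup.fd, Y < z.im → ψ z = 0

/-- The lower half of the conjecture for `n = 4` with the sharp constant `C₄ = 3` (the case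
`k = 2`), and a lower bound for all even moments. -/
def FinalEven (f : ℕ → ℍ → ℝ) : Prop :=
  ∀ ψ : ℍ → ℝ, TestX ψ → (∀ z, 0 ≤ ψ z) → ∀ k : ℕ, 2 ≤ k → ∀ ε : ℝ, 0 < ε →
    ∀ᶠ i in atTop, 3 ^ (k - 1) * (∫ z in ModularGroup.fdo, ψ z) - ε ≤
      ∫ z in ModularGroup.fdo, ψ z * f i z ^ (2 * k)

/-- If the fourth powers have bounded integrals over compact sets, the conjecture holds for
`n = 3`. -/
def FinalCube (f : ℕ → ℍ → ℝ) : Prop :=
  (∀ K : Set ℍ, IsCompact K → ∃ C : ℝ, ∀ i, ∫ z in K, f i z ^ 4 ≤ C) →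
    ∀ ψ : ℍ → ℝ, TestX ψ →
      Tendsto (fun i => ∫ z in ModularGroup.fdo, ψ z * f i z ^ 3) atTop (𝓝 0)

end

end Pool.Agent.A54
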