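import Pool.Agent.Lib.MP_a54f13_nt.Spec

/-!
The Fourier analytic core of the div-curl lemma.
-/

set_option autoImplicit false

namespace Pool.Agent.A54

open MeasureTheory Filter Topology Set
open scoped ContDiff ComplexConjugate SchwartzMap FourierTransform

noncomputable section

namespace Four

open LineDeriv in
/-- transform of a directional derivative -/
lemma fourier_dir (f : 𝓢(ℂ, ℂ)) (m κ : ℂ) :
    𝓕 (fun z => fderiv ℝ (f : ℂ → ℂ) z m) κ =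
      (2 * (Real.pi : ℂ) * Complex.I) * (((inner ℝ κ m : ℝ) : ℂ) * 𝓕 (f : ℂ → ℂ) κ) := by
  have h := congrArg (fun g : 𝓢(ℂ, ℂ) => g κ) (SchwartzMap.fourier_lineDerivOp_eq f m)
  have hT : (fun x : ℂ => (inner ℝ x m : ℝ)).HasTemperateGrowth :=
    ((innerSL ℝ).flip m).hasTemperateGrowth
  simp only [smul_apply, SchwartzMap.smulLeftCLM_apply_apply hT] at h
  rw [SchwartzMap.fourier_coe, SchwartzMap.fourier_coe] at h
  have h2 : (fun z => fderiv ℝ (f : ℂ → ℂ) z m) = ((∂_{m} f : 𝓢(ℂ, ℂ)) : ℂ → ℂ) := rfl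
  rw [h2, h, Complex.real_smul, smul_eq_mul]

/-- the Schwartz function of a smooth compactly supported function -/
def sch (g : ℂ → ℂ) (hg : ContDiff ℝ ∞ g) (hc : HasCompactSupport g) : 𝓢(ℂ, ℂ) :=
  hc.toSchwartzMap hg

lemma sch_coe (g : ℂ → ℂ) (hg : ContDiff ℝ ∞ g) (hc : HasCompactSupport g) :
    ⇑(sch g hg hc) = g := rfl

lemma fourier_dir' {g : ℂ → ℂ} (hg : ContDiff ℝ ∞ g) (hc : HasCompactSupport g) (m κ : ℂ) :
    𝓕 (fun z => fderiv ℝ g z m) κ =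
      (2 * (Real.pi : ℂ) * Complex.I) * (((inner ℝ κ m : ℝ) : ℂ) * 𝓕 g κ) :=
  fourier_dir (sch g hg hc) m κ

lemma cpt_dir {g : ℂ → ℂ} (hc : HasCompactSupport g) (m : ℂ) :
    HasCompactSupport (fun z => fderiv ℝ g z m) := by
  exact (hc.fderiv ℝ).comp_left (g := fun L : ℂ →L[ℝ] ℂ => L m) (by simp)

lemma int_dir {g : ℂ → ℂ} (hg : ContDiff ℝ ∞ g) (hc : HasCompactSupport g) (m : ℂ) :
    Integrable (fun z => fderiv ℝ g z m) :=
  integrable_of_cpt (contDiff_apply hg m).continuous (cpt_dir hc m)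

lemma fourier_add' {a b : ℂ → ℂ} (ha : Integrable a) (hb : Integrable b) (κ : ℂ) :
    𝓕 (fun z => a z + b z) κ = 𝓕 a κ + 𝓕 b κ := by
  rw [Real.fourier_eq, Real.fourier_eq, Real.fourier_eq, ← integral_add]
  · congr 1
    ext z
    rw [smul_add]
  · exact (Real.fourierIntegral_convergent_iff κ).2 ha
  · exact (Real.fourierIntegral_convergent_iff κ).2 hb

lemma fourier_sub' {a b : ℂ → ℂ} (ha : Integrable a) (hb : Integrable b) (κ : ℂ) :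
    𝓕 (fun z => a z - b z) κ = 𝓕 a κ - 𝓕 b κ := by
  rw [Real.fourier_eq, Real.fourier_eq, Real.fourier_eq, ← integral_sub]
  · congr 1
    ext z
    rw [smul_sub]
  · exact (Real.fourierIntegral_convergent_iff κ).2 ha
  · exact (Real.fourierIntegral_convergent_iff κ).2 hb

lemma fourier_const_mul' {a : ℂ → ℂ} (c : ℂ) (κ : ℂ) :
    𝓕 (fun z => c * a z) κ = c * 𝓕 a κ := by
  rw [Real.fourier_eq, Real.fourier_eq, ← integral_const_mul]
  congr 1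
  ext z
  simp only [Circle.smul_def, smul_eq_mul]
  ring

/-- transform of `∂̄ g` -/
lemma fourier_dzb {g : ℂ → ℂ} (hg : ContDiff ℝ ∞ g) (hc : HasCompactSupport g) (κ : ℂ) :
    𝓕 (dzb g) κ = (2 * (Real.pi : ℂ) * Complex.I) * (κ * 𝓕 g κ) := by
  have h : dzb g = fun z => fderiv ℝ g z 1 + Complex.I * fderiv ℝ g z Complex.I := rfl
  rw [h, fourier_add' (int_dir hg hc 1) ((int_dir hg hc Complex.I).const_mul _),
    fourier_const_mul', fourier_dir' hg hc, fourier_dir' hg hc]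
  have h1 : (inner ℝ κ 1 : ℝ) = κ.re := by simp [Complex.inner]
  have h2 : (inner ℝ κ Complex.I : ℝ) = κ.im := by simp [Complex.inner]
  rw [h1, h2]
  have h3 : κ = (κ.re : ℂ) + (κ.im : ℂ) * Complex.I := (Complex.re_add_im κ).symm
  generalize 𝓕 g κ = X
  calc _ = 2 * (Real.pi : ℂ) * Complex.I * (((κ.re : ℂ) + (κ.im : ℂ) * Complex.I) * X) := by ring
    _ = _ := by rw [← h3]

/-- transform of `∂ g` -/
lemma fourier_dz {g : ℂ → ℂ} (hg : ContDiff ℝ ∞ g) (hc : HasCompactSupport g) (κ : ℂ) :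
    𝓕 (dz g) κ = (2 * (Real.pi : ℂ) * Complex.I) * (conj κ * 𝓕 g κ) := by
  have h : dz g = fun z => fderiv ℝ g z 1 - Complex.I * fderiv ℝ g z Complex.I := rfl
  rw [h, fourier_sub' (int_dir hg hc 1) ((int_dir hg hc Complex.I).const_mul _),
    fourier_const_mul', fourier_dir' hg hc, fourier_dir' hg hc]
  have h1 : (inner ℝ κ 1 : ℝ) = κ.re := by simp [Complex.inner]
  have h2 : (inner ℝ κ Complex.I : ℝ) = κ.im := by simp [Complex.inner]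
  rw [h1, h2]
  have h3 : conj κ = (κ.re : ℂ) - (κ.im : ℂ) * Complex.I := by
    apply Complex.ext <;> simp
  rw [h3]
  generalize 𝓕 g κ = X
  ring

lemma plancherel {g : ℂ → ℂ} (hg : ContDiff ℝ ∞ g) (hc : HasCompactSupport g) :
    ∫ κ, ‖𝓕 g κ‖ ^ 2 = ∫ z, ‖g z‖ ^ 2 :=
  SchwartzMap.integral_norm_sq_fourier (sch g hg hc)

lemma int_sq {g : ℂ → ℂ} (hg : ContDiff ℝ ∞ g) (hc : HasCompactSupport g) :
    Integrable (fun κ => ‖𝓕 g κ‖ ^ 2) := by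
  have h : MemLp (𝓕 (sch g hg hc) : 𝓢(ℂ, ℂ)) 2 (volume : Measure ℂ) :=
    SchwartzMap.memLp (μ := (volume : Measure ℂ)) (𝓕 (sch g hg hc)) 2
  exact (memLp_two_iff_integrable_sq_norm h.1).1 h

lemma cont_fourier {g : ℂ → ℂ} (hg : ContDiff ℝ ∞ g) (hc : HasCompactSupport g) :
    Continuous (𝓕 g) :=
  (𝓕 (sch g hg hc) : 𝓢(ℂ, ℂ)).continuous

lemma norm_fourier_le (g : ℂ → ℂ) (κ : ℂ) : ‖𝓕 g κ‖ ≤ ∫ z, ‖g z‖ := by
  rw [Real.fourier_eq]
  refine (norm_integral_le_integral_norm _).trans (le_of_eq ?_)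
  congr 1
  ext z
  simp

/-- the pointwise estimate -/
lemma point {v w : ℂ → ℂ} (hv : ContDiff ℝ ∞ v) (cv : HasCompactSupport v)
    (hw : ContDiff ℝ ∞ w) (cw : HasCompactSupport w) {R : ℝ} (hR : 0 < R) (κ : ℂ) :
    |‖𝓕 v κ‖ ^ 2 - ‖𝓕 w κ‖ ^ 2| ≤
      (Metric.ball (0 : ℂ) R).indicator (fun κ => ‖𝓕 v κ‖ ^ 2 + ‖𝓕 w κ‖ ^ 2) κ +
      (1 / R) * (‖𝓕 (fun z => dzb v z - dz w z) κ‖ ^ 2 + ‖𝓕 v κ‖ ^ 2 + ‖𝓕 w κ‖ ^ 2) := by
  have hr : 𝓕 (fun z => dzb v z - dz w z) κ =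
      (2 * (Real.pi : ℂ) * Complex.I) * (κ * 𝓕 v κ - conj κ * 𝓕 w κ) := by
    rw [fourier_sub' (integrable_of_cpt (contDiff_dzb hv).continuous (hasCompactSupport_dzb cv))
      (integrable_of_cpt (contDiff_dz hw).continuous (hasCompactSupport_dz cw)),
      fourier_dzb hv cv, fourier_dz hw cw]
    ring
  set A := 𝓕 v κ
  set B := 𝓕 w κ
  set X := 𝓕 (fun z => dzb v z - dz w z) κ
  by_cases hκ : κ ∈ Metric.ball (0 : ℂ) R
  · rw [indicator_of_mem hκ]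
    have h1 : 0 ≤ (1 / R) * (‖X‖ ^ 2 + ‖A‖ ^ 2 + ‖B‖ ^ 2) := by positivity
    have h2 : |‖A‖ ^ 2 - ‖B‖ ^ 2| ≤ ‖A‖ ^ 2 + ‖B‖ ^ 2 := by
      rw [abs_le]
      constructor <;> nlinarith [sq_nonneg ‖A‖, sq_nonneg ‖B‖]
    show _ ≤ (‖A‖ ^ 2 + ‖B‖ ^ 2) + _
    linarith
  · rw [indicator_of_notMem hκ, zero_add]
    have hn : R ≤ ‖κ‖ := by simpa using hκ
    have h1 : ‖κ‖ * |‖A‖ - ‖B‖| ≤ ‖X‖ := by
      have h3 : ‖X‖ = 2 * Real.pi * ‖κ * A - conj κ * B‖ := by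
        rw [hr, norm_mul, norm_mul, norm_mul]
        simp [abs_of_pos Real.pi_pos]
      have h4 : ‖κ‖ * |‖A‖ - ‖B‖| ≤ ‖κ * A - conj κ * B‖ := by
        have h5 := abs_norm_sub_norm_le (κ * A) (conj κ * B)
        rw [norm_mul, norm_mul, RCLike.norm_conj, ← mul_sub, abs_mul, abs_of_nonneg (norm_nonneg κ)] at h5
        exact h5
      have h5 : ‖κ * A - conj κ * B‖ ≤ 2 * Real.pi * ‖κ * A - conj κ * B‖ := by
        have : 0 ≤ ‖κ * A - conj κ * B‖ := norm_nonneg _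
        nlinarith [Real.pi_gt_three]
      linarith
    have h2 : R * |‖A‖ - ‖B‖| ≤ ‖X‖ :=
      (mul_le_mul_of_nonneg_right hn (abs_nonneg _)).trans h1
    have h3 : |‖A‖ ^ 2 - ‖B‖ ^ 2| = |‖A‖ - ‖B‖| * (‖A‖ + ‖B‖) := by
      rw [show ‖A‖ ^ 2 - ‖B‖ ^ 2 = (‖A‖ - ‖B‖) * (‖A‖ + ‖B‖) by ring, abs_mul,
        abs_of_nonneg (a := ‖A‖ + ‖B‖) (by positivity)]
    rw [h3, one_div, ← div_eq_inv_mul, le_div_iff₀ hR]
    have h4 : |‖A‖ - ‖B‖| * (‖A‖ + ‖B‖) * R ≤ ‖X‖ * (‖A‖ + ‖B‖) := by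
      have h6 := mul_le_mul_of_nonneg_right h2 (show 0 ≤ ‖A‖ + ‖B‖ by positivity)
      linarith
    nlinarith [sq_nonneg (‖X‖ - ‖A‖), sq_nonneg (‖X‖ - ‖B‖), sq_nonneg ‖A‖, sq_nonneg ‖B‖]

/-- the integrated estimate -/
lemma integ {v w : ℂ → ℂ} (hv : ContDiff ℝ ∞ v) (cv : HasCompactSupport v)
    (hw : ContDiff ℝ ∞ w) (cw : HasCompactSupport w) {R C : ℝ} (hR : 0 < R)
    (h2 : ∫ z, ‖v z‖ ^ 2 ≤ C) (h3 : ∫ z, ‖w z‖ ^ 2 ≤ C) (h4 : ∫ z, ‖dzb v z - dz w z‖ ^ 2 ≤ C) :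
    |(∫ z, ‖v z‖ ^ 2) - ∫ z, ‖w z‖ ^ 2| ≤
      (∫ κ in Metric.ball (0 : ℂ) R, ‖𝓕 v κ‖ ^ 2) + (∫ κ in Metric.ball (0 : ℂ) R, ‖𝓕 w κ‖ ^ 2) +
      3 * C / R := by
  have hr : ContDiff ℝ ∞ (fun z => dzb v z - dz w z) := (contDiff_dzb hv).sub (contDiff_dz hw)
  have cr : HasCompactSupport (fun z => dzb v z - dz w z) :=
    (hasCompactSupport_dzb cv).sub (hasCompactSupport_dz cw)
  have iv := int_sq hv cv
  have iw := int_sq hw cw
  have ir := int_sq hr cr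
  rw [← plancherel hv cv, ← plancherel hw cw, ← integral_sub iv iw]
  rw [← plancherel hv cv] at h2
  rw [← plancherel hw cw] at h3
  have h4' := plancherel hr cr
  have hb : MeasurableSet (Metric.ball (0 : ℂ) R) := measurableSet_ball
  calc |∫ κ, (‖𝓕 v κ‖ ^ 2 - ‖𝓕 w κ‖ ^ 2)| ≤ ∫ κ, |‖𝓕 v κ‖ ^ 2 - ‖𝓕 w κ‖ ^ 2| :=
        abs_integral_le_integral_abs
    _ ≤ ∫ κ, ((Metric.ball (0 : ℂ) R).indicator (fun κ => ‖𝓕 v κ‖ ^ 2 + ‖𝓕 w κ‖ ^ 2) κ +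
      (1 / R) * (‖𝓕 (fun z => dzb v z - dz w z) κ‖ ^ 2 + ‖𝓕 v κ‖ ^ 2 + ‖𝓕 w κ‖ ^ 2)) := by
        apply integral_mono_of_nonneg
        · exact Eventually.of_forall fun κ => abs_nonneg _
        · exact ((iv.add iw).indicator hb).add (((ir.add iv).add iw).const_mul _)
        · exact Eventually.of_forall fun κ => point hv cv hw cw hR κ
    _ = (∫ κ in Metric.ball (0 : ℂ) R, (‖𝓕 v κ‖ ^ 2 + ‖𝓕 w κ‖ ^ 2)) +
        (1 / R) * ((∫ κ, ‖𝓕 (fun z => dzb v z - dz w z) κ‖ ^ 2) + (∫ κ, ‖𝓕 v κ‖ ^ 2) +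
          ∫ κ, ‖𝓕 w κ‖ ^ 2) := by
        have e1 : Integrable (fun κ => (Metric.ball (0 : ℂ) R).indicator
            (fun κ => ‖𝓕 v κ‖ ^ 2 + ‖𝓕 w κ‖ ^ 2) κ) := (iv.add iw).indicator hb
        have e2 : Integrable (fun κ => (1 / R) * (‖𝓕 (fun z => dzb v z - dz w z) κ‖ ^ 2 +
            ‖𝓕 v κ‖ ^ 2 + ‖𝓕 w κ‖ ^ 2)) := ((ir.add iv).add iw).const_mul _
        have e3 : Integrable (fun κ => ‖𝓕 (fun z => dzb v z - dz w z) κ‖ ^ 2 +
            ‖𝓕 v κ‖ ^ 2) := ir.add iv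
        rw [integral_add e1 e2, integral_indicator hb, integral_const_mul,
          integral_add e3 iw, integral_add ir iv]
    _ ≤ _ := by
        rw [integral_add iv.integrableOn iw.integrableOn]
        have h5 : (1 / R) * ((∫ κ, ‖𝓕 (fun z => dzb v z - dz w z) κ‖ ^ 2) + (∫ κ, ‖𝓕 v κ‖ ^ 2) +
          ∫ κ, ‖𝓕 w κ‖ ^ 2) ≤ (1 / R) * (3 * C) := by
          apply mul_le_mul_of_nonneg_left _ (by positivity)
          rw [h4']
          linarith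
        have h6 : (1 / R) * (3 * C) = 3 * C / R := by ring
        linarith

/-- dominated convergence on a ball -/
lemma ball {v : ℕ → ℂ → ℂ} (hv : ∀ i, ContDiff ℝ ∞ (v i) ∧ HasCompactSupport (v i))
    (h0 : ∀ κ : ℂ, Tendsto (fun i => 𝓕 (v i) κ) atTop (𝓝 0)) {C : ℝ}
    (hC : ∀ i, ∫ z, ‖v i z‖ ≤ C) (R : ℝ) :
    Tendsto (fun i => ∫ κ in Metric.ball (0 : ℂ) R, ‖𝓕 (v i) κ‖ ^ 2) atTop (𝓝 0) := by
  have h := tendsto_integral_of_dominated_convergence (μ := volume.restrict (Metric.ball (0 : ℂ) R))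
    (F := fun i κ => ‖𝓕 (v i) κ‖ ^ 2) (f := fun _ => (0 : ℝ)) (fun _ => C ^ 2)
    (fun i => (((cont_fourier (hv i).1 (hv i).2).norm.pow 2).aestronglyMeasurable))
    (by
      have : IsFiniteMeasure (volume.restrict (Metric.ball (0 : ℂ) R)) :=
        ⟨by
          rw [Measure.restrict_apply_univ]
          exact measure_ball_lt_top⟩
      exact integrable_const _)
    (fun i => Eventually.of_forall fun κ => by
      rw [Real.norm_of_nonneg (by positivity)]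
      exact pow_le_pow_left₀ (norm_nonneg _) ((norm_fourier_le _ _).trans (hC i)) 2)
    (Eventually.of_forall fun κ => by
      have h1 := ((h0 κ).norm.pow 2)
      simpa using h1)
  simpa using h

end Four

theorem stmtFour : StmtFour := by
  intro v w hv hw v0 w0 hC
  obtain ⟨C, hC⟩ := hC
  rw [Metric.tendsto_atTop]
  intro ε hε
  have hC0 : 0 ≤ C := (integral_nonneg fun z => norm_nonneg _).trans (hC 0).1
  set R : ℝ := (6 * C + 1) / ε with hRdef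
  have hR : 0 < R := by positivity
  have hRC : 3 * C / R < ε / 2 + ε / 4 := by
    rw [div_lt_iff₀ hR, hRdef]
    have : (ε / 2 + ε / 4) * ((6 * C + 1) / ε) = (3 / 4) * (6 * C + 1) := by
      field_simp
      ring
    rw [this]
    linarith
  have h1 := Four.ball hv v0 (fun i => (hC i).1) R
  have h2 := Four.ball hw w0 (fun i => (hC i).2.1) R
  have h3 := h1.add h2
  rw [add_zero, Metric.tendsto_atTop] at h3
  obtain ⟨N, hN⟩ := h3 (ε / 4) (by positivity)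
  refine ⟨N, fun i hi => ?_⟩
  have h4 := hN i hi
  rw [Real.dist_eq, sub_zero] at h4 ⊢
  have h5 := Four.integ (hv i).1 (hv i).2 (hw i).1 (hw i).2 hR (hC i).2.2.1 (hC i).2.2.2.1
    (hC i).2.2.2.2
  have h6 := le_abs_self ((∫ κ in Metric.ball (0 : ℂ) R, ‖𝓕 (v i) κ‖ ^ 2) +
    ∫ κ in Metric.ball (0 : ℂ) R, ‖𝓕 (w i) κ‖ ^ 2)
  linarith

end

end Pool.Agent.A54
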