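import Pool.Agent.Lib.MP_a54f13_nt.Spec2

/-!
Weak convergence can be tested against functions in `L²_loc`.
-/

set_option autoImplicit false

namespace Pool.Agent.A54.Test

open MeasureTheory Filter Topology Set
open scoped ContDiff ComplexConjugate ENNReal

noncomputable section

/-- the product of a test function and an `L²_loc` function is in `L²` -/
theorem memLp_mul {V : Set ℂ} {φ : ℂ → ℂ} (hφ : Test V φ) {g : ℂ → ℂ} (hg : L2loc V g) :
    MemLp (fun z => φ z * g z) 2 volume := by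
  have hK : IsCompact (tsupport φ) := hφ.cpt
  have hm : MeasurableSet (tsupport φ) := (isClosed_tsupport φ).measurableSet
  obtain ⟨M, hM⟩ := hφ.smooth.continuous.bounded_above_of_compact_support hφ.cpt
  have h1 : MemLp g 2 (volume.restrict (tsupport φ)) := hg _ hK hφ.sub
  have h2 : MemLp (fun z => φ z * g z) 2 (volume.restrict (tsupport φ)) := by
    refine (h1.const_mul (M : ℂ)).of_le
      (hφ.smooth.continuous.aestronglyMeasurable.mul h1.aestronglyMeasurable)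
      (Eventually.of_forall fun z => ?_)
    have hMz : ‖φ z‖ ≤ ‖(M : ℂ)‖ := by
      rw [Complex.norm_real, Real.norm_eq_abs]
      exact (hM z).trans (le_abs_self M)
    rw [norm_mul, norm_mul]
    exact mul_le_mul_of_nonneg_right hMz (norm_nonneg _)
  have h3 : (tsupport φ).indicator (fun z => φ z * g z) = fun z => φ z * g z := by
    funext z
    by_cases hz : z ∈ tsupport φ
    · rw [indicator_of_mem hz]
    · rw [indicator_of_notMem hz, image_eq_zero_of_notMem_tsupport hz, zero_mul]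
  rw [← h3]
  exact (memLp_indicator_iff_restrict hm).2 h2

theorem sq_integral_le {w : ℂ → ℂ} (hw : MemLp w 2 volume) {e : ℝ} (he : 0 ≤ e)
    (h : eLpNorm w 2 volume ≤ ENNReal.ofReal e) : ∫ z, ‖w z‖ ^ 2 ≤ e ^ 2 := by
  rw [hw.eLpNorm_eq_integral_rpow_norm two_ne_zero ENNReal.ofNat_ne_top,
    ENNReal.ofReal_le_ofReal_iff he] at h
  simp only [ENNReal.toReal_ofNat, Real.rpow_two] at h
  have h0 : 0 ≤ ∫ z, ‖w z‖ ^ 2 := integral_nonneg fun z => sq_nonneg _
  have h1 : ((∫ z, ‖w z‖ ^ 2) ^ (2⁻¹ : ℝ)) ^ 2 ≤ e ^ 2 :=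
    pow_le_pow_left₀ (Real.rpow_nonneg h0 _) h 2
  rwa [← Real.rpow_natCast, ← Real.rpow_mul h0, show (2⁻¹ : ℝ) * ((2 : ℕ) : ℝ) = 1 by norm_num,
    Real.rpow_one] at h1

/-- Cauchy-Schwarz with a parameter -/
theorem cs {u v : ℂ → ℂ} (hu : MemLp u 2 volume) (hv : MemLp v 2 volume) {d : ℝ} (hd : 0 < d) :
    ‖∫ z, u z * v z‖ ≤ (1 / (2 * d)) * (∫ z, ‖u z‖ ^ 2) + d / 2 * ∫ z, ‖v z‖ ^ 2 := by
  have iu : Integrable (fun z => ‖u z‖ ^ 2) := hu.integrable_norm_pow two_ne_zero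
  have iv : Integrable (fun z => ‖v z‖ ^ 2) := hv.integrable_norm_pow two_ne_zero
  have h1 : ‖∫ z, u z * v z‖ ≤ ∫ z, ‖u z * v z‖ := norm_integral_le_integral_norm _
  refine h1.trans ?_
  rw [← integral_const_mul, ← integral_const_mul, ← integral_add (iu.const_mul _) (iv.const_mul _)]
  refine integral_mono_of_nonneg (Eventually.of_forall fun z => norm_nonneg _)
    ((iu.const_mul _).add (iv.const_mul _)) (Eventually.of_forall fun z => ?_)
  simp only [norm_mul]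
  have h2 : 0 ≤ (‖u z‖ - d * ‖v z‖) ^ 2 := sq_nonneg _
  have h3 : (1 / (2 * d)) * ‖u z‖ ^ 2 + d / 2 * ‖v z‖ ^ 2 - ‖u z‖ * ‖v z‖ =
      (1 / (2 * d)) * (‖u z‖ - d * ‖v z‖) ^ 2 := by
    field_simp; ring
  have h4 : 0 ≤ (1 / (2 * d)) * (‖u z‖ - d * ‖v z‖) ^ 2 := by positivity
  linarith

theorem _root_.Pool.Agent.A54.stmtTest : StmtTest := by
  intro V hV G G' g hG hG' hg hw hb φ hφ
  obtain ⟨χ, hχ, -, hχ1⟩ := exists_cutoff (K := tsupport φ) hφ.cpt hV hφ.sub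
  have hχt : Test V (fun z => (χ z : ℂ)) := hχ.toTest
  have hone : ∀ z ∈ tsupport φ, χ z = 1 := fun z hz => hχ1.self_of_nhdsSet z hz
  obtain ⟨C, hC⟩ := hb χ hχ
  -- the functions
  set F : ℂ → ℂ := fun z => φ z * g z with hFdef
  have hF : MemLp F 2 volume := memLp_mul hφ hg
  have hvi : ∀ i, MemLp (fun z => (χ z : ℂ) * G i z) 2 volume := fun i =>
    (hχt.smooth.continuous.mul (hG i)).memLp_of_hasCompactSupport hχt.cpt.mul_right
  have hv' : MemLp (fun z => (χ z : ℂ) * G' z) 2 volume := memLp_mul hχt hG'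
  have hsq : ∀ (H : ℂ → ℂ), (∫ z, ‖(χ z : ℂ) * H z‖ ^ 2) = ∫ z, χ z ^ 2 * ‖H z‖ ^ 2 := by
    intro H
    refine integral_congr_ae (Eventually.of_forall fun z => ?_)
    simp only [norm_mul, Complex.norm_real, Real.norm_eq_abs, mul_pow, sq_abs]
  -- the two ways to write the integrals
  have e1 : ∀ (H : ℂ → ℂ), (∫ z, φ z * (g z * H z)) = ∫ z, F z * ((χ z : ℂ) * H z) := by
    intro H
    refine integral_congr_ae (Eventually.of_forall fun z => ?_)
    simp only [hFdef]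
    by_cases hz : z ∈ tsupport φ
    · rw [hone z hz]; push_cast; ring
    · rw [image_eq_zero_of_notMem_tsupport hz]; ring
  rw [Metric.tendsto_atTop]
  intro ε hε
  set C' : ℝ := max (max C (∫ z, χ z ^ 2 * ‖G' z‖ ^ 2)) 0 with hC'
  have hC0 : 0 ≤ C' := le_max_right _ _
  have hC1 : ∀ i, ∫ z, χ z ^ 2 * ‖G i z‖ ^ 2 ≤ C' := fun i =>
    (hC i).trans ((le_max_left _ _).trans (le_max_left _ _))
  have hC2 : ∫ z, χ z ^ 2 * ‖G' z‖ ^ 2 ≤ C' := (le_max_right _ _).trans (le_max_left _ _)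
  set d : ℝ := ε / (4 * (C' + 1)) with hd
  have hd0 : 0 < d := by positivity
  have hdC : d / 2 * C' ≤ ε / 8 := by
    rw [hd, div_div, div_mul_eq_mul_div, div_le_div_iff₀ (by positivity) (by norm_num)]
    nlinarith
  set e : ℝ := Real.sqrt (d * ε / 4) with he
  have he0 : 0 < e := Real.sqrt_pos.2 (by positivity)
  have he2 : e ^ 2 = d * ε / 4 := Real.sq_sqrt (by positivity)
  obtain ⟨ψ, hψc, hψs, hψ⟩ := hF.exist_eLpNorm_sub_le (by norm_num) (by norm_num) he0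
  have hψm : MemLp ψ 2 volume := hψs.continuous.memLp_of_hasCompactSupport hψc
  have hu : MemLp (F - ψ) 2 volume := hF.sub hψm
  have hu2 : ∫ z, ‖(F - ψ) z‖ ^ 2 ≤ d * ε / 4 := by
    have := sq_integral_le hu he0.le hψ
    rwa [he2] at this
  -- the test function
  have hT : Test V (fun z => (χ z : ℂ) * ψ z) := hχt.mul_right hψs
  have key : ∀ (H : ℂ → ℂ), MemLp (fun z => (χ z : ℂ) * H z) 2 volume →
      ∫ z, χ z ^ 2 * ‖H z‖ ^ 2 ≤ C' →
      ‖(∫ z, φ z * (g z * H z)) - ∫ z, ((χ z : ℂ) * ψ z) * H z‖ ≤ ε / 4 := by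
    intro H hH hHC
    have e2 : (∫ z, ((χ z : ℂ) * ψ z) * H z) = ∫ z, ψ z * ((χ z : ℂ) * H z) :=
      integral_congr_ae (Eventually.of_forall fun z => by simp only []; ring)
    have i1 : Integrable (fun z => F z * ((χ z : ℂ) * H z)) := hF.integrable_mul hH
    have i2 : Integrable (fun z => ψ z * ((χ z : ℂ) * H z)) := hψm.integrable_mul hH
    have e3 : (∫ z, φ z * (g z * H z)) - ∫ z, ((χ z : ℂ) * ψ z) * H z =
        ∫ z, (F - ψ) z * ((χ z : ℂ) * H z) := by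
      rw [e1, e2, ← integral_sub i1 i2]
      refine integral_congr_ae (Eventually.of_forall fun z => ?_)
      simp only [Pi.sub_apply]; ring
    rw [e3]
    refine (cs hu hH hd0).trans ?_
    rw [hsq]
    have h1 : 1 / (2 * d) * (∫ z, ‖(F - ψ) z‖ ^ 2) ≤ ε / 8 := by
      calc 1 / (2 * d) * (∫ z, ‖(F - ψ) z‖ ^ 2) ≤ 1 / (2 * d) * (d * ε / 4) :=
            mul_le_mul_of_nonneg_left hu2 (by positivity)
        _ = ε / 8 := by field_simp; norm_num
    have h2 : d / 2 * (∫ z, χ z ^ 2 * ‖H z‖ ^ 2) ≤ ε / 8 :=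
      (mul_le_mul_of_nonneg_left hHC (by positivity)).trans hdC
    linarith
  obtain ⟨N, hN⟩ := (Metric.tendsto_atTop.1 (hw _ hT)) (ε / 4) (by positivity)
  refine ⟨N, fun n hn => ?_⟩
  have a1 := key (G n) (hvi n) (hC1 n)
  have a2 := key G' hv' hC2
  have a3 := hN n hn
  rw [dist_eq_norm] at a3 ⊢
  have e4 : (∫ z, φ z * (g z * G n z)) - ∫ z, φ z * (g z * G' z) =
      ((∫ z, φ z * (g z * G n z)) - ∫ z, ((χ z : ℂ) * ψ z) * G n z) +
      ((∫ z, ((χ z : ℂ) * ψ z) * G n z) - ∫ z, ((χ z : ℂ) * ψ z) * G' z) -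
      ((∫ z, φ z * (g z * G' z)) - ∫ z, ((χ z : ℂ) * ψ z) * G' z) := by ring
  rw [e4]
  refine (norm_sub_le _ _).trans_lt ?_
  have a4 := norm_add_le ((∫ z, φ z * (g z * G n z)) - ∫ z, ((χ z : ℂ) * ψ z) * G n z)
    ((∫ z, ((χ z : ℂ) * ψ z) * G n z) - ∫ z, ((χ z : ℂ) * ψ z) * G' z)
  linarith

end

end Pool.Agent.A54.Test
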