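import Pool.Agent.Lib.MP_a54f13_nt.Err
import Pool.Agent.Lib.MP_a54f13_nt.ErrZ
import Pool.Agent.Lib.MP_a54f13_nt.Cacc
import Pool.Agent.Lib.MP_a54f13_nt.Lady
import Pool.Agent.Lib.MP_a54f13_nt.L4
import Pool.Agent.Lib.MP_a54f13_nt.Four
import Pool.Agent.Lib.MP_a54f13_nt.Cubic
import Pool.Agent.Lib.MP_a54f13_nt.Half
import Pool.Agent.Lib.MP_a54f13_nt.IntLap
import Pool.Agent.Lib.MP_a54f13_nt.X
import Pool.Agent.Lib.MP_a54f13_nt.Test
import Pool.Agent.Lib.MP_a54f13_nt.DC2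
import Pool.Agent.Lib.MP_a54f13_nt.Weak2
import Pool.Agent.Lib.MP_a54f13_nt.Odd
import Pool.Agent.Lib.MP_a54f13_nt.Ineq
import Pool.Agent.Lib.MP_a54f13_nt.Comp
import Pool.Agent.Lib.MP_a54f13_nt.Half2
import Pool.Agent.Lib.MP_a54f13_nt.X2
import Pool.Agent.Lib.MP_a54f13_nt.Ratio
import Pool.Agent.Lib.MP_a54f13_nt.Loc

/-!
Assembly of the modules.
-/

set_option autoImplicit false

namespace Pool.Agent.A54

open MeasureTheory Filter Topology Set
open scoped ContDiff ComplexConjugate UpperHalfPlane MatrixGroups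

theorem pL4 : StmtL4 := stmtL4 stmtErr (stmtCacc stmtErr) stmtLady

theorem pErrZ : StmtErrZ := stmtErrZ stmtErr

theorem pWeak2 : StmtWeak2 := stmtWeak2 pErrZ (stmtCacc stmtErr)

theorem pRel : StmtRel := Rel.stmtRel pErrZ pL4 pWeak2 (stmtDC2 stmtFour stmtTest)

theorem pOdd : StmtOdd := stmtOdd pErrZ pL4

theorem pOddLim : StmtOddLim := stmtOddLim pWeak2

theorem pIneq : StmtIneq := stmtIneq pWeak2

theorem pLocGen : StmtLocGen := stmtLocGen pRel pOdd pOddLim stmtTest pL4 pWeak2 pIneq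

theorem pRatio : StmtRatio := stmtRatio pLocGen (stmtComp pL4) pIneq

theorem pLocEven : StmtLocEven := stmtLocEven pLocGen

theorem pLocCube : StmtLocCube := stmtLocCube pRel pOdd pOddLim (stmtCubic pErrZ pL4)

variable {f : ℕ → ℍ → ℝ} {t : ℕ → ℝ}

theorem finalGen (hf : ∀ i, IsHeckeMaass (f i) (t i)) (ht : Tendsto t atTop atTop)
    {ρ : ℕ → ℍ → ℂ} (hρ : ModeLim f t ρ) : FinalGen f ρ :=
  (stmtX2 f t hf).1 ρ hρ.1
    ((stmtHalf2 stmtInt stmtLap pLocGen pRatio f t hf ht).1 ρ hρ)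

theorem finalRatio (hf : ∀ i, IsHeckeMaass (f i) (t i)) (ht : Tendsto t atTop atTop) :
    FinalRatio f :=
  (stmtX2 f t hf).2 (stmtHalf2 stmtInt stmtLap pLocGen pRatio f t hf ht).2

theorem finalEven (hf : ∀ i, IsHeckeMaass (f i) (t i)) (ht : Tendsto t atTop atTop)
    (hm : MicroQUE f t) : FinalEven f :=
  (stmtX f t hf (stmtHalf stmtInt stmtLap pLocEven pLocCube f t hf ht hm).1
    (stmtHalf stmtInt stmtLap pLocEven pLocCube f t hf ht hm).2).1

theorem finalCube (hf : ∀ i, IsHeckeMaass (f i) (t i)) (ht : Tendsto t atTop atTop)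
    (hm : MicroQUE f t) : FinalCube f :=
  (stmtX f t hf (stmtHalf stmtInt stmtLap pLocEven pLocCube f t hf ht hm).1
    (stmtHalf stmtInt stmtLap pLocEven pLocCube f t hf ht hm).2).2

end Pool.Agent.A54
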