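import Pool.Agent.Lib.MP_a54f13_nt.Calc
import Pool.Agent.Lib.MP_a54f13_nt.Forms

/-!
The statements of the independent modules, as propositions.
-/

set_option autoImplicit false

namespace Pool.Agent.A54

open MeasureTheory Filter Topology Set
open scoped ContDiff ComplexConjugate UpperHalfPlane MatrixGroups

noncomputable section

/-! ### One solution -/

/-- error term: `D̄ g_{n+1} + q g_n` is small -/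
def StmtErr : Prop := ∀ (V : Set ℂ) (q : ℂ → ℝ), Pot V q → ∀ (n : ℕ) (K : Set ℂ), IsCompact K →
  K ⊆ V → ∃ C : ℝ, 0 ≤ C ∧ ∀ (h : ℝ) (f : ℂ → ℝ), Sol V q h f → ∀ z ∈ K,
    ‖(h : ℂ) * dzb (gg h f (n + 1)) z + (q z : ℂ) * gg h f n z‖ ≤
      h * (C * ∑ j ∈ Finset.range n, ‖gg h f j z‖)

/-- the relations `h ∂ s_a ≈ s_{a+1}`, `h ∂̄ s_a ≈ - q s_{a-1}` -/
def StmtErrZ : Prop := ∀ (V : Set ℂ) (q : ℂ → ℝ), Pot V q → ∀ (a : ℤ) (K : Set ℂ), IsCompact K →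
  K ⊆ V → ∃ C : ℝ, 0 ≤ C ∧ ∀ (h : ℝ) (f : ℂ → ℝ), Sol V q h f → ∀ z ∈ K,
    ‖(h : ℂ) * dz (ss q h f a) z - ss q h f (a + 1) z‖ ≤ h * (C * sm h f (a.natAbs + 1) z) ∧
    ‖(h : ℂ) * dzb (ss q h f a) z + (q z : ℂ) * ss q h f (a - 1) z‖ ≤
      h * (C * sm h f (a.natAbs + 1) z)

/-- weighted `L²` bounds; the weight `w` varies on the scale `h` -/
def StmtCacc : Prop := ∀ (V : Set ℂ) (q : ℂ → ℝ), Pot V q → ∀ (n : ℕ) (ζ : ℂ → ℝ), TestR V ζ →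
  ∃ (ζ' : ℂ → ℝ) (C : ℝ), TestR V ζ' ∧ 0 ≤ C ∧ ∀ (h : ℝ) (f w : ℂ → ℝ), Sol V q h f →
    ContDiff ℝ ∞ w → (∀ z, 0 < w z) → (∀ z, h * ‖fderiv ℝ w z‖ ≤ 4 * w z) →
    ∫ z, ζ z ^ 2 * w z ^ 2 * ‖gg h f n z‖ ^ 2 ≤ C * ∫ z, ζ' z ^ 2 * w z ^ 2 * f z ^ 2

/-- Ladyzhenskaya's inequality -/
def StmtLady : Prop := ∃ C : ℝ, 0 ≤ C ∧ ∀ v : ℂ → ℂ, ContDiff ℝ ∞ v → HasCompactSupport v →
  ∫ z, ‖v z‖ ^ 4 ≤ C * (∫ z, ‖v z‖ ^ 2) * ∫ z, ‖fderiv ℝ v z‖ ^ 2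

/-- local `L⁴` bounds -/
def StmtL4 : Prop := ∀ (V : Set ℂ) (q : ℂ → ℝ), Pot V q → ∀ (n : ℕ) (ζ : ℂ → ℝ), TestR V ζ →
  ∃ (ζ' : ℂ → ℝ) (C : ℝ), TestR V ζ' ∧ 0 ≤ C ∧ ∀ (h : ℝ) (f : ℂ → ℝ), Sol V q h f →
    ∫ z, ζ z ^ 4 * ‖gg h f n z‖ ^ 4 ≤ C * ∫ z, ζ' z ^ 4 * f z ^ 4

/-! ### Sequences -/

/-- a sequence of solutions with quantum unique ergodicity -/
structure Sq (V : Set ℂ) (q : ℂ → ℝ) (h : ℕ → ℝ) (f : ℕ → ℂ → ℝ) : Prop where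
  pot : Pot V q
  sol : ∀ i, Sol V q (h i) (f i)
  lim : Tendsto h atTop (𝓝 0)
  que : ∀ (n : ℕ) (φ : ℂ → ℂ), Test V φ →
    Tendsto (fun i => ∫ z, φ z * ((f i z : ℂ) * gg (h i) (f i) n z)) atTop
      (𝓝 (if n = 0 then ∫ z, φ z else 0))

/-- the fourth powers have bounded integrals over compact sets -/
def L4Bdd (V : Set ℂ) (f : ℕ → ℂ → ℝ) : Prop :=
  ∀ ζ : ℂ → ℝ, TestR V ζ → ∃ C : ℝ, ∀ i, ∫ z, ζ z ^ 4 * f i z ^ 4 ≤ C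

/-- weak limits of products -/
def StmtWeak : Prop := ∀ (V : Set ℂ) (q : ℂ → ℝ) (h : ℕ → ℝ) (f : ℕ → ℂ → ℝ), Sq V q h f →
  ∀ (a b : ℤ) (φ : ℂ → ℂ), Test V φ →
    Tendsto (fun i => ∫ z, φ z * (ss q (h i) (f i) a z * ss q (h i) (f i) b z)) atTop
      (𝓝 (if a + b = 0 then (-1) ^ b.natAbs * ∫ z, φ z else 0))

/-- the Fourier analytic core of the div-curl lemma -/
def StmtFour : Prop := ∀ (v w : ℕ → ℂ → ℂ),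
  (∀ i, ContDiff ℝ ∞ (v i) ∧ HasCompactSupport (v i)) →
  (∀ i, ContDiff ℝ ∞ (w i) ∧ HasCompactSupport (w i)) →
  (∀ κ : ℂ, Tendsto (fun i => FourierTransform.fourier (v i) κ) atTop (𝓝 0)) →
  (∀ κ : ℂ, Tendsto (fun i => FourierTransform.fourier (w i) κ) atTop (𝓝 0)) →
  (∃ C : ℝ, ∀ i, ∫ z, ‖v i z‖ ≤ C ∧ ∫ z, ‖w i z‖ ≤ C ∧ ∫ z, ‖v i z‖ ^ 2 ≤ C ∧
    ∫ z, ‖w i z‖ ^ 2 ≤ C ∧ ∫ z, ‖dzb (v i) z - dz (w i) z‖ ^ 2 ≤ C) →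
  Tendsto (fun i => (∫ z, ‖v i z‖ ^ 2) - ∫ z, ‖w i z‖ ^ 2) atTop (𝓝 0)

/-- the div-curl lemma -/
def StmtDC : Prop := ∀ (V : Set ℂ), IsOpen V → ∀ (G H : ℕ → ℂ → ℂ) (G' H' : ℂ → ℂ),
  (∀ i, ContDiff ℝ ∞ (G i)) → (∀ i, ContDiff ℝ ∞ (H i)) → ContDiff ℝ ∞ G' → ContDiff ℝ ∞ H' →
  (∀ φ, Test V φ → Tendsto (fun i => ∫ z, φ z * G i z) atTop (𝓝 (∫ z, φ z * G' z))) →
  (∀ φ, Test V φ → Tendsto (fun i => ∫ z, φ z * H i z) atTop (𝓝 (∫ z, φ z * H' z))) →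
  (∀ ζ, TestR V ζ → ∃ C : ℝ, ∀ i, ∫ z, ζ z ^ 2 * ‖G i z‖ ^ 2 ≤ C ∧
    ∫ z, ζ z ^ 2 * ‖H i z‖ ^ 2 ≤ C ∧ ∫ z, ζ z ^ 2 * ‖dzb (G i) z - dz (H i) z‖ ^ 2 ≤ C) →
  ∀ φ, TestR V φ →
    Tendsto (fun i => ∫ z, φ z * (‖G i z‖ ^ 2 - ‖H i z‖ ^ 2)) atTop
      (𝓝 (∫ z, φ z * (‖G' z‖ ^ 2 - ‖H' z‖ ^ 2)))

/-- cubic moments -/
def StmtCubic : Prop := ∀ (V : Set ℂ) (q : ℂ → ℝ) (h : ℕ → ℝ) (f : ℕ → ℂ → ℝ), Sq V q h f →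
  L4Bdd V f → ∀ (n : ℕ) (φ : ℂ → ℂ), Test V φ →
    Tendsto (fun i => (∫ z, φ z * (ss q (h i) (f i) 0 z * ss q (h i) (f i) n z *
        ss q (h i) (f i) (-n) z)) -
      (if 3 ∣ n then 1 else -(1 / 2 : ℂ)) * ∫ z, φ z * (f i z : ℂ) ^ 3) atTop (𝓝 0)

/-- even moments of local solutions -/
def StmtLocEven : Prop := ∀ (V : Set ℂ) (q : ℂ → ℝ) (h : ℕ → ℝ) (f : ℕ → ℂ → ℝ), Sq V q h f →
  ∀ φ : ℂ → ℝ, TestR V φ → (∀ z, 0 ≤ φ z) → ∀ k : ℕ, 2 ≤ k → ∀ ε : ℝ, 0 < ε →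
    ∀ᶠ i in atTop, 3 ^ (k - 1) * (∫ z, φ z) - ε ≤ ∫ z, φ z * f i z ^ (2 * k)

/-- third moment of local solutions -/
def StmtLocCube : Prop := ∀ (V : Set ℂ) (q : ℂ → ℝ) (h : ℕ → ℝ) (f : ℕ → ℂ → ℝ), Sq V q h f →
  L4Bdd V f → ∀ φ : ℂ → ℝ, TestR V φ →
    Tendsto (fun i => ∫ z, φ z * f i z ^ 3) atTop (𝓝 0)

/-! ### The upper half-plane -/

/-- even moments on the half-plane, against test functions on the half-plane -/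
def HalfEven (f : ℕ → ℍ → ℝ) : Prop := ∀ φ : ℂ → ℝ, TestR {z : ℂ | 0 < z.im} φ →
  (∀ z, 0 ≤ φ z) → ∀ k : ℕ, 2 ≤ k → ∀ ε : ℝ, 0 < ε →
    ∀ᶠ i in atTop, 3 ^ (k - 1) * (∫ z : ℍ, φ z) - ε ≤ ∫ z : ℍ, φ z * f i z ^ (2 * k)

/-- third moment on the half-plane, against test functions on the half-plane -/
def HalfCube (f : ℕ → ℍ → ℝ) : Prop :=
  (∀ K : Set ℍ, IsCompact K → ∃ C : ℝ, ∀ i, ∫ z in K, f i z ^ 4 ≤ C) →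
    ∀ φ : ℂ → ℝ, TestR {z : ℂ | 0 < z.im} φ →
      Tendsto (fun i => ∫ z : ℍ, φ z * f i z ^ 3) atTop (𝓝 0)

/-- integrals over the half-plane -/
def StmtInt : Prop :=
  (∀ F : ℂ → ℝ, (∀ z, z.im ≤ 0 → F z = 0) → ∫ z : ℍ, F z = ∫ z : ℂ, F z / z.im ^ 2) ∧
  (∀ F : ℂ → ℂ, (∀ z, z.im ≤ 0 → F z = 0) → ∫ z : ℍ, F z = ∫ z : ℂ, F z / (z.im : ℂ) ^ 2)

/-- the Laplacian is `∂̄ ∂` -/
def StmtLap : Prop := ∀ (U : Set ℂ) (F : ℂ → ℝ), IsOpen U → ContDiffOn ℝ ∞ F U → ∀ z ∈ U,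
  ((Laplacian.laplacian F z : ℝ) : ℂ) = dzb (dz (fun w => (F w : ℂ))) z

/-- from the local theorems to the half-plane -/
def StmtHalf : Prop := StmtLocEven → StmtLocCube → ∀ (f : ℕ → ℍ → ℝ) (t : ℕ → ℝ),
  (∀ i, IsHeckeMaass (f i) (t i)) → Tendsto t atTop atTop → MicroQUE f t →
    HalfEven f ∧ HalfCube f

/-- from the half-plane to the modular surface -/
def StmtX : Prop := ∀ (f : ℕ → ℍ → ℝ) (t : ℕ → ℝ), (∀ i, IsHeckeMaass (f i) (t i)) →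
  HalfEven f → HalfCube f → FinalEven f ∧ FinalCube f

end

end Pool.Agent.A54
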